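import Pool.Agent.H13.GG.BTG

set_option autoImplicit false

open MeasureTheory Filter ProbabilityTheory
open scoped Topology ENNReal

namespace Pool.Agent.H13.GG

open Pool.Agent.H50.BF (MM S_MERT)
open Pool.Agent.H50.GW (Rou GMod NN S_BTU S_LDU S_LDL)

theorem apg : S_BTU → S_NU → S_APG := by
  classical
  intro hB hN
  obtain ⟨C1, s0, hC1, hs0, hB⟩ := hB 2 (by norm_num)
  refine ⟨C1, s0, hC1, hs0, ?_⟩
  intro v h U p r hp hvp hU
  have hPV : 0 < PV v h := (hN.2.1 v h).1
  have hRHS : 0 ≤ C1 * ((((U / p : ℕ) : ℝ) + 1) * PV v h) := by positivity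
  rcases Finset.eq_empty_or_nonempty ((Finset.range U).filter (fun j =>
    (∀ q : ℕ, q.Prime → q ≤ v → ¬ Bd h q (j + 1)) ∧ (j + 1) % p = r)) with hemp | hne
  · rw [hemp]
    simpa using hRHS
  obtain ⟨j0, hj0, hmin⟩ : ∃ j0 ∈ (Finset.range U).filter (fun j =>
      (∀ q : ℕ, q.Prime → q ≤ v → ¬ Bd h q (j + 1)) ∧ (j + 1) % p = r),
      ∀ j ∈ (Finset.range U).filter (fun j =>
      (∀ q : ℕ, q.Prime → q ≤ v → ¬ Bd h q (j + 1)) ∧ (j + 1) % p = r), j0 ≤ j :=
    ⟨_, Finset.min'_mem _ hne, fun j hj => Finset.min'_le _ j hj⟩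
  obtain ⟨_, _, hj0r⟩ := Finset.mem_filter.1 hj0
  obtain ⟨Q, hQdef⟩ : ∃ Q : ℕ → ℕ → Prop, ∀ q l, Q q l ↔ (q.Prime ∧ q ≤ v ∧
    Bd h q ((j0 + 1) + p * l)) := ⟨_, fun _ _ => Iff.rfl⟩
  have hper : ∀ q l, Q q l ↔ Q q (l % q) := by
    intro q l
    simp only [hQdef]
    refine and_congr_right fun _ => and_congr_right fun _ => ?_
    apply BTGaux.bd_congr
    have : (j0 + 1) + p * l ≡ (j0 + 1) + p * (l % q) [MOD q] :=
      Nat.ModEq.add_left _ (Nat.ModEq.mul_left _ (Nat.mod_modEq l q).symm)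
    exact this
  have hcard : ∀ q : ℕ, q.Prime → q ≤ v → ((Finset.range q).filter (fun r => Q q r)).card =
      nu h q := by
    intro q hq hqv
    refine BTGaux.card_aff h (j0 + 1) p q hq ?_ (Q q) ?_
    · exact (Nat.coprime_primes hq hp).2 (by omega)
    · intro r
      simp only [hQdef, hq, hqv, true_and]
  have hcle : ∀ q : ℕ, q.Prime → ((Finset.range q).filter (fun r => Q q r)).card ≤ 2 := by
    intro q hq
    by_cases hqv : q ≤ v
    · rw [hcard q hq hqv]
      exact (hN.1 h q hq).2.1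
    · have : (Finset.range q).filter (fun r => Q q r) = ∅ := by
        refine Finset.filter_eq_empty_iff.2 fun r _ h => hqv ((hQdef _ _).1 h).2.1
      rw [this]
      simp
  have hmain := hB Q hper hcle v (U / p + 1) (by
    push_cast
    linarith)
  have hprod : ∏ q ∈ (Finset.Icc 1 v).filter Nat.Prime,
      (1 - (((Finset.range q).filter (fun r => Q q r)).card : ℝ) / q) = PV v h := by
    unfold PV
    refine Finset.prod_congr rfl fun q hq => ?_
    obtain ⟨hq1, hq2⟩ := Finset.mem_filter.1 hq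
    rw [hcard q hq2 (Finset.mem_Icc.1 hq1).2]
  rw [hprod] at hmain
  have hsub : (Finset.range U).filter (fun j =>
      (∀ q : ℕ, q.Prime → q ≤ v → ¬ Bd h q (j + 1)) ∧ (j + 1) % p = r) ⊆
      ((Finset.range (U / p + 1)).filter (fun j => ∀ q : ℕ, q.Prime → q ≤ v → ¬ Q q j)).image
        (fun l => j0 + p * l) := by
    intro j hj
    have hjm := hmin j hj
    obtain ⟨hjU, hjR, hjr⟩ := Finset.mem_filter.1 hj
    rw [Finset.mem_range] at hjU
    have h1 : j0 + 1 ≡ j + 1 [MOD p] := by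
      rw [Nat.ModEq, hj0r, hjr]
    have h2 : p ∣ (j + 1) - (j0 + 1) := (Nat.modEq_iff_dvd' (by omega)).1 h1
    obtain ⟨l, hl⟩ := h2
    have hjl : j = j0 + p * l := by omega
    refine Finset.mem_image.2 ⟨l, Finset.mem_filter.2 ⟨?_, ?_⟩, hjl.symm⟩
    · rw [Finset.mem_range]
      have : l ≤ U / p := by
        rw [Nat.le_div_iff_mul_le hp.pos]
        nlinarith
      omega
    · intro q hq hqv hQ
      obtain ⟨_, _, hi⟩ := (hQdef _ _).1 hQ
      refine hjR q hq hqv ?_
      have : j + 1 = (j0 + 1) + p * l := by omega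
      rw [this]
      exact hi
  have hle : (((Finset.range U).filter (fun j =>
      (∀ q : ℕ, q.Prime → q ≤ v → ¬ Bd h q (j + 1)) ∧ (j + 1) % p = r)).card : ℝ) ≤
      (((Finset.range (U / p + 1)).filter
        (fun j => ∀ q : ℕ, q.Prime → q ≤ v → ¬ Q q j)).card : ℝ) := by
    exact_mod_cast (Finset.card_le_card hsub).trans Finset.card_image_le
  refine hle.trans (hmain.trans (le_of_eq ?_))
  push_cast
  ring

end Pool.Agent.H13.GG
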