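import Pool.Agent.H13.GG.Stm

set_option autoImplicit false

open MeasureTheory Filter ProbabilityTheory
open scoped Topology ENNReal

namespace Pool.Agent.H13.GG

open Pool.Agent.H50.BF (MM S_MERT)
open Pool.Agent.H50.GW (Rou GMod NN S_BTU S_LDU S_LDL)

namespace BTGaux

theorem bd_congr (h : ℕ) {p j j' : ℕ} (hj : j % p = j' % p) : Bd h p j ↔ Bd h p j' := by
  unfold Bd
  have h1 : h + j ≡ h + j' [MOD p] := Nat.ModEq.add_left _ hj
  rw [h1.dvd_iff dvd_rfl, hj]

theorem card_aff (h m p q : ℕ) (hq : q.Prime) (hcop : Nat.gcd q p = 1) (Q : ℕ → Prop)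
    [DecidablePred Q] (hQ : ∀ r, Q r ↔ Bd h q (m + p * r)) :
    ((Finset.range q).filter (fun r => Q r)).card = nu h q := by
  classical
  have hinj : Set.InjOn (fun r => (m + p * r) % q) ((Finset.range q : Finset ℕ) : Set ℕ) := by
    intro a ha b hb hab
    have ha' : a < q := by simpa using ha
    have hb' : b < q := by simpa using hb
    have h1 : m + p * a ≡ m + p * b [MOD q] := hab
    have h2 : p * a ≡ p * b [MOD q] := Nat.ModEq.add_left_cancel' _ h1
    have h3 : a ≡ b [MOD q] := Nat.ModEq.cancel_left_of_coprime hcop h2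
    exact Nat.ModEq.eq_of_lt_of_lt h3 ha' hb'
  have himg : (Finset.range q).image (fun r => (m + p * r) % q) = Finset.range q := by
    refine Finset.eq_of_subset_of_card_le ?_ ?_
    · intro x hx
      obtain ⟨r, _, rfl⟩ := Finset.mem_image.1 hx
      exact Finset.mem_range.2 (Nat.mod_lt _ hq.pos)
    · rw [Finset.card_image_of_injOn hinj]
  unfold nu
  have h2 : (Finset.range q).filter (fun r => Bd h q r) =
      ((Finset.range q).filter (fun r => Q r)).image (fun r => (m + p * r) % q) := by
    conv_lhs => rw [← himg]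
    rw [Finset.filter_image]
    congr 1
    refine Finset.filter_congr fun r _ => ?_
    rw [hQ]
    exact bd_congr h (Nat.mod_mod _ _)
  rw [h2, Finset.card_image_of_injOn]
  exact hinj.mono (Finset.coe_subset.2 (Finset.filter_subset _ _))

end BTGaux

theorem btg : S_BTU → S_NU → S_BTG := by
  classical
  intro hB hN
  obtain ⟨C, s0, hC, hs0, hB⟩ := hB 2 (by norm_num)
  refine ⟨C, s0, hC, hs0, fun v h a U hU => ?_⟩
  have hcard : ∀ q : ℕ, q.Prime → ((Finset.range q).filter (fun r => Bd h q (a + r + 1))).card =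
      nu h q := by
    intro q hq
    exact BTGaux.card_aff h (a + 1) 1 q hq (Nat.gcd_one_right q) _
      (fun r => by rw [show a + r + 1 = a + 1 + 1 * r by ring])
  have h1 := hB (fun q r => Bd h q (a + r + 1)) (by
    intro q n
    apply BTGaux.bd_congr
    show (a + n + 1) % q = (a + n % q + 1) % q
    have : a + n + 1 ≡ a + n % q + 1 [MOD q] :=
      (Nat.ModEq.add_left _ (Nat.mod_modEq n q).symm).add_right _
    exact this) (by
    intro q hq
    rw [show ((Finset.range q).filter (fun r => Bd h q (a + r + 1))).card = nu h q from hcard q hq]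
    exact (hN.1 h q hq).2.1) v U hU
  have hprod : ∏ q ∈ (Finset.Icc 1 v).filter Nat.Prime,
      (1 - (((Finset.range q).filter (fun r => Bd h q (a + r + 1))).card : ℝ) / q) = PV v h := by
    unfold PV
    refine Finset.prod_congr rfl fun q hq => ?_
    rw [hcard q (Finset.mem_filter.1 hq).2]
  rw [← hprod]
  refine le_trans (le_of_eq ?_) h1
  unfold sg
  congr

end Pool.Agent.H13.GG
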