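import Pool.Agent.H13.GG.Stm
import Pool.Agent.H50.GW.EXPW

set_option autoImplicit false

open MeasureTheory Filter ProbabilityTheory
open scoped Topology ENNReal

namespace Pool.Agent.H13.GG

open Pool.Agent.H50.BF (MM S_MERT MM_pos MM_mono)
open Pool.Agent.H50.GW (Rou GMod NN S_BTU S_LDU S_LDL)

namespace EPGaux

open Pool.Agent.H50.GW.EXPWaux

theorem bd_rou {v h j : ℕ} (hj : j + 1 ≤ h) : (∀ p : ℕ, p.Prime → p ≤ v → ¬ Bd h p (j + 1)) ↔
    Rou v (h - (j + 1)) ∧ Rou v (h + (j + 1)) := by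
  unfold Bd Rou
  constructor
  · intro H
    refine ⟨fun p hp hpv hd => H p hp hpv (Or.inr ?_), fun p hp hpv hd => H p hp hpv (Or.inl hd)⟩
    exact (Nat.modEq_iff_dvd' hj).2 hd
  · rintro ⟨h1, h2⟩ p hp hpv (hd | hd)
    · exact h2 p hp hpv hd
    · exact h1 p hp hpv ((Nat.modEq_iff_dvd' hj).1 hd)

theorem tdiv : Tendsto (fun h : ℕ => h / 2) atTop atTop := by
  refine tendsto_atTop.2 fun b => ?_
  filter_upwards [eventually_ge_atTop (2 * b)] with h hh
  omega

section prob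

variable {Ω : Type} [MeasurableSpace Ω] {P : Measure Ω} {A : ℕ → Set Ω} {z : ℕ → ℕ}

open Classical in
theorem sum_range_g (hIPG : S_IPG) (hMERT : S_MERT) (hM : GMod P A z) {δ : ℝ} (hδ : 0 < δ)
    (hδ1 : δ ≤ 1) : ∀ᶠ h : ℕ in atTop, ∀ U : ℕ, 2 * U ≤ h →
      (1 - δ) * (sg (z (4 * (h / 2))) h 0 U : ℝ) ≤
        (∑ j ∈ Finset.range U, (P (PH A h j)).toReal) *
          (Real.log ((h / 2 : ℕ) : ℝ) / MM (z (h / 2))) ^ 2 ∧
      (∑ j ∈ Finset.range U, (P (PH A h j)).toReal) *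
          (Real.log ((h / 2 : ℕ) : ℝ) / MM (z (h / 2))) ^ 2 ≤
        (1 + δ) * (sg (z (h / 2)) h 0 U : ℝ) := by
  obtain ⟨e, he⟩ : ∃ e : ℝ, e = δ / 3 ^ 2 := ⟨_, rfl⟩
  have he0 : 0 < e := by rw [he]; positivity
  have he1 : e ≤ 1 := by
    rw [he, div_le_one (by positivity)]; linarith
  have he2 : 3 ^ 2 * e = δ := by rw [he]; field_simp
  filter_upwards [tdiv.eventually (prob_range hMERT hM (B := 4) (by norm_num) he0),
    eventually_ge_atTop 8, tdiv.eventually (tlog.eventually_ge_atTop 1)] with h h1 h8 hL U hU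
  obtain ⟨n, hn⟩ : ∃ n, n = h / 2 := ⟨_, rfl⟩
  rw [← hn] at h1 hL ⊢
  have m0 := MM_pos (z n)
  have hL0 : 0 < Real.log n := by linarith
  have hip := (hIPG Ω P A z hM h U (by omega)).2
  have key : ∀ j ∈ Finset.range U,
      (1 - δ) * (if ∀ p : ℕ, p.Prime → p ≤ z (4 * n) → ¬ Bd h p (0 + j + 1) then (1 : ℝ) else 0) ≤
        (P (PH A h j)).toReal * (Real.log n / MM (z n)) ^ 2 ∧
      (P (PH A h j)).toReal * (Real.log n / MM (z n)) ^ 2 ≤
        (1 + δ) * (if ∀ p : ℕ, p.Prime → p ≤ z n → ¬ Bd h p (0 + j + 1) then (1 : ℝ) else 0) := by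
    intro j hj
    rw [Finset.mem_range] at hj
    rw [zero_add]
    have hjh : j + 1 ≤ h := by omega
    rw [bd_rou hjh, bd_rou hjh]
    have a1 : n ≤ h - (j + 1) := by omega
    have a2 : h - (j + 1) ≤ 4 * n := by omega
    have b1 : n ≤ h + (j + 1) := by omega
    have b2 : h + (j + 1) ≤ 4 * n := by omega
    rw [hip j hj, ENNReal.toReal_mul]
    by_cases hall : Rou (z (h - (j + 1))) (h - (j + 1)) ∧ Rou (z (h + (j + 1))) (h + (j + 1))
    · obtain ⟨p1, p2⟩ := h1 _ a1 a2 hall.1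
      obtain ⟨q1, q2⟩ := h1 _ b1 b2 hall.2
      have hall' : Rou (z n) (h - (j + 1)) ∧ Rou (z n) (h + (j + 1)) :=
        ⟨rou_mono (hM.mono a1) hall.1, rou_mono (hM.mono b1) hall.2⟩
      rw [if_pos hall', mul_one]
      have e1 : (P (A (h - (j + 1)))).toReal * (P (A (h + (j + 1)))).toReal *
          (Real.log n / MM (z n)) ^ 2 =
          ((P (A (h - (j + 1)))).toReal * (Real.log n / MM (z n))) *
          ((P (A (h + (j + 1)))).toReal * (Real.log n / MM (z n))) := by ring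
      rw [e1]
      have hlo : 1 - δ ≤ ((P (A (h - (j + 1)))).toReal * (Real.log n / MM (z n))) *
          ((P (A (h + (j + 1)))).toReal * (Real.log n / MM (z n))) := by
        calc 1 - δ = 1 - 3 ^ 2 * e := by rw [he2]
          _ ≤ (1 - e) ^ 2 := pow_dn 2 he0.le he1
          _ = (1 - e) * (1 - e) := by ring
          _ ≤ _ := mul_le_mul p1 q1 (by linarith) (by linarith)
      have hhi : ((P (A (h - (j + 1)))).toReal * (Real.log n / MM (z n))) *
          ((P (A (h + (j + 1)))).toReal * (Real.log n / MM (z n))) ≤ 1 + δ := by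
        calc _ ≤ (1 + e) * (1 + e) := mul_le_mul p2 q2 (by positivity) (by positivity)
          _ = (1 + e) ^ 2 := by ring
          _ ≤ 1 + 3 ^ 2 * e := pow_up 2 he0.le he1
          _ = 1 + δ := by rw [he2]
      refine ⟨?_, hhi⟩
      split_ifs
      · rw [mul_one]; exact hlo
      · rw [mul_zero]; linarith
    · have hnot : ¬ (Rou (z (4 * n)) (h - (j + 1)) ∧ Rou (z (4 * n)) (h + (j + 1))) :=
        fun H => hall ⟨rou_mono (hM.mono a2) H.1, rou_mono (hM.mono b2) H.2⟩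
      rw [if_neg hnot, mul_zero]
      have hz : (P (A (h - (j + 1)))).toReal * (P (A (h + (j + 1)))).toReal = 0 := by
        rw [not_and_or] at hall
        rcases hall with hi | hi
        · rw [hM.empty _ hi]; simp
        · rw [hM.empty _ hi]; simp
      rw [hz, zero_mul]
      refine ⟨le_rfl, ?_⟩
      split_ifs
      · linarith
      · simp
  have hsg : ∀ v : ℕ, (sg v h 0 U : ℝ) = ∑ j ∈ Finset.range U,
      (if ∀ p : ℕ, p.Prime → p ≤ v → ¬ Bd h p (0 + j + 1) then (1 : ℝ) else 0) := by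
    intro v
    unfold sg
    rw [Finset.card_filter]
    push_cast
    rfl
  rw [hsg, hsg, Finset.mul_sum, Finset.mul_sum, Finset.sum_mul]
  exact ⟨Finset.sum_le_sum fun j hj => (key j hj).1, Finset.sum_le_sum fun j hj => (key j hj).2⟩

end prob

/-- `MM v` is small -/
theorem MM_small (hMERT : S_MERT) {C : ℝ} (hC : 0 < C) : ∀ᶠ L : ℝ in atTop,
    ∀ v : ℕ, (v : ℝ) ≤ L ^ 2 → MM v ≤ L / C := by
  obtain ⟨K, hK⟩ : ∃ K : ℝ, K = Real.exp Real.eulerMascheroniConstant + 1 := ⟨_, rfl⟩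
  have hK0 : 0 < K := by rw [hK]; positivity
  have hsq : Tendsto (fun L : ℝ => L ^ 2) atTop atTop := tendsto_pow_atTop (by norm_num)
  have hV : Tendsto (fun L : ℝ => ⌊L ^ 2⌋₊) atTop atTop := tendsto_nat_floor_atTop.comp hsq
  have h1 : ∀ᶠ L : ℝ in atTop, MM ⌊L ^ 2⌋₊ / Real.log (⌊L ^ 2⌋₊ : ℝ) ≤ K := by
    have h := hMERT.eventually_le_const (show Real.exp Real.eulerMascheroniConstant < K by
      rw [hK]; linarith)
    exact hV.eventually h
  have h2 : ∀ᶠ L : ℝ in atTop, ‖Real.log L‖ ≤ 1 / (2 * K * C) * ‖L‖ :=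
    Real.isLittleO_log_id_atTop.bound (by positivity)
  filter_upwards [h1, h2, hV.eventually_ge_atTop 2, eventually_ge_atTop 2] with L g1 g2 g3 g4 v hv
  have g3' : (2 : ℝ) ≤ (⌊L ^ 2⌋₊ : ℝ) := by exact_mod_cast g3
  have hl : 0 < Real.log (⌊L ^ 2⌋₊ : ℝ) := Real.log_pos (by linarith)
  rw [div_le_iff₀ hl] at g1
  have g5 : Real.log (⌊L ^ 2⌋₊ : ℝ) ≤ 2 * Real.log L := by
    have : Real.log (⌊L ^ 2⌋₊ : ℝ) ≤ Real.log (L ^ 2) :=
      Real.log_le_log (by linarith) (Nat.floor_le (by positivity))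
    rwa [Real.log_pow, Nat.cast_ofNat] at this
  have g6 : 0 ≤ Real.log L := Real.log_nonneg (by linarith)
  rw [Real.norm_of_nonneg g6, Real.norm_of_nonneg (by linarith)] at g2
  have g7 : v ≤ ⌊L ^ 2⌋₊ := Nat.le_floor hv
  calc MM v ≤ MM ⌊L ^ 2⌋₊ := MM_mono g7
    _ ≤ K * Real.log (⌊L ^ 2⌋₊ : ℝ) := g1
    _ ≤ K * (2 * (1 / (2 * K * C) * L)) := by
        have := g5.trans (mul_le_mul_of_nonneg_left g2 (by norm_num : (0 : ℝ) ≤ 2))
        exact mul_le_mul_of_nonneg_left this hK0.le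
    _ = L / C := by field_simp

/-- comparison of `log (h / 2)` and `log h` -/
theorem log_half {η : ℝ} (hη : 0 < η) (hη1 : η ≤ 1) : ∀ᶠ h : ℕ in atTop,
    Real.log h ^ (1 - η) ≤ Real.log ((h / 2 : ℕ) : ℝ) ^ (1 - η / 2) := by
  have h1 : Tendsto (fun n : ℕ => Real.log n ^ (η / 2)) atTop atTop :=
    (tendsto_rpow_atTop (by positivity)).comp tlog
  filter_upwards [h1.eventually_ge_atTop 2, tlog.eventually_ge_atTop (2 * Real.log 4),
    tlog.eventually_ge_atTop 2, eventually_ge_atTop 4] with h g1 g2 g3 g4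
  have h0 : (0 : ℝ) < h := by
    have : 0 < h := by omega
    exact_mod_cast this
  have a1 : Real.log h / 2 ≤ Real.log ((h / 2 : ℕ) : ℝ) := by
    have a2 : (h : ℝ) / 4 ≤ ((h / 2 : ℕ) : ℝ) := by
      have : h ≤ 4 * (h / 2) := by omega
      have : (h : ℝ) ≤ 4 * ((h / 2 : ℕ) : ℝ) := by exact_mod_cast this
      linarith
    have a3 : Real.log ((h : ℝ) / 4) ≤ Real.log ((h / 2 : ℕ) : ℝ) :=
      Real.log_le_log (by positivity) a2
    rw [Real.log_div h0.ne' (by norm_num)] at a3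
    linarith
  generalize Real.log (h : ℝ) = L at *
  have hL0 : 0 < L := by linarith
  calc L ^ (1 - η) ≤ L ^ (1 - η) * (L ^ (η / 2) / 2) := by
        have : 1 ≤ L ^ (η / 2) / 2 := by linarith
        exact le_mul_of_one_le_right (by positivity) this
    _ = L ^ (1 - η / 2) / 2 := by
        rw [mul_div_assoc', ← Real.rpow_add hL0]
        congr 2; ring
    _ ≤ L ^ (1 - η / 2) / 2 ^ (1 - η / 2) := by
        apply div_le_div_of_nonneg_left (by positivity) (by positivity)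
        calc (2 : ℝ) ^ (1 - η / 2) ≤ 2 ^ (1 : ℝ) :=
              Real.rpow_le_rpow_of_exponent_le (by norm_num) (by linarith)
          _ = 2 := Real.rpow_one 2
    _ = (L / 2) ^ (1 - η / 2) := by rw [Real.div_rpow hL0.le (by norm_num)]
    _ ≤ _ := Real.rpow_le_rpow (by positivity) a1 (by linarith)

/-- the final estimate -/
theorem fin_est_g {S L l M M' U T T1 T2 u D D1 D2 s1 s2 δ a C C2 e : ℝ} (hl : 0 < l) (hlL : l ≤ L)
    (hM : 0 < M) (hM' : 0 < M') (hU : 0 < U) (hT : 0 < T) (hu : u = U * T / L ^ 3) (huC : u ≤ C)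
    (hC : 0 < C) (hs1 : s1 = D1 * (U * (T1 / M ^ 2))) (hs2 : s2 = D2 * (U * (T2 / M' ^ 2)))
    (h10 : 0 ≤ D1) (h20 : 0 ≤ D2) (h1C : D1 ≤ C2) (h2C : D2 ≤ C2) (hδ : 0 ≤ δ) (hδ1 : δ ≤ 1)
    (ha : 0 ≤ a) (ha1 : a ≤ 1)
    (hlo : (1 - δ) * s2 ≤ S * (l / M) ^ 2) (hhi : S * (l / M) ^ 2 ≤ (1 + δ) * s1)
    (hr : 1 - δ ≤ (M / M') ^ 2) (hLl : (L / l) ^ 2 ≤ 1 + δ) (hT1 : T1 ≤ (1 + a) * T)
    (hT2 : (1 - a) * T ≤ T2) (he1 : |D1 - D| ≤ e) (he2 : |D2 - D| ≤ e) :
    |S / L - u * D| ≤ C * (e + C2 * (6 * δ + a)) := by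
  have hL : 0 < L := lt_of_lt_of_le hl hlL
  have hu0 : 0 < u := by rw [hu]; positivity
  have hC2 : 0 ≤ C2 := h10.trans h1C
  have e0 : S / L = S * (l / M) ^ 2 * (M ^ 2 / l ^ 2 / L) := by
    field_simp
  have hf : 0 ≤ M ^ 2 / l ^ 2 / L := by positivity
  have up : S / L ≤ (1 + δ) * (1 + δ) * (1 + a) * D1 * u := by
    rw [e0]
    calc S * (l / M) ^ 2 * (M ^ 2 / l ^ 2 / L) ≤ (1 + δ) * s1 * (M ^ 2 / l ^ 2 / L) :=
          mul_le_mul_of_nonneg_right hhi hf
      _ = (1 + δ) * D1 * U * T1 * (L / l) ^ 2 / L ^ 3 := by rw [hs1]; field_simp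
      _ ≤ (1 + δ) * D1 * U * ((1 + a) * T) * (1 + δ) / L ^ 3 := by
          have h1 : (1 + δ) * D1 * U * T1 * (L / l) ^ 2 ≤
              (1 + δ) * D1 * U * ((1 + a) * T) * (L / l) ^ 2 := by
            apply mul_le_mul_of_nonneg_right _ (by positivity)
            exact mul_le_mul_of_nonneg_left hT1 (by positivity)
          have h2 : (1 + δ) * D1 * U * ((1 + a) * T) * (L / l) ^ 2 ≤
              (1 + δ) * D1 * U * ((1 + a) * T) * (1 + δ) :=
            mul_le_mul_of_nonneg_left hLl (by positivity)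
          exact div_le_div_of_nonneg_right (h1.trans h2) (by positivity)
      _ = (1 + δ) * (1 + δ) * (1 + a) * D1 * u := by rw [hu]; ring
  have dn : (1 - δ) * (1 - δ) * (1 - a) * D2 * u ≤ S / L := by
    rw [e0]
    have d0 : 0 ≤ 1 - δ := by linarith
    have a0 : 0 ≤ 1 - a := by linarith
    have hLl1 : 1 ≤ (L / l) ^ 2 := by
      have : 1 ≤ L / l := by rw [one_le_div hl]; exact hlL
      exact one_le_pow₀ this
    calc (1 - δ) * (1 - δ) * (1 - a) * D2 * u
        = (1 - δ) * D2 * U * ((1 - a) * T) * (1 - δ) * 1 / L ^ 3 := by rw [hu]; ring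
      _ ≤ (1 - δ) * D2 * U * T2 * (M / M') ^ 2 * (L / l) ^ 2 / L ^ 3 := by
          have h0 : 0 ≤ (1 - δ) * D2 * U := by positivity
          have h1 : (1 - δ) * D2 * U * ((1 - a) * T) ≤ (1 - δ) * D2 * U * T2 :=
            mul_le_mul_of_nonneg_left hT2 h0
          have h1' : 0 ≤ (1 - δ) * D2 * U * ((1 - a) * T) := by positivity
          have h2 : (1 - δ) * D2 * U * ((1 - a) * T) * (1 - δ) ≤
              (1 - δ) * D2 * U * T2 * (M / M') ^ 2 :=
            mul_le_mul h1 hr d0 (h1'.trans h1)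
          have h3 : (1 - δ) * D2 * U * ((1 - a) * T) * (1 - δ) * 1 ≤
              (1 - δ) * D2 * U * T2 * (M / M') ^ 2 * (L / l) ^ 2 :=
            mul_le_mul h2 hLl1 (by norm_num) (le_trans (by positivity) h2)
          exact div_le_div_of_nonneg_right h3 (by positivity)
      _ = (1 - δ) * s2 * (M ^ 2 / l ^ 2 / L) := by rw [hs2]; field_simp
      _ ≤ S * (l / M) ^ 2 * (M ^ 2 / l ^ 2 / L) := mul_le_mul_of_nonneg_right hlo hf
  have a1 := abs_le.1 he1
  have a2 := abs_le.1 he2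
  have he : 0 ≤ e := (abs_nonneg _).trans he1
  have hda : 0 ≤ δ * a := mul_nonneg hδ ha
  have hda1 : δ * a ≤ δ := by nlinarith
  have hdd : δ * δ ≤ δ := by nlinarith
  have hdd0 : 0 ≤ δ * δ := mul_nonneg hδ hδ
  have hdda : δ * δ * a ≤ δ := by
    calc δ * δ * a ≤ δ * 1 := by nlinarith
      _ = δ := mul_one δ
  have hdda0 : 0 ≤ δ * δ * a := by positivity
  have q1 : (1 + δ) * (1 + δ) * (1 + a) ≤ 1 + (6 * δ + a) := by nlinarith
  have q2 : 1 - (6 * δ + a) ≤ (1 - δ) * (1 - δ) * (1 - a) := by nlinarith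
  obtain ⟨x, hx⟩ : ∃ x, x = 6 * δ + a := ⟨_, rfl⟩
  rw [← hx] at q1 q2 ⊢
  have hx0 : 0 ≤ x := by rw [hx]; positivity
  have hxC : 0 ≤ C2 * x := mul_nonneg hC2 hx0
  rw [abs_le]
  constructor
  · have h1 : -(e + C2 * x) ≤ (1 - δ) * (1 - δ) * (1 - a) * D2 - D := by
      have h2 : (1 - x) * D2 ≤ (1 - δ) * (1 - δ) * (1 - a) * D2 :=
        mul_le_mul_of_nonneg_right q2 h20
      have h4 : x * D2 ≤ C2 * x := by
        rw [mul_comm C2]; exact mul_le_mul_of_nonneg_left h2C hx0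
      nlinarith
    have h2 : C * (-(e + C2 * x)) ≤ u * (-(e + C2 * x)) := by
      have : 0 ≤ e + C2 * x := by positivity
      nlinarith
    have h3 : u * (-(e + C2 * x)) ≤ u * ((1 - δ) * (1 - δ) * (1 - a) * D2 - D) :=
      mul_le_mul_of_nonneg_left h1 hu0.le
    nlinarith
  · have h1 : (1 + δ) * (1 + δ) * (1 + a) * D1 - D ≤ e + C2 * x := by
      have h2 : (1 + δ) * (1 + δ) * (1 + a) * D1 ≤ (1 + x) * D1 :=
        mul_le_mul_of_nonneg_right q1 h10
      have h4 : x * D1 ≤ C2 * x := by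
        rw [mul_comm C2]; exact mul_le_mul_of_nonneg_left h1C hx0
      nlinarith
    have h3 : u * ((1 + δ) * (1 + δ) * (1 + a) * D1 - D) ≤ u * (e + C2 * x) :=
      mul_le_mul_of_nonneg_left h1 hu0.le
    have h2 : u * (e + C2 * x) ≤ C * (e + C2 * x) := by
      have : 0 ≤ e + C2 * x := by positivity
      exact mul_le_mul_of_nonneg_right huC this
    nlinarith

end EPGaux

open EPGaux Pool.Agent.H50.GW.EXPWaux in
theorem epg : S_IPG → S_TRG → S_SBG → S_NU → S_SST → S_MERT → S_EPG := by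
  intro hIPG hTRG hSBG hNU hSST hMERT Ω _ P A z hM C ε hC hε
  obtain ⟨C1, hC1, hT⟩ := hTRG
  obtain ⟨C2, hC2, hB2⟩ := hSBG
  obtain ⟨C3, hC3, hS3⟩ := hSST
  have hC0 : 0 < C := by linarith
  obtain ⟨η, hη⟩ : ∃ η : ℝ, η = min (1 / 2) (min (1 / C3) (ε / (2 * C * (C1 + C2 * C3)))) := ⟨_, rfl⟩
  have hη0 : 0 < η := by rw [hη]; positivity
  have hη1 : η ≤ 1 / 2 := by rw [hη]; exact min_le_left _ _
  have hη3 : C3 * η ≤ 1 := by
    have : η ≤ 1 / C3 := by rw [hη]; exact (min_le_right _ _).trans (min_le_left _ _)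
    calc C3 * η ≤ C3 * (1 / C3) := mul_le_mul_of_nonneg_left this hC3.le
      _ = 1 := by field_simp
  have hη2 : C * ((C1 + C2 * C3) * η) ≤ ε / 2 := by
    have : η ≤ ε / (2 * C * (C1 + C2 * C3)) := by
      rw [hη]; exact (min_le_right _ _).trans (min_le_right _ _)
    calc C * ((C1 + C2 * C3) * η) ≤ C * ((C1 + C2 * C3) * (ε / (2 * C * (C1 + C2 * C3)))) := by
          gcongr
      _ = ε / 2 := by field_simp
  obtain ⟨δ, hδ⟩ : ∃ δ : ℝ, δ = min 1 (ε / (12 * C * C2)) := ⟨_, rfl⟩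
  have hδ0 : 0 < δ := by rw [hδ]; positivity
  have hδ1 : δ ≤ 1 := by rw [hδ]; exact min_le_left _ _
  have hδ2 : C * (C2 * (6 * δ)) ≤ ε / 2 := by
    have : δ ≤ ε / (12 * C * C2) := by rw [hδ]; exact min_le_right _ _
    calc C * (C2 * (6 * δ)) ≤ C * (C2 * (6 * (ε / (12 * C * C2)))) := by gcongr
      _ = ε / 2 := by field_simp; norm_num
  refine ⟨η / 2, by positivity, by linarith, ?_⟩
  -- limits along `h / 2`
  have hrat : Tendsto (fun n : ℕ => (MM (z n) / MM (z (4 * n))) ^ 2) atTop (𝓝 1) := by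
    have h1 := ((MM_ratio hMERT hM.lev (B := 4) (by norm_num)).inv₀ one_ne_zero).pow 2
    rw [inv_one, one_pow] at h1
    refine h1.congr fun n => ?_
    rw [inv_div]
  have hlog4 : Tendsto (fun n : ℕ => (Real.log ((4 * n : ℕ) : ℝ) / Real.log n) ^ 2) atTop (𝓝 1) := by
    have h1 := (log_B (B := 4) (by norm_num)).pow 2
    rw [one_pow] at h1
    exact h1
  have hps := eventually_forall_ge_atTop.2 (prob_small hMERT hM hε)
  have hz1 := z_range hM.lev (B := 1) le_rfl (η := η / 4) (by positivity)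
  have hz2 := z_range hM.lev (B := 4) (by norm_num) (η := η / 4) (by positivity)
  filter_upwards [sum_range_g hIPG hMERT hM hδ0 hδ1, w_range 2 (by norm_num) (le_refl (1 : ℝ)) hη0 hη1,
    (w_tendsto (le_refl (1 : ℝ))).eventually (hT η hη0 hη1),
    (w_tendsto (le_refl (1 : ℝ))).eventually (hB2 1 one_pos le_rfl),
    (w_tendsto (le_refl (1 : ℝ))).eventually (hS3 η hη0 hη1),
    tdiv.eventually hz1, tdiv.eventually hz2, U_small 2 (4 * C), tlog.eventually_ge_atTop 1,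
    eventually_ge_atTop 8, tdiv.eventually (hrat.eventually_const_le (show 1 - δ < 1 by linarith)),
    tdiv.eventually (hlog4.eventually_le_const (show 1 < 1 + δ by linarith)), hps,
    log_half (η := η / 2) (by positivity) (by linarith), tlog.eventually (MM_small hMERT hC0),
    tdiv.eventually (tlog.eventually_ge_atTop 1)]
    with h g1 g2 g3 g4 gS g5 g6 g7 hL h8 g8 g9 g10 g11 g12 hl
  rw [one_mul] at g5
  obtain ⟨n, hn⟩ : ∃ n, n = h / 2 := ⟨_, rfl⟩
  rw [← hn] at g1 g5 g6 g8 g9 g11 hl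
  obtain ⟨L, hLd⟩ : ∃ L, L = Real.log (h : ℝ) := ⟨_, rfl⟩
  rw [← hLd] at g2 g3 g4 gS g7 hL g11 g12 ⊢
  obtain ⟨w, hw⟩ : ∃ w : ℕ, w = ⌊L / 1⌋₊ := ⟨_, rfl⟩
  rw [← hw] at g2 g3 g4 gS
  have hL0 : 0 < L := by linarith
  have hl0 : 0 < Real.log (n : ℝ) := by linarith
  have hn4 : 4 ≤ n := by omega
  have hlL : Real.log (n : ℝ) ≤ L := by
    rw [hLd]
    apply Real.log_le_log
    · have : 0 < n := by omega
      exact_mod_cast this
    · have : n ≤ h := by omega
      exact_mod_cast this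
  have hL4 : (L / Real.log (n : ℝ)) ^ 2 ≤ 1 + δ := by
    refine le_trans ?_ g9
    apply pow_le_pow_left₀ (by positivity)
    apply div_le_div_of_nonneg_right _ hl0.le
    rw [hLd]
    apply Real.log_le_log
    · have : 0 < h := by omega
      exact_mod_cast this
    · have : h ≤ 4 * n := by omega
      exact_mod_cast this
  have hwL : (w : ℝ) ≤ L := by
    rw [hw, div_one]; exact Nat.floor_le hL0.le
  constructor
  · intro U v hU1 hU2 hv1 hv2
    obtain ⟨-, g2b⟩ := g2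
    obtain ⟨hPV, hPV1, hSS2, hSSM⟩ := hNU.2.1 v h
    have hSS0 : 0 < SS v h := by linarith
    -- `U` is small
    have hUsm : (U : ℝ) ≤ 2 * (C * L ^ 3) := by
      have : (U : ℝ) * (1 / 2) ≤ U * SS v h := mul_le_mul_of_nonneg_left hSS2 (Nat.cast_nonneg U)
      linarith
    have hUh : 2 * U ≤ h := by
      have h1 : 4 * C * L ^ (2 + 1) ≤ h := g7
      have : (2 : ℝ) * U ≤ h := by
        calc (2 : ℝ) * U ≤ 2 * (2 * (C * L ^ 3)) := by linarith
          _ = 4 * C * L ^ (2 + 1) := by ring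
          _ ≤ h := h1
      exact_mod_cast this
    -- `U` is large
    have hvL2 : (v : ℝ) ≤ L ^ 2 := by
      refine hv2.trans ?_
      calc L ^ (1 + η / 2) ≤ L ^ (2 : ℝ) := Real.rpow_le_rpow_of_exponent_le hL (by linarith)
        _ = L ^ 2 := by norm_cast
    have hMMv := g12 v hvL2
    have hUL : L ^ 2 ≤ U := by
      have h1 : L ^ 3 / C ≤ U * (L / C) :=
        hU1.trans (mul_le_mul_of_nonneg_left (hSSM.trans hMMv) (Nat.cast_nonneg U))
      have h2 : L ^ 3 ≤ U * L := by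
        have h3 : U * (L / C) = U * L / C := by ring
        rw [h3] at h1
        exact (div_le_div_iff_of_pos_right hC0).1 h1
      have h4 : L ^ 2 * L ≤ U * L := by
        calc L ^ 2 * L = L ^ 3 := by ring
          _ ≤ U * L := h2
      exact le_of_mul_le_mul_right h4 hL0
    have hwU : (w : ℝ) ^ 2 ≤ U := (pow_le_pow_left₀ (Nat.cast_nonneg w) hwL 2).trans hUL
    have hU0 : (0 : ℝ) < U := lt_of_lt_of_le (by positivity) hUL
    obtain ⟨s1, s2⟩ := g1 U hUh
    obtain ⟨v1, v2, v3, v4⟩ := g2b v hv1 hv2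
    have hzlo : ∀ x : ℕ, Real.log (n : ℝ) ^ (1 - η / 4) ≤ x → L ^ (1 - η / 2) ≤ x := by
      intro x hx
      refine le_trans ?_ hx
      have : η / 2 / 2 = η / 4 := by ring
      rwa [this] at g11
    have hzhi : ∀ x : ℕ, (x : ℝ) ≤ Real.log (n : ℝ) ^ (1 + η / 4) → (x : ℝ) ≤ L ^ (1 + η / 2) := by
      intro x hx
      refine hx.trans ?_
      calc Real.log (n : ℝ) ^ (1 + η / 4) ≤ L ^ (1 + η / 4) :=
            Real.rpow_le_rpow hl0.le hlL (by positivity)
        _ ≤ L ^ (1 + η / 2) := Real.rpow_le_rpow_of_exponent_le hL (by linarith)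
    obtain ⟨p1, p2, p3, p4⟩ := g2b (z n) (hzlo _ g5.1) (hzhi _ g5.2)
    obtain ⟨q1, q2, q3, q4⟩ := g2b (z (4 * n)) (hzlo _ g6.1) (hzhi _ g6.2)
    have hUU : (U : ℝ) ≤ (1 + 1) * U := by linarith
    have D1 := (g4 (z n) h U U p3 p4 hwU le_rfl hUU).2
    have D2 := (g4 (z (4 * n)) h U U q3 q4 hwU le_rfl hUU).2
    have d1 : |EE (z n) h U - EE v h U| ≤ C1 * η := by
      rcases le_total (z n) v with H | H
      · exact g3 _ _ h U p1 H v2 hwU
      · rw [abs_sub_comm]; exact g3 _ _ h U v1 H p2 hwU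
    have d2 : |EE (z (4 * n)) h U - EE v h U| ≤ C1 * η := by
      rcases le_total (z (4 * n)) v with H | H
      · exact g3 _ _ h U q1 H v2 hwU
      · rw [abs_sub_comm]; exact g3 _ _ h U v1 H q2 hwU
    have t1 : |SS (z n) h - SS v h| ≤ C3 * η * SS v h := by
      rcases le_total (z n) v with H | H
      · rw [abs_sub_comm]; exact (gS _ _ h p1 H v2).2.1
      · exact (gS _ _ h v1 H p2).1
    have t2 : |SS (z (4 * n)) h - SS v h| ≤ C3 * η * SS v h := by
      rcases le_total (z (4 * n)) v with H | H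
      · rw [abs_sub_comm]; exact (gS _ _ h q1 H v2).2.1
      · exact (gS _ _ h v1 H q2).1
    have hEn : ∀ x : ℕ, 0 ≤ EE x h U := by
      intro x
      unfold EE
      have := (hNU.2.1 x h).1
      positivity
    have hsg : ∀ x : ℕ, (sg x h 0 U : ℝ) = EE x h U * (U * (SS x h / MM x ^ 2)) := by
      intro x
      have h1 := (hNU.2.1 x h).1
      have h2 := MM_pos x
      unfold EE SS
      field_simp
    have huC : (U : ℝ) * SS v h / L ^ 3 ≤ C := by
      rw [div_le_iff₀ (by positivity)]; exact hU2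
    have hfin := fin_est_g (S := ∑ j ∈ Finset.range U, (P (PH A h j)).toReal)
      (L := L) (l := Real.log (n : ℝ)) (M := MM (z n)) (M' := MM (z (4 * n))) (U := U)
      (T := SS v h) (T1 := SS (z n) h) (T2 := SS (z (4 * n)) h)
      (D := EE v h U) (D1 := EE (z n) h U) (D2 := EE (z (4 * n)) h U)
      (s1 := sg (z n) h 0 U) (s2 := sg (z (4 * n)) h 0 U) (a := C3 * η) hl0 hlL (MM_pos _) (MM_pos _) hU0
      hSS0 rfl huC hC0 (hsg _) (hsg _) (hEn _) (hEn _) D1 D2 hδ0.le hδ1 (by positivity) hη3 s1 s2 g8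
      hL4 (by linarith [(abs_le.1 t1).2]) (by linarith [(abs_le.1 t2).1]) d1 d2
    refine hfin.trans ?_
    have : C * (C1 * η + C2 * (6 * δ + C3 * η)) = C * ((C1 + C2 * C3) * η) + C * (C2 * (6 * δ)) := by
      ring
    rw [this]
    linarith
  · intro j hj
    have := hM.prob
    refine le_trans ?_ (g10 (h + (j + 1)) (by omega))
    refine ENNReal.toReal_mono (measure_ne_top _ _) (measure_mono ?_)
    exact Set.inter_subset_right

end Pool.Agent.H13.GG
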