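import Pool.Agent.H13.GG.Stm
import Pool.Agent.H50.BF.SUB
import Pool.Agent.H50.GW.EXDK

/-! GG-EXDG (helper19), after `Pool/Agent/H50/GW/EXDK.lean` (helper39) -/

set_option autoImplicit false

namespace Pool.Agent.H13.GG

open Filter
open Pool.Agent.H50.BF (MM S_MERT)
open scoped Topology

namespace EXDGaux

lemma sg_mono (v h a : ℕ) {U U' : ℕ} (hU : U ≤ U') : sg v h a U ≤ sg v h a U' := by
  classical
  unfold sg
  exact Finset.card_le_card (Finset.filter_subset_filter _ (Finset.range_subset_range.2 hU))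

lemma sg_le (v h a U : ℕ) : sg v h a U ≤ U := by
  classical
  unfold sg
  exact (Finset.card_filter_le _ _).trans (by simp)

lemma EE_nonneg (hnu : S_NU) (v h U : ℕ) : 0 ≤ EE v h U := by
  unfold EE
  have := (hnu.2.1 v h).1
  positivity

lemma EE_le (hnu : S_NU) (v h U : ℕ) : EE v h U ≤ 2 * MM v ^ 2 := by
  have hM := Pool.Agent.H50.GW.EXaux.MM_pos' v
  have hP := (hnu.2.1 v h).1
  have hS := (hnu.2.1 v h).2.2.1
  unfold SS at hS
  unfold EE
  rcases Nat.eq_zero_or_pos U with hU | hU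
  · subst hU
    simp only [Nat.cast_zero, zero_mul, div_zero]
    positivity
  · have hU' : (0 : ℝ) < U := by exact_mod_cast hU
    rw [div_le_iff₀ (by positivity)]
    have h1 : (sg v h 0 U : ℝ) ≤ U := Nat.cast_le.2 (sg_le v h 0 U)
    calc (sg v h 0 U : ℝ) ≤ U := h1
      _ = U * 1 := (mul_one _).symm
      _ ≤ U * (2 * (PV v h * MM v ^ 2)) := mul_le_mul_of_nonneg_left (by linarith) hU'.le
      _ = _ := by ring

lemma lo_le (hnu : S_NU) (w t : ℕ) : lo3 w ≤ EE w t (UW w t) := by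
  unfold lo3
  refine ciInf_le ⟨0, ?_⟩ t
  rintro _ ⟨t, rfl⟩
  exact EE_nonneg hnu _ _ _

lemma le_hi (hnu : S_NU) (w t : ℕ) : EE w t (UW w t) ≤ hi3 w := by
  unfold hi3
  refine le_ciSup (f := fun t : ℕ => EE w t (UW w t)) ⟨2 * MM w ^ 2, ?_⟩ t
  rintro _ ⟨t, rfl⟩
  exact EE_le hnu _ _ _

/-- two levels -/
lemma two_lev {C0 η : ℝ} {w : ℕ}
    (h : ∀ v v' h U : ℕ, (w : ℝ) ^ (1 - η) ≤ v → v ≤ v' → (v' : ℝ) ≤ (w : ℝ) ^ (1 + η) →
      (w : ℝ) ^ 2 ≤ U → |EE v h U - EE v' h U| ≤ C0 * η)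
    (v v' n U : ℕ) (h1 : (w : ℝ) ^ (1 - η) ≤ v) (h1' : (w : ℝ) ^ (1 - η) ≤ v')
    (h2 : (v : ℝ) ≤ (w : ℝ) ^ (1 + η)) (h2' : (v' : ℝ) ≤ (w : ℝ) ^ (1 + η))
    (h3 : (w : ℝ) ^ 2 ≤ U) : |EE v n U - EE v' n U| ≤ C0 * η := by
  rcases le_total v v' with hle | hle
  · exact h v v' n U h1 hle h2' h3
  · rw [abs_sub_comm]
    exact h v' v n U h1' hle h2 h3

/-- two levels, the singular series -/
lemma two_ss {C2 η : ℝ} {w : ℕ}
    (h : ∀ v v' h : ℕ, (w : ℝ) ^ (1 - η) ≤ v → v ≤ v' → (v' : ℝ) ≤ (w : ℝ) ^ (1 + η) →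
      |SS v' h - SS v h| ≤ C2 * η * SS v h ∧ |SS v' h - SS v h| ≤ C2 * η * SS v' h ∧
      MM v' ≤ (1 + C2 * η) * MM v ∧ PV v h ≤ (1 + C2 * η) * PV v' h)
    (v v' n : ℕ) (h1 : (w : ℝ) ^ (1 - η) ≤ v) (h1' : (w : ℝ) ^ (1 - η) ≤ v')
    (h2 : (v : ℝ) ≤ (w : ℝ) ^ (1 + η)) (h2' : (v' : ℝ) ≤ (w : ℝ) ^ (1 + η)) :
    SS v n ≤ (1 + C2 * η) * SS v' n := by
  rcases le_total v v' with hle | hle
  · have := (h v v' n h1 hle h2').2.1
    rw [abs_le] at this
    linarith [this.1]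
  · have := (h v' v n h1' hle h2).1
    rw [abs_le] at this
    linarith [this.2]

/-- `MM v ≤ w` for `v ≤ w ^ 2` -/
lemma MM_le (hmert : S_MERT) : ∀ᶠ w : ℕ in atTop, ∀ v : ℕ, (v : ℝ) ≤ (w : ℝ) ^ 2 → MM v ≤ w := by
  have h2 : Tendsto (fun w : ℕ => w ^ 2) atTop atTop := tendsto_pow_atTop (by norm_num)
  have h3 : Tendsto (fun w : ℕ => Real.log w / (w : ℝ)) atTop (𝓝 0) := by
    have := (Real.isLittleO_log_id_atTop).tendsto_div_nhds_zero
    exact this.comp tendsto_natCast_atTop_atTop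
  have hL : 0 < Real.exp Real.eulerMascheroniConstant := Real.exp_pos _
  set L := Real.exp Real.eulerMascheroniConstant with hLd
  filter_upwards [h2.eventually (Pool.Agent.H50.BF.BTaux.mert_two hmert),
    h3.eventually (gt_mem_nhds (show (0 : ℝ) < 1 / (4 * L) by positivity)),
    eventually_ge_atTop 1] with w h4 h5 h6 v hv
  have hw : (0 : ℝ) < w := by exact_mod_cast h6
  have h7 := h4.2
  rw [Nat.cast_pow, Real.log_pow] at h7
  rw [div_lt_div_iff₀ hw (by positivity)] at h5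
  have hv' : v ≤ w ^ 2 := by exact_mod_cast hv
  calc MM v ≤ MM (w ^ 2) := Pool.Agent.H50.BF.BTaux.MM_mono hv'
    _ ≤ _ := h7
    _ = Real.log w * (4 * L) := by push_cast; ring
    _ ≤ w := by linarith

end EXDGaux

open EXDGaux Pool.Agent.H50.GW.EXaux in
theorem exdg : S_TRG → S_SBG → S_NU → S_SST → S_MERT → S_EXDG := by
  intro htr hsb hnu hsst hmert C ε hC hε
  obtain ⟨C0, hC0, htrans⟩ := htr
  obtain ⟨C1, hC1, hsub⟩ := hsb
  obtain ⟨C2, hC2, hss⟩ := hsst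
  have hCp : 0 < C := by linarith
  set δ : ℝ := min 1 (ε / (2 * C1)) with hδd
  have hδ : 0 < δ := lt_min (by norm_num) (by positivity)
  have hδ1 : δ ≤ 1 := min_le_left _ _
  have hδε : C1 * δ ≤ ε / 2 := by
    calc C1 * δ ≤ C1 * (ε / (2 * C1)) := mul_le_mul_of_nonneg_left (min_le_right _ _) hC1.le
      _ = ε / 2 := by field_simp
  set η : ℝ := min (1 / 2) (min (ε / (2 * C0)) (δ / (4 * C2))) with hηd
  have hη : 0 < η := lt_min (by norm_num) (lt_min (by positivity) (by positivity))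
  have hη1 : η ≤ 1 / 2 := min_le_left _ _
  have hηε : C0 * η ≤ ε / 2 := by
    calc C0 * η ≤ C0 * (ε / (2 * C0)) :=
          mul_le_mul_of_nonneg_left ((min_le_right _ _).trans (min_le_left _ _)) hC0.le
      _ = ε / 2 := by field_simp
  have hηδ : C2 * η ≤ δ / 4 := by
    calc C2 * η ≤ C2 * (δ / (4 * C2)) :=
          mul_le_mul_of_nonneg_left ((min_le_right _ _).trans (min_le_right _ _)) hC2.le
      _ = δ / 4 := by field_simp
  have hC2η : 0 < C2 * η := by positivity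
  refine ⟨η / 4, by positivity, by linarith, ?_⟩
  obtain ⟨N0, hN0⟩ := eventually_atTop.1 (htrans η hη hη1)
  obtain ⟨N1, hN1⟩ := eventually_atTop.1 (hsub δ hδ hδ1)
  obtain ⟨N2, hN2⟩ := eventually_atTop.1 (one_add_pow 2 (δ := δ / 4) (by positivity))
  obtain ⟨N3, hN3⟩ := eventually_atTop.1 (hss η hη hη1)
  obtain ⟨N4, hN4⟩ := eventually_atTop.1 (MM_le hmert)
  filter_upwards [lev' (D := 2 * C) (by linarith) hη hη1,
    eventually_ge_atTop (2 * C * (N0 + N1 + N2 + N3 + N4 + 4 / δ + 1))] with L h2 h3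
  intro h U v hU1 hU2 hv1 hv2
  have hN : (0 : ℝ) ≤ N0 := Nat.cast_nonneg _
  have hN' : (0 : ℝ) ≤ N1 := Nat.cast_nonneg _
  have hN'' : (0 : ℝ) ≤ N2 := Nat.cast_nonneg _
  have hN''' : (0 : ℝ) ≤ N3 := Nat.cast_nonneg _
  have hN'''' : (0 : ℝ) ≤ N4 := Nat.cast_nonneg _
  have hδ4 : (0 : ℝ) < 4 / δ := by positivity
  have hL2 : 2 * C ≤ L := by
    refine le_trans ?_ h3
    have : 0 ≤ 2 * C * (N0 + N1 + N2 + N3 + N4 + 4 / δ) := by positivity
    linarith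
  have hL0 : 0 < L := by linarith
  have hSv := (hnu.2.1 v h).2.2.1
  have hSv2 := (hnu.2.1 v h).2.2.2
  have hSv0 : 0 < SS v h := by linarith
  -- the level `w`
  set X : ℝ := U * SS v h with hX
  have hX0 : 0 ≤ X := by positivity
  set x : ℝ := X ^ ((1 : ℝ) / 3) with hx
  have hx0 : 0 ≤ x := Real.rpow_nonneg hX0 _
  have hx3 : x ^ 3 = X := by
    rw [hx, ← Real.rpow_natCast, ← Real.rpow_mul hX0]
    norm_num
  set w : ℕ := ⌊x⌋₊ with hw
  have hfl : (w : ℝ) ≤ x := Nat.floor_le hx0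
  have hfl2 : x < (w : ℝ) + 1 := Nat.lt_floor_add_one x
  have hC3 : C ≤ C ^ 3 := by
    have : 1 ≤ C ^ 2 := one_le_pow₀ hC
    nlinarith
  have hx1 : L / C ≤ x := by
    have : (L / C) ^ 3 ≤ x ^ 3 := by
      rw [hx3, div_pow]
      refine le_trans ?_ hU1
      exact div_le_div_of_nonneg_left (by positivity) hCp hC3
    exact le_of_pow_le_pow_left₀ (by norm_num) hx0 this
  have hx2 : x ≤ C * L := by
    have : x ^ 3 ≤ (C * L) ^ 3 := by
      rw [hx3, mul_pow]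
      refine hU2.trans ?_
      exact mul_le_mul_of_nonneg_right hC3 (by positivity)
    exact le_of_pow_le_pow_left₀ (by norm_num) (by positivity) this
  have b1 : L / (2 * C) ≤ (w : ℝ) := by
    have h4 : L / C = 2 * (L / (2 * C)) := by field_simp
    have h5 : 1 ≤ L / (2 * C) := by
      rw [le_div_iff₀ (by positivity)]; linarith
    linarith
  have b2 : (w : ℝ) ≤ 2 * C * L := by
    have : C * L ≤ 2 * C * L := by nlinarith [mul_pos hCp hL0]
    linarith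
  have b3 : (w : ℝ) ^ 3 ≤ X := by
    rw [← hx3]
    exact pow_le_pow_left₀ (Nat.cast_nonneg _) hfl _
  have b4 : X < ((w : ℝ) + 1) ^ 3 := by
    rw [← hx3]
    exact pow_lt_pow_left₀ hfl2 hx0 (by norm_num)
  have hwb : N0 + N1 + N2 + N3 + N4 + 4 / δ + 1 ≤ (w : ℝ) := by
    refine le_trans ?_ b1
    rw [le_div_iff₀ (by linarith)]
    linarith
  have hwN : N0 ≤ w := by
    have : (N0 : ℝ) ≤ w := by linarith
    exact_mod_cast this
  have hwN1 : N1 ≤ w := by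
    have : (N1 : ℝ) ≤ w := by linarith
    exact_mod_cast this
  have hwN2 : N2 ≤ w := by
    have : (N2 : ℝ) ≤ w := by linarith
    exact_mod_cast this
  have hwN3 : N3 ≤ w := by
    have : (N3 : ℝ) ≤ w := by linarith
    exact_mod_cast this
  have hwN4 : N4 ≤ w := by
    have : (N4 : ℝ) ≤ w := by linarith
    exact_mod_cast this
  have hw1 : (1 : ℝ) ≤ w := by linarith
  have hw0 : (0 : ℝ) < w := by linarith
  have hwδ : 4 / δ ≤ (w : ℝ) := by linarith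
  obtain ⟨c1, c2⟩ := h2 w b1 b2
  have hv0 : (w : ℝ) ^ (1 - η) ≤ v := c1.trans hv1
  have hv3 : (v : ℝ) ≤ (w : ℝ) ^ (1 + η) := hv2.trans c2
  have hww1 : (w : ℝ) ^ (1 - η) ≤ w := by
    calc (w : ℝ) ^ (1 - η) ≤ (w : ℝ) ^ (1 : ℝ) := Real.rpow_le_rpow_of_exponent_le hw1 (by linarith)
      _ = w := Real.rpow_one _
  have hww2 : (w : ℝ) ≤ (w : ℝ) ^ (1 + η) := by
    calc (w : ℝ) = (w : ℝ) ^ (1 : ℝ) := (Real.rpow_one _).symm
      _ ≤ (w : ℝ) ^ (1 + η) := Real.rpow_le_rpow_of_exponent_le hw1 (by linarith)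
  have hvw2 : (v : ℝ) ≤ (w : ℝ) ^ 2 := by
    refine hv3.trans ?_
    rw [← Real.rpow_two]
    exact Real.rpow_le_rpow_of_exponent_le hw1 (by linarith)
  have hww3 : (w : ℝ) ≤ (w : ℝ) ^ 2 := by nlinarith
  -- `w ^ 2 ≤ U`
  have hSw := (hnu.2.1 w h).2.2.1
  have hSw2 := (hnu.2.1 w h).2.2.2
  have hSw0 : 0 < SS w h := by linarith
  have hSvw : SS v h ≤ w := hSv2.trans (hN4 w hwN4 v hvw2)
  have hSww : SS w h ≤ w := hSw2.trans (hN4 w hwN4 w hww3)
  have hwU : (w : ℝ) ^ 2 ≤ U := by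
    have h5 : (w : ℝ) ^ 2 * w ≤ U * w := by
      calc (w : ℝ) ^ 2 * w = (w : ℝ) ^ 3 := by ring
        _ ≤ U * SS v h := b3
        _ ≤ U * w := mul_le_mul_of_nonneg_left hSvw (Nat.cast_nonneg _)
    exact le_of_mul_le_mul_right h5 hw0
  -- the other length
  set U₁ := UW w h with hU₁
  set z : ℝ := (w : ℝ) ^ 3 / SS w h with hz
  have hzw : (w : ℝ) ^ 2 ≤ z := by
    rw [hz, le_div_iff₀ hSw0]
    calc (w : ℝ) ^ 2 * SS w h ≤ (w : ℝ) ^ 2 * w := mul_le_mul_of_nonneg_left hSww (by positivity)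
      _ = (w : ℝ) ^ 3 := by ring
  have hz0 : 0 < z := lt_of_lt_of_le (by positivity) hzw
  have hU1a : z ≤ (U₁ : ℝ) := Nat.le_ceil _
  have hU1b : (U₁ : ℝ) ≤ z + 1 := (Nat.ceil_lt_add_one hz0.le).le
  have hU1c : (U₁ : ℝ) ≤ (1 + δ / 4) * z := by
    have h5 : 4 / δ ≤ z := by
      refine hwδ.trans (hww3.trans hzw)
    rw [div_le_iff₀ hδ] at h5
    linarith
  have hU1w : (w : ℝ) ^ 2 ≤ U₁ := hzw.trans hU1a
  have s1 := two_ss (hN3 w hwN3) v w h hv0 hww1 hv3 hww2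
  have s2 := two_ss (hN3 w hwN3) w v h hww1 hv0 hww2 hv3
  have hfac : (1 + δ / 4) * (1 + C2 * η) ≤ 1 + δ := by nlinarith
  have hX3 : X ≤ (1 + δ / 4) * (w : ℝ) ^ 3 := by
    refine b4.le.trans ?_
    have h6 : ((w : ℝ) + 1) ^ 3 = (1 + 1 / (w : ℝ)) ^ (2 + 1) * (w : ℝ) ^ 3 := by
      rw [← mul_pow]; congr 1; field_simp
    rw [h6]
    exact mul_le_mul_of_nonneg_right (hN2 w hwN2) (by positivity)
  have r1 : (U : ℝ) ≤ (1 + δ) * U₁ := by
    have h5 : (U : ℝ) * SS w h ≤ ((1 + δ) * z) * SS w h := by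
      calc (U : ℝ) * SS w h ≤ U * ((1 + C2 * η) * SS v h) :=
            mul_le_mul_of_nonneg_left s2 (Nat.cast_nonneg _)
        _ = (1 + C2 * η) * X := by rw [hX]; ring
        _ ≤ (1 + C2 * η) * ((1 + δ / 4) * (w : ℝ) ^ 3) :=
            mul_le_mul_of_nonneg_left hX3 (by positivity)
        _ = ((1 + δ / 4) * (1 + C2 * η)) * (w : ℝ) ^ 3 := by ring
        _ ≤ (1 + δ) * (w : ℝ) ^ 3 := mul_le_mul_of_nonneg_right hfac (by positivity)
        _ = ((1 + δ) * z) * SS w h := by rw [hz]; field_simp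
    have h6 := le_of_mul_le_mul_right h5 hSw0
    exact h6.trans (mul_le_mul_of_nonneg_left hU1a (by positivity))
  have r2 : (U₁ : ℝ) ≤ (1 + δ) * U := by
    refine hU1c.trans ?_
    have h5 : z * SS w h ≤ ((1 + C2 * η) * U) * SS w h := by
      calc z * SS w h = (w : ℝ) ^ 3 := by rw [hz]; field_simp
        _ ≤ U * SS v h := b3
        _ ≤ U * ((1 + C2 * η) * SS w h) := mul_le_mul_of_nonneg_left s1 (Nat.cast_nonneg _)
        _ = _ := by ring
    have h6 := le_of_mul_le_mul_right h5 hSw0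
    calc (1 + δ / 4) * z ≤ (1 + δ / 4) * ((1 + C2 * η) * U) :=
          mul_le_mul_of_nonneg_left h6 (by positivity)
      _ = ((1 + δ / 4) * (1 + C2 * η)) * U := by ring
      _ ≤ (1 + δ) * U := mul_le_mul_of_nonneg_right hfac (Nat.cast_nonneg _)
  -- transition between the levels
  have h5 := two_lev (hN0 w hwN) v w h U hv0 hww1 hv3 hww2 hwU
  have hsq1 : Real.sqrt w ≤ w := by
    rw [Real.sqrt_le_left (by linarith)]
    nlinarith
  have hPw := (hnu.2.1 w h).1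
  have hEE : ∀ V : ℕ, EE w h V = (sg w h 0 V : ℝ) * ((PV w h)⁻¹ / V) := by
    intro V
    unfold EE
    rw [div_eq_mul_inv, mul_inv, div_eq_mul_inv, mul_comm (V : ℝ)⁻¹]
  have hclose : ∀ V V' : ℕ, (w : ℝ) ^ 2 ≤ V → V ≤ V' → (V' : ℝ) ≤ (1 + δ) * V →
      |EE w h V' - EE w h V| ≤ C1 * δ := by
    intro V V' hV hVV hV'
    have hV0 : (0 : ℝ) < V := lt_of_lt_of_le (by positivity) hV
    obtain ⟨e1, e2⟩ := hN1 w hwN1 w h V V' hsq1 hww3 hV hVV hV'
    rw [hEE] at e2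
    have e1' : ((sg w h 0 V' : ℝ) - sg w h 0 V) * ((PV w h)⁻¹ / V) ≤ C1 * δ := by
      refine le_trans (le_of_eq ?_) e1
      field_simp
    rw [hEE, hEE]
    exact dens_close' (inv_pos.2 hPw).le hV0 (by exact_mod_cast hVV) hV' hδ.le
      (Nat.cast_nonneg _) (Nat.cast_le.2 (sg_mono w h 0 hVV)) e1' e2
  have h7 : |EE w h U - EE w h U₁| ≤ C1 * δ := by
    rcases le_total U U₁ with hle | hle
    · rw [abs_sub_comm]
      exact hclose U U₁ hwU hle r2
    · exact hclose U₁ U hU1w hle r1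
  have h8 := lo_le hnu w h
  have h9 := le_hi hnu w h
  rw [← hU₁] at h8 h9
  rw [abs_le] at h5 h7
  refine ⟨w, ?_, by linarith [h5.1, h7.1], by linarith [h5.2, h7.2]⟩
  rw [div_le_iff₀ (by positivity)] at b1
  linarith

end Pool.Agent.H13.GG
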