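import Pool.Agent.H13.GG.Stm
import Pool.Agent.H50.GW.EXDK
import Pool.Agent.H50.BF.MMB

/-! GG-EXWG (helper72), after GW/EXWK.lean (helper39) -/

set_option autoImplicit false

open MeasureTheory Filter ProbabilityTheory
open scoped Topology ENNReal

namespace Pool.Agent.H13.GG

open Pool.Agent.H50.BF (MM S_MERT)
open Pool.Agent.H50.GW (Rou GMod NN S_BTU S_LDU S_LDL)

namespace EXGx

open Pool.Agent.H50.GW.EXaux (dens_close' lev')

lemma sg_le (v h a U : ℕ) : sg v h a U ≤ U := by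
  classical
  unfold sg
  exact (Finset.card_filter_le _ _).trans (by simp)

lemma sg_mono (v h a : ℕ) {U U' : ℕ} (hU : U ≤ U') : sg v h a U ≤ sg v h a U' := by
  classical
  unfold sg
  exact Finset.card_le_card (Finset.filter_subset_filter _ (Finset.range_subset_range.2 hU))

lemma EE_nonneg (hNU : S_NU) (v h U : ℕ) : 0 ≤ EE v h U := by
  have := (hNU.2.1 v h).1
  unfold EE
  positivity

lemma EE_eq (hNU : S_NU) (v h U : ℕ) : EE v h U = (sg v h 0 U : ℝ) * ((PV v h)⁻¹ / U) := by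
  have := (hNU.2.1 v h).1
  unfold EE
  rw [div_eq_mul_inv, mul_inv, div_eq_mul_inv, mul_comm ((U : ℝ)⁻¹)]

lemma PV_inv_le (hNU : S_NU) (v h : ℕ) : (PV v h)⁻¹ ≤ 2 * MM v ^ 2 := by
  have h1 := (hNU.2.1 v h).1
  have h2 := (hNU.2.1 v h).2.2.1
  unfold SS at h2
  rw [inv_le_iff_one_le_mul₀ h1]
  linarith

lemma EE_le (hNU : S_NU) (v h U : ℕ) : EE v h U ≤ 2 * MM v ^ 2 := by
  have h1 := (hNU.2.1 v h).1
  refine le_trans ?_ (PV_inv_le hNU v h)
  unfold EE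
  rw [← div_div, div_eq_mul_inv]
  have h2 : (sg v h 0 U : ℝ) / U ≤ 1 := by
    apply div_le_one_of_le₀ _ (Nat.cast_nonneg _)
    exact_mod_cast sg_le v h 0 U
  have h3 : 0 ≤ (PV v h)⁻¹ := (inv_pos.2 h1).le
  calc (sg v h 0 U : ℝ) / U * (PV v h)⁻¹ ≤ 1 * (PV v h)⁻¹ := mul_le_mul_of_nonneg_right h2 h3
    _ = _ := one_mul _

lemma le_hi3 (hNU : S_NU) (w t : ℕ) : EE w t (UW w t) ≤ hi3 w := by
  unfold hi3
  refine le_ciSup (f := fun t => EE w t (UW w t)) ⟨2 * MM w ^ 2, ?_⟩ t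
  rintro _ ⟨t, rfl⟩
  exact EE_le hNU _ _ _

lemma lo3_le (hNU : S_NU) (w t : ℕ) : lo3 w ≤ EE w t (UW w t) := by
  unfold lo3
  refine ciInf_le (f := fun t => EE w t (UW w t)) ⟨0, ?_⟩ t
  rintro _ ⟨t, rfl⟩
  exact EE_nonneg hNU _ _ _

/-- the Mertens product is small -/
lemma MM_small (hM : S_MERT) {c : ℝ} (hc : 0 < c) : ∀ᶠ w : ℕ in atTop, MM (w ^ 2) ≤ c * w := by
  have h1 : Tendsto (fun w : ℕ => w ^ 2) atTop atTop := tendsto_pow_atTop (by norm_num)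
  have h2 := h1.eventually (hM.eventually (gt_mem_nhds
    (lt_add_one (Real.exp Real.eulerMascheroniConstant))))
  set B := Real.exp Real.eulerMascheroniConstant + 1 with hB
  have hB0 : 0 < B := by positivity
  have h3 := (Real.isLittleO_log_id_atTop).bound (show (0 : ℝ) < c / (2 * B) by positivity)
  have h4 := (tendsto_natCast_atTop_atTop (R := ℝ)).eventually h3
  filter_upwards [h2, h4, eventually_ge_atTop 2] with w a1 a2 a3
  have hw : (2 : ℝ) ≤ w := by exact_mod_cast a3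
  have hlog : 0 < Real.log w := Real.log_pos (by linarith)
  simp only [id] at a2
  rw [Real.norm_of_nonneg hlog.le, Real.norm_of_nonneg (by linarith : (0 : ℝ) ≤ w)] at a2
  have hlog2 : Real.log ((w ^ 2 : ℕ) : ℝ) = 2 * Real.log w := by
    push_cast
    rw [Real.log_pow]
    norm_num
  rw [hlog2, div_lt_iff₀ (by linarith)] at a1
  calc MM (w ^ 2) ≤ B * (2 * Real.log w) := a1.le
    _ ≤ B * (2 * (c / (2 * B) * w)) := by gcongr
    _ = c * w := by field_simp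

/-- the intervals at the level `w` -/
lemma UW_bd (hNU : S_NU) {w t : ℕ} (hw : 1 ≤ (w : ℝ)) (hMM : MM (w ^ 2) ≤ 1 / 4 * w) :
    (w : ℝ) ^ 2 ≤ UW w t ∧ (w : ℝ) ^ 3 / SS w t ≤ UW w t ∧
      (UW w t : ℝ) ≤ (1 + 1 / w) * ((w : ℝ) ^ 3 / SS w t) := by
  have hS := (hNU.2.1 w t).2.2
  have hS0 : 0 < SS w t := by linarith [hS.1]
  have hww : w ≤ w ^ 2 := by
    have : 1 ≤ w := by exact_mod_cast hw
    nlinarith
  have hSw : SS w t ≤ 1 / 4 * w :=
    (hS.2.trans (Pool.Agent.H50.BF.MM_mono hww)).trans hMM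
  have ha : 4 * (w : ℝ) ^ 2 ≤ (w : ℝ) ^ 3 / SS w t := by
    rw [le_div_iff₀ hS0]
    calc 4 * (w : ℝ) ^ 2 * SS w t ≤ 4 * (w : ℝ) ^ 2 * (1 / 4 * w) := by gcongr
      _ = (w : ℝ) ^ 3 := by ring
  have hc1 : (w : ℝ) ^ 3 / SS w t ≤ UW w t := Nat.le_ceil _
  have hc2 : (UW w t : ℝ) < (w : ℝ) ^ 3 / SS w t + 1 :=
    Nat.ceil_lt_add_one (by positivity)
  refine ⟨by nlinarith, hc1, ?_⟩
  have h5 : 1 ≤ 1 / w * ((w : ℝ) ^ 3 / SS w t) := by
    have h6 : 1 / (w : ℝ) * (4 * (w : ℝ) ^ 2) ≤ 1 / w * ((w : ℝ) ^ 3 / SS w t) := by gcongr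
    have h7 : 1 / (w : ℝ) * (4 * (w : ℝ) ^ 2) = 4 * w := by field_simp
    linarith
  linarith

/-- change of the length at the level `w` -/
lemma len_change (hNU : S_NU) {C1 δ : ℝ} (hδ : 0 < δ) {w : ℕ} (hw : 1 ≤ (w : ℝ))
    (h : ∀ v h U U' : ℕ, Real.sqrt w ≤ v → (v : ℝ) ≤ (w : ℝ) ^ 2 → (w : ℝ) ^ 2 ≤ U →
      U ≤ U' → (U' : ℝ) ≤ (1 + δ) * U →
      ((sg v h 0 U' : ℝ) - sg v h 0 U) / (U * PV v h) ≤ C1 * δ ∧ EE v h U ≤ C1)
    (t : ℕ) {U U' : ℕ} (hU : (w : ℝ) ^ 2 ≤ U) (hUU : U ≤ U') (hU' : (U' : ℝ) ≤ (1 + δ) * U) :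
    |EE w t U' - EE w t U| ≤ C1 * δ := by
  have hsq1 : Real.sqrt w ≤ w := by
    rw [Real.sqrt_le_left (by linarith)]
    nlinarith
  have hww3 : (w : ℝ) ≤ (w : ℝ) ^ 2 := by nlinarith
  have hU0 : (0 : ℝ) < U := lt_of_lt_of_le (by positivity) hU
  have h6 := h w t U U' hsq1 hww3 hU hUU hU'
  have hP := (hNU.2.1 w t).1
  have h61 : ((sg w t 0 U' : ℝ) - sg w t 0 U) * ((PV w t)⁻¹ / U) ≤ C1 * δ := by
    have e : ((sg w t 0 U' : ℝ) - sg w t 0 U) * ((PV w t)⁻¹ / U) =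
        ((sg w t 0 U' : ℝ) - sg w t 0 U) / (U * PV w t) := by
      field_simp
    rw [e]
    exact h6.1
  have h62 := h6.2
  rw [EE_eq hNU] at h62
  rw [EE_eq hNU, EE_eq hNU]
  exact dens_close' (U := (U : ℝ)) (U' := (U' : ℝ)) (inv_pos.2 hP).le hU0
    (by exact_mod_cast hUU) hU' hδ.le (Nat.cast_nonneg _)
    (Nat.cast_le.2 (sg_mono w t 0 hUU)) h61 h62

/-- two levels, in any order -/
lemma two_lev {C0 η : ℝ} {w : ℕ}
    (h : ∀ v v' h U : ℕ, (w : ℝ) ^ (1 - η) ≤ v → v ≤ v' → (v' : ℝ) ≤ (w : ℝ) ^ (1 + η) →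
      (w : ℝ) ^ 2 ≤ U → |EE v h U - EE v' h U| ≤ C0 * η)
    (v v' n U : ℕ) (h1 : (w : ℝ) ^ (1 - η) ≤ v) (h1' : (w : ℝ) ^ (1 - η) ≤ v')
    (h2 : (v : ℝ) ≤ (w : ℝ) ^ (1 + η)) (h2' : (v' : ℝ) ≤ (w : ℝ) ^ (1 + η))
    (h3 : (w : ℝ) ^ 2 ≤ U) : |EE v n U - EE v' n U| ≤ C0 * η := by
  rcases le_total v v' with hle | hle
  · exact h v v' n U h1 hle h2' h3
  · rw [abs_sub_comm]
    exact h v' v n U h1' hle h2 h3

lemma two_lev_S {C0 η : ℝ} {w : ℕ}
    (h : ∀ v v' h : ℕ, (w : ℝ) ^ (1 - η) ≤ v → v ≤ v' → (v' : ℝ) ≤ (w : ℝ) ^ (1 + η) →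
      |SS v' h - SS v h| ≤ C0 * η * SS v h ∧ |SS v' h - SS v h| ≤ C0 * η * SS v' h ∧
      MM v' ≤ (1 + C0 * η) * MM v ∧ PV v h ≤ (1 + C0 * η) * PV v' h)
    (v v' n : ℕ) (h1 : (w : ℝ) ^ (1 - η) ≤ v) (h1' : (w : ℝ) ^ (1 - η) ≤ v')
    (h2 : (v : ℝ) ≤ (w : ℝ) ^ (1 + η)) (h2' : (v' : ℝ) ≤ (w : ℝ) ^ (1 + η)) :
    |SS v' n - SS v n| ≤ C0 * η * SS v n := by
  rcases le_total v v' with hle | hle
  · exact (h v v' n h1 hle h2').1
  · rw [abs_sub_comm]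
    exact (h v' v n h1' hle h2).2.1

end EXGx

open EXGx Pool.Agent.H50.GW.EXaux in
theorem exwg : S_TRG → S_SBG → S_NU → S_SST → S_MERT → S_EXWG := by
  intro htr hsb hNU hst hM C ε hC hε
  obtain ⟨C0, hC0, htrans⟩ := htr
  obtain ⟨C1, hC1, hsub⟩ := hsb
  obtain ⟨C2, hC2, hss⟩ := hst
  set δ : ℝ := min 1 (ε / (4 * C1)) with hδd
  have hδ : 0 < δ := lt_min (by norm_num) (by positivity)
  have hδ1 : δ ≤ 1 := min_le_left _ _
  have hδε : C1 * δ ≤ ε / 4 := by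
    calc C1 * δ ≤ C1 * (ε / (4 * C1)) := mul_le_mul_of_nonneg_left (min_le_right _ _) hC1.le
      _ = ε / 4 := by field_simp
  set θ : ℝ := min (1 / 2) (min (ε / (4 * C0)) (δ / (16 * C2))) with hθd
  have hθ : 0 < θ := lt_min (by norm_num) (lt_min (by positivity) (by positivity))
  have hθ1 : θ ≤ 1 / 2 := min_le_left _ _
  have hθε : C0 * θ ≤ ε / 4 := by
    calc C0 * θ ≤ C0 * (ε / (4 * C0)) :=
          mul_le_mul_of_nonneg_left ((min_le_right _ _).trans (min_le_left _ _)) hC0.le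
      _ = ε / 4 := by field_simp
  have hθδ : C2 * θ ≤ δ / 16 := by
    calc C2 * θ ≤ C2 * (δ / (16 * C2)) :=
          mul_le_mul_of_nonneg_left ((min_le_right _ _).trans (min_le_right _ _)) hC2.le
      _ = δ / 16 := by field_simp
  set η : ℝ := min (θ / 4) (δ / 8) with hηd
  have hη : 0 < η := lt_min (by positivity) (by positivity)
  have hη4 : η ≤ θ / 4 := min_le_left _ _
  have hηδ : η ≤ δ / 8 := min_le_right _ _
  refine ⟨η, hη, by linarith, ?_⟩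
  obtain ⟨N0, hN0⟩ := eventually_atTop.1 (htrans θ hθ hθ1)
  obtain ⟨N1, hN1⟩ := eventually_atTop.1 (hsub δ hδ hδ1)
  obtain ⟨N2, hN2⟩ := eventually_atTop.1 (hss θ hθ hθ1)
  obtain ⟨N3, hN3⟩ := eventually_atTop.1 (MM_small hM (show (0 : ℝ) < 1 / 4 by norm_num))
  obtain ⟨N4, hN4⟩ := exists_nat_ge (4 / δ)
  filter_upwards [lev' (D := C) hC hθ hθ1,
    eventually_ge_atTop (C * (N0 + N1 + N2 + N3 + N4 + 1))] with L h2 h3
  intro w hLw hwL
  have hC0' : 0 < C := by linarith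
  have hsum : (0 : ℝ) ≤ (N0 : ℝ) + N1 + N2 + N3 + N4 := by positivity
  have hL1 : 1 ≤ L := by
    refine le_trans ?_ h3
    nlinarith
  have hwb : (N0 : ℝ) + N1 + N2 + N3 + N4 + 1 ≤ (w : ℝ) := by
    have := h3.trans hLw
    exact le_of_mul_le_mul_left this hC0'
  have g0 : (0 : ℝ) ≤ N0 := Nat.cast_nonneg _
  have g1 : (0 : ℝ) ≤ N1 := Nat.cast_nonneg _
  have g2 : (0 : ℝ) ≤ N2 := Nat.cast_nonneg _
  have g3 : (0 : ℝ) ≤ N3 := Nat.cast_nonneg _
  have g4 : (0 : ℝ) ≤ N4 := Nat.cast_nonneg _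
  have hwN0 : N0 ≤ w := by
    have : (N0 : ℝ) ≤ w := by linarith
    exact_mod_cast this
  have hwN1 : N1 ≤ w := by
    have : (N1 : ℝ) ≤ w := by linarith
    exact_mod_cast this
  have hwN2 : N2 ≤ w := by
    have : (N2 : ℝ) ≤ w := by linarith
    exact_mod_cast this
  have hwN3 : N3 ≤ w := by
    have : (N3 : ℝ) ≤ w := by linarith
    exact_mod_cast this
  have hwN4 : 4 / δ ≤ (w : ℝ) := by linarith
  have hw1 : (1 : ℝ) ≤ w := by linarith
  have hwδ : 1 / (w : ℝ) ≤ δ / 4 := by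
    rw [div_le_iff₀ (by linarith)]
    rw [div_le_iff₀ hδ] at hwN4
    linarith
  obtain ⟨c1, c2⟩ := h2 w (by rw [div_le_iff₀ hC0']; linarith) hwL
  have hMMw := hN3 w hwN3
  have hww1 : (w : ℝ) ^ (1 - θ) ≤ w := by
    calc (w : ℝ) ^ (1 - θ) ≤ (w : ℝ) ^ (1 : ℝ) := Real.rpow_le_rpow_of_exponent_le hw1 (by linarith)
      _ = w := Real.rpow_one _
  have hww2 : (w : ℝ) ≤ (w : ℝ) ^ (1 + θ) := by
    calc (w : ℝ) = (w : ℝ) ^ (1 : ℝ) := (Real.rpow_one _).symm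
      _ ≤ (w : ℝ) ^ (1 + θ) := Real.rpow_le_rpow_of_exponent_le hw1 (by linarith)
  have key : ∀ t U v : ℕ, |U * SS v t - (w : ℝ) ^ 3| ≤ η * (w : ℝ) ^ 3 → L ^ (1 - η) ≤ v →
      (v : ℝ) ≤ L ^ (1 + η) → |EE v t U - EE w t (UW w t)| ≤ ε / 2 := by
    intro t U v hUv hv1 hv2
    have hv0 : (w : ℝ) ^ (1 - θ) ≤ v := by
      refine c1.trans (le_trans ?_ hv1)
      exact Real.rpow_le_rpow_of_exponent_le hL1 (by linarith)
    have hv3 : (v : ℝ) ≤ (w : ℝ) ^ (1 + θ) := by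
      refine hv2.trans (le_trans ?_ c2)
      exact Real.rpow_le_rpow_of_exponent_le hL1 (by linarith)
    have hvw : v ≤ w ^ 2 := by
      have : (v : ℝ) ≤ (w : ℝ) ^ 2 := by
        refine hv3.trans ?_
        calc (w : ℝ) ^ (1 + θ) ≤ (w : ℝ) ^ (2 : ℝ) :=
              Real.rpow_le_rpow_of_exponent_le hw1 (by linarith)
          _ = (w : ℝ) ^ 2 := Real.rpow_two _
      exact_mod_cast this
    have hSv := (hNU.2.1 v t).2.2
    have hSw := (hNU.2.1 w t).2.2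
    have hSv0 : 0 < SS v t := by linarith [hSv.1]
    have hSw0 : 0 < SS w t := by linarith [hSw.1]
    have hSvw : SS v t ≤ 1 / 4 * w :=
      (hSv.2.trans (Pool.Agent.H50.BF.MM_mono hvw)).trans hMMw
    have hw3 : (0 : ℝ) < (w : ℝ) ^ 3 := by positivity
    have hUv' := abs_le.1 hUv
    have hη8 : η ≤ 1 / 8 := by linarith
    have hU0 : (0 : ℝ) ≤ U := Nat.cast_nonneg U
    -- the length is large
    have hUw : (w : ℝ) ^ 2 ≤ U := by
      have e1 : 7 / 8 * (w : ℝ) ^ 3 ≤ U * SS v t := by nlinarith [hUv'.1]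
      have e2 : (U : ℝ) * SS v t ≤ U * (1 / 4 * w) := mul_le_mul_of_nonneg_left hSvw hU0
      have e3 : 7 / 2 * (w : ℝ) ^ 2 * w ≤ U * w := by nlinarith
      have e4 : 7 / 2 * (w : ℝ) ^ 2 ≤ U := le_of_mul_le_mul_right e3 (by linarith)
      have e5 : 0 ≤ (w : ℝ) ^ 2 := by positivity
      linarith
    -- the two levels
    have h5 := two_lev (hN0 w hwN0) v w t U hv0 hww1 hv3 hww2 hUw
    -- the two lengths
    have hS1 : |SS w t - SS v t| ≤ C2 * θ * SS v t :=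
      two_lev_S (hN2 w hwN2) v w t hv0 hww1 hv3 hww2
    have hτ : |(U : ℝ) * SS w t - (w : ℝ) ^ 3| ≤ δ / 4 * (w : ℝ) ^ 3 := by
      have e1 : (U : ℝ) * SS w t - (w : ℝ) ^ 3 =
          U * (SS w t - SS v t) + (U * SS v t - (w : ℝ) ^ 3) := by ring
      rw [e1]
      have e2 : |(U : ℝ) * (SS w t - SS v t)| ≤ δ / 16 * (2 * (w : ℝ) ^ 3) := by
        rw [abs_mul, abs_of_nonneg hU0]
        calc (U : ℝ) * |SS w t - SS v t| ≤ U * (C2 * θ * SS v t) :=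
              mul_le_mul_of_nonneg_left hS1 hU0
          _ = C2 * θ * (U * SS v t) := by ring
          _ ≤ δ / 16 * (2 * (w : ℝ) ^ 3) := by
              refine mul_le_mul hθδ ?_ (by positivity) (by positivity)
              nlinarith [hUv'.2]
      have e3 : η * (w : ℝ) ^ 3 ≤ δ / 8 * (w : ℝ) ^ 3 := mul_le_mul_of_nonneg_right hηδ hw3.le
      refine (abs_add_le _ _).trans ?_
      linarith
    obtain ⟨b1, b2, b3⟩ := UW_bd hNU (t := t) hw1 hMMw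
    set a := (w : ℝ) ^ 3 / SS w t with ha
    have haS : a * SS w t = (w : ℝ) ^ 3 := by
      rw [ha]
      field_simp
    have ha0 : 0 < a := by positivity
    have hUa : (1 - δ / 4) * a ≤ U ∧ (U : ℝ) ≤ (1 + δ / 4) * a := by
      rw [← haS, abs_le] at hτ
      constructor
      · have : (1 - δ / 4) * a * SS w t ≤ U * SS w t := by nlinarith [hτ.1]
        exact le_of_mul_le_mul_right this hSw0
      · have : (U : ℝ) * SS w t ≤ (1 + δ / 4) * a * SS w t := by nlinarith [hτ.2]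
        exact le_of_mul_le_mul_right this hSw0
    have h7 : |EE w t U - EE w t (UW w t)| ≤ C1 * δ := by
      rcases le_total (UW w t) U with hUU | hUU
      · refine len_change hNU hδ hw1 (hN1 w hwN1) t b1 hUU ?_
        calc (U : ℝ) ≤ (1 + δ / 4) * a := hUa.2
          _ ≤ (1 + δ) * a := by gcongr; linarith
          _ ≤ (1 + δ) * UW w t := by gcongr
      · rw [abs_sub_comm]
        refine len_change hNU hδ hw1 (hN1 w hwN1) t hUw hUU ?_
        calc (UW w t : ℝ) ≤ (1 + 1 / w) * a := b3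
          _ ≤ (1 + δ / 4) * a := by gcongr
          _ ≤ (1 + δ) * ((1 - δ / 4) * a) := by
              have : (1 + δ / 4) ≤ (1 + δ) * (1 - δ / 4) := by nlinarith
              calc (1 + δ / 4) * a ≤ (1 + δ) * (1 - δ / 4) * a :=
                    mul_le_mul_of_nonneg_right this ha0.le
                _ = _ := by ring
          _ ≤ (1 + δ) * U := by
              refine mul_le_mul_of_nonneg_left hUa.1 (by linarith)
    have h8 := abs_sub_le (EE v t U) (EE w t U) (EE w t (UW w t))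
    linarith
  constructor
  · obtain ⟨m, hm⟩ : ∃ m : ℕ, hi3 w - ε / 4 < EE w m (UW w m) := by
      have : hi3 w - ε / 4 < ⨆ t : ℕ, EE w t (UW w t) := by
        change hi3 w - ε / 4 < hi3 w
        linarith
      exact exists_lt_of_lt_ciSup this
    refine ⟨m, fun U v hUv hv1 hv2 => ?_⟩
    have h5 := key m U v hUv hv1 hv2
    have h6 := le_hi3 hNU w m
    rw [abs_le] at h5 ⊢
    constructor <;> linarith [h5.1, h5.2]
  · obtain ⟨m, hm⟩ : ∃ m : ℕ, EE w m (UW w m) < lo3 w + ε / 4 := by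
      have : (⨅ t : ℕ, EE w t (UW w t)) < lo3 w + ε / 4 := by
        change lo3 w < lo3 w + ε / 4
        linarith
      exact exists_lt_of_ciInf_lt this
    refine ⟨m, fun U v hUv hv1 hv2 => ?_⟩
    have h5 := key m U v hUv hv1 hv2
    have h6 := lo3_le hNU w m
    rw [abs_le] at h5 ⊢
    constructor <;> linarith [h5.1, h5.2]

end Pool.Agent.H13.GG
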