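import Pool.Agent.H13.GG.Stm
import Pool.Agent.H50.GW.GEX

set_option autoImplicit false
set_option linter.unusedVariables false
set_option linter.unusedSectionVars false

/-! # GG-GEG (helper13) -/

open MeasureTheory Filter ProbabilityTheory
open scoped Topology ENNReal

namespace Pool.Agent.H13.GG

open Pool.Agent.H50.BF (MM S_MERT)
open Pool.Agent.H50.GW (Rou GMod NN S_BTU S_LDU S_LDL)
open Pool.Agent.H50.GW.GEXaux (tlog log_range vrange count est XX XX_tendsto XX_log)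

namespace GEGaux

lemma floor_tendsto : Tendsto (fun X : ℕ => ⌊Real.log X⌋₊) atTop atTop :=
  tendsto_nat_floor_atTop.comp tlog

/-- the levels -/
lemma lvl {κ η : ℝ} (hκ : 0 < κ) (hκ1 : κ ≤ 1) (hη : 0 < η) (hη1 : η ≤ 1 / 2) :
    ∀ᶠ X : ℕ in atTop, ∀ h : ℕ, X ≤ h → h ≤ 2 * X →
      ((⌊Real.log X⌋₊ : ℕ) : ℝ) ^ (1 - η) ≤ (⌊κ * Real.log X⌋₊ : ℝ) ∧
      ⌊κ * Real.log X⌋₊ ≤ ⌊Real.log h⌋₊ ∧
      ((⌊Real.log h⌋₊ : ℕ) : ℝ) ≤ ((⌊Real.log X⌋₊ : ℕ) : ℝ) ^ (1 + η) := by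
  have h1 : Tendsto (fun X : ℕ => (Real.log X / 2) ^ η) atTop atTop :=
    (tendsto_rpow_atTop hη).comp (tlog.atTop_div_const (by norm_num))
  filter_upwards [vrange hκ hκ1 hη hη1, h1.eventually_ge_atTop 4, tlog.eventually_ge_atTop 2,
    eventually_ge_atTop 1] with X g1 g2 hL hX1 h hh1 hh2
  obtain ⟨l1, l2⟩ := log_range hX1 hh1 hh2
  have g3 := (g1 X le_rfl (by omega)).1
  clear h1 g1
  generalize Real.log (X : ℝ) = L at *
  have hL0 : 0 < L := by linarith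
  have f1 : (⌊L⌋₊ : ℝ) ≤ L := Nat.floor_le hL0.le
  have f2 : L < (⌊L⌋₊ : ℝ) + 1 := Nat.lt_floor_add_one L
  refine ⟨?_, ?_, ?_⟩
  · exact (Real.rpow_le_rpow (by positivity) f1 (by linarith)).trans g3
  · exact Nat.floor_le_floor (by nlinarith)
  · have f3 : (⌊Real.log h⌋₊ : ℝ) ≤ Real.log h := Nat.floor_le (by linarith)
    have f4 : L / 2 ≤ (⌊L⌋₊ : ℝ) := by linarith
    calc (⌊Real.log h⌋₊ : ℝ) ≤ L + 1 := by linarith
      _ ≤ L / 2 * 4 := by linarith
      _ ≤ L / 2 * (L / 2) ^ η := by gcongr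
      _ = (L / 2) ^ (1 + η) := by
          rw [Real.rpow_add (by linarith), Real.rpow_one]
      _ ≤ (⌊L⌋₊ : ℝ) ^ (1 + η) := Real.rpow_le_rpow (by linarith) f4 (by linarith)

/-- the normalised length, uniformly -/
lemma uss (hNU : S_NU) (hSST : S_SST) {κ C : ℝ} (hκ : 0 < κ) (hκ1 : κ ≤ 1) (hC : 0 < C) {U : ℕ → ℕ}
    (hU : Tendsto (fun h : ℕ => (U h : ℝ) * SS ⌊Real.log h⌋₊ h / Real.log h ^ 3) atTop (𝓝 C)) {ε : ℝ}
    (hε : 0 < ε) : ∀ᶠ X : ℕ in atTop, ∀ h : ℕ, X ≤ h → h ≤ 2 * X →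
      |(U h : ℝ) * SS ⌊κ * Real.log X⌋₊ h / Real.log h ^ 3 - C| ≤ ε ∧
      |(U h : ℝ) * SS ⌊κ * Real.log X⌋₊ h / Real.log X ^ 3 - C| ≤ ε := by
  obtain ⟨C0, hC0, hS⟩ := hSST
  obtain ⟨e, he⟩ : ∃ e : ℝ, e = min 1 (ε / (4 + 3 * C)) := ⟨_, rfl⟩
  have he0 : 0 < e := by rw [he]; positivity
  have he1 : e ≤ 1 := by rw [he]; exact min_le_left _ _
  have he2 : (4 + 3 * C) * e ≤ ε := by
    have : e ≤ ε / (4 + 3 * C) := by rw [he]; exact min_le_right _ _
    calc (4 + 3 * C) * e ≤ (4 + 3 * C) * (ε / (4 + 3 * C)) := by gcongr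
      _ = ε := by field_simp
  obtain ⟨η, hη⟩ : ∃ η : ℝ, η = min (1 / 2) (e / C0) := ⟨_, rfl⟩
  have hη0 : 0 < η := by rw [hη]; positivity
  have hη1 : η ≤ 1 / 2 := by rw [hη]; exact min_le_left _ _
  have hη2 : C0 * η ≤ e := by
    have : η ≤ e / C0 := by rw [hη]; exact min_le_right _ _
    calc C0 * η ≤ C0 * (e / C0) := by gcongr
      _ = e := by field_simp
  have hU' : Tendsto (fun h : ℕ => |(U h : ℝ) * SS ⌊Real.log h⌋₊ h / Real.log h ^ 3 - C|) atTop (𝓝 0) := by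
    simpa using (hU.sub_const C).abs
  have hρ : Tendsto (fun X : ℕ => (1 + 1 / Real.log X) ^ 3) atTop (𝓝 1) := by
    have h1 : Tendsto (fun X : ℕ => 1 + 1 / Real.log X) atTop (𝓝 (1 + 0)) :=
      tendsto_const_nhds.add (tlog.const_div_atTop 1)
    simpa using h1.pow 3
  filter_upwards [lvl hκ hκ1 hη0 hη1, floor_tendsto.eventually (hS η hη0 hη1),
    eventually_forall_ge_atTop.2 (hU'.eventually_le_const he0),
    hρ.eventually_le_const (show 1 < 1 + e by linarith), tlog.eventually_ge_atTop 1,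
    eventually_ge_atTop 1] with X g1 g2 g3 g4 hL hX1 h hh1 hh2
  obtain ⟨l1, l2⟩ := log_range hX1 hh1 hh2
  obtain ⟨a1, a2, a3⟩ := g1 h hh1 hh2
  have b1 := (g2 _ _ h a1 a2 a3).2.1
  have b2 := g3 h hh1
  have b3 := (hNU.2.1 ⌊Real.log h⌋₊ h).2.2.1
  clear g1 g2 g3 hU' hρ hU
  generalize ⌊κ * Real.log X⌋₊ = v at *
  generalize Real.log (X : ℝ) = L at *
  have hL0 : 0 < L := by linarith
  have hl0 : 0 < Real.log h := by linarith
  have hS0 : 0 < SS ⌊Real.log h⌋₊ h := by linarith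
  obtain ⟨s, hs⟩ : ∃ s, s = SS v h / SS ⌊Real.log h⌋₊ h := ⟨_, rfl⟩
  have s1 : |s - 1| ≤ e := by
    have : s - 1 = -((SS ⌊Real.log h⌋₊ h - SS v h) / SS ⌊Real.log h⌋₊ h) := by
      rw [hs]; field_simp; ring
    rw [this, abs_neg, abs_div, abs_of_pos hS0, div_le_iff₀ hS0]
    exact b1.trans (mul_le_mul_of_nonneg_right hη2 hS0.le)
  obtain ⟨ρ, hρ⟩ : ∃ ρ, ρ = (Real.log h / L) ^ 3 := ⟨_, rfl⟩
  have r1 : 1 ≤ ρ := by
    rw [hρ]; exact one_le_pow₀ ((one_le_div hL0).2 l1)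
  have r2 : ρ ≤ 1 + e := by
    refine le_trans ?_ g4
    rw [hρ]
    refine pow_le_pow_left₀ (by positivity) ?_ 3
    rw [div_le_iff₀ hL0]
    have : (1 + 1 / L) * L = L + 1 := by field_simp
    rw [this]; exact l2
  obtain ⟨a, ha⟩ : ∃ a, a = (U h : ℝ) * SS ⌊Real.log h⌋₊ h / Real.log h ^ 3 := ⟨_, rfl⟩
  rw [← ha] at b2
  have e1 : (U h : ℝ) * SS v h / Real.log h ^ 3 = a * s := by
    rw [ha, hs]; field_simp
  have e2 : (U h : ℝ) * SS v h / L ^ 3 = a * s * ρ := by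
    rw [ha, hs, hρ]; field_simp
  rw [e1, e2]
  have s2 := abs_le.1 s1
  have c1 := abs_le.1 b2
  have s3 : |s| ≤ 2 := by rw [abs_le]; constructor <;> linarith
  constructor
  · calc |a * s - C| = |(a - C) * s + C * (s - 1)| := by ring_nf
      _ ≤ |(a - C) * s| + |C * (s - 1)| := abs_add_le _ _
      _ = |a - C| * |s| + C * |s - 1| := by rw [abs_mul, abs_mul, abs_of_pos hC]
      _ ≤ e * 2 + C * e := by gcongr
      _ ≤ ε := by nlinarith
  · have r3 : |ρ - 1| ≤ e := by rw [abs_le]; constructor <;> linarith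
    have r4 : |ρ| ≤ 2 := by rw [abs_le]; constructor <;> linarith
    calc |a * s * ρ - C| = |(a - C) * s * ρ + C * ((s - 1) * ρ + (ρ - 1))| := by ring_nf
      _ ≤ |(a - C) * s * ρ| + |C * ((s - 1) * ρ + (ρ - 1))| := abs_add_le _ _
      _ = |a - C| * |s| * |ρ| + C * |(s - 1) * ρ + (ρ - 1)| := by
          rw [abs_mul, abs_mul, abs_mul, abs_of_pos hC]
      _ ≤ |a - C| * |s| * |ρ| + C * (|s - 1| * |ρ| + |ρ - 1|) := by
          have := abs_add_le ((s - 1) * ρ) (ρ - 1)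
          rw [abs_mul] at this
          gcongr
      _ ≤ e * 2 * 2 + C * (e * 2 + e) := by gcongr
      _ = (4 + 3 * C) * e := by ring
      _ ≤ ε := he2

/-- the bound for the lengths -/
noncomputable def RR (C : ℝ) (X : ℕ) : ℕ := ⌈2 * (C + 1) * Real.log X ^ 3⌉₊

lemma RR_tendsto {C : ℝ} (hC : 0 < C) :
    Tendsto (fun X : ℕ => ((2 * RR C X + 1 : ℕ) : ℝ) / Real.log X ^ (2 + 1)) atTop (𝓝 (4 * (C + 1))) := by
  have h1 : Tendsto (fun X : ℕ => Real.log X ^ (2 + 1)) atTop atTop := (tendsto_pow_atTop (by norm_num)).comp tlog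
  have h2 : Tendsto (fun X : ℕ => 4 * (C + 1) + 3 / Real.log X ^ (2 + 1)) atTop (𝓝 (4 * (C + 1) + 0)) :=
    tendsto_const_nhds.add (h1.const_div_atTop 3)
  rw [add_zero] at h2
  refine tendsto_of_tendsto_of_tendsto_of_le_of_le' tendsto_const_nhds h2 ?_ ?_
  · filter_upwards [tlog.eventually_ge_atTop 1] with X hL
    have hL0 : 0 < Real.log X ^ (2 + 1) := by positivity
    rw [le_div_iff₀ hL0]
    have := Nat.le_ceil (2 * (C + 1) * Real.log X ^ 3)
    unfold RR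
    push_cast
    norm_num at this ⊢
    linarith
  · filter_upwards [tlog.eventually_ge_atTop 1] with X hL
    have hL0 : 0 < Real.log X ^ (2 + 1) := by positivity
    rw [div_le_iff₀ hL0]
    have := Nat.ceil_lt_add_one (show 0 ≤ 2 * (C + 1) * Real.log X ^ 3 by positivity)
    unfold RR
    push_cast
    have e1 : (4 * (C + 1) + 3 / Real.log X ^ (2 + 1)) * Real.log X ^ (2 + 1) =
        4 * (C + 1) * Real.log X ^ 3 + 3 := by field_simp
    rw [e1]
    linarith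

/-- the lengths against `w³` -/
lemma w3 (hNU : S_NU) (hSST : S_SST) {κ C c0 : ℝ} (hκ : 0 < κ) (hκ1 : κ ≤ 1) (hC : 0 < C) (hc : 0 < c0)
    (hcC : c0 ^ 3 = C) {U : ℕ → ℕ}
    (hU : Tendsto (fun h : ℕ => (U h : ℝ) * SS ⌊Real.log h⌋₊ h / Real.log h ^ 3) atTop (𝓝 C)) {η : ℝ}
    (hη : 0 < η) : ∀ᶠ w : ℕ in atTop, ∀ h : ℕ, XX c0 w ≤ h → h ≤ 2 * XX c0 w →
      |(U h : ℝ) * SS ⌊κ * Real.log (XX c0 w)⌋₊ h - (w : ℝ) ^ 3| ≤ η * (w : ℝ) ^ 3 := by
  have h1 := (XX_log hc).pow 3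
  have h2 : (1 / c0) ^ 3 = 1 / C := by rw [div_pow, hcC, one_pow]
  rw [h2] at h1
  have h3 : Tendsto (fun w : ℕ => |(Real.log (XX c0 w) / w) ^ 3 - 1 / C|) atTop (𝓝 0) := by
    simpa using (h1.sub_const (1 / C)).abs
  have hC1 : 0 < 1 / C := by positivity
  filter_upwards [(XX_tendsto hc).eventually (uss hNU hSST hκ hκ1 hC hU (ε := η * C / 4) (by positivity)),
    h3.eventually_le_const (show 0 < η / (2 * C) by positivity),
    h1.eventually_le_const (show 1 / C < 2 * (1 / C) by linarith), eventually_ge_atTop 1,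
    (tlog.comp (XX_tendsto hc)).eventually_ge_atTop 1] with w g1 g2 g3 hw1 hL h hh1 hh2
  simp only [Function.comp] at hL
  have g4 := (g1 h hh1 hh2).2
  clear g1 h1 h3 hU
  generalize ⌊κ * Real.log (XX c0 w)⌋₊ = v at *
  generalize Real.log (XX c0 w : ℝ) = L at *
  have hw0 : (0 : ℝ) < w := by exact_mod_cast hw1
  have hL0 : 0 < L := by linarith
  obtain ⟨q, hq⟩ : ∃ q, q = (L / w) ^ 3 := ⟨_, rfl⟩
  obtain ⟨x, hx⟩ : ∃ x, x = (U h : ℝ) * SS v h / L ^ 3 := ⟨_, rfl⟩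
  rw [← hq] at g2 g3
  rw [← hx] at g4
  have hq0 : 0 < q := by rw [hq]; positivity
  have e1 : (U h : ℝ) * SS v h - (w : ℝ) ^ 3 = (x * q - 1) * (w : ℝ) ^ 3 := by
    rw [hx, hq]; field_simp
  rw [e1, abs_mul, abs_of_pos (show 0 < (w : ℝ) ^ 3 by positivity)]
  refine mul_le_mul_of_nonneg_right ?_ (by positivity)
  have e2 : x * q - 1 = (x - C) * q + C * (q - 1 / C) := by field_simp; ring
  rw [e2]
  calc |(x - C) * q + C * (q - 1 / C)| ≤ |(x - C) * q| + |C * (q - 1 / C)| := abs_add_le _ _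
    _ = |x - C| * q + C * |q - 1 / C| := by rw [abs_mul, abs_mul, abs_of_pos hC, abs_of_pos hq0]
    _ ≤ η * C / 4 * (2 * (1 / C)) + C * (η / (2 * C)) := by gcongr
    _ = η := by field_simp; norm_num

section meas

variable {Ω : Type} [MeasurableSpace Ω] {P : Measure Ω} {A : ℕ → Set Ω} {z : ℕ → ℕ}

lemma ph_meas (hA : ∀ n, MeasurableSet (A n)) (h j : ℕ) : MeasurableSet (PH A h j) :=
  (hA _).inter (hA _)

lemma gt_meas (hA : ∀ n, MeasurableSet (A n)) (h U : ℕ) : Measurable (fun ω => gt A ω h U) := by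
  classical
  have h1 : (fun ω => gt A ω h U) =
      fun ω => ∑ j ∈ Finset.range U, (PH A h j).indicator (fun _ => 1) ω := by
    funext ω
    unfold gt
    rw [Finset.card_filter]
    refine Finset.sum_congr rfl fun j _ => ?_
    simp [Set.indicator_apply]
  rw [h1]
  exact Finset.measurable_sum _ fun j _ => measurable_const.indicator (ph_meas hA _ _)

lemma core (hNU : S_NU) (hSST : S_SST) (hWNG : S_WNG) (hEPG : S_EPG) (hEXWG : S_EXWG) (hPOSG : S_POSG)
    (hM : GMod P A z) {C σ : ℝ} (hC : 0 < C) (hσ : 0 ≤ σ) {U : ℕ → ℕ}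
    (hU : Tendsto (fun h : ℕ => (U h : ℝ) * SS ⌊Real.log h⌋₊ h / Real.log h ^ 3) atTop (𝓝 C))
    {G : ℕ → Set ℕ} {r η : ℝ} (hr0 : 0 ≤ r) (hr : r < 1) (hη : 0 < η)
    (hgood : ∀ᶠ h : ℕ in atTop, U h < h →
      |(∑ j ∈ Finset.range (U h), (P (PH A h j)).toReal) - C * σ * Real.log h| ≤ η * Real.log h →
      (∀ j < U h, (P (PH A h j)).toReal ≤ η) →
      ENNReal.ofReal (Real.exp (-(r * Real.log h))) ≤ P {ω | gt A ω h (U h) ∈ G h}) :
    ∃ c0 e : ℝ, 0 < c0 ∧ 0 < e ∧ ∀ ε : ℝ, 0 < ε → ∀ᶠ w : ℕ in atTop,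
      (|hi3 w - σ| ≤ e ∨ |lo3 w - σ| ≤ e) →
      P {ω | ¬ ∃ h : ℕ, XX c0 w ≤ h ∧ gt A ω h (U h) ∈ G h} ≤ ENNReal.ofReal ε := by
  have hprob := hM.prob
  obtain ⟨c0, hc0⟩ : ∃ c0 : ℝ, c0 = C ^ ((1 : ℝ) / 3) := ⟨_, rfl⟩
  have hc : 0 < c0 := by rw [hc0]; positivity
  have hcC : c0 ^ 3 = C := by
    rw [hc0, ← Real.rpow_natCast, ← Real.rpow_mul hC.le]
    norm_num
  obtain ⟨e, he⟩ : ∃ e : ℝ, e = min (1 / 2) (η / (8 * C)) := ⟨_, rfl⟩
  have he0 : 0 < e := by rw [he]; positivity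
  have he1 : e ≤ 1 / 2 := by rw [he]; exact min_le_left _ _
  have he2 : e ≤ η / (8 * C) := by rw [he]; exact min_le_right _ _
  obtain ⟨r', hr'⟩ : ∃ r' : ℝ, r' = (1 + r) / 2 := ⟨_, rfl⟩
  have hr'1 : r' < 1 := by rw [hr']; linarith
  obtain ⟨b, hb⟩ : ∃ b : ℝ, b = min (1 / 2) ((1 - r') / 2) := ⟨_, rfl⟩
  have hb0 : 0 < b := by rw [hb]; exact lt_min (by norm_num) (by linarith)
  have hb1 : b ≤ 1 / 2 := by rw [hb]; exact min_le_left _ _
  have hb2 : b ≤ (1 - r') / 2 := by rw [hb]; exact min_le_right _ _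
  obtain ⟨C', hC'⟩ : ∃ C' : ℝ, C' = max 1 (max (max (2 * C) (2 / C)) (max (2 / c0) (2 * c0))) := ⟨_, rfl⟩
  have hC'1 : 1 ≤ C' := by rw [hC']; exact le_max_left _ _
  have hC'2 : 2 * C ≤ C' := by
    rw [hC']; exact (le_max_left _ _).trans ((le_max_left _ _).trans (le_max_right _ _))
  have hC'3 : 2 / C ≤ C' := by
    rw [hC']; exact (le_max_right _ _).trans ((le_max_left _ _).trans (le_max_right _ _))
  have hC'4 : 2 / c0 ≤ C' := by
    rw [hC']; exact (le_max_left _ _).trans ((le_max_right _ _).trans (le_max_right _ _))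
  have hC'5 : 2 * c0 ≤ C' := by
    rw [hC']; exact (le_max_right _ _).trans ((le_max_right _ _).trans (le_max_right _ _))
  have hC'0 : 0 < C' := by linarith
  obtain ⟨η1, hη1, hη1', hE1⟩ := hEPG Ω P A z hM C' (η / 8) hC'1 (by positivity)
  obtain ⟨η2, hη2, hη2', hE2⟩ := hEXWG C' e hC'1 he0
  obtain ⟨hcnt1, hcnt2⟩ := count 2 (C := 4 * (C + 1)) (U := fun X => 2 * RR C X + 1) (by positivity) hb0
    hb1 hb2 hr'1 (RR_tendsto hC)
  have hv1 := vrange (κ := b / 2) (by linarith) (by linarith) hη1 hη1'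
  have hv2 := vrange (κ := b / 2) (by linarith) (by linarith) hη2 hη2'
  have hu := uss hNU hSST (κ := b / 2) (by linarith) (by linarith) hC hU
    (ε := min (min (C / 2) 1) (η / (4 * (σ + 1)))) (by positivity)
  have hw3 := w3 hNU hSST (κ := b / 2) (by linarith) (by linarith) hC hc hcC hU hη2
  have hlw := XX_log hc
  refine ⟨c0, e, hc, he0, fun ε hε => ?_⟩
  have hbig := hcnt2.eventually_ge_atTop (-Real.log ε)
  have hall := ((((eventually_forall_ge_atTop.2 hgood).and (eventually_forall_ge_atTop.2 hE1)).and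
    ((tlog.eventually hE2).and hu)).and ((hv1.and hv2).and (hcnt1.and hbig))).and
    ((tlog.eventually_ge_atTop (r / (r' - r))).and ((tlog.eventually_ge_atTop 1).and (eventually_ge_atTop 1)))
  have hc1 : 0 < 1 / c0 := by positivity
  filter_upwards [(XX_tendsto hc).eventually hall, hw3,
    hlw.eventually_le_const (show 1 / c0 < 2 * (1 / c0) by linarith),
    hlw.eventually_const_le (show (1 / c0) / 2 < 1 / c0 by linarith), eventually_ge_atTop 1]
    with w hw hUw hl1 hl2 hw1 hfr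
  generalize XX c0 w = X at hw hUw hl1 hl2 ⊢
  obtain ⟨⟨⟨⟨a1, a2⟩, a3, a4⟩, ⟨a5, a6⟩, a8, a9⟩, a10, a11, a12⟩ := hw
  obtain ⟨v, hv⟩ : ∃ v : ℕ, v = ⌊b / 2 * Real.log X⌋₊ := ⟨_, rfl⟩
  rw [← hv] at a4 a5 a6 a8 a9 hUw
  obtain ⟨M, hMd⟩ : ∃ M : ℕ, M = X / (4 * (primorial v * (2 * RR C X + 1 + 1))) := ⟨_, rfl⟩
  rw [← hMd] at a9
  have hXX : X ≤ 2 * X := by omega
  have hw0 : (0 : ℝ) < w := by exact_mod_cast hw1
  have hL0 : 0 < Real.log X := by linarith
  -- the place `t`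
  have hw5 : Real.log X ≤ C' * w := by
    rw [div_le_iff₀ hw0] at hl1
    have : 2 * (1 / c0) ≤ C' := by
      calc 2 * (1 / c0) = 2 / c0 := by ring
        _ ≤ C' := hC'4
    exact hl1.trans (mul_le_mul_of_nonneg_right this hw0.le)
  have hw6 : (w : ℝ) ≤ C' * Real.log X := by
    rw [le_div_iff₀ hw0] at hl2
    have e1 : (w : ℝ) = 2 * c0 * (1 / c0 / 2 * w) := by field_simp
    rw [e1]
    calc 2 * c0 * (1 / c0 / 2 * w) ≤ 2 * c0 * Real.log X := by gcongr
      _ ≤ C' * Real.log X := by gcongr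
  obtain ⟨t, hDt⟩ : ∃ t : ℕ, ∀ U' : ℕ, |U' * SS v t - (w : ℝ) ^ 3| ≤ η2 * (w : ℝ) ^ 3 →
      |EE v t U' - σ| ≤ 2 * e := by
    obtain ⟨⟨m1, h1⟩, m2, h2⟩ := a3 w hw5 hw6
    have hv3 := a6 X le_rfl hXX
    rcases hfr with h | h
    · refine ⟨m1, fun U' hU' => ?_⟩
      have := h1 U' v hU' hv3.1 hv3.2
      calc |EE v m1 U' - σ| = |(EE v m1 U' - hi3 w) + (hi3 w - σ)| := by ring_nf
        _ ≤ _ := abs_add_le _ _
        _ ≤ 2 * e := by linarith
    · refine ⟨m2, fun U' hU' => ?_⟩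
      have := h2 U' v hU' hv3.1 hv3.2
      calc |EE v m2 U' - σ| = |(EE v m2 U' - lo3 w) + (lo3 w - σ)| := by ring_nf
        _ ≤ _ := abs_add_le _ _
        _ ≤ 2 * e := by linarith
  have hMX : 4 * (M * (primorial v * (2 * RR C X + 2))) ≤ X := by
    have := Nat.div_mul_le_self X (4 * (primorial v * (2 * RR C X + 1 + 1)))
    rw [← hMd] at this
    calc 4 * (M * (primorial v * (2 * RR C X + 2))) = M * (4 * (primorial v * (2 * RR C X + 1 + 1))) := by
          ring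
      _ ≤ X := this
  obtain ⟨pos, hp1, hp2, hp3⟩ := hPOSG v t X M (RR C X) a8 hMX
  -- the lengths
  have hUR : ∀ i < M, U (pos i) ≤ RR C X := by
    intro i hi
    obtain ⟨p1, p2⟩ := hp2 i hi
    have h1 := (a4 (pos i) p1 p2).2
    have h2 : (U (pos i) : ℝ) * SS v (pos i) / Real.log X ^ 3 ≤ C + 1 := by
      have h3 := (abs_le.1 h1).2
      have h4 : min (min (C / 2) 1) (η / (4 * (σ + 1))) ≤ 1 :=
        (min_le_left _ _).trans (min_le_right _ _)
      linarith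
    rw [div_le_iff₀ (by positivity)] at h2
    have h3 := (hNU.2.1 v (pos i)).2.2.1
    have h4 : (U (pos i) : ℝ) ≤ 2 * (C + 1) * Real.log X ^ 3 := by
      have h5 : (U (pos i) : ℝ) * (1 / 2) ≤ U (pos i) * SS v (pos i) := by gcongr
      linarith
    have h5 : (U (pos i) : ℝ) ≤ (RR C X : ℝ) := h4.trans (Nat.le_ceil _)
    exact_mod_cast h5
  have hRX : ∀ i < M, RR C X < X := by
    intro i hi
    have h1 : 1 ≤ M := by omega
    have h2 := primorial_pos v
    have h3 : 1 * (1 * (2 * RR C X + 2)) ≤ M * (primorial v * (2 * RR C X + 2)) :=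
      Nat.mul_le_mul h1 (Nat.mul_le_mul_right _ h2)
    omega
  -- each window is good with a large probability
  have hq : ∀ i < M, ENNReal.ofReal (Real.exp (-(r' * Real.log X))) ≤
      P {ω | gt A ω (pos i) (U (pos i)) ∈ G (pos i)} := by
    intro i hi
    obtain ⟨p1, p2⟩ := hp2 i hi
    have u1 := hUR i hi
    have u2 := hRX i hi
    obtain ⟨l1, l2⟩ := log_range a12 p1 p2
    have hl0 : 0 < Real.log (pos i) := by linarith
    obtain ⟨q1, q2⟩ := hp3 i
    have hSS : SS v (pos i) = SS v t := by unfold SS; rw [q1]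
    have hEE : EE v (pos i) (U (pos i)) = EE v t (U (pos i)) := by unfold EE; rw [q1, q2]
    have hD := hDt (U (pos i)) (by rw [← hSS]; exact hUw (pos i) p1 p2)
    rw [← hEE] at hD
    have ha := (a4 (pos i) p1 p2).1
    have ha1 : |(U (pos i) : ℝ) * SS v (pos i) / Real.log (pos i) ^ 3 - C| ≤ C / 2 :=
      ha.trans ((min_le_left _ _).trans (min_le_left _ _))
    have ha2 : |(U (pos i) : ℝ) * SS v (pos i) / Real.log (pos i) ^ 3 - C| ≤ η / (4 * (σ + 1)) :=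
      ha.trans (min_le_right _ _)
    have ha3 := abs_le.1 ha1
    have hl3 : 0 < Real.log (pos i) ^ 3 := by positivity
    have k1 : Real.log (pos i) ^ 3 / C' ≤ U (pos i) * SS v (pos i) := by
      have h1 : C / 2 ≤ (U (pos i) : ℝ) * SS v (pos i) / Real.log (pos i) ^ 3 := by linarith
      rw [le_div_iff₀ hl3] at h1
      refine le_trans ?_ h1
      rw [div_le_iff₀ hC'0]
      have h2 : 1 ≤ C / 2 * C' := by
        calc (1 : ℝ) = C / 2 * (2 / C) := by field_simp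
          _ ≤ C / 2 * C' := by gcongr
      calc Real.log (pos i) ^ 3 = 1 * Real.log (pos i) ^ 3 := (one_mul _).symm
        _ ≤ (C / 2 * C') * Real.log (pos i) ^ 3 := by gcongr
        _ = C / 2 * Real.log (pos i) ^ 3 * C' := by ring
    have k2 : (U (pos i) : ℝ) * SS v (pos i) ≤ C' * Real.log (pos i) ^ 3 := by
      have h1 : (U (pos i) : ℝ) * SS v (pos i) / Real.log (pos i) ^ 3 ≤ C' := by linarith
      rw [div_le_iff₀ hl3] at h1
      exact h1
    have h1 := (a2 (pos i) p1).1 (U (pos i)) v k1 k2 (a5 _ p1 p2).1 (a5 _ p1 p2).2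
    have hest := est (L := Real.log (pos i)) (l := Real.log (pos i)) (by linarith) le_rfl (by linarith) hC hσ
      hη h1 (by rw [div_self hl0.ne', mul_one]; exact ha2) hD he1 he2
    have hU0 : U (pos i) < pos i := by omega
    have h4 : 2 * RR C X + 2 ≤ X := by
      have h1 : 1 ≤ M := by omega
      have h2 := primorial_pos v
      have h3 : 1 * (1 * (2 * RR C X + 2)) ≤ M * (primorial v * (2 * RR C X + 2)) :=
        Nat.mul_le_mul h1 (Nat.mul_le_mul_right _ h2)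
      omega
    refine le_trans ?_ (a1 (pos i) p1 hU0 hest fun j hj => ?_)
    · apply ENNReal.ofReal_le_ofReal
      rw [Real.exp_le_exp, neg_le_neg_iff]
      have hrr : 0 < r' - r := by rw [hr']; linarith
      rw [div_le_iff₀ hrr] at a10
      have : r * Real.log (pos i) ≤ r * (Real.log X + 1) := mul_le_mul_of_nonneg_left l2 hr0
      linarith
    · have := (a2 (pos i) p1).2 j (by omega)
      linarith
  have hW := hWNG Ω P A z hM M (fun i => U (pos i)) pos (fun i => (G (pos i))ᶜ)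
    (fun i hi => by
      have h1 := hUR i hi
      have h2 := hRX i hi
      have h3 := (hp2 i hi).1
      omega)
    (fun i j hij hj => by
      have h1 := hUR i (by omega)
      have h2 := hUR j hj
      have h3 := hp1 i j hij
      omega)
  have hsub : P {ω | ¬ ∃ h : ℕ, X ≤ h ∧ gt A ω h (U h) ∈ G h} ≤
      P {ω | ∀ i < M, gt A ω (pos i) (U (pos i)) ∈ (G (pos i))ᶜ} := by
    refine measure_mono fun ω hω i hi hG => hω ?_
    exact ⟨pos i, (hp2 i hi).1, hG⟩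
  refine hsub.trans ?_
  rw [hW]
  have hq' : ∀ i ∈ Finset.range M, P {ω | gt A ω (pos i) (U (pos i)) ∈ (G (pos i))ᶜ} ≤
      ENNReal.ofReal (Real.exp (-Real.exp (-(r' * Real.log X)))) := by
    intro i hi
    have h1 := hq i (Finset.mem_range.1 hi)
    have h2 : MeasurableSet {ω | gt A ω (pos i) (U (pos i)) ∈ G (pos i)} :=
      (gt_meas hM.meas (pos i) (U (pos i))) (MeasurableSet.of_discrete)
    have h3 : {ω | gt A ω (pos i) (U (pos i)) ∈ (G (pos i))ᶜ} =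
        {ω | gt A ω (pos i) (U (pos i)) ∈ G (pos i)}ᶜ := rfl
    rw [h3, prob_compl_eq_one_sub h2]
    calc 1 - P {ω | gt A ω (pos i) (U (pos i)) ∈ G (pos i)} ≤
        1 - ENNReal.ofReal (Real.exp (-(r' * Real.log X))) := tsub_le_tsub_left h1 _
      _ = ENNReal.ofReal (1 - Real.exp (-(r' * Real.log X))) := by
          rw [ENNReal.ofReal_sub _ (Real.exp_pos _).le, ENNReal.ofReal_one]
      _ ≤ _ := by
          apply ENNReal.ofReal_le_ofReal
          have := Real.add_one_le_exp (-Real.exp (-(r' * Real.log X)))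
          linarith
  refine (Finset.prod_le_prod' hq').trans ?_
  rw [Finset.prod_const, Finset.card_range, ← ENNReal.ofReal_pow (Real.exp_pos _).le]
  apply ENNReal.ofReal_le_ofReal
  rw [← Real.exp_nat_mul]
  calc Real.exp (M * -Real.exp (-(r' * Real.log X))) ≤ Real.exp (Real.log ε) := by
        rw [Real.exp_le_exp]
        linarith
    _ = ε := Real.exp_log hε

/-- the null set argument -/
lemma core2 (hNU : S_NU) (hSST : S_SST) (hWNG : S_WNG) (hEPG : S_EPG) (hEXWG : S_EXWG) (hPOSG : S_POSG)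
    (hM : GMod P A z) {C σ : ℝ} (hC : 0 < C) (hσ : 0 ≤ σ) {U : ℕ → ℕ}
    (hU : Tendsto (fun h : ℕ => (U h : ℝ) * SS ⌊Real.log h⌋₊ h / Real.log h ^ 3) atTop (𝓝 C))
    (hfr : (∀ ε : ℝ, 0 < ε → ∃ᶠ w : ℕ in atTop, |hi3 w - σ| ≤ ε) ∨
      (∀ ε : ℝ, 0 < ε → ∃ᶠ w : ℕ in atTop, |lo3 w - σ| ≤ ε))
    {G : ℕ → Set ℕ} {r η : ℝ} (hr0 : 0 ≤ r) (hr : r < 1) (hη : 0 < η)
    (hgood : ∀ᶠ h : ℕ in atTop, U h < h →
      |(∑ j ∈ Finset.range (U h), (P (PH A h j)).toReal) - C * σ * Real.log h| ≤ η * Real.log h →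
      (∀ j < U h, (P (PH A h j)).toReal ≤ η) →
      ENNReal.ofReal (Real.exp (-(r * Real.log h))) ≤ P {ω | gt A ω h (U h) ∈ G h}) :
    ∀ᵐ ω ∂P, ∃ᶠ h : ℕ in atTop, gt A ω h (U h) ∈ G h := by
  obtain ⟨c0, e, hc, he, hcore⟩ := core hNU hSST hWNG hEPG hEXWG hPOSG hM hC hσ hU hr0 hr hη hgood
  have hfr' : ∃ᶠ w : ℕ in atTop, |hi3 w - σ| ≤ e ∨ |lo3 w - σ| ≤ e := by
    rcases hfr with h | h
    · exact (h e he).mono fun w hw => Or.inl hw
    · exact (h e he).mono fun w hw => Or.inr hw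
  have hnull : ∀ m : ℕ, P {ω | ∀ h : ℕ, m ≤ h → ¬ gt A ω h (U h) ∈ G h} = 0 := by
    intro m
    refine le_antisymm (ENNReal.le_of_forall_pos_le_add fun ε hε _ => ?_) zero_le
    rw [zero_add]
    have hev := hcore ε (by exact_mod_cast hε)
    have hXX := (XX_tendsto hc).eventually_ge_atTop m
    obtain ⟨w, hw1, hw2, hw3⟩ := (hfr'.and_eventually (hev.and hXX)).exists
    have h1 := hw2 hw1
    rw [ENNReal.ofReal_coe_nnreal] at h1
    refine le_trans (measure_mono fun ω hω => ?_) h1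
    rintro ⟨h, h2, h3⟩
    exact hω h (hw3.trans h2) h3
  have h2 : P (⋃ m : ℕ, {ω | ∀ h : ℕ, m ≤ h → ¬ gt A ω h (U h) ∈ G h}) = 0 := measure_iUnion_null hnull
  show P {ω | ¬ ∃ᶠ h : ℕ in atTop, gt A ω h (U h) ∈ G h} = 0
  refine measure_mono_null (fun ω hω => ?_) h2
  rw [Set.mem_ofPred_eq, not_frequently] at hω
  obtain ⟨m, hm⟩ := eventually_atTop.1 hω
  exact Set.mem_iUnion.2 ⟨m, fun h hh => hm h hh⟩

end meas

end GEGaux

open GEGaux in
theorem geg : S_WNG → S_IPG → S_EPG → S_EXWG → S_POSG → S_NU → S_SST → S_LDL → S_GEG := by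
  intro hWNG hIPG hEPG hEXWG hPOSG hNU hSST hLDL Ω _ P A z hM C σ hC hσ U hU hfr
  have hP := hM.prob
  constructor
  · intro t δ htt hδ hlt
    have hI : 0 ≤ (1 + t) * Real.log (1 + t) - t := by
      have h1 : 0 < 1 + t := by linarith
      have h2 := Real.one_sub_inv_le_log_of_pos h1
      have h3 : (1 + t) * (1 - (1 + t)⁻¹) ≤ (1 + t) * Real.log (1 + t) := by gcongr
      have h4 : (1 + t) * (1 - (1 + t)⁻¹) = t := by field_simp; ring
      linarith
    obtain ⟨δ', hδ'0, hδ'δ, hδ'1⟩ : ∃ δ' : ℝ, 0 < δ' ∧ δ' ≤ δ ∧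
        C * σ * ((1 + t) * Real.log (1 + t) - t) + δ' * |Real.log (1 + t)| < 1 := by
      obtain ⟨g, hg⟩ : ∃ g : ℝ, g = 1 - C * σ * ((1 + t) * Real.log (1 + t) - t) := ⟨_, rfl⟩
      have hg0 : 0 < g := by linarith
      have hK : 0 < |Real.log (1 + t)| + 1 := by positivity
      refine ⟨min δ (g / (2 * (|Real.log (1 + t)| + 1))), lt_min hδ (by positivity),
        min_le_left _ _, ?_⟩
      have h1 : min δ (g / (2 * (|Real.log (1 + t)| + 1))) * |Real.log (1 + t)| ≤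
          g / (2 * (|Real.log (1 + t)| + 1)) * (|Real.log (1 + t)| + 1) :=
        mul_le_mul (min_le_right _ _) (by linarith) (abs_nonneg _) (by positivity)
      have h2 : g / (2 * (|Real.log (1 + t)| + 1)) * (|Real.log (1 + t)| + 1) = g / 2 := by
        field_simp
      linarith
    obtain ⟨κ, hκ⟩ : ∃ κ : ℝ, κ = (1 - (C * σ * ((1 + t) * Real.log (1 + t) - t) +
      δ' * |Real.log (1 + t)|)) / 2 := ⟨_, rfl⟩
    have hκ0 : 0 < κ := by rw [hκ]; linarith
    obtain ⟨η, L0, hη, hL⟩ := hLDL (C * σ) t δ' κ (by positivity) htt hδ'0 hκ0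
    have hr : C * σ * ((1 + t) * Real.log (1 + t) - t) + δ' * |Real.log (1 + t)| + κ < 1 := by
      rw [hκ]; linarith
    have hr0 : 0 ≤ C * σ * ((1 + t) * Real.log (1 + t) - t) + δ' * |Real.log (1 + t)| + κ := by
      positivity
    have h := core2 hNU hSST hWNG hEPG hEXWG hPOSG hM hC hσ hU hfr
      (G := fun h => {N : ℕ | |(N : ℝ) - (1 + t) * (C * σ) * Real.log h| ≤ δ' * Real.log h}) hr0 hr hη
      (by
        filter_upwards [tlog.eventually_ge_atTop L0] with h hX1 h0 h1 h2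
        have h3 := (hL (Real.log h) hX1 Ω P hP (Finset.range (U h)) (PH A h)
          (fun j => ph_meas hM.meas h j) (hIPG Ω P A z hM h (U h) h0).1 h1 (by
            intro j hj
            exact h2 j (Finset.mem_range.1 hj))).1
        rw [ENNReal.ofReal_le_iff_le_toReal (measure_ne_top _ _)]
        exact h3)
    filter_upwards [h] with ω hω
    refine (hω.and_eventually (tlog.eventually_ge_atTop 1)).mono ?_
    rintro h ⟨hn3, hX⟩
    have hX0 : 0 < Real.log h := by linarith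
    have hn3' : |(gt A ω h (U h) : ℝ) - (1 + t) * (C * σ) * Real.log h| ≤ δ' * Real.log h := hn3
    have e1 : (gt A ω h (U h) : ℝ) / Real.log h - (1 + t) * (C * σ) =
        ((gt A ω h (U h) : ℝ) - (1 + t) * (C * σ) * Real.log h) / Real.log h := by
      field_simp
    rw [e1, abs_div, abs_of_pos hX0, div_le_iff₀ hX0]
    exact hn3'.trans (mul_le_mul_of_nonneg_right hδ'δ hX0.le)
  · intro hlt
    obtain ⟨κ, hκ⟩ : ∃ κ : ℝ, κ = (1 - C * σ) / 2 := ⟨_, rfl⟩
    have hκ0 : 0 < κ := by rw [hκ]; linarith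
    obtain ⟨η, L0, hη, hL⟩ := hLDL (C * σ) 0 1 κ (by positivity) (by norm_num) one_pos hκ0
    have hr : C * σ + κ < 1 := by rw [hκ]; linarith
    have hr0 : 0 ≤ C * σ + κ := by positivity
    have h := core2 hNU hSST hWNG hEPG hEXWG hPOSG hM hC hσ hU hfr
      (G := fun h => {N : ℕ | N = 0}) hr0 hr hη
      (by
        filter_upwards [tlog.eventually_ge_atTop L0] with h hX1 h0 h1 h2
        have h3 := (hL (Real.log h) hX1 Ω P hP (Finset.range (U h)) (PH A h)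
          (fun j => ph_meas hM.meas h j) (hIPG Ω P A z hM h (U h) h0).1 h1 (by
            intro j hj
            exact h2 j (Finset.mem_range.1 hj))).2
        rw [ENNReal.ofReal_le_iff_le_toReal (measure_ne_top _ _)]
        exact h3)
    exact h

end Pool.Agent.H13.GG
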