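import Pool.Agent.H13.GG.Stm
import Pool.Agent.H50.GW.GUP

/-! GG-GUG (helper72): the upper and lower limits (Borel-Cantelli part), after GW/GUP.lean (helper19). -/

set_option autoImplicit false

open MeasureTheory Filter ProbabilityTheory
open scoped Topology ENNReal

namespace Pool.Agent.H13.GG

open Pool.Agent.H50.BF (MM S_MERT)
open Pool.Agent.H50.GW (Rou GMod NN S_BTU S_LDU S_LDL)

namespace GUGx

open Pool.Agent.H50.GW.GUPx (log_tend bc)

variable {Ω : Type} [MeasurableSpace Ω] {P : Measure Ω} {A : ℕ → Set Ω} {z : ℕ → ℕ}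

omit [MeasurableSpace Ω] in
lemma gt_eq (ω : Ω) (h U : ℕ) : gt A ω h U = NN (Finset.range U) (PH A h) ω := rfl

lemma PH_meas (hG : GMod P A z) (h j : ℕ) : MeasurableSet (PH A h j) :=
  (hG.meas _).inter (hG.meas _)

lemma EE_nonneg (hNU : S_NU) (v h U : ℕ) : 0 ≤ EE v h U := by
  have := (hNU.2.1 v h).1
  unfold EE
  positivity

/-- all the asymptotic facts -/
lemma ev (hNU : S_NU) (hEP : S_EPG) (hED : S_EXDG) (hG : GMod P A z) {C : ℝ} (hC : 0 < C)
    {U : ℕ → ℕ}
    (hU : Tendsto (fun h : ℕ => (U h : ℝ) * SS ⌊Real.log h⌋₊ h / Real.log h ^ 3) atTop (𝓝 C))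
    {ε : ℝ} (hε : 0 < ε) (W0 : ℕ) : ∀ᶠ h : ℕ in atTop, 1 ≤ Real.log h ∧ U h < h ∧
      |(U h : ℝ) * SS ⌊Real.log h⌋₊ h / Real.log h ^ 3 - C| ≤ ε ∧
      ∃ D : ℝ, 0 ≤ D ∧ |(∑ j ∈ Finset.range (U h), (P (PH A h j)).toReal) / Real.log h -
        ((U h : ℝ) * SS ⌊Real.log h⌋₊ h / Real.log h ^ 3) * D| ≤ ε ∧
        ∃ w : ℕ, W0 ≤ w ∧ lo3 w - ε ≤ D ∧ D ≤ hi3 w + ε := by
  set C' : ℝ := max 1 (max (2 * C) (2 / C)) with hC'
  have hC'1 : 1 ≤ C' := le_max_left _ _
  have hC'2 : 2 * C ≤ C' := (le_max_left _ _).trans (le_max_right _ _)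
  have hC'3 : 2 / C ≤ C' := (le_max_right _ _).trans (le_max_right _ _)
  obtain ⟨η1, hη1, hη1', h1⟩ := hEP Ω P A z hG C' ε hC'1 hε
  obtain ⟨η2, hη2, hη2', h2⟩ := hED C' ε hC'1 hε
  have hpow : ∀ η : ℝ, 0 < η → ∀ᶠ n : ℕ in atTop,
      Real.log n ^ (1 - η) ≤ Real.log n - 1 := by
    intro η hη
    have h3 : ∀ᶠ x : ℝ in atTop, x ^ (1 - η) ≤ x - 1 := by
      filter_upwards [(tendsto_rpow_atTop hη).eventually_ge_atTop 2, eventually_ge_atTop (2 : ℝ)]
        with x hx hx1
      rw [Real.rpow_sub (by linarith), Real.rpow_one]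
      calc x / x ^ η ≤ x / 2 := div_le_div_of_nonneg_left (by linarith) (by norm_num) hx
        _ ≤ x - 1 := by linarith
    exact log_tend.eventually h3
  have hlo : ∀ᶠ n : ℕ in atTop, Real.log n ^ 3 ≤ n / (4 * C') := by
    have h3 := (Real.isLittleO_pow_log_id_atTop (n := 3)).bound
      (show (0 : ℝ) < 1 / (4 * C') by positivity)
    have h4 := tendsto_natCast_atTop_atTop (R := ℝ) |>.eventually h3
    filter_upwards [h4, log_tend.eventually_ge_atTop 1] with n hn hn1
    simp only [id] at hn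
    rw [Real.norm_of_nonneg (by positivity), Real.norm_of_nonneg (Nat.cast_nonneg n)] at hn
    calc _ ≤ _ := hn
      _ = _ := by ring
  filter_upwards [h1, log_tend.eventually h2, hpow η1 hη1, hpow η2 hη2, hlo,
    log_tend.eventually_ge_atTop 1, (Metric.tendsto_nhds.1 hU ε hε),
    (Metric.tendsto_nhds.1 hU (C / 2) (by positivity)),
    log_tend.eventually_ge_atTop (2 * C' * W0)]
    with n a1 a2 a3 a4 a5 a6 a7 a8 a9
  set L := Real.log (n : ℝ) with hL
  have hLp : 0 < L ^ 3 := by positivity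
  rw [Real.dist_eq] at a7 a8
  rw [abs_lt] at a8
  set v := ⌊L⌋₊ with hv
  have hUlo : L ^ 3 / C' ≤ U n * SS v n := by
    have e1 : C / 2 ≤ (U n : ℝ) * SS v n / L ^ 3 := by linarith
    rw [le_div_iff₀ hLp] at e1
    rw [div_le_iff₀ (by linarith)]
    have e2 : 2 ≤ C' * C := by rwa [div_le_iff₀ hC] at hC'3
    have e3 : C / 2 * L ^ 3 * C' ≤ U n * SS v n * C' :=
      mul_le_mul_of_nonneg_right e1 (by linarith)
    nlinarith
  have hUhi : (U n : ℝ) * SS v n ≤ C' * L ^ 3 := by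
    have e1 : (U n : ℝ) * SS v n / L ^ 3 ≤ 2 * C := by linarith
    rw [div_le_iff₀ hLp] at e1
    nlinarith
  have hv1 : (v : ℝ) ≤ L := Nat.floor_le (by linarith)
  have hv2 : L - 1 ≤ (v : ℝ) := (Nat.sub_one_lt_floor L).le
  have hhigh : ∀ η : ℝ, 0 < η → (v : ℝ) ≤ L ^ (1 + η) := by
    intro η hη
    refine le_trans hv1 ?_
    calc L = L ^ (1 : ℝ) := (Real.rpow_one L).symm
      _ ≤ L ^ (1 + η) := Real.rpow_le_rpow_of_exponent_le a6 (by linarith)
  obtain ⟨w, hw1, hw2, hw3⟩ := a2 n (U n) v hUlo hUhi (a4.trans hv2) (hhigh η2 hη2)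
  refine ⟨a6, ?_, a7.le, EE v n (U n), EE_nonneg hNU _ _ _, ?_, w, ?_, hw2, hw3⟩
  · have hSS := (hNU.2.1 v n).2.2.1
    have h3 : (U n : ℝ) * (1 / 2) ≤ U n * SS v n :=
      mul_le_mul_of_nonneg_left hSS (Nat.cast_nonneg _)
    rw [le_div_iff₀ (by positivity)] at a5
    have hn0 : (0 : ℝ) < n := by nlinarith
    have : (U n : ℝ) < n := by nlinarith
    exact_mod_cast this
  · exact a1.1 (U n) v hUlo hUhi (a3.trans hv2) (hhigh η1 hη1)
  · have : (W0 : ℝ) ≤ w := by
      have h4 : 2 * C' * (W0 : ℝ) ≤ 2 * C' * w := a9.trans hw1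
      exact le_of_mul_le_mul_left h4 (by positivity)
    exact_mod_cast this

end GUGx

open GUGx Pool.Agent.H50.GW.GUPx in
theorem gug : S_IPG → S_EPG → S_EXDG → S_NU → S_LDU → S_GUG := by
  intro hIP hEP hED hNU hLDU Ω _ P A z hG C t u σ hC ht hσ hu U hU
  set δ : ℝ := u * Real.log (1 + t) - t * (C * σ) - 1 with hδ
  have hδ0 : 0 < δ := by linarith
  constructor
  · intro ht0 hhi
    set ε1 : ℝ := δ / (2 * t) with hε1
    have hε10 : 0 < ε1 := by positivity
    set ε : ℝ := min 1 (ε1 / (2 * C + σ + 3)) with hε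
    have hε0 : 0 < ε := lt_min one_pos (by positivity)
    have hε1' : ε ≤ 1 := min_le_left _ _
    have hε2 : ε * (2 * C + σ + 3) ≤ ε1 := by
      have : ε ≤ ε1 / (2 * C + σ + 3) := min_le_right _ _
      rwa [le_div_iff₀ (by positivity)] at this
    obtain ⟨W0, hW0⟩ := eventually_atTop.1 (hhi ε hε0)
    have key : ∀ᵐ ω ∂P, ∀ᶠ n : ℕ in atTop,
        ω ∉ {ω | u * Real.log n ≤ (NN (Finset.range (U n)) (PH A n) ω : ℝ)} := by
      refine bc (δ := δ / 2) (by positivity) ?_
      filter_upwards [ev hNU hEP hED hG hC hU hε0 W0] with n b1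
      obtain ⟨c1, c2, c3, D, c4, c5, w, c7, -, c6⟩ := b1
      have b2 := hW0 w c7
      have h1 := (hLDU Ω P hG.prob (Finset.range (U n)) (PH A n) (fun m => PH_meas hG n m)
        (hIP Ω P A z hG n (U n) c2).1 t (u * Real.log n) ht).1 ht0
      refine h1.trans (ENNReal.ofReal_le_ofReal (Real.exp_le_exp.2 ?_))
      set E := ∑ j ∈ Finset.range (U n), (P (PH A n j)).toReal with hE
      set L := Real.log (n : ℝ) with hL
      have hL0 : 0 < L := by linarith
      rw [abs_le] at c3 c5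
      set R := (U n : ℝ) * SS ⌊L⌋₊ n / L ^ 3 with hR
      have hR0 : 0 ≤ R := by
        have := (hNU.2.1 ⌊L⌋₊ n).2.2.1
        have : 0 ≤ SS ⌊L⌋₊ n := by linarith
        positivity
      have e1 : R * D ≤ (C + ε) * (σ + 2 * ε) := by
        calc R * D ≤ R * (σ + 2 * ε) := mul_le_mul_of_nonneg_left (by linarith) hR0
          _ ≤ _ := mul_le_mul_of_nonneg_right (by linarith) (by linarith)
      have e2 : E / L ≤ C * σ + ε1 := by nlinarith
      rw [div_le_iff₀ hL0] at e2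
      have e3 : t * E ≤ t * ((C * σ + ε1) * L) := mul_le_mul_of_nonneg_left e2 ht0.le
      have e4 : t * ε1 = δ / 2 := by
        rw [hε1]
        field_simp
      have e5 : t * ((C * σ + ε1) * L) = t * (C * σ) * L + δ / 2 * L := by
        rw [← e4]
        ring
      have e6 : u * L * Real.log (1 + t) = (1 + δ + t * (C * σ)) * L := by
        rw [hδ]
        ring
      rw [e6]
      linarith
    filter_upwards [key] with ω hω
    filter_upwards [hω] with n hn
    rw [gt_eq]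
    exact not_le.1 hn
  · intro ht0 hlo
    set ε1 : ℝ := δ / (2 * (-t)) with hε1
    have hε10 : 0 < ε1 := div_pos hδ0 (by linarith)
    set ε : ℝ := min 1 (ε1 / (2 * C + σ + 3)) with hε
    have hε0 : 0 < ε := lt_min one_pos (by positivity)
    have hε1' : ε ≤ 1 := min_le_left _ _
    have hε2 : ε * (2 * C + σ + 3) ≤ ε1 := by
      have : ε ≤ ε1 / (2 * C + σ + 3) := min_le_right _ _
      rwa [le_div_iff₀ (by positivity)] at this
    obtain ⟨W0, hW0⟩ := eventually_atTop.1 (hlo ε hε0)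
    have key : ∀ᵐ ω ∂P, ∀ᶠ n : ℕ in atTop,
        ω ∉ {ω | (NN (Finset.range (U n)) (PH A n) ω : ℝ) ≤ u * Real.log n} := by
      refine bc (δ := δ / 2) (by positivity) ?_
      filter_upwards [ev hNU hEP hED hG hC hU hε0 W0] with n b1
      obtain ⟨c1, c2, c3, D, c4, c5, w, c7, c6, -⟩ := b1
      have b2 := hW0 w c7
      have h1 := (hLDU Ω P hG.prob (Finset.range (U n)) (PH A n) (fun m => PH_meas hG n m)
        (hIP Ω P A z hG n (U n) c2).1 t (u * Real.log n) ht).2 ht0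
      refine h1.trans (ENNReal.ofReal_le_ofReal (Real.exp_le_exp.2 ?_))
      set E := ∑ j ∈ Finset.range (U n), (P (PH A n j)).toReal with hE
      set L := Real.log (n : ℝ) with hL
      have hL0 : 0 < L := by linarith
      rw [abs_le] at c3 c5
      set R := (U n : ℝ) * SS ⌊L⌋₊ n / L ^ 3 with hR
      have hR0 : 0 ≤ R := by
        have := (hNU.2.1 ⌊L⌋₊ n).2.2.1
        have : 0 ≤ SS ⌊L⌋₊ n := by linarith
        positivity
      have e0 : R * (σ - 2 * ε) ≤ R * D := mul_le_mul_of_nonneg_left (by linarith) hR0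
      have e0' : (C - ε) * σ ≤ R * σ := mul_le_mul_of_nonneg_right (by linarith) hσ
      have e0'' : R * (2 * ε) ≤ (C + ε) * (2 * ε) :=
        mul_le_mul_of_nonneg_right (by linarith) (by linarith)
      have e2 : C * σ - ε1 ≤ E / L := by nlinarith
      rw [le_div_iff₀ hL0] at e2
      have e3 : t * E ≤ t * ((C * σ - ε1) * L) := mul_le_mul_of_nonpos_left e2 ht0.le
      have e4 : t * ε1 = -(δ / 2) := by
        rw [hε1]
        have : t ≠ 0 := ht0.ne
        field_simp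
      have e5 : t * ((C * σ - ε1) * L) = t * (C * σ) * L + δ / 2 * L := by
        have : t * ((C * σ - ε1) * L) = t * (C * σ) * L - t * ε1 * L := by ring
        rw [this, e4]
        ring
      have e6 : u * L * Real.log (1 + t) = (1 + δ + t * (C * σ)) * L := by
        rw [hδ]
        ring
      rw [e6]
      linarith
    filter_upwards [key] with ω hω
    filter_upwards [hω] with n hn
    rw [gt_eq]
    exact not_le.1 hn

end Pool.Agent.H13.GG
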