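import Pool.Agent.H13.GG.Stm
import Pool.Agent.H50.BF.MMB

set_option autoImplicit false

/-! # GG-HBG: the densest interval -/

namespace Pool.Agent.H13.GG

open Filter Pool.Agent.H50.BF
open scoped Topology

namespace HBGaux

open Chebyshev

/-- Chebyshev: many primes between `w` and `U`. -/
lemma theta_diff : ∀ᶠ U : ℕ in atTop, ∀ w : ℕ, w ^ 2 ≤ U → (U : ℝ) / 3 ≤ θ (U : ℝ) - θ (w : ℝ) := by
  have h1 : ∀ᶠ U : ℕ in atTop, Real.log ((U : ℝ) + 1) ≤ (U : ℝ) / 100 := by
    have := Real.isLittleO_log_id_atTop.bound (show (0 : ℝ) < 1 / 200 by norm_num)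
    have h2 := (tendsto_natCast_atTop_atTop (R := ℝ)).atTop_add (tendsto_const_nhds (x := (1 : ℝ)))
    filter_upwards [h2.eventually this, eventually_ge_atTop 1] with U hU hU1
    simp only [id, Real.norm_eq_abs] at hU
    have h3 : (1 : ℝ) ≤ U := by exact_mod_cast hU1
    rw [abs_of_pos (by linarith : (0 : ℝ) < (U : ℝ) + 1)] at hU
    have := le_abs_self (Real.log ((U : ℝ) + 1))
    linarith
  have h2 : ∀ᶠ U : ℕ in atTop, 2 * Real.sqrt U * Real.log U ≤ (U : ℝ) / 100 := by
    have h3 := (isLittleO_log_rpow_atTop (show (0 : ℝ) < 1 / 2 by norm_num)).bound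
      (show (0 : ℝ) < 1 / 200 by norm_num)
    filter_upwards [(tendsto_natCast_atTop_atTop (R := ℝ)).eventually h3,
      eventually_ge_atTop 1] with U hU hU1
    have h4 : (1 : ℝ) ≤ U := by exact_mod_cast hU1
    rw [Real.norm_eq_abs, Real.norm_eq_abs, ← Real.sqrt_eq_rpow,
      abs_of_nonneg (Real.sqrt_nonneg _)] at hU
    have h5 := (le_abs_self _).trans hU
    have h6 := Real.mul_self_sqrt (show (0 : ℝ) ≤ U by linarith)
    have h7 := Real.sqrt_nonneg (U : ℝ)
    nlinarith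
  filter_upwards [h1, h2, eventually_ge_atTop 10000] with U e1 e2 e3 w hw
  have hU : (10000 : ℝ) ≤ U := by exact_mod_cast e3
  have g1 := theta_ge U
  have g2 := theta_le_log4_mul_x (show (0 : ℝ) ≤ (w : ℝ) by positivity)
  have hw' : (w : ℝ) ≤ Real.sqrt U := by
    apply Real.le_sqrt_of_sq_le
    exact_mod_cast hw
  have hs : Real.sqrt U ≤ U / 100 := by
    rw [Real.sqrt_le_left (by linarith)]
    nlinarith
  have l2 := Real.log_two_gt_d9
  have l4 : Real.log 4 ≤ 1.4 := by
    have : Real.log 4 = 2 * Real.log 2 := by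
      rw [show (4 : ℝ) = 2 ^ 2 by norm_num, Real.log_pow]; norm_num
    have := Real.log_two_lt_d9
    linarith
  have g3 : Real.log 4 * (w : ℝ) ≤ 1.4 * (U / 100) :=
    mul_le_mul l4 (hw'.trans hs) (by positivity) (by norm_num)
  nlinarith

open Classical in
lemma primes_le_sg (w U : ℕ) (hU : 1 < U) :
    θ (U : ℝ) - θ (w : ℝ) ≤ (sg w 0 0 U : ℝ) * Real.log U := by
  have hlog : 0 ≤ Real.log U := Real.log_nonneg (by exact_mod_cast hU.le)
  set T : Finset ℕ := (Finset.Ioc 0 U).filter (fun m => m.Prime ∧ w < m) with hT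
  have h1 : θ (U : ℝ) - θ (w : ℝ) ≤ ∑ m ∈ T, Real.log m := by
    have e1 : θ (U : ℝ) = ∑ m ∈ (Finset.Ioc 0 U).filter Nat.Prime, Real.log m := by
      rw [Chebyshev.theta, Nat.floor_natCast]
    have e2 : θ (w : ℝ) = ∑ m ∈ (Finset.Ioc 0 w).filter Nat.Prime, Real.log m := by
      rw [Chebyshev.theta, Nat.floor_natCast]
    rw [sub_le_iff_le_add, e1, e2]
    have hsub : (Finset.Ioc 0 U).filter Nat.Prime ⊆ T ∪ (Finset.Ioc 0 w).filter Nat.Prime := by
      intro m hm
      rw [Finset.mem_filter, Finset.mem_Ioc] at hm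
      rw [Finset.mem_union, hT, Finset.mem_filter, Finset.mem_filter, Finset.mem_Ioc,
        Finset.mem_Ioc]
      rcases Nat.lt_or_ge w m with h | h
      · exact Or.inl ⟨hm.1, hm.2, h⟩
      · exact Or.inr ⟨⟨hm.1.1, h⟩, hm.2⟩
    have hnn : ∀ m : ℕ, 0 ≤ Real.log m := fun m => Real.log_natCast_nonneg m
    calc ∑ m ∈ (Finset.Ioc 0 U).filter Nat.Prime, Real.log m
        ≤ ∑ m ∈ T ∪ (Finset.Ioc 0 w).filter Nat.Prime, Real.log m :=
          Finset.sum_le_sum_of_subset_of_nonneg hsub (fun m _ _ => hnn m)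
      _ ≤ ∑ m ∈ T ∪ (Finset.Ioc 0 w).filter Nat.Prime, Real.log m +
          ∑ m ∈ T ∩ (Finset.Ioc 0 w).filter Nat.Prime, Real.log m := by
          have : 0 ≤ ∑ m ∈ T ∩ (Finset.Ioc 0 w).filter Nat.Prime, Real.log m :=
            Finset.sum_nonneg (fun m _ => hnn m)
          linarith
      _ = _ := Finset.sum_union_inter
  have h2 : ∑ m ∈ T, Real.log m ≤ T.card * Real.log U := by
    rw [← nsmul_eq_mul]
    refine Finset.sum_le_card_nsmul _ _ _ (fun m hm => ?_)
    rw [hT, Finset.mem_filter, Finset.mem_Ioc] at hm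
    exact Real.log_le_log (by exact_mod_cast hm.1.1) (by exact_mod_cast hm.1.2)
  have h3 : T.card ≤ sg w 0 0 U := by
    unfold sg
    refine Finset.card_le_card_of_injOn (fun m => m - 1) ?_ ?_
    · intro m hm
      rw [hT, Finset.coe_filter, Set.mem_ofPred_eq, Finset.mem_Ioc] at hm
      rw [Finset.coe_filter, Set.mem_ofPred_eq, Finset.mem_range]
      obtain ⟨⟨m0, m1⟩, mp, mw⟩ := hm
      refine ⟨by show m - 1 < U; omega, fun p hp hpw hb => ?_⟩
      have e : 0 + (m - 1) + 1 = m := by omega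
      rw [e] at hb
      have hd : p ∣ m := by
        rcases hb with hb | hb
        · simpa using hb
        · rw [Nat.zero_mod] at hb
          exact Nat.dvd_of_mod_eq_zero hb
      have := (Nat.prime_dvd_prime_iff_eq hp mp).1 hd
      omega
    · intro x hx y hy hxy
      rw [hT, Finset.coe_filter, Set.mem_ofPred_eq, Finset.mem_Ioc] at hx hy
      simp only at hxy
      omega
  calc θ (U : ℝ) - θ (w : ℝ) ≤ T.card * Real.log U := h1.trans h2
    _ ≤ (sg w 0 0 U : ℝ) * Real.log U :=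
      mul_le_mul_of_nonneg_right (by exact_mod_cast h3) hlog

lemma PV_zero (hnu : S_NU) (w : ℕ) : PV w 0 = (MM w)⁻¹ := by
  unfold PV MM
  rw [← Finset.prod_inv_distrib]
  refine Finset.prod_congr rfl (fun p hp => ?_)
  rw [Finset.mem_filter] at hp
  have := (hnu.1 0 p hp.2).2.2 (by simp)
  rw [this, inv_inv]
  simp

end HBGaux

open HBGaux in
theorem hbg : S_SBG → S_NU → S_MERT → S_HBG := by
  intro hsbg hnu hmert
  obtain ⟨C, hC, hsb⟩ := hsbg
  refine ⟨1 / 24, C, by norm_num, ?_⟩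
  -- Mertens
  have hm1 : ∀ᶠ w : ℕ in atTop, 1 / 2 ≤ MM w / Real.log w := by
    have h1 : (1 : ℝ) / 2 < Real.exp Real.eulerMascheroniConstant := by
      have := Real.one_half_lt_eulerMascheroniConstant
      have h2 := Real.add_one_le_exp Real.eulerMascheroniConstant
      linarith
    exact (hmert.eventually (lt_mem_nhds h1)).mono fun _ h => h.le
  have hm2 : ∀ᶠ w : ℕ in atTop, MM w / Real.log w ≤ 3 := by
    have h1 : Real.exp Real.eulerMascheroniConstant < 3 := by
      have := Real.eulerMascheroniConstant_lt_two_thirds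
      have h2 : Real.exp Real.eulerMascheroniConstant < Real.exp 1 := Real.exp_lt_exp.2 (by linarith)
      have := Real.exp_one_lt_d9
      linarith
    exact (hmert.eventually (gt_mem_nhds h1)).mono fun _ h => h.le
  have hlog : ∀ᶠ w : ℕ in atTop, 3 * Real.log w ≤ w := by
    have := Real.isLittleO_log_id_atTop.bound (show (0 : ℝ) < 1 / 3 by norm_num)
    filter_upwards [(tendsto_natCast_atTop_atTop (R := ℝ)).eventually this] with w hw
    simp only [id, Real.norm_eq_abs] at hw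
    have h3 : |(w : ℝ)| = w := abs_of_nonneg (Nat.cast_nonneg w)
    rw [h3] at hw
    have := le_abs_self (Real.log (w : ℝ))
    linarith
  obtain ⟨U0, hU0⟩ := eventually_atTop.1 theta_diff
  filter_upwards [hsb 1 one_pos le_rfl, hm1, hm2, hlog, eventually_ge_atTop (max 3 U0)] with
    w h1 e1 e2 e3 hw
  have hw3 : 3 ≤ w := le_trans (le_max_left _ _) hw
  have hwU : U0 ≤ w := le_trans (le_max_right _ _) hw
  have hw1 : (3 : ℝ) ≤ w := by exact_mod_cast hw3
  have hlogpos : 0 < Real.log w := Real.log_pos (by linarith)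
  have hMMw : MM w ≤ w := by
    rw [div_le_iff₀ hlogpos] at e2
    linarith
  have hMMpos := MM_pos w
  have hUWge : ∀ t : ℕ, (w : ℝ) ^ 2 ≤ UW w t := by
    intro t
    have hs := (hnu.2.1 w t).2.2
    have hspos : 0 < SS w t := by linarith [hs.1]
    refine le_trans ?_ (Nat.le_ceil _)
    rw [le_div_iff₀ hspos]
    have : SS w t ≤ w := hs.2.trans hMMw
    nlinarith [sq_nonneg (w : ℝ)]
  have hup : ∀ t : ℕ, EE w t (UW w t) ≤ C := by
    intro t
    refine (h1 w t (UW w t) (UW w t) ?_ ?_ (hUWge t) le_rfl ?_).2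
    · rw [Real.sqrt_le_left (by linarith)]
      nlinarith
    · nlinarith
    · have : (0 : ℝ) ≤ (UW w t : ℝ) := Nat.cast_nonneg _
      linarith
  have hbdd : BddAbove (Set.range fun t : ℕ => EE w t (UW w t)) :=
    ⟨C, by rintro _ ⟨t, rfl⟩; exact hup t⟩
  refine ⟨?_, ciSup_le hup⟩
  refine le_trans ?_ (le_ciSup hbdd 0)
  set U := UW w 0 with hU
  have hUge := hUWge 0
  rw [← hU] at hUge
  have hUge' : w ^ 2 ≤ U := by exact_mod_cast hUge
  have hUw : w ≤ U := le_trans (by nlinarith) hUge'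
  have hUpos : (0 : ℝ) < U := by
    have : (0 : ℝ) < (w : ℝ) ^ 2 := by positivity
    linarith
  have hUle : (U : ℝ) ≤ (w : ℝ) ^ 4 := by
    have hs := (hnu.2.1 w 0).2.2
    have hspos : 0 < SS w 0 := by linarith [hs.1]
    have h2 : (U : ℝ) < (w : ℝ) ^ 3 / SS w 0 + 1 := Nat.ceil_lt_add_one (by positivity)
    have h3 : (w : ℝ) ^ 3 / SS w 0 ≤ 2 * (w : ℝ) ^ 3 := by
      rw [div_le_iff₀ hspos]
      have : (0 : ℝ) ≤ (w : ℝ) ^ 3 := by positivity
      nlinarith [hs.1]
    have h4 : (27 : ℝ) ≤ (w : ℝ) ^ 3 := by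
      have := pow_le_pow_left₀ (by norm_num) hw1 3
      norm_num at this
      exact this
    have h5 : (w : ℝ) ^ 4 = w * (w : ℝ) ^ 3 := by ring
    rw [h5]
    nlinarith
  have hlogU : Real.log U ≤ 4 * Real.log w := by
    have := Real.log_le_log hUpos hUle
    rw [Real.log_pow] at this
    exact_mod_cast this
  have hth := hU0 U (hwU.trans hUw) w hUge'
  have hsg := primes_le_sg w U (by omega)
  have hlogUpos : 0 < Real.log U := Real.log_pos (by
    have : (3 : ℝ) ≤ U := by exact_mod_cast (hw3.trans hUw)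
    linarith)
  have hsg2 : (U : ℝ) / 3 ≤ (sg w 0 0 U : ℝ) * (4 * Real.log w) :=
    (hth.trans hsg).trans (mul_le_mul_of_nonneg_left hlogU (Nat.cast_nonneg _))
  unfold EE
  rw [PV_zero hnu, le_div_iff₀ (by positivity)]
  have e1' : Real.log w ≤ 2 * MM w := by
    rw [le_div_iff₀ hlogpos] at e1
    linarith
  have hsg3 : (U : ℝ) / 3 ≤ (sg w 0 0 U : ℝ) * (8 * MM w) :=
    hsg2.trans (mul_le_mul_of_nonneg_left (by linarith) (Nat.cast_nonneg _))
  rw [← mul_assoc, ← div_eq_mul_inv, div_le_iff₀ hMMpos]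
  linarith

end Pool.Agent.H13.GG
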