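import Pool.Agent.H13.GG.Stm

/-! # GG-IPG: for fixed `h` the pairs are independent (helper37) -/

set_option autoImplicit false

open MeasureTheory Filter ProbabilityTheory
open scoped Topology ENNReal

namespace Pool.Agent.H13.GG

open Pool.Agent.H50.GW (GMod)

theorem ipg : S_IPG := by
  classical
  intro Ω _ P A z hG h U hU
  have hP := hG.prob
  have hpair : ∀ j < U, P (PH A h j) = P (A (h - (j + 1))) * P (A (h + (j + 1))) := by
    intro j hj
    have h1 := hG.indep.meas_biInter ({h - (j + 1), h + (j + 1)} : Finset ℕ)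
    have hne : h - (j + 1) ≠ h + (j + 1) := by omega
    rw [Finset.prod_pair hne] at h1
    rw [← h1]
    congr 1
    ext ω
    simp [PH]
  refine ⟨?_, hpair⟩
  have hm : ∀ j : (Finset.range U : Finset ℕ), MeasurableSet (PH A h (j : ℕ)) :=
    fun j => (hG.meas _).inter (hG.meas _)
  rw [iIndepSet_iff_meas_biInter hm]
  intro s
  have hdis : Disjoint (s.image (fun i : (Finset.range U : Finset ℕ) => h - ((i : ℕ) + 1))) (s.image (fun i : (Finset.range U : Finset ℕ) => h + ((i : ℕ) + 1))) := by
    rw [Finset.disjoint_left]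
    intro a ha hb
    rw [Finset.mem_image] at ha hb
    obtain ⟨i, -, hi⟩ := ha
    obtain ⟨j, -, hj⟩ := hb
    omega
  have h1 := hG.indep.meas_biInter
    ((s.image (fun i : (Finset.range U : Finset ℕ) => h - ((i : ℕ) + 1))) ∪ (s.image (fun i : (Finset.range U : Finset ℕ) => h + ((i : ℕ) + 1))))
  rw [Finset.prod_union hdis, Finset.prod_image, Finset.prod_image, ← Finset.prod_mul_distrib] at h1
  · have e1 : (⋂ i ∈ s, PH A h (i : ℕ)) =
        ⋂ i ∈ (s.image (fun i : (Finset.range U : Finset ℕ) => h - ((i : ℕ) + 1))) ∪ (s.image (fun i : (Finset.range U : Finset ℕ) => h + ((i : ℕ) + 1))), A i := by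
      ext ω
      simp only [Set.mem_iInter, PH, Set.mem_inter_iff, Finset.mem_union, Finset.mem_image]
      constructor
      · rintro H i (⟨a, ha, rfl⟩ | ⟨a, ha, rfl⟩)
        · exact (H a ha).1
        · exact (H a ha).2
      · intro H i hi
        exact ⟨H _ (Or.inl ⟨i, hi, rfl⟩), H _ (Or.inr ⟨i, hi, rfl⟩)⟩
    rw [e1, h1]
    refine Finset.prod_congr rfl fun i _ => ?_
    have hiU : (i : ℕ) < U := Finset.mem_range.1 i.2
    exact (hpair i hiU).symm
  · intro a _ b _ hab
    apply Subtype.ext
    simp only at hab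
    omega
  · intro a _ b _ hab
    have ha := Finset.mem_range.1 a.2
    have hb := Finset.mem_range.1 b.2
    apply Subtype.ext
    simp only at hab
    omega

end Pool.Agent.H13.GG
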