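import Pool.Agent.H50.BF.Stm
import Pool.Agent.H50.G.B.R528.RM.RoughCount

/-!
# Mertens' product theorem (light import)
-/

set_option autoImplicit false

namespace Pool.Agent.H13.GG

/-- Mertens' product theorem -/
theorem mert : Pool.Agent.H50.BF.S_MERT := Pool.Agent.R528.RM.MM_lim

end Pool.Agent.H13.GG
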