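import Pool.Agent.H13.GG.Stm

set_option autoImplicit false

open MeasureTheory Filter ProbabilityTheory
open scoped Topology ENNReal

namespace Pool.Agent.H13.GG

open Pool.Agent.H50.BF (MM S_MERT)
open Pool.Agent.H50.GW (Rou GMod NN S_BTU S_LDU S_LDL)

namespace POSGaux

theorem bd_congr_h {h h' p : ℕ} (hh : h % p = h' % p) (j : ℕ) : Bd h p j ↔ Bd h' p j := by
  unfold Bd
  have h1 : h + j ≡ h' + j [MOD p] := Nat.ModEq.add_right _ hh
  rw [h1.dvd_iff dvd_rfl, hh]

theorem prime_dvd_primorial {v p : ℕ} (hp : p.Prime) (hpv : p ≤ v) : p ∣ primorial v := by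
  rw [primorial]
  exact Finset.dvd_prod_of_mem _ (Finset.mem_filter.2 ⟨Finset.mem_range.2 (by omega), hp⟩)

theorem sg_congr (v h h' a U : ℕ) (hh : ∀ p : ℕ, p.Prime → p ≤ v → h % p = h' % p) :
    sg v h a U = sg v h' a U := by
  classical
  unfold sg
  congr 1
  refine Finset.filter_congr fun j _ => ?_
  refine forall_congr' fun p => forall_congr' fun hp => forall_congr' fun hpv => ?_
  rw [bd_congr_h (hh p hp hpv)]

theorem PV_congr (v h h' : ℕ) (hh : ∀ p : ℕ, p.Prime → p ≤ v → h % p = h' % p) :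
    PV v h = PV v h' := by
  classical
  unfold PV
  refine Finset.prod_congr rfl fun p hp => ?_
  obtain ⟨h1, h2⟩ := Finset.mem_filter.1 hp
  have : nu h p = nu h' p := by
    unfold nu
    congr 1
    refine Finset.filter_congr fun r _ => ?_
    exact bd_congr_h (hh p h2 (Finset.mem_Icc.1 h1).2) r
  rw [this]

end POSGaux

open POSGaux in
theorem posg : S_POSG := by
  intro v t X M R hX hM
  have hQ : 0 < primorial v := primorial_pos v
  set Q := primorial v with hQd
  obtain ⟨n0, hn1, hn2, hn3⟩ : ∃ n0, X ≤ n0 ∧ n0 ≤ X + Q ∧ n0 % Q = t % Q := by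
    have ha : t % Q < Q := Nat.mod_lt _ hQ
    have hb : X % Q < Q := Nat.mod_lt _ hQ
    have hc : X = Q * (X / Q) + X % Q := (Nat.div_add_mod X Q).symm
    by_cases hlt : X % Q ≤ t % Q
    · refine ⟨Q * (X / Q) + t % Q, by omega, by omega, ?_⟩
      rw [Nat.mul_add_mod]; exact Nat.mod_eq_of_lt ha
    · refine ⟨Q * (X / Q + 1) + t % Q, ?_, ?_, ?_⟩
      · rw [Nat.mul_add, Nat.mul_one]; omega
      · rw [Nat.mul_add, Nat.mul_one]; omega
      · rw [Nat.mul_add_mod]; exact Nat.mod_eq_of_lt ha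
  have hmod : ∀ i p : ℕ, p.Prime → p ≤ v → (n0 + i * (Q * (2 * R + 2))) % p = t % p := by
    intro i p hp hpv
    obtain ⟨e, he⟩ := prime_dvd_primorial hp hpv
    have h1 : n0 % p = t % p := by
      have h2 : n0 ≡ t [MOD Q] := hn3
      exact h2.of_dvd ⟨e, he⟩
    rw [← h1, hQd, he, show i * (p * e * (2 * R + 2)) = p * (i * e * (2 * R + 2)) by ring,
      Nat.add_mul_mod_self_left]
  refine ⟨fun i => n0 + i * (Q * (2 * R + 2)), ?_, ?_, ?_⟩
  · intro i j hij
    have h1 : i * (Q * (2 * R + 2)) + (Q * (2 * R + 2)) ≤ j * (Q * (2 * R + 2)) := by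
      rw [← Nat.succ_mul]
      exact Nat.mul_le_mul_right _ hij
    have h2 : 2 * R + 2 ≤ Q * (2 * R + 2) := Nat.le_mul_of_pos_left _ hQ
    show n0 + _ + (2 * R + 1) ≤ n0 + _
    omega
  · intro i hi
    have h1 : i * (Q * (2 * R + 2)) + (Q * (2 * R + 2)) ≤ M * (Q * (2 * R + 2)) := by
      rw [← Nat.succ_mul]
      exact Nat.mul_le_mul_right _ hi
    show X ≤ n0 + _ ∧ n0 + _ ≤ 2 * X
    omega
  · intro i
    exact ⟨PV_congr v _ t (hmod i), fun a U => sg_congr v _ t a U (hmod i)⟩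

end Pool.Agent.H13.GG
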