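import Pool.Agent.H13.GG.Stm
import Pool.Agent.H50.BF.SUB

/-! GG-SBG (helper19), after `Pool/Agent/H50/GW/SBK.lean` (helper32) -/

set_option autoImplicit false

namespace Pool.Agent.H13.GG

open Finset Filter
open Pool.Agent.H50.BF (MM S_MERT)
open scoped Topology

namespace SBGaux

lemma sg_anti {v v' : ℕ} (hv : v ≤ v') (h a U : ℕ) : sg v' h a U ≤ sg v h a U := by
  classical
  unfold sg
  refine card_le_card fun j hj => ?_
  rw [mem_filter] at hj ⊢
  exact ⟨hj.1, fun p hp hpv => hj.2 p hp (hpv.trans hv)⟩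

lemma sg_mono (v h a : ℕ) {U U' : ℕ} (hU : U ≤ U') : sg v h a U ≤ sg v h a U' := by
  classical
  unfold sg
  refine card_le_card fun j hj => ?_
  rw [mem_filter, mem_range] at hj ⊢
  exact ⟨hj.1.trans_le hU, hj.2⟩

lemma sg_le (v h a U : ℕ) : sg v h a U ≤ U := by
  classical
  unfold sg
  refine (card_filter_le _ _).trans ?_
  rw [card_range]

lemma sg_add (v h a U V : ℕ) : sg v h a (U + V) = sg v h a U + sg v h (a + U) V := by
  classical
  unfold sg
  rw [range_add_eq_union, filter_union, card_union_of_disjoint, filter_map, card_map]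
  · congr 2
    refine Finset.filter_congr fun j _ => ?_
    simp only [Function.comp, addLeftEmbedding_apply]
    rw [show a + (U + j) + 1 = a + U + j + 1 by ring]
  · refine disjoint_filter_filter ?_
    rw [disjoint_left]
    intro x hx hx'
    rw [mem_range] at hx
    rw [Finset.mem_map] at hx'
    obtain ⟨y, _, rfl⟩ := hx'
    simp at hx

/-- `PV y h ≤ 2 r² PV v h` if `MM v ≤ r MM y` -/
lemma pv_le (hnu : S_NU) {y v h : ℕ} {r : ℝ} (hy : 4 ≤ y) (hyv : y ≤ v)
    (hM : MM v ≤ r * MM y) : PV y h ≤ 2 * r ^ 2 * PV v h := by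
  have hMv := Pool.Agent.H50.BF.BTaux.MM_pos v
  have hMy := Pool.Agent.H50.BF.BTaux.MM_pos y
  have hy4 : (4 : ℝ) ≤ y := by exact_mod_cast hy
  have h1 := (hnu.2.2 y v h hyv).2.2 (by omega)
  have h2 : SS y h ≤ 2 * SS v h := by
    have h3 := (hnu.2.1 y h).2.2.1
    have h4 : (2 : ℝ) / y ≤ 1 / 2 := by
      rw [div_le_div_iff₀ (by linarith) (by norm_num)]; linarith
    have h5 : SS y h * (1 / 2) ≤ SS y h * (1 - 2 / y) :=
      mul_le_mul_of_nonneg_left (by linarith) (by linarith)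
    linarith
  unfold SS at h2
  have hP := (hnu.2.1 v h).1
  have h6 : MM v ^ 2 ≤ r ^ 2 * MM y ^ 2 := by
    rw [← mul_pow]
    exact pow_le_pow_left₀ hMv.le hM 2
  have h7 : PV y h * MM y ^ 2 ≤ (2 * r ^ 2 * PV v h) * MM y ^ 2 := by
    calc PV y h * MM y ^ 2 ≤ 2 * (PV v h * MM v ^ 2) := h2
      _ ≤ 2 * (PV v h * (r ^ 2 * MM y ^ 2)) := by
        refine mul_le_mul_of_nonneg_left ?_ (by norm_num)
        exact mul_le_mul_of_nonneg_left h6 hP.le
      _ = _ := by ring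
  exact le_of_mul_le_mul_right h7 (by positivity)

end SBGaux

open SBGaux Pool.Agent.H50.BF.BTaux in
theorem sbg : S_BTG → S_NU → S_MERT → S_SBG := by
  intro hbtg hnu hmert
  obtain ⟨C0, s0, hC0, hs0, hbt⟩ := hbtg
  have hs0' : (1 : ℝ) ≤ s0 := by exact_mod_cast hs0
  set κ : ℝ := 1 / (2 * s0) with hκd
  have hκ : 0 < κ := by positivity
  have hκ2 : κ ≤ 1 / 2 := by
    rw [hκd]
    exact one_div_le_one_div_of_le (by norm_num) (by linarith)
  have hκs : κ * s0 ≤ 1 / 2 := by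
    rw [hκd]
    field_simp
    exact le_rfl
  set K : ℝ := 2 * (16 / κ) ^ 2 with hK
  have hK0 : 0 < K := by positivity
  refine ⟨2 * C0 * K, by positivity, fun δ hδ hδ1 => ?_⟩
  have ht : Tendsto (fun w : ℕ => Real.sqrt w) atTop atTop :=
    Real.tendsto_sqrt_atTop.comp tendsto_natCast_atTop_atTop
  filter_upwards [mert_ratio hmert hκ, ht.eventually_ge_atTop (2 ^ (s0 + 1) / δ),
    eventually_ge_atTop 1, (tendsto_floor_rpow hκ).eventually_ge_atTop 4]
    with w h1 h2 h3 hy4 v h U U' hv1 hv2 hU hUU hU'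
  set y := ⌊(w : ℝ) ^ κ⌋₊ with hy
  have hw1 : (1 : ℝ) ≤ w := by exact_mod_cast h3
  have hx1 : 1 ≤ Real.sqrt w := by
    rw [Real.one_le_sqrt]
    exact hw1
  have hxx : Real.sqrt w * Real.sqrt w = w := Real.mul_self_sqrt (by linarith)
  have hyv : y ≤ v := by
    have h4 : (y : ℝ) ≤ v := by
      calc (y : ℝ) ≤ (w : ℝ) ^ κ := Nat.floor_le (by positivity)
        _ ≤ (w : ℝ) ^ (1 / 2 : ℝ) := Real.rpow_le_rpow_of_exponent_le hw1 hκ2
        _ = Real.sqrt w := (Real.sqrt_eq_rpow _).symm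
        _ ≤ v := hv1
    exact_mod_cast h4
  have hMv : MM v ≤ 16 / κ * MM y := (MM_mono (by exact_mod_cast hv2)).trans h1
  have hPK : PV y h ≤ K * PV v h := pv_le hnu hy4 hyv hMv
  have hPv : 0 < PV v h := (hnu.2.1 v h).1
  have hPy : 0 < PV y h := (hnu.2.1 y h).1
  have hpow : ((y : ℝ) + 1) ^ s0 ≤ δ * U := by
    have h4 := Pool.Agent.H50.BF.BTaux.pow_le hκ hκs h3
    rw [← hy, ← Real.sqrt_eq_rpow] at h4
    have h5 : 2 ^ (s0 + 1) ≤ Real.sqrt w * δ := (div_le_iff₀ hδ).1 h2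
    have h6 : 2 ^ s0 * Real.sqrt w ≤ δ * ((w : ℝ) ^ 2) := by
      rw [pow_succ] at h5
      have h7 : (2 ^ s0 : ℝ) ≤ Real.sqrt w * δ / 2 := by linarith
      have h8 : (w : ℝ) ≤ w ^ 2 := by nlinarith
      calc 2 ^ s0 * Real.sqrt w ≤ Real.sqrt w * δ / 2 * Real.sqrt w :=
            mul_le_mul_of_nonneg_right h7 (by positivity)
        _ = δ * (Real.sqrt w * Real.sqrt w / 2) := by ring
        _ ≤ δ * ((w : ℝ) ^ 2) := by
          rw [hxx]
          refine mul_le_mul_of_nonneg_left ?_ hδ.le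
          linarith
    exact h4.trans (h6.trans (mul_le_mul_of_nonneg_left hU hδ.le))
  have hU0 : (0 : ℝ) < U := lt_of_lt_of_le (by positivity) hU
  have hδU : 1 ≤ δ * U := (one_le_pow₀ (by linarith [Nat.cast_nonneg (α := ℝ) y])).trans hpow
  have hUP : 0 < (U : ℝ) * PV v h := by positivity
  constructor
  · have e1 : (sg v h 0 U' : ℝ) - sg v h 0 U = sg v h (0 + U) (U' - U) := by
      have := sg_add v h 0 U (U' - U)
      rw [Nat.add_sub_cancel' hUU] at this
      rw [this]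
      push_cast
      ring
    have h5 : U' - U ≤ ⌈δ * (U : ℝ)⌉₊ := by
      have : ((U' - U : ℕ) : ℝ) ≤ ⌈δ * (U : ℝ)⌉₊ := by
        rw [Nat.cast_sub hUU]
        have := Nat.le_ceil (δ * (U : ℝ))
        linarith
      exact_mod_cast this
    have h6 : sg v h (0 + U) (U' - U) ≤ sg y h (0 + U) ⌈δ * (U : ℝ)⌉₊ :=
      (sg_mono _ _ _ h5).trans (sg_anti hyv _ _ _)
    have h7 := hbt y h (0 + U) ⌈δ * (U : ℝ)⌉₊ (hpow.trans (Nat.le_ceil _))
    have h8 : (⌈δ * (U : ℝ)⌉₊ : ℝ) ≤ 2 * (δ * U) := by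
      have := Nat.ceil_lt_add_one (a := δ * (U : ℝ)) (by positivity)
      linarith
    rw [e1, div_le_iff₀ hUP]
    calc (sg v h (0 + U) (U' - U) : ℝ) ≤ sg y h (0 + U) ⌈δ * (U : ℝ)⌉₊ := Nat.cast_le.2 h6
      _ ≤ C0 * (⌈δ * (U : ℝ)⌉₊ * PV y h) := h7
      _ ≤ C0 * ((2 * (δ * U)) * (K * PV v h)) := by
          refine mul_le_mul_of_nonneg_left ?_ hC0.le
          exact mul_le_mul h8 hPK hPy.le (by positivity)
      _ = 2 * C0 * K * δ * (U * PV v h) := by ring
  · have h7 := hbt y h 0 U (hpow.trans (by nlinarith))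
    unfold EE
    rw [div_le_iff₀ hUP]
    calc (sg v h 0 U : ℝ) ≤ sg y h 0 U := Nat.cast_le.2 (sg_anti hyv _ _ _)
      _ ≤ C0 * (U * PV y h) := h7
      _ ≤ C0 * (U * (K * PV v h)) := by
          refine mul_le_mul_of_nonneg_left ?_ hC0.le
          exact mul_le_mul_of_nonneg_left hPK hU0.le
      _ ≤ 2 * C0 * K * (U * PV v h) := by
          have : 0 < C0 * K * (U * PV v h) := by positivity
          nlinarith

end Pool.Agent.H13.GG
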