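import Pool.Agent.H13.GG.Stm
import Pool.Agent.H50.BF.MMB

/-! # Stub SST of the project GG (helper26) -/

set_option autoImplicit false

open MeasureTheory Filter ProbabilityTheory
open scoped Topology ENNReal

namespace Pool.Agent.H13.GG

open Pool.Agent.H50.BF (MM S_MERT MM_pos MM_mono one_le_MM)

theorem sst : S_NU → S_MERT → S_SST := by
  intro hNU hM
  refine ⟨35, by norm_num, ?_⟩
  intro η hη hη2
  obtain ⟨g, hg⟩ : ∃ g : ℝ, g = Real.exp Real.eulerMascheroniConstant := ⟨_, rfl⟩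
  have hg0 : 0 < g := hg ▸ Real.exp_pos _
  unfold S_MERT at hM
  rw [← hg] at hM
  have hev : ∀ᶠ N : ℕ in atTop, g * (1 - η / 10) * Real.log N ≤ MM N ∧
      MM N ≤ g * (1 + η / 10) * Real.log N := by
    have h1 := hM.eventually (Ioo_mem_nhds (show g * (1 - η / 10) < g by nlinarith)
      (show g < g * (1 + η / 10) by nlinarith))
    filter_upwards [h1, eventually_ge_atTop 2] with N hN hN2
    have hl : 0 < Real.log N := Real.log_pos (by exact_mod_cast (by omega : 1 < N))
    obtain ⟨h2, h3⟩ := hN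
    rw [lt_div_iff₀ hl] at h2
    rw [div_lt_iff₀ hl] at h3
    exact ⟨h2.le, h3.le⟩
  obtain ⟨N0, hN0⟩ := eventually_atTop.mp hev
  have hw : Tendsto (fun w : ℕ => (w : ℝ) ^ (1 - η)) atTop atTop :=
    (tendsto_rpow_atTop (by linarith)).comp tendsto_natCast_atTop_atTop
  filter_upwards [hw.eventually_ge_atTop (max (N0 : ℝ) (max (4 / η) 4)), eventually_ge_atTop 2]
    with w hwl hw2 v v' h hv hvv hv'
  have hvN : (N0 : ℝ) ≤ v := le_trans (le_trans (le_max_left _ _) hwl) hv
  have hv4η : 4 / η ≤ (v : ℝ) :=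
    le_trans (le_trans (le_trans (le_max_left _ _) (le_max_right _ _)) hwl) hv
  have hv4 : (4 : ℝ) ≤ v :=
    le_trans (le_trans (le_trans (le_max_right _ _) (le_max_right _ _)) hwl) hv
  have hvr : (v : ℝ) ≤ v' := by exact_mod_cast hvv
  have hw0 : (0 : ℝ) < w := by exact_mod_cast (by omega : 0 < w)
  have hlw : 0 < Real.log w := Real.log_pos (by exact_mod_cast (by omega : 1 < w))
  have hlv : (1 - η) * Real.log w ≤ Real.log v := by
    rw [← Real.log_rpow hw0]
    exact Real.log_le_log (Real.rpow_pos_of_pos hw0 _) hv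
  have hlv' : Real.log v' ≤ (1 + η) * Real.log w := by
    rw [← Real.log_rpow hw0]
    exact Real.log_le_log (by linarith) hv'
  have a1 := (hN0 v (by exact_mod_cast hvN)).1
  have a2 := (hN0 v' (by exact_mod_cast hvN.trans hvr)).2
  obtain ⟨hn1, hn2, hn3⟩ := hNU
  obtain ⟨b1, b2, b3⟩ := hn3 v v' h hvv
  have b4 := b3 (by exact_mod_cast (by linarith : (1 : ℝ) ≤ v))
  obtain ⟨c1, c2, c3, c4⟩ := hn2 v h
  obtain ⟨d1, d2, d3, d4⟩ := hn2 v' h
  have hMv := MM_pos v
  have hMv' := MM_pos v'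
  -- the ratio of the Mertens products
  have hratio : MM v' ≤ (1 + 5 * η) * MM v := by
    have e1 : MM v' ≤ g * (1 + η / 10) * ((1 + η) * Real.log w) :=
      a2.trans (mul_le_mul_of_nonneg_left hlv' (by positivity))
    have hη10 : 0 < 1 - η / 10 := by linarith
    have e2 : g * (1 - η / 10) * ((1 - η) * Real.log w) ≤ MM v :=
      le_trans (mul_le_mul_of_nonneg_left hlv (by positivity)) a1
    have e3 : (1 + η / 10) * (1 + η) ≤ (1 + 5 * η) * ((1 - η / 10) * (1 - η)) := by
      nlinarith [mul_nonneg hη.le (sub_nonneg.mpr hη2), mul_nonneg (mul_nonneg hη.le hη.le)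
        (sub_nonneg.mpr hη2), mul_pos hη hη]
    calc MM v' ≤ g * (1 + η / 10) * ((1 + η) * Real.log w) := e1
      _ = (1 + η / 10) * (1 + η) * (g * Real.log w) := by ring
      _ ≤ (1 + 5 * η) * ((1 - η / 10) * (1 - η)) * (g * Real.log w) :=
          mul_le_mul_of_nonneg_right e3 (by positivity)
      _ = (1 + 5 * η) * (g * (1 - η / 10) * ((1 - η) * Real.log w)) := by ring
      _ ≤ (1 + 5 * η) * MM v := mul_le_mul_of_nonneg_left e2 (by positivity)
  have hS : 0 < SS v h := by linarith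
  have hS' : 0 < SS v' h := by linarith
  have h2v : 2 / (v : ℝ) ≤ η / 2 := by
    rw [div_le_div_iff₀ (by linarith) (by norm_num)]
    rw [div_le_iff₀ hη] at hv4η
    linarith
  -- upper bound
  have u1 : SS v' h ≤ (1 + 5 * η) * SS v h := by
    refine b2.trans ?_
    rw [mul_comm]
    apply mul_le_mul_of_nonneg_right _ hS.le
    rw [div_le_iff₀ hMv]
    exact hratio
  have u2 : SS v h * (1 - η / 2) ≤ SS v' h := by
    refine le_trans (mul_le_mul_of_nonneg_left ?_ hS.le) b4
    linarith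
  have u3 : SS v h ≤ (1 + η) * SS v' h := by
    have e1 : 1 ≤ (1 + η) * (1 - η / 2) := by nlinarith
    have e2 := mul_le_mul_of_nonneg_left u2 (show 0 ≤ 1 + η by linarith)
    nlinarith
  have u4 : |SS v' h - SS v h| ≤ 5 * η * SS v h := by
    rw [abs_le]
    constructor
    · nlinarith [mul_pos hη hS]
    · nlinarith
  refine ⟨?_, ?_, ?_, ?_⟩
  · refine u4.trans ?_
    nlinarith [mul_pos hη hS]
  · refine u4.trans ?_
    have : SS v h ≤ 2 * SS v' h := by nlinarith
    nlinarith [mul_le_mul_of_nonneg_left this hη.le, mul_pos hη hS']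
  · refine hratio.trans ?_
    nlinarith [mul_pos hη hMv]
  · -- `PV = SS / MM²`
    have e1 : PV v h = SS v h / MM v ^ 2 := by
      unfold SS; field_simp
    have e2 : PV v' h = SS v' h / MM v' ^ 2 := by
      unfold SS; field_simp
    have e3 : MM v' ^ 2 ≤ (1 + 5 * η) ^ 2 * MM v ^ 2 := by
      rw [← mul_pow]
      exact pow_le_pow_left₀ hMv'.le hratio 2
    have e4 : (1 + η) * (1 + 5 * η) ^ 2 ≤ 1 + 35 * η := by
      nlinarith [mul_nonneg hη.le (sub_nonneg.mpr hη2), mul_nonneg (mul_nonneg hη.le hη.le)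
        (sub_nonneg.mpr hη2), mul_pos hη hη]
    rw [e1, e2, div_le_iff₀ (by positivity)]
    have e5 : SS v h * MM v' ^ 2 ≤ ((1 + η) * SS v' h) * ((1 + 5 * η) ^ 2 * MM v ^ 2) :=
      mul_le_mul u3 e3 (by positivity) (by positivity)
    have e6 : SS v h ≤ ((1 + η) * SS v' h) * ((1 + 5 * η) ^ 2 * MM v ^ 2) / MM v' ^ 2 := by
      rw [le_div_iff₀ (by positivity)]; exact e5
    refine e6.trans ?_
    have e7 : ((1 + η) * SS v' h) * ((1 + 5 * η) ^ 2 * MM v ^ 2) / MM v' ^ 2 =
        ((1 + η) * (1 + 5 * η) ^ 2) * (SS v' h / MM v' ^ 2 * MM v ^ 2) := by ring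
    rw [e7, mul_assoc (1 + 35 * η)]
    exact mul_le_mul_of_nonneg_right e4 (by positivity)

end Pool.Agent.H13.GG
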