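import Pool.Agent.H13.GG.Stm
import Pool.Agent.H50.BF.TRANS

/-! # GG-TRG (helper51): the normalised density changes little between the levels `v` and `v'` -/

set_option autoImplicit false

namespace Pool.Agent.H13.GG

open Finset Filter
open scoped Topology
open Pool.Agent.H50.BF Pool.Agent.H50.BF.BTaux

namespace TRGaux

/-- `sg` is nonincreasing in the level -/
lemma sg_anti {v v' : ℕ} (hv : v ≤ v') (h a U : ℕ) : sg v' h a U ≤ sg v h a U := by
  classical
  unfold sg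
  refine card_le_card fun j hj => ?_
  rw [mem_filter] at hj ⊢
  exact ⟨hj.1, fun p hp hpv => hj.2 p hp (hpv.trans hv)⟩

/-- `p ∣ h + m` fixes the class of `m` modulo `p` -/
lemma one_class (h p : ℕ) : ∃ r : ℕ, ∀ m : ℕ, p ∣ h + m → m % p = r := by
  by_cases hm : ∃ m0 : ℕ, p ∣ h + m0
  · obtain ⟨m0, hm0⟩ := hm
    refine ⟨m0 % p, fun m hm => ?_⟩
    have h3 : h + m ≡ h + m0 [MOD p] :=
      ((Nat.modEq_zero_iff_dvd.2 hm).trans (Nat.modEq_zero_iff_dvd.2 hm0).symm)
    exact Nat.ModEq.add_left_cancel' h h3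
  · push Not at hm
    exact ⟨0, fun m hm' => absurd hm' (hm m)⟩

open Classical in
/-- the survivors of level `y` in the class `r` modulo `p` -/
noncomputable def cl (y h U p r : ℕ) : ℕ :=
  ((Finset.range U).filter (fun j => (∀ q : ℕ, q.Prime → q ≤ y → ¬ Bd h q (j + 1)) ∧
    (j + 1) % p = r)).card

/-- the survivors removed by the primes in `(v, v']` -/
lemma sg_drop {y v v' : ℕ} (hyv : y ≤ v) (h U : ℕ) :
    ∃ r : ℕ → ℕ, sg v h 0 U ≤ sg v' h 0 U + ∑ p ∈ (Ioc v v').filter Nat.Prime,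
      (cl y h U p (r p) + cl y h U p (h % p)) := by
  classical
  choose r hr using one_class h
  refine ⟨r, ?_⟩
  unfold sg cl
  refine le_trans (card_le_card (t := ((range U).filter (fun j =>
      ∀ p : ℕ, p.Prime → p ≤ v' → ¬ Bd h p (0 + j + 1))) ∪
    ((Ioc v v').filter Nat.Prime).biUnion (fun p =>
      (Finset.filter (fun j => (∀ q : ℕ, q.Prime → q ≤ y → ¬ Bd h q (j + 1)) ∧
        (j + 1) % p = r p) (Finset.range U)) ∪
      (Finset.filter (fun j => (∀ q : ℕ, q.Prime → q ≤ y → ¬ Bd h q (j + 1)) ∧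
        (j + 1) % p = h % p) (Finset.range U)))) ?_) ((card_union_le _ _).trans
          (Nat.add_le_add_left (card_biUnion_le.trans (sum_le_sum fun p _ => ?_)) _))
  · intro j hj
    rw [mem_filter] at hj
    by_cases hb : ∀ p : ℕ, p.Prime → p ≤ v' → ¬ Bd h p (0 + j + 1)
    · exact mem_union_left _ (mem_filter.2 ⟨hj.1, hb⟩)
    · push Not at hb
      obtain ⟨p, hp, hpv, hpd⟩ := hb
      have hvp : v < p := by
        by_contra hle
        exact hj.2 p hp (by omega) hpd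
      have hy : ∀ q : ℕ, q.Prime → q ≤ y → ¬ Bd h q (j + 1) := by
        intro q hq hqy
        have := hj.2 q hq (hqy.trans hyv)
        rwa [zero_add] at this
      rw [zero_add] at hpd
      refine mem_union_right _ (mem_biUnion.2 ⟨p, mem_filter.2 ⟨mem_Ioc.2 ⟨hvp, hpv⟩, hp⟩, ?_⟩)
      rcases hpd with hpd | hpd
      · exact mem_union_left _ (mem_filter.2 ⟨hj.1, hy, hr p _ hpd⟩)
      · exact mem_union_right _ (mem_filter.2 ⟨hj.1, hy, hpd⟩)
  · exact card_union_le _ _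

end TRGaux

open TRGaux

theorem trg : S_APG → S_BTG → S_NU → S_SST → Pool.Agent.H50.BF.S_MERT → S_TRG := by
  classical
  intro ⟨CA, s1, hCA, hs1, hap⟩ ⟨CB, s0, hCB, hs0, hbt⟩ ⟨_, hNU2, hNU3⟩ ⟨CS, hCS, hsst⟩ hmert
  have hs0' : (1 : ℝ) ≤ s0 := by exact_mod_cast hs0
  have hs1' : (1 : ℝ) ≤ s1 := by exact_mod_cast hs1
  set κ : ℝ := 1 / (4 * (s0 + s1)) with hκd
  have hκ : 0 < κ := by positivity
  have hκ2 : κ ≤ 1 / 2 := by
    rw [hκd]
    exact one_div_le_one_div_of_le (by norm_num) (by linarith)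
  have hκ0 : κ * s0 ≤ 1 / 4 := by
    rw [hκd, div_mul_eq_mul_div, div_le_div_iff₀ (by positivity) (by norm_num)]
    linarith
  have hκ1 : κ * s1 ≤ 1 / 4 := by
    rw [hκd, div_mul_eq_mul_div, div_le_div_iff₀ (by positivity) (by norm_num)]
    linarith
  set R : ℝ := 2 * (16 / κ) ^ 2 with hR
  have hR0 : 0 < R := by positivity
  refine ⟨R * (12 * CA + CB * CS), by positivity, fun η hη hη1 => ?_⟩
  have ht : Tendsto (fun w : ℕ => (w : ℝ) ^ (1 / 4 : ℝ)) atTop atTop :=
    (tendsto_rpow_atTop (by norm_num)).comp tendsto_natCast_atTop_atTop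
  have htκ : Tendsto (fun w : ℕ => (w : ℝ) ^ κ) atTop atTop :=
    (tendsto_rpow_atTop hκ).comp tendsto_natCast_atTop_atTop
  filter_upwards [mert_ratio hmert hκ, mert_eta hmert hη hη1, hsst η hη hη1,
    ht.eventually_ge_atTop (2 ^ (s0 + 1) + 2 ^ (s1 + 1) + 2 + 2 / η),
    htκ.eventually_ge_atTop 4, eventually_ge_atTop 1] with w h1 h2 hsw h3 hκw h4 v v' h U hv hvv hv' hU
  set y := ⌊(w : ℝ) ^ κ⌋₊ with hy
  set x : ℝ := (w : ℝ) ^ (1 / 4 : ℝ) with hx
  have hw1 : (1 : ℝ) ≤ w := by exact_mod_cast h4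
  have hw0 : (0 : ℝ) ≤ w := by linarith
  have hx4 : ∀ k : ℕ, x ^ k = (w : ℝ) ^ ((k : ℝ) / 4) := by
    intro k
    rw [hx, ← Real.rpow_natCast, ← Real.rpow_mul hw0]
    congr 1
    ring
  have hx8 : x ^ 8 = (w : ℝ) ^ 2 := by
    rw [hx4]
    norm_num
  have hx6 : (w : ℝ) ^ (1 + η) ≤ x ^ 6 := by
    rw [hx4]
    exact Real.rpow_le_rpow_of_exponent_le hw1 (by push_cast; linarith)
  have hx2 : x ^ 2 ≤ (w : ℝ) ^ (1 - η) := by
    rw [hx4]
    exact Real.rpow_le_rpow_of_exponent_le hw1 (by push_cast; linarith)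
  have hp0 : (0 : ℝ) < 2 ^ (s0 + 1) := by positivity
  have hp1 : (0 : ℝ) < 2 ^ (s1 + 1) := by positivity
  have hp2 : (0 : ℝ) < 2 / η := by positivity
  have hxge : 2 < x := by linarith
  have hxs0 : 2 * 2 ^ s0 + 2 ≤ x := by
    rw [pow_succ] at h3
    linarith
  have hxs1 : 2 * 2 ^ s1 + 2 ≤ x := by
    rw [pow_succ, pow_succ] at h3
    have : (0 : ℝ) < 2 ^ s0 := by positivity
    linarith
  have hxη : 2 / η ≤ x := by linarith
  have hy4 : 4 ≤ y := Nat.le_floor (by exact_mod_cast hκw)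
  have hyw : ((y : ℝ) + 1) ^ s0 ≤ 2 ^ s0 * x := pow_le hκ hκ0 h4
  have hyw1 : ((y : ℝ) + 1) ^ s1 ≤ 2 ^ s1 * x := pow_le hκ hκ1 h4
  have hyv : y ≤ v := by
    have h5 : (y : ℝ) ≤ v := by
      calc (y : ℝ) ≤ (w : ℝ) ^ κ := Nat.floor_le (by positivity)
        _ ≤ (w : ℝ) ^ (1 / 2 : ℝ) := Real.rpow_le_rpow_of_exponent_le hw1 hκ2
        _ = x ^ 2 := by
          rw [hx4]
          norm_num
        _ ≤ v := hx2.trans hv
    exact_mod_cast h5
  have hMv0 := MM_pos v
  have hMv'0 := MM_pos v'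
  have hMy0 := MM_pos y
  have hMv1 : MM v' ≤ 16 / κ * MM y := by
    refine (MM_mono ?_).trans h1
    have h5 : (v' : ℝ) ≤ (w : ℝ) ^ 2 := by
      calc (v' : ℝ) ≤ x ^ 6 := hv'.trans hx6
        _ ≤ x ^ 8 := pow_le_pow_right₀ (by linarith) (by norm_num)
        _ = (w : ℝ) ^ 2 := hx8
    exact_mod_cast h5
  have hMv' : MM v' ≤ (1 + 5 * η) * MM v := h2 v v' hv hvv hv'
  obtain ⟨hPv0, -, -, -⟩ := hNU2 v h
  obtain ⟨hPv'0, -, -, -⟩ := hNU2 v' h
  obtain ⟨hPy0, -, -, -⟩ := hNU2 y h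
  obtain ⟨hPvv, -, -⟩ := hNU3 v v' h hvv
  have hPS : PV v h ≤ (1 + CS * η) * PV v' h := (hsw v v' h hv hvv hv').2.2.2
  -- the level `y` and the level `v'`
  have hPy : PV y h ≤ R * PV v' h := by
    have h5 : SS y h * (1 - 2 / (y : ℝ)) ≤ SS v' h := (hNU3 y v' h (hyv.trans hvv)).2.2 (by omega)
    have h6 : (1 : ℝ) / 2 ≤ 1 - 2 / (y : ℝ) := by
      have hy4' : (4 : ℝ) ≤ y := by exact_mod_cast hy4
      have : 2 / (y : ℝ) ≤ 1 / 2 := by
        rw [div_le_div_iff₀ (by linarith) (by norm_num)]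
        linarith
      linarith
    have hS0 : 0 < SS y h := by
      unfold SS
      positivity
    have h7 : SS y h ≤ 2 * SS v' h := by nlinarith
    unfold SS at h7
    have h8 : MM v' ^ 2 ≤ (16 / κ * MM y) ^ 2 := pow_le_pow_left₀ hMv'0.le hMv1 2
    have h9 : PV y h * MM y ^ 2 ≤ R * PV v' h * MM y ^ 2 := by
      calc PV y h * MM y ^ 2 ≤ 2 * (PV v' h * MM v' ^ 2) := h7
        _ ≤ 2 * (PV v' h * (16 / κ * MM y) ^ 2) :=
          mul_le_mul_of_nonneg_left (mul_le_mul_of_nonneg_left h8 hPv'0.le) (by norm_num)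
        _ = R * PV v' h * MM y ^ 2 := by
          rw [hR]
          ring
    exact le_of_mul_le_mul_right h9 (by positivity)
  have hU' : x ^ 8 / 2 ≤ U := by
    rw [hx8]
    have : (0 : ℝ) ≤ (w : ℝ) ^ 2 := by positivity
    linarith
  have hx1 : (1 : ℝ) ≤ x := by linarith
  have hU0 : (0 : ℝ) < U := lt_of_lt_of_le (by positivity) hU'
  -- the bound for the survivors of level `v'`
  have hbU : ((y : ℝ) + 1) ^ s0 ≤ U := by
    refine hyw.trans (le_trans ?_ hU')
    have h5 : x ^ 2 ≤ x ^ 8 := pow_le_pow_right₀ hx1 (by norm_num)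
    nlinarith
  have hsv' : (sg v' h 0 U : ℝ) ≤ CB * (U * PV y h) :=
    (Nat.cast_le.2 (sg_anti (hyv.trans hvv) h 0 U)).trans (hbt y h 0 U hbU)
  -- the bound for the removed survivors
  have hsum : ∑ p ∈ (Ioc v v').filter Nat.Prime, (p : ℝ)⁻¹ ≤ 5 * η := by
    have h5 := MM_sum v' hvv
    have h6 : MM v * (1 + ∑ p ∈ (Ioc v v').filter Nat.Prime, (p : ℝ)⁻¹) ≤ MM v * (1 + 5 * η) :=
      h5.trans (by linarith)
    have h7 := le_of_mul_le_mul_left h6 hMv0
    linarith
  have hdrop : (sg v h 0 U : ℝ) - sg v' h 0 U ≤ 2 * CA * PV y h * (U * (6 * η)) := by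
    obtain ⟨r, h5⟩ := sg_drop (v' := v') hyv h U
    have h6 : (sg v h 0 U : ℝ) ≤ sg v' h 0 U + ∑ p ∈ (Ioc v v').filter Nat.Prime,
        2 * CA * PV y h * (U * (p : ℝ)⁻¹ + 1) := by
      refine (Nat.cast_le.2 h5).trans ?_
      push_cast
      refine add_le_add_right (sum_le_sum fun p hp => ?_) _
      rw [mem_filter, mem_Ioc] at hp
      have hpp : (0 : ℝ) < p := by exact_mod_cast hp.2.pos
      have hdiv : ((U / p : ℕ) : ℝ) ≤ (U : ℝ) / p := Nat.cast_div_le
      have hdiv2 : (U : ℝ) / p - 1 ≤ ((U / p : ℕ) : ℝ) := by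
        have h7 : U < p * (U / p + 1) := Nat.lt_mul_div_succ U hp.2.pos
        have h8 : (U : ℝ) < p * ((U / p : ℕ) + 1) := by exact_mod_cast h7
        rw [sub_le_iff_le_add, div_le_iff₀ hpp]
        linarith
      have hpx : (p : ℝ) ≤ x ^ 6 := by
        have : (p : ℝ) ≤ v' := by exact_mod_cast hp.1.2
        exact this.trans (hv'.trans hx6)
      have h7 : x ^ 2 / 2 ≤ (U : ℝ) / p := by
        rw [le_div_iff₀ hpp]
        calc x ^ 2 / 2 * p ≤ x ^ 2 / 2 * x ^ 6 :=
              mul_le_mul_of_nonneg_left hpx (by positivity)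
          _ = x ^ 8 / 2 := by ring
          _ ≤ U := hU'
      have h8 : ((y : ℝ) + 1) ^ s1 ≤ ((U / p : ℕ) : ℝ) := by
        refine hyw1.trans (le_trans ?_ hdiv2)
        nlinarith
      have h9 : ∀ r : ℕ, (cl y h U p r : ℝ) ≤ CA * PV y h * (U * (p : ℝ)⁻¹ + 1) := by
        intro r
        refine (hap y h U p r hp.2 (by omega) h8).trans ?_
        rw [mul_assoc, ← div_eq_mul_inv]
        refine mul_le_mul_of_nonneg_left ?_ hCA.le
        rw [mul_comm (PV y h)]
        refine mul_le_mul_of_nonneg_right ?_ hPy0.le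
        linarith
      have h10 := h9 (r p)
      have h11 := h9 (h % p)
      linarith
    rw [← mul_sum, sum_add_distrib, ← mul_sum, sum_const, nsmul_eq_mul, mul_one] at h6
    have h7 : (((Ioc v v').filter Nat.Prime).card : ℝ) ≤ U * η := by
      have h8 : ((Ioc v v').filter Nat.Prime).card ≤ v' := by
        refine (card_filter_le _ _).trans ?_
        rw [Nat.card_Ioc]
        omega
      have h9 : (((Ioc v v').filter Nat.Prime).card : ℝ) ≤ v' := by exact_mod_cast h8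
      refine h9.trans ((hv'.trans hx6).trans ?_)
      have h10 : 2 ≤ x * η := (div_le_iff₀ hη).1 hxη
      have h11 : x ^ 6 ≤ x ^ 7 := pow_le_pow_right₀ hx1 (by norm_num)
      calc x ^ 6 ≤ x ^ 7 := h11
        _ = x ^ 7 * 2 / 2 := by ring
        _ ≤ x ^ 7 * (x * η) / 2 := by
          refine div_le_div_of_nonneg_right (mul_le_mul_of_nonneg_left h10 (by positivity))
            (by norm_num)
        _ = x ^ 8 / 2 * η := by ring
        _ ≤ U * η := mul_le_mul_of_nonneg_right hU' hη.le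
    have h8 : 2 * CA * PV y h * (U * ∑ p ∈ (Ioc v v').filter Nat.Prime, (p : ℝ)⁻¹ +
        ((Ioc v v').filter Nat.Prime).card) ≤ 2 * CA * PV y h * (U * (6 * η)) := by
      refine mul_le_mul_of_nonneg_left ?_ (by positivity)
      have := mul_le_mul_of_nonneg_left hsum hU0.le
      linarith
    linarith
  have hd0 : (sg v' h 0 U : ℝ) ≤ sg v h 0 U := by exact_mod_cast sg_anti hvv h 0 U
  have e : EE v h U - EE v' h U =
      ((sg v h 0 U : ℝ) - sg v' h 0 U) / (U * PV v h) -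
        sg v' h 0 U / (U * PV v' h) * ((PV v h - PV v' h) / PV v h) := by
    unfold EE
    field_simp
    ring
  have hA0 : 0 ≤ ((sg v h 0 U : ℝ) - sg v' h 0 U) / (U * PV v h) :=
    div_nonneg (by linarith) (by positivity)
  have hB0 : 0 ≤ (sg v' h 0 U : ℝ) / (U * PV v' h) * ((PV v h - PV v' h) / PV v h) :=
    mul_nonneg (by positivity) (div_nonneg (by linarith) hPv0.le)
  have hA : ((sg v h 0 U : ℝ) - sg v' h 0 U) / (U * PV v h) ≤ R * (12 * CA) * η := by
    rw [div_le_iff₀ (by positivity)]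
    calc (sg v h 0 U : ℝ) - sg v' h 0 U ≤ 2 * CA * PV y h * (U * (6 * η)) := hdrop
      _ ≤ 2 * CA * (R * PV v h) * (U * (6 * η)) := by
        refine mul_le_mul_of_nonneg_right (mul_le_mul_of_nonneg_left ?_ (by positivity))
          (by positivity)
        exact hPy.trans (mul_le_mul_of_nonneg_left hPvv hR0.le)
      _ = R * (12 * CA) * η * (U * PV v h) := by ring
  have hB : (sg v' h 0 U : ℝ) / (U * PV v' h) * ((PV v h - PV v' h) / PV v h) ≤
      R * (CB * CS) * η := by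
    have h5 : (sg v' h 0 U : ℝ) / (U * PV v' h) ≤ CB * R := by
      rw [div_le_iff₀ (by positivity)]
      calc (sg v' h 0 U : ℝ) ≤ CB * (U * PV y h) := hsv'
        _ ≤ CB * (U * (R * PV v' h)) :=
          mul_le_mul_of_nonneg_left (mul_le_mul_of_nonneg_left hPy hU0.le) hCB.le
        _ = CB * R * (U * PV v' h) := by ring
    have h6 : (PV v h - PV v' h) / PV v h ≤ CS * η := by
      rw [div_le_iff₀ hPv0]
      have h7 : CS * η * PV v' h ≤ CS * η * PV v h :=
        mul_le_mul_of_nonneg_left hPvv (by positivity)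
      linarith
    calc (sg v' h 0 U : ℝ) / (U * PV v' h) * ((PV v h - PV v' h) / PV v h)
        ≤ CB * R * (CS * η) :=
          mul_le_mul h5 h6 (div_nonneg (by linarith) hPv0.le) (by positivity)
      _ = _ := by ring
  rw [e]
  have e2 : R * (12 * CA + CB * CS) * η = R * (12 * CA) * η + R * (CB * CS) * η := by
    ring
  rw [e2, abs_le]
  have hA1 : 0 ≤ R * (12 * CA) * η := by positivity
  have hB1 : 0 ≤ R * (CB * CS) * η := by positivity
  constructor <;> linarith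

end Pool.Agent.H13.GG
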