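import Pool.Agent.H13.GG.Stm

/-! # GG-WNG: the numbers of pairs in disjoint windows are independent (helper37, after GW-WND) -/

set_option autoImplicit false

open MeasureTheory Filter ProbabilityTheory
open scoped Topology ENNReal

namespace Pool.Agent.H13.GG

open Pool.Agent.H50.GW (GMod)

namespace WNG

/-- events which depend only on finitely many discrete coordinates -/
lemma pre {Ω κ : Type} {F : Ω → κ} {E : Set Ω} (h : ∀ ω ω', F ω = F ω' → ω ∈ E → ω' ∈ E) :
    F ⁻¹' (F '' E) = E := by
  refine Set.Subset.antisymm ?_ (Set.subset_preimage_image F E)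
  rintro ω ⟨ω', h1, h2⟩
  exact h ω' ω h2 h1

/-- the number of pairs depends only on the numbers of the window -/
lemma gt_congr {Ω : Type} (A : ℕ → Set Ω) (ω ω' : Ω) (h U : ℕ) (hU : U < h)
    (H : ∀ n, h - U ≤ n → n ≤ h + U → (ω ∈ A n ↔ ω' ∈ A n)) : gt A ω h U = gt A ω' h U := by
  classical
  unfold gt
  congr 1
  apply Finset.filter_congr
  intro j hj
  rw [Finset.mem_range] at hj
  unfold PH
  rw [Set.mem_inter_iff, Set.mem_inter_iff, H _ (by omega) (by omega), H _ (by omega) (by omega)]

end WNG

open Classical in
theorem wng : S_WNG := by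
  intro Ω _ P A z hG M U pos B hU hpos
  have hP := hG.prob
  have h1 : iIndepFun (fun (m : ℕ) => (A m).indicator (fun _ => (1 : ℕ))) P :=
    hG.indep.iIndepFun_indicator
  have hf : ∀ m : ℕ, Measurable ((A m).indicator (fun _ => (1 : ℕ))) :=
    fun m => measurable_const.indicator (hG.meas m)
  have hval : ∀ (m : ℕ) (ω ω' : Ω), (A m).indicator (fun _ => (1 : ℕ)) ω =
      (A m).indicator (fun _ => (1 : ℕ)) ω' → (ω ∈ A m ↔ ω' ∈ A m) := by
    intro m ω ω' h
    by_cases h1 : ω ∈ A m <;> by_cases h2 : ω' ∈ A m <;> simp_all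
  induction M with
  | zero => simp
  | succ M ih =>
    have ih' := ih (fun i hi => hU i (by omega)) (fun i j hij hj => hpos i j hij (by omega))
    let S : Finset ℕ := Finset.range (pos M - U M)
    let T : Finset ℕ := Finset.Icc (pos M - U M) (pos M + U M)
    have hdis : Disjoint S T := by
      rw [Finset.disjoint_left]
      intro a ha hb
      simp only [S, T, Finset.mem_range, Finset.mem_Icc] at ha hb
      omega
    have h2 := h1.indepFun_finset S T hdis hf
    rw [indepFun_iff_measure_inter_preimage_eq_mul] at h2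
    set F : Ω → (S → ℕ) := fun a i => (A i).indicator (fun _ => (1 : ℕ)) a with hF
    set G : Ω → (T → ℕ) := fun a i => (A i).indicator (fun _ => (1 : ℕ)) a with hG'
    set E1 : Set Ω := {ω | ∀ i < M, gt A ω (pos i) (U i) ∈ B i} with hE1
    set E2 : Set Ω := {ω | gt A ω (pos M) (U M) ∈ B M} with hE2
    have p1 : F ⁻¹' (F '' E1) = E1 := by
      apply WNG.pre
      intro ω ω' hω h i hi
      have e : gt A ω (pos i) (U i) = gt A ω' (pos i) (U i) := by
        apply WNG.gt_congr A ω ω' _ _ (hU i (by omega))
        intro n hn1 hn2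
        have q2 := hpos i M hi (by omega)
        have hmS : n ∈ S := by
          simp only [S, Finset.mem_range]
          omega
        exact hval n ω ω' (congrFun hω ⟨n, hmS⟩)
      rw [← e]
      exact h i hi
    have p2 : G ⁻¹' (G '' E2) = E2 := by
      apply WNG.pre
      intro ω ω' hω h
      have e : gt A ω (pos M) (U M) = gt A ω' (pos M) (U M) := by
        apply WNG.gt_congr A ω ω' _ _ (hU M (by omega))
        intro n hn1 hn2
        have hmT : n ∈ T := by
          simp only [T, Finset.mem_Icc]
          omega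
        exact hval n ω ω' (congrFun hω ⟨n, hmT⟩)
      change gt A ω' (pos M) (U M) ∈ B M
      rw [← e]
      exact h
    have h3 := h2 (F '' E1) (G '' E2) (Set.to_countable _).measurableSet
      (Set.to_countable _).measurableSet
    rw [p1, p2, ih'] at h3
    rw [Finset.prod_range_succ, ← h3]
    congr 1
    ext ω
    simp only [hE1, hE2, Set.mem_inter_iff, Set.mem_setOf_eq]
    constructor
    · intro h
      exact ⟨fun i hi => h i (by omega), h M (by omega)⟩
    · rintro ⟨ha, hb⟩ i hi
      rcases Nat.lt_succ_iff_lt_or_eq.1 hi with h | h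
      · exact ha i h
      · rw [h]; exact hb

end Pool.Agent.H13.GG
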