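import Pool.Agent.H13.GG.NU
import Pool.Agent.H13.GG.SST
import Pool.Agent.H13.GG.BTG
import Pool.Agent.H13.GG.APG
import Pool.Agent.H13.GG.TRG
import Pool.Agent.H13.GG.SBG
import Pool.Agent.H13.GG.HBG
import Pool.Agent.H13.GG.EXDG
import Pool.Agent.H13.GG.EXWG
import Pool.Agent.H13.GG.POSG
import Pool.Agent.H13.GG.IPG
import Pool.Agent.H13.GG.WNG
import Pool.Agent.H13.GG.EPG
import Pool.Agent.H13.GG.GUG
import Pool.Agent.H13.GG.GEG
import Pool.Agent.H50.GW.FND
import Pool.Agent.H50.GW.BTU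
import Pool.Agent.H50.GW.MGI
import Pool.Agent.H50.GW.LDU
import Pool.Agent.H50.GW.LDL
import Pool.Agent.H50.GW.GXM
import Pool.Agent.H13.GG.MERT
import Pool.Agent.H50.CW.RATE

set_option autoImplicit false

namespace Pool.Agent.H13.GG

open Pool.Agent.H50.GW (S_BTU S_LDU S_LDL S_FND btu fnd ldu ldl mgi)

lemma btu' : S_BTU := btu fnd
lemma ldu' : S_LDU := ldu mgi
lemma ldl' : S_LDL := ldl mgi
lemma sst' : S_SST := sst nu' mert
lemma btg' : S_BTG := btg btu' nu'
lemma apg' : S_APG := apg btu' nu'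
lemma trg' : S_TRG := trg apg' btg' nu' sst' mert
lemma sbg' : S_SBG := sbg btg' nu' mert
lemma hbg' : S_HBG := hbg sbg' nu' mert
lemma exdg' : S_EXDG := exdg trg' sbg' nu' sst' mert
lemma exwg' : S_EXWG := exwg trg' sbg' nu' sst' mert
lemma epg' : S_EPG := epg ipg trg' sbg' nu' sst' mert
lemma gug' : S_GUG := gug ipg epg' exdg' nu' ldu'
lemma geg' : S_GEG := geg wng ipg epg' exwg' posg nu' sst' ldl'

end Pool.Agent.H13.GG
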