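import Pool.Agent.H13.GG.StmB
import Pool.Agent.H13.GG.EPG
import Pool.Agent.H50.GW.GXM

set_option autoImplicit false

open MeasureTheory Filter ProbabilityTheory
open scoped Topology ENNReal

namespace Pool.Agent.H13.GG

open Pool.Agent.H50.BF (MM S_MERT MM_pos MM_mono)
open Pool.Agent.H50.GW (Rou GMod NN S_BTU S_LDU S_LDL S_FND)

namespace CUEaux

open Pool.Agent.H50.GW.EXPWaux EPGaux

theorem ll_f {f : ℕ → ℕ} (hf : Tendsto f atTop atTop)
    (hl : Tendsto (fun h : ℕ => Real.log (f h) / Real.log h) atTop (𝓝 1)) :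
    Tendsto (fun h : ℕ => Real.log (Real.log (f h)) / Real.log (Real.log h)) atTop (𝓝 1) := by
  have h0 : Tendsto (fun n : ℕ => Real.log (Real.log (f n) / Real.log n)) atTop (𝓝 0) := by
    have := hl.log one_ne_zero
    rwa [Real.log_one] at this
  have h1 : Tendsto (fun n : ℕ => Real.log (Real.log (f n) / Real.log n) /
      Real.log (Real.log n) + 1) atTop (𝓝 (0 + 1)) :=
    (h0.div_atTop tll).add tendsto_const_nhds
  rw [zero_add] at h1
  refine h1.congr' ?_
  filter_upwards [tlog.eventually_ge_atTop 1, tll.eventually_ge_atTop 1,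
    (tlog.comp hf).eventually_ge_atTop 1] with n hn hn1 hn2
  simp only [Function.comp] at hn2
  rw [Real.log_div (by linarith) (by linarith)]
  have : Real.log (Real.log n) ≠ 0 := by linarith
  field_simp
  ring

section z

variable {z : ℕ → ℕ}

theorem mm_f (hMERT : S_MERT)
    (hz : Tendsto (fun n : ℕ => Real.log (z n) / Real.log (Real.log n)) atTop (𝓝 1))
    {f : ℕ → ℕ} (hf : Tendsto f atTop atTop)
    (hl : Tendsto (fun h : ℕ => Real.log (f h) / Real.log h) atTop (𝓝 1)) :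
    Tendsto (fun h : ℕ => MM (z (f h)) / Real.log (Real.log h)) atTop
      (𝓝 (Real.exp Real.eulerMascheroniConstant)) := by
  have h1 := ((MM_z hMERT hz (B := 1) le_rfl).comp hf).mul (ll_f hf hl)
  rw [mul_one] at h1
  refine h1.congr' ?_
  filter_upwards [(tll.comp hf).eventually_ge_atTop 1, tll.eventually_ge_atTop 1] with h a b
  simp only [Function.comp, one_mul] at a ⊢
  have h3 : Real.log (Real.log ((f h : ℕ) : ℝ)) ≠ 0 := by linarith
  have h4 : Real.log (Real.log h) ≠ 0 := by linarith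
  field_simp

theorem mm_div {a b : ℕ → ℕ} (ha : Tendsto (fun h : ℕ => MM (a h) / Real.log (Real.log h)) atTop
      (𝓝 (Real.exp Real.eulerMascheroniConstant)))
    (hb : Tendsto (fun h : ℕ => MM (b h) / Real.log (Real.log h)) atTop
      (𝓝 (Real.exp Real.eulerMascheroniConstant))) :
    Tendsto (fun h : ℕ => MM (a h) / MM (b h)) atTop (𝓝 1) := by
  have h3 := ha.div hb (Real.exp_pos _).ne'
  rw [div_self (Real.exp_pos _).ne'] at h3
  refine h3.congr' ?_
  filter_upwards [tll.eventually_ge_atTop 1] with n hn2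
  have h4 : Real.log (Real.log n) ≠ 0 := by linarith
  have h5 := (MM_pos (b n)).ne'
  simp only [Pi.div_apply]
  field_simp

theorem mm_z1 (hMERT : S_MERT)
    (hz : Tendsto (fun n : ℕ => Real.log (z n) / Real.log (Real.log n)) atTop (𝓝 1)) :
    Tendsto (fun h : ℕ => MM (z h) / Real.log (Real.log h)) atTop
      (𝓝 (Real.exp Real.eulerMascheroniConstant)) := by
  have := MM_z hMERT hz (B := 1) le_rfl
  simpa only [one_mul] using this

theorem mm_fl (hMERT : S_MERT) :
    Tendsto (fun h : ℕ => MM ⌊Real.log h⌋₊ / Real.log (Real.log h)) atTop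
      (𝓝 (Real.exp Real.eulerMascheroniConstant)) := by
  have hf : Tendsto (fun h : ℕ => ⌊Real.log h⌋₊) atTop atTop := tendsto_nat_floor_atTop.comp tlog
  have h1 := (hMERT.comp hf).mul (Pool.Agent.H50.GW.GXMaux.log_ratio.comp tlog)
  rw [mul_one] at h1
  refine h1.congr' ?_
  filter_upwards [hf.eventually_ge_atTop 3, tll.eventually_ge_atTop 1] with h a b
  simp only [Function.comp]
  have a' : (3 : ℝ) ≤ (⌊Real.log h⌋₊ : ℝ) := by exact_mod_cast a
  have h3 : Real.log (⌊Real.log h⌋₊ : ℝ) ≠ 0 := (Real.log_pos (by linarith)).ne'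
  have h4 : Real.log (Real.log h) ≠ 0 := by linarith
  field_simp

theorem z_rng (hz : Tendsto (fun n : ℕ => Real.log (z n) / Real.log (Real.log n)) atTop (𝓝 1))
    {f : ℕ → ℕ} (hf : Tendsto f atTop atTop)
    (hl : Tendsto (fun h : ℕ => Real.log (f h) / Real.log h) atTop (𝓝 1)) :
    ∀ᶠ h : ℕ in atTop, Real.log h ^ (1 / 2 : ℝ) ≤ z (f h) ∧ (z (f h) : ℝ) ≤ Real.log h ^ 2 := by
  have h0 := (hz.comp hf).mul (ll_f hf hl)
  rw [mul_one] at h0
  have h1 : Tendsto (fun h : ℕ => Real.log (z (f h)) / Real.log (Real.log h)) atTop (𝓝 1) := by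
    refine h0.congr' ?_
    filter_upwards [(tll.comp hf).eventually_ge_atTop 1, tll.eventually_ge_atTop 1] with h a b
    simp only [Function.comp] at a ⊢
    have h3 : Real.log (Real.log ((f h : ℕ) : ℝ)) ≠ 0 := by linarith
    have h4 : Real.log (Real.log h) ≠ 0 := by linarith
    field_simp
  filter_upwards [h1.eventually_const_le (show (1 / 2 : ℝ) < 1 by norm_num),
    h1.eventually_le_const (show (1 : ℝ) < 2 by norm_num), tlog.eventually_ge_atTop 1,
    tll.eventually_ge_atTop 1, ((z_tendsto hz).comp hf).eventually_ge_atTop 1]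
    with n hn1 hn2 hL hLL hz1
  simp only [Function.comp] at hz1
  have hz0 : (0 : ℝ) < z (f n) := by exact_mod_cast hz1
  have hLL0 : 0 < Real.log (Real.log n) := by linarith
  rw [le_div_iff₀ hLL0] at hn1
  rw [div_le_iff₀ hLL0] at hn2
  have hL0 : 0 < Real.log n := by linarith
  constructor
  · rw [Real.rpow_def_of_pos hL0, ← Real.le_log_iff_exp_le hz0]
    linarith
  · rw [← Real.rpow_natCast, Real.rpow_def_of_pos hL0, ← Real.log_le_iff_le_exp hz0]
    push_cast
    linarith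

end z

/-- the lower end of the range -/
noncomputable def mf (h : ℕ) : ℕ := ⌊(h : ℝ) / Real.log h ^ 3⌋₊

theorem mf_big : ∀ᶠ h : ℕ in atTop, (h : ℝ) ^ (1 / 2 : ℝ) ≤ (h : ℝ) / Real.log h ^ 3 := by
  have h1 := (isLittleO_log_rpow_rpow_atTop (3 : ℝ) (show (0 : ℝ) < 1 / 2 by norm_num)).bound one_pos
  filter_upwards [tendsto_natCast_atTop_atTop (R := ℝ) |>.eventually h1,
    tlog.eventually_ge_atTop 1, eventually_ge_atTop 1] with h a b c
  have hL0 : 0 < Real.log h := by linarith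
  have hh : (0 : ℝ) < h := by exact_mod_cast c
  have e3 : Real.log (h : ℝ) ^ (3 : ℝ) = Real.log h ^ 3 := by norm_cast
  rw [e3, Real.norm_of_nonneg (by positivity), Real.norm_of_nonneg (by positivity), one_mul] at a
  rw [le_div_iff₀ (by positivity)]
  calc (h : ℝ) ^ (1 / 2 : ℝ) * Real.log h ^ 3 ≤ (h : ℝ) ^ (1 / 2 : ℝ) * (h : ℝ) ^ (1 / 2 : ℝ) := by
        gcongr
    _ = h := by rw [← Real.rpow_add hh]; norm_num

theorem mf_tendsto : Tendsto mf atTop atTop := by
  have h1 : Tendsto (fun h : ℕ => (h : ℝ) ^ (1 / 2 : ℝ)) atTop atTop :=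
    (tendsto_rpow_atTop (by norm_num)).comp tendsto_natCast_atTop_atTop
  have h2 : Tendsto (fun h : ℕ => (h : ℝ) / Real.log h ^ 3) atTop atTop :=
    tendsto_atTop_mono' _ mf_big h1
  exact tendsto_nat_floor_atTop.comp h2

theorem mf_log : Tendsto (fun h : ℕ => Real.log (mf h) / Real.log h) atTop (𝓝 1) := by
  have h2 : Tendsto (fun n : ℕ => Real.log (Real.log n) / Real.log n) atTop (𝓝 0) := by
    have := (Real.tendsto_pow_log_div_mul_add_atTop 1 0 1 one_ne_zero).comp tlog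
    refine this.congr fun n => ?_
    simp
  have h3 : Tendsto (fun n : ℕ => 1 - (Real.log 2 / Real.log n + 3 * (Real.log (Real.log n) /
      Real.log n))) atTop (𝓝 (1 - (0 + 3 * 0))) :=
    tendsto_const_nhds.sub ((tlog.const_div_atTop _).add (h2.const_mul 3))
  rw [mul_zero, add_zero, sub_zero] at h3
  refine tendsto_of_tendsto_of_tendsto_of_le_of_le' h3 tendsto_const_nhds ?_ ?_
  · have h1 : Tendsto (fun h : ℕ => (h : ℝ) ^ (1 / 2 : ℝ)) atTop atTop :=
      (tendsto_rpow_atTop (by norm_num)).comp tendsto_natCast_atTop_atTop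
    filter_upwards [mf_big, h1.eventually_ge_atTop 2, tlog.eventually_ge_atTop 1,
      eventually_ge_atTop 1] with h a b c d
    have hL0 : 0 < Real.log h := by linarith
    have hh : (0 : ℝ) < h := by exact_mod_cast d
    have e1 : (h : ℝ) / Real.log h ^ 3 / 2 ≤ mf h := by
      have := Nat.lt_floor_add_one ((h : ℝ) / Real.log h ^ 3)
      unfold mf
      linarith
    have e2 : Real.log ((h : ℝ) / Real.log h ^ 3 / 2) ≤ Real.log (mf h) :=
      Real.log_le_log (by positivity) e1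
    rw [Real.log_div (by positivity) (by norm_num), Real.log_div hh.ne' (by positivity),
      Real.log_pow] at e2
    push_cast at e2
    rw [le_div_iff₀ hL0]
    have e3 : (1 - (Real.log 2 / Real.log h + 3 * (Real.log (Real.log h) / Real.log h))) *
        Real.log h = Real.log h - 3 * Real.log (Real.log h) - Real.log 2 := by
      field_simp
      ring
    rw [e3]
    exact e2
  · filter_upwards [tlog.eventually_ge_atTop 1, eventually_ge_atTop 1,
      mf_tendsto.eventually_ge_atTop 1] with h a b c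
    have hL0 : 0 < Real.log h := by linarith
    rw [div_le_one hL0]
    apply Real.log_le_log (by exact_mod_cast c)
    have : (mf h : ℝ) ≤ (h : ℝ) / Real.log h ^ 3 := Nat.floor_le (by positivity)
    refine this.trans (div_le_self (by positivity) (one_le_pow₀ a))

section prob

variable {Ω : Type} [MeasurableSpace Ω] {P : Measure Ω} {A : ℕ → Set Ω} {z : ℕ → ℕ}

theorem prob_range2 (hMERT : S_MERT) (hM : GMod P A z) {f g : ℕ → ℕ} (hf : Tendsto f atTop atTop)
    (hfl : Tendsto (fun h : ℕ => Real.log (f h) / Real.log h) atTop (𝓝 1))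
    (hg : Tendsto g atTop atTop)
    (hgl : Tendsto (fun h : ℕ => Real.log (g h) / Real.log h) atTop (𝓝 1)) {δ : ℝ} (hδ : 0 < δ) :
    ∀ᶠ h : ℕ in atTop, ∀ N : ℕ, f h ≤ N → N ≤ g h → Rou (z N) N →
      1 - δ ≤ (P (A N)).toReal * (Real.log h / MM (z h)) ∧
        (P (A N)).toReal * (Real.log h / MM (z h)) ≤ 1 + δ := by
  obtain ⟨e, he⟩ : ∃ e : ℝ, e = min (1 / 4) (δ / 8) := ⟨_, rfl⟩
  have he0 : 0 < e := by rw [he]; positivity
  have he1 : e ≤ 1 / 4 := by rw [he]; exact min_le_left _ _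
  have he2 : 8 * e ≤ δ := by
    have : e ≤ δ / 8 := by rw [he]; exact min_le_right _ _
    linarith
  have h1 := hf.eventually (eventually_forall_ge_atTop.2 (dens_range hM he0))
  have hmf := mm_div (mm_f hMERT hM.lev hf hfl) (mm_z1 hMERT hM.lev)
  have hmg := mm_div (mm_f hMERT hM.lev hg hgl) (mm_z1 hMERT hM.lev)
  filter_upwards [h1, hmf.eventually_const_le (show 1 - e < 1 by linarith),
    hmg.eventually_le_const (show 1 < 1 + e by linarith),
    hfl.eventually_const_le (show 1 - e < 1 by linarith),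
    hgl.eventually_le_const (show 1 < 1 + e by linarith), tlog.eventually_ge_atTop 1,
    (tlog.comp hf).eventually_ge_atTop 1, hf.eventually_ge_atTop 1]
    with h g1 g2 g3 g4 g5 hL hLf hf1 N hN1 hN2 hR
  simp only [Function.comp] at hLf
  obtain ⟨x1, x2⟩ := g1 N hN1 hR
  have hf0 : (0 : ℝ) < f h := by exact_mod_cast hf1
  have hN0 : (0 : ℝ) < N := by
    have : (f h : ℝ) ≤ N := by exact_mod_cast hN1
    linarith
  have l1 : Real.log (f h) ≤ Real.log N := Real.log_le_log hf0 (by exact_mod_cast hN1)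
  have l2 : Real.log N ≤ Real.log (g h) := Real.log_le_log hN0 (by exact_mod_cast hN2)
  have hL0 : 0 < Real.log h := by linarith
  have hlN : 0 < Real.log N := by linarith
  have m0 := MM_pos (z h)
  have m0' := MM_pos (z N)
  rw [le_div_iff₀ hL0] at g4
  rw [div_le_iff₀ hL0] at g5
  rw [le_div_iff₀ m0] at g2
  rw [div_le_iff₀ m0] at g3
  have m1 : MM (z (f h)) ≤ MM (z N) := MM_mono (hM.mono hN1)
  have m2 : MM (z N) ≤ MM (z (g h)) := MM_mono (hM.mono hN2)
  obtain ⟨y, hy⟩ : ∃ y, y = Real.log h / Real.log N := ⟨_, rfl⟩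
  obtain ⟨w, hw⟩ : ∃ w, w = MM (z N) / MM (z h) := ⟨_, rfl⟩
  have y0 : 0 < y := by rw [hy]; positivity
  have y1 : 1 - e ≤ y := by
    rw [hy, le_div_iff₀ hlN]
    have h5 : Real.log N ≤ (1 + e) * Real.log h := l2.trans g5
    have h6 : (1 - e) * Real.log N ≤ (1 - e) * ((1 + e) * Real.log h) :=
      mul_le_mul_of_nonneg_left h5 (by linarith)
    nlinarith [mul_nonneg he0.le hL0.le, mul_nonneg (mul_nonneg he0.le he0.le) hL0.le]
  have y2 : y ≤ 1 + 2 * e := by
    rw [hy, div_le_iff₀ hlN]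
    have h5 : (1 - e) * Real.log h ≤ Real.log N := g4.trans l1
    have h6 : (1 + 2 * e) * ((1 - e) * Real.log h) ≤ (1 + 2 * e) * Real.log N :=
      mul_le_mul_of_nonneg_left h5 (by linarith)
    have h7 : 0 ≤ (e - 2 * e * e) * Real.log h := by
      have : 0 ≤ e - 2 * e * e := by nlinarith
      positivity
    nlinarith
  have w0 : 0 < w := by rw [hw]; positivity
  have w1 : 1 - e ≤ w := by rw [hw, le_div_iff₀ m0]; exact g2.trans m1
  have w2 : w ≤ 1 + e := by rw [hw, div_le_iff₀ m0]; exact m2.trans g3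
  have e1 : (P (A N)).toReal * (Real.log h / MM (z h)) =
      (P (A N)).toReal * (Real.log N / MM (z N)) * y * w := by
    rw [hy, hw]; field_simp
  rw [e1]
  generalize (P (A N)).toReal * (Real.log N / MM (z N)) = x at *
  have x0 : 0 ≤ x := by linarith
  have h1e : 0 ≤ 1 - e := by linarith
  constructor
  · calc 1 - δ ≤ (1 - e) * (1 - e) * (1 - e) := by nlinarith [mul_nonneg he0.le he0.le]
      _ ≤ x * y * w := by gcongr
  · calc x * y * w ≤ (1 + e) * (1 + 2 * e) * (1 + e) := by gcongr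
      _ ≤ 1 + δ := by nlinarith [mul_nonneg he0.le he0.le]

open Classical in
theorem sum_range2 (hIPG : S_IPG) (hMERT : S_MERT) (hM : GMod P A z) {δ : ℝ} (hδ : 0 < δ)
    (hδ1 : δ ≤ 1) : ∀ᶠ h : ℕ in atTop, ∀ U : ℕ, (U : ℝ) + h / Real.log h ^ 3 ≤ h →
      (1 - δ) * (sg (z (2 * h)) h 0 U : ℝ) ≤
        (∑ j ∈ Finset.range U, (P (PH A h j)).toReal) * (Real.log h / MM (z h)) ^ 2 ∧
      (∑ j ∈ Finset.range U, (P (PH A h j)).toReal) * (Real.log h / MM (z h)) ^ 2 ≤
        (1 + δ) * (sg (z (mf h)) h 0 U : ℝ) := by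
  obtain ⟨e, he⟩ : ∃ e : ℝ, e = δ / 3 ^ 2 := ⟨_, rfl⟩
  have he0 : 0 < e := by rw [he]; positivity
  have he1 : e ≤ 1 := by
    rw [he, div_le_one (by positivity)]; linarith
  have he2 : 3 ^ 2 * e = δ := by rw [he]; field_simp
  filter_upwards [prob_range2 hMERT hM mf_tendsto mf_log (tB (B := 2) (by norm_num))
    (log_B (B := 2) (by norm_num)) he0, eventually_ge_atTop 8,
    tlog.eventually_ge_atTop 1] with h h1 h8 hL U hU
  have m0 := MM_pos (z h)
  have hL0 : 0 < Real.log h := by linarith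
  have hh0 : (0 : ℝ) < h := by
    have : 0 < h := by omega
    exact_mod_cast this
  have hUh : U < h := by
    have : (U : ℝ) < h := by
      have : 0 < (h : ℝ) / Real.log h ^ 3 := by positivity
      linarith
    exact_mod_cast this
  have hmU : mf h ≤ h - U := by
    have h2 : (mf h : ℝ) ≤ (h : ℝ) / Real.log h ^ 3 := Nat.floor_le (by positivity)
    have h3 : (mf h : ℝ) ≤ ((h - U : ℕ) : ℝ) := by
      rw [Nat.cast_sub hUh.le]; linarith
    exact_mod_cast h3
  have hmh : mf h ≤ h := by omega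
  have hip := (hIPG Ω P A z hM h U hUh).2
  have key : ∀ j ∈ Finset.range U,
      (1 - δ) * (if ∀ p : ℕ, p.Prime → p ≤ z (2 * h) → ¬ Bd h p (0 + j + 1) then (1 : ℝ) else 0) ≤
        (P (PH A h j)).toReal * (Real.log h / MM (z h)) ^ 2 ∧
      (P (PH A h j)).toReal * (Real.log h / MM (z h)) ^ 2 ≤
        (1 + δ) * (if ∀ p : ℕ, p.Prime → p ≤ z (mf h) → ¬ Bd h p (0 + j + 1) then (1 : ℝ) else 0) := by
    intro j hj
    rw [Finset.mem_range] at hj
    rw [zero_add]
    have hjh : j + 1 ≤ h := by omega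
    rw [bd_rou hjh, bd_rou hjh]
    have a1 : mf h ≤ h - (j + 1) := by omega
    have a2 : h - (j + 1) ≤ 2 * h := by omega
    have b1 : mf h ≤ h + (j + 1) := by omega
    have b2 : h + (j + 1) ≤ 2 * h := by omega
    rw [hip j hj, ENNReal.toReal_mul]
    by_cases hall : Rou (z (h - (j + 1))) (h - (j + 1)) ∧ Rou (z (h + (j + 1))) (h + (j + 1))
    · obtain ⟨p1, p2⟩ := h1 _ a1 a2 hall.1
      obtain ⟨q1, q2⟩ := h1 _ b1 b2 hall.2
      have hall' : Rou (z (mf h)) (h - (j + 1)) ∧ Rou (z (mf h)) (h + (j + 1)) :=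
        ⟨rou_mono (hM.mono a1) hall.1, rou_mono (hM.mono b1) hall.2⟩
      rw [if_pos hall', mul_one]
      have e1 : (P (A (h - (j + 1)))).toReal * (P (A (h + (j + 1)))).toReal *
          (Real.log h / MM (z h)) ^ 2 =
          ((P (A (h - (j + 1)))).toReal * (Real.log h / MM (z h))) *
          ((P (A (h + (j + 1)))).toReal * (Real.log h / MM (z h))) := by ring
      rw [e1]
      have hlo : 1 - δ ≤ ((P (A (h - (j + 1)))).toReal * (Real.log h / MM (z h))) *
          ((P (A (h + (j + 1)))).toReal * (Real.log h / MM (z h))) := by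
        calc 1 - δ = 1 - 3 ^ 2 * e := by rw [he2]
          _ ≤ (1 - e) ^ 2 := pow_dn 2 he0.le he1
          _ = (1 - e) * (1 - e) := by ring
          _ ≤ _ := mul_le_mul p1 q1 (by linarith) (by linarith)
      have hhi : ((P (A (h - (j + 1)))).toReal * (Real.log h / MM (z h))) *
          ((P (A (h + (j + 1)))).toReal * (Real.log h / MM (z h))) ≤ 1 + δ := by
        calc _ ≤ (1 + e) * (1 + e) := mul_le_mul p2 q2 (by positivity) (by positivity)
          _ = (1 + e) ^ 2 := by ring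
          _ ≤ 1 + 3 ^ 2 * e := pow_up 2 he0.le he1
          _ = 1 + δ := by rw [he2]
      refine ⟨?_, hhi⟩
      split_ifs
      · rw [mul_one]; exact hlo
      · rw [mul_zero]; linarith
    · have hnot : ¬ (Rou (z (2 * h)) (h - (j + 1)) ∧ Rou (z (2 * h)) (h + (j + 1))) :=
        fun H => hall ⟨rou_mono (hM.mono a2) H.1, rou_mono (hM.mono b2) H.2⟩
      rw [if_neg hnot, mul_zero]
      have hz : (P (A (h - (j + 1)))).toReal * (P (A (h + (j + 1)))).toReal = 0 := by
        rw [not_and_or] at hall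
        rcases hall with hi | hi
        · rw [hM.empty _ hi]; simp
        · rw [hM.empty _ hi]; simp
      rw [hz, zero_mul]
      refine ⟨le_rfl, ?_⟩
      split_ifs
      · linarith
      · simp
  have hsg : ∀ v : ℕ, (sg v h 0 U : ℝ) = ∑ j ∈ Finset.range U,
      (if ∀ p : ℕ, p.Prime → p ≤ v → ¬ Bd h p (0 + j + 1) then (1 : ℝ) else 0) := by
    intro v
    unfold sg
    rw [Finset.card_filter]
    push_cast
    rfl
  rw [hsg, hsg, Finset.mul_sum, Finset.mul_sum, Finset.sum_mul]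
  exact ⟨Finset.sum_le_sum fun j hj => (key j hj).1, Finset.sum_le_sum fun j hj => (key j hj).2⟩

end prob

theorem SS_ratio (hNU : S_NU) {x v h : ℕ} {δ : ℝ} (hδ : 0 < δ) (hδ1 : δ ≤ 1) (hx : 4 / δ ≤ x)
    (hv : 4 / δ ≤ v) (h1 : 1 - δ ≤ MM x / MM v) (h2 : MM x / MM v ≤ 1 + δ) :
    (1 - δ) * SS v h ≤ SS x h ∧ SS x h ≤ (1 + δ) * SS v h := by
  have hx0 : (0 : ℝ) < x := lt_of_lt_of_le (by positivity) hx
  have hv0 : (0 : ℝ) < v := lt_of_lt_of_le (by positivity) hv
  have hx1 : 1 ≤ x := by exact_mod_cast hx0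
  have hv1 : 1 ≤ v := by exact_mod_cast hv0
  have dx : (2 : ℝ) / x ≤ δ / 2 := by
    rw [div_le_iff₀ hx0]
    rw [div_le_iff₀ hδ] at hx
    linarith
  have dv : (2 : ℝ) / v ≤ δ / 2 := by
    rw [div_le_iff₀ hv0]
    rw [div_le_iff₀ hδ] at hv
    linarith
  have sx : 0 < SS x h := by have := (hNU.2.1 x h).2.2.1; linarith
  have sv : 0 < SS v h := by have := (hNU.2.1 v h).2.2.1; linarith
  have mx := MM_pos x
  have mv := MM_pos v
  rcases le_total v x with H | H
  · obtain ⟨-, k1, k2⟩ := hNU.2.2 v x h H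
    have k2 := k2 hv1
    constructor
    · refine le_trans ?_ k2
      rw [mul_comm]
      exact mul_le_mul_of_nonneg_left (by linarith) sv.le
    · refine k1.trans ?_
      rw [mul_comm]
      exact mul_le_mul_of_nonneg_right h2 sv.le
  · obtain ⟨-, k1, k2⟩ := hNU.2.2 x v h H
    have k2 := k2 hx1
    constructor
    · have k3 : SS v h * (MM x / MM v) ≤ SS x h := by
        calc SS v h * (MM x / MM v) ≤ SS x h * (MM v / MM x) * (MM x / MM v) :=
              mul_le_mul_of_nonneg_right k1 (by positivity)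
          _ = SS x h := by field_simp
      refine le_trans ?_ k3
      rw [mul_comm]
      exact mul_le_mul_of_nonneg_left h1 sv.le
    · have k3 : SS x h * (1 - δ / 2) ≤ SS v h :=
        le_trans (mul_le_mul_of_nonneg_left (by linarith) sx.le) k2
      have k4 : (1 + δ) * (SS x h * (1 - δ / 2)) ≤ (1 + δ) * SS v h :=
        mul_le_mul_of_nonneg_left k3 (by linarith)
      have k5 : 0 ≤ (δ / 2 - δ * δ / 2) * SS x h := by
        have : 0 ≤ δ / 2 - δ * δ / 2 := by nlinarith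
        positivity
      nlinarith

/-- the final estimate -/
theorem fin_est2 {S L U M M1 M2 T T1 T2 s1 s2 δ ε : ℝ} (hL : 0 < L) (hU : 0 ≤ U) (hM : 0 < M)
    (hM1 : 0 < M1) (hM2 : 0 < M2) (hT : 0 < T) (hT1 : 0 < T1) (hT2 : 0 < T2) (hδ : 0 < δ) (hδ1 : δ ≤ 1)
    (hδε : 15 * δ ≤ ε) (hlo : (1 - δ) * s2 ≤ S * (L / M) ^ 2) (hhi : S * (L / M) ^ 2 ≤ (1 + δ) * s1)
    (hs1 : s1 ≤ (1 + δ) * (U * (T1 / M1 ^ 2))) (hs2 : (1 - δ) * (U * (T2 / M2 ^ 2)) ≤ s2)
    (hr1 : (M / M1) ^ 2 ≤ 1 + δ) (hr2 : 1 - δ ≤ (M / M2) ^ 2) (ht1 : T1 ≤ (1 + δ) * T)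
    (ht2 : (1 - δ) * T ≤ T2) : |S * L ^ 2 - U * T| ≤ ε * (U * T) := by
  have d0 : 0 ≤ 1 - δ := by linarith
  have hUT : 0 ≤ U * T := by positivity
  have e0 : S * L ^ 2 = S * (L / M) ^ 2 * M ^ 2 := by field_simp
  have up : S * L ^ 2 ≤ (1 + δ) ^ 4 * (U * T) := by
    rw [e0]
    calc S * (L / M) ^ 2 * M ^ 2 ≤ (1 + δ) * s1 * M ^ 2 :=
          mul_le_mul_of_nonneg_right hhi (by positivity)
      _ ≤ (1 + δ) * ((1 + δ) * (U * (T1 / M1 ^ 2))) * M ^ 2 := by gcongr
      _ = (1 + δ) ^ 2 * U * (T1 * (M / M1) ^ 2) := by field_simp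
      _ ≤ (1 + δ) ^ 2 * U * (((1 + δ) * T) * (1 + δ)) := by gcongr
      _ = (1 + δ) ^ 4 * (U * T) := by ring
  have dn : (1 - δ) ^ 4 * (U * T) ≤ S * L ^ 2 := by
    rw [e0]
    calc (1 - δ) ^ 4 * (U * T) = (1 - δ) ^ 2 * U * (((1 - δ) * T) * (1 - δ)) := by ring
      _ ≤ (1 - δ) ^ 2 * U * (T2 * (M / M2) ^ 2) := by gcongr
      _ = (1 - δ) * ((1 - δ) * (U * (T2 / M2 ^ 2))) * M ^ 2 := by field_simp
      _ ≤ (1 - δ) * s2 * M ^ 2 := by gcongr
      _ ≤ S * (L / M) ^ 2 * M ^ 2 := mul_le_mul_of_nonneg_right hlo (by positivity)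
  have dd : δ * δ ≤ δ := by nlinarith
  have dd0 : 0 ≤ δ * δ := by positivity
  have ddd : δ * δ * δ ≤ δ := by nlinarith
  have ddd0 : 0 ≤ δ * δ * δ := by positivity
  have dddd : δ * δ * δ * δ ≤ δ := by nlinarith
  have q1 : (1 + δ) ^ 4 ≤ 1 + ε := by
    calc (1 + δ) ^ 4 = 1 + 4 * δ + 6 * (δ * δ) + 4 * (δ * δ * δ) + δ * δ * δ * δ := by ring
      _ ≤ 1 + ε := by linarith
  have q2 : 1 - ε ≤ (1 - δ) ^ 4 := by
    have dddd0 : 0 ≤ δ * δ * δ * δ := by positivity
    calc 1 - ε ≤ 1 - 4 * δ + 6 * (δ * δ) - 4 * (δ * δ * δ) + δ * δ * δ * δ := by linarith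
      _ = (1 - δ) ^ 4 := by ring
  rw [abs_le]
  constructor
  · have := mul_le_mul_of_nonneg_right q2 hUT
    linarith
  · have := mul_le_mul_of_nonneg_right q1 hUT
    linarith

end CUEaux

open CUEaux EPGaux Pool.Agent.H50.GW.EXPWaux in
theorem cue : S_CUS → S_IPG → S_NU → S_MERT → S_CUE := by
  intro hCUS hIPG hNU hMERT Ω _ P A z hM κ ε hκ hε
  obtain ⟨δ, hδ⟩ : ∃ δ : ℝ, δ = min 1 (ε / 15) := ⟨_, rfl⟩
  have hδ0 : 0 < δ := by rw [hδ]; positivity
  have hδ1 : δ ≤ 1 := by rw [hδ]; exact min_le_left _ _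
  have hδε : 15 * δ ≤ ε := by
    have : δ ≤ ε / 15 := by rw [hδ]; exact min_le_right _ _
    linarith
  have h2t : Tendsto (fun n : ℕ => 2 * n) atTop atTop := tB (B := 2) (by norm_num)
  have h2l := log_B (B := 2) (by norm_num)
  have hm1 := mm_f hMERT hM.lev mf_tendsto mf_log
  have hm2 := mm_f hMERT hM.lev h2t h2l
  have hmz := mm_z1 hMERT hM.lev
  have hm0 := mm_fl hMERT
  have hr1 : Tendsto (fun h : ℕ => (MM (z h) / MM (z (mf h))) ^ 2) atTop (𝓝 1) := by
    have := (mm_div hmz hm1).pow 2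
    rwa [one_pow] at this
  have hr2 : Tendsto (fun h : ℕ => (MM (z h) / MM (z (2 * h))) ^ 2) atTop (𝓝 1) := by
    have := (mm_div hmz hm2).pow 2
    rwa [one_pow] at this
  have hq1 := mm_div hm1 hm0
  have hq2 := mm_div hm2 hm0
  have hv0 : Tendsto (fun h : ℕ => ((⌊Real.log h⌋₊ : ℕ) : ℝ)) atTop atTop :=
    tendsto_natCast_atTop_atTop.comp (tendsto_nat_floor_atTop.comp tlog)
  have hz1 : Tendsto (fun h : ℕ => ((z (mf h) : ℕ) : ℝ)) atTop atTop :=
    tendsto_natCast_atTop_atTop.comp ((z_tendsto hM.lev).comp mf_tendsto)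
  have hz2 : Tendsto (fun h : ℕ => ((z (2 * h) : ℕ) : ℝ)) atTop atTop :=
    tendsto_natCast_atTop_atTop.comp ((z_tendsto hM.lev).comp h2t)
  filter_upwards [sum_range2 hIPG hMERT hM hδ0 hδ1, hCUS κ δ hκ hδ0,
    z_rng hM.lev mf_tendsto mf_log, z_rng hM.lev h2t h2l,
    hr1.eventually_le_const (show 1 < 1 + δ by linarith),
    hr2.eventually_const_le (show 1 - δ < 1 by linarith),
    hq1.eventually_const_le (show 1 - δ < 1 by linarith),
    hq1.eventually_le_const (show 1 < 1 + δ by linarith),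
    hq2.eventually_const_le (show 1 - δ < 1 by linarith),
    hq2.eventually_le_const (show 1 < 1 + δ by linarith),
    hv0.eventually_ge_atTop (4 / δ), hz1.eventually_ge_atTop (4 / δ), hz2.eventually_ge_atTop (4 / δ),
    tlog.eventually_ge_atTop 1]
    with h g1 g2 g3 g4 g5 g6 g7 g8 g9 g10 g11 g12 g13 hL U hU1 hU2
  have hL0 : 0 < Real.log h := by linarith
  obtain ⟨s1, s2⟩ := g1 U hU2
  have c1 := g2 (z (mf h)) U g3.1 g3.2 hU1
  have c2 := g2 (z (2 * h)) U g4.1 g4.2 hU1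
  obtain ⟨-, t1⟩ := SS_ratio (h := h) hNU hδ0 hδ1 g12 g11 g7 g8
  obtain ⟨t2, -⟩ := SS_ratio (h := h) hNU hδ0 hδ1 g13 g11 g9 g10
  have hPV : ∀ x : ℕ, PV x h = SS x h / MM x ^ 2 := by
    intro x
    have := MM_pos x
    unfold SS
    field_simp
  rw [hPV] at c1 c2
  have hSS : ∀ x : ℕ, 0 < SS x h := by
    intro x
    have := (hNU.2.1 x h).2.2.1
    linarith
  exact fin_est2 hL0 (Nat.cast_nonneg U) (MM_pos _) (MM_pos _) (MM_pos _) (hSS _) (hSS _) (hSS _) hδ0 hδ1
    hδε s1 s2 (by linarith [(abs_le.1 c1).2]) (by linarith [(abs_le.1 c2).1]) g5 g6 t1 t2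

end Pool.Agent.H13.GG
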