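import Pool.Agent.H13.GG.StmB
import Pool.Agent.H50.GW.CUB

set_option autoImplicit false

open MeasureTheory Filter ProbabilityTheory
open scoped Topology ENNReal

namespace Pool.Agent.H13.GG

open Pool.Agent.H50.BF (MM S_MERT)
open Pool.Agent.H50.GW (Rou GMod NN S_BTU S_LDU S_LDL S_FND)

namespace CUGaux

open Pool.Agent.H50.GW (GUPx.bc GUPx.log_tend CUBx.log_small)

section

variable {Ω : Type} [MeasurableSpace Ω] {P : Measure Ω} {A : ℕ → Set Ω} {z : ℕ → ℕ}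

theorem gt_mono (ω : Ω) (h : ℕ) {U U' : ℕ} (hU : U ≤ U') : gt A ω h U ≤ gt A ω h U' := by
  classical
  unfold gt
  refine Finset.card_le_card fun j hj => ?_
  rw [Finset.mem_filter, Finset.mem_range] at hj ⊢
  exact ⟨by omega, hj.2⟩

theorem gt_add (ω : Ω) (h : ℕ) {U U' : ℕ} (hU : U ≤ U') :
    gt A ω h U' ≤ gt A ω h U + (U' - U) := by
  classical
  unfold gt
  have h1 : (Finset.range U').filter (fun j => ω ∈ PH A h j) ⊆
      (Finset.range U).filter (fun j => ω ∈ PH A h j) ∪ Finset.Ico U U' := by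
    intro j hj
    rw [Finset.mem_filter, Finset.mem_range] at hj
    rw [Finset.mem_union, Finset.mem_filter, Finset.mem_range, Finset.mem_Ico]
    by_cases hjU : j < U
    · exact Or.inl ⟨hjU, hj.2⟩
    · exact Or.inr ⟨by omega, hj.1⟩
  refine (Finset.card_le_card h1).trans ((Finset.card_union_le _ _).trans ?_)
  rw [Nat.card_Ico]

theorem ph_meas (hG : GMod P A z) (h j : ℕ) : MeasurableSet (PH A h j) :=
  (hG.meas _).inter (hG.meas _)

/-- the almost sure statement for one `ε` -/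
theorem one_eps (hCUE : S_CUE) (hIPG : S_IPG) (hNU : S_NU) (hLD : S_LDU) (hG : GMod P A z)
    {κ ε : ℝ} (hκ : 0 < κ) (hε : 0 < ε) (hε1 : ε ≤ 1 / 2) :
    ∀ᵐ ω ∂P, ∀ᶠ h : ℕ in atTop, ∀ U : ℕ, (h : ℝ) ^ κ ≤ U → (U : ℝ) + h / Real.log h ^ 3 ≤ h →
      |(gt A ω h U : ℝ) * Real.log h ^ 2 - U * SS ⌊Real.log h⌋₊ h| ≤ ε * (U * SS ⌊Real.log h⌋₊ h) := by
  classical
  obtain ⟨t, ht⟩ : ∃ t : ℝ, t = (ε / 4) / (1 + ε / 2) := ⟨_, rfl⟩
  obtain ⟨s, hs⟩ : ∃ s : ℝ, s = (ε / 4) / (1 - ε / 2) := ⟨_, rfl⟩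
  have hVe : 0 < 1 - ε / 2 := by linarith
  have ht0 : 0 < t := by rw [ht]; positivity
  have hs0 : 0 < s := by rw [hs]; positivity
  have hs1 : s < 1 := by
    rw [hs, div_lt_one hVe]
    linarith
  have ht' : t * (1 + ε / 2) = ε / 4 := by
    rw [ht]
    exact div_mul_cancel₀ _ (by positivity)
  have hs' : s * (1 - ε / 2) = ε / 4 := by
    rw [hs]
    exact div_mul_cancel₀ _ hVe.ne'
  have hη1 : t * (ε / 4) / (1 + t) ≤ (1 + ε) * Real.log (1 + t) - t * (1 + ε / 2) := by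
    have h1 := Real.one_sub_inv_le_log_of_pos (show 0 < 1 + t by linarith)
    have h2 : (1 + ε) * (1 - (1 + t)⁻¹) ≤ (1 + ε) * Real.log (1 + t) :=
      mul_le_mul_of_nonneg_left h1 (by linarith)
    have h3 : (1 + ε) * (1 - (1 + t)⁻¹) - t * (1 + ε / 2) = t * (ε / 4) / (1 + t) := by
      have h0 : (1 + t) ≠ 0 := by positivity
      have h4 : 1 - (1 + t)⁻¹ = t / (1 + t) := by
        field_simp
        ring
      rw [h4, eq_div_iff h0]
      have h5 : ((1 + ε) * (t / (1 + t)) - t * (1 + ε / 2)) * (1 + t) =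
          (1 + ε) * t - t * (1 + ε / 2) * (1 + t) := by
        rw [sub_mul, mul_assoc (1 + ε), div_mul_cancel₀ _ h0]
      rw [h5]
      linear_combination (-t) * ht'
    linarith
  have hη2 : s * (ε / 4) / (1 - s) ≤ (1 - ε) * Real.log (1 - s) + s * (1 - ε / 2) := by
    have h1 := Real.one_sub_inv_le_log_of_pos (show 0 < 1 - s by linarith)
    have h2 : (1 - ε) * (1 - (1 - s)⁻¹) ≤ (1 - ε) * Real.log (1 - s) :=
      mul_le_mul_of_nonneg_left h1 (by linarith)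
    have h3 : (1 - ε) * (1 - (1 - s)⁻¹) + s * (1 - ε / 2) = s * (ε / 4) / (1 - s) := by
      have h0 : (1 - s) ≠ 0 := by linarith
      have h4 : 1 - (1 - s)⁻¹ = -s / (1 - s) := by
        field_simp
        ring
      rw [h4, eq_div_iff h0]
      have h5 : ((1 - ε) * (-s / (1 - s)) + s * (1 - ε / 2)) * (1 - s) =
          (1 - ε) * (-s) + s * (1 - ε / 2) * (1 - s) := by
        rw [add_mul, mul_assoc (1 - ε), div_mul_cancel₀ _ h0]
      rw [h5]
      linear_combination (-s) * hs'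
    linarith
  obtain ⟨η, hη⟩ : ∃ η : ℝ, η = min (t * (ε / 4) / (1 + t)) (s * (ε / 4) / (1 - s)) := ⟨_, rfl⟩
  have hη0 : 0 < η := by
    rw [hη]
    refine lt_min (by positivity) (div_pos (by positivity) (by linarith))
  have hηa : η ≤ (1 + ε) * Real.log (1 + t) - t * (1 + ε / 2) :=
    (hη.le.trans (min_le_left _ _)).trans hη1
  have hηb : η ≤ (1 - ε) * Real.log (1 - s) + s * (1 - ε / 2) :=
    (hη.le.trans (min_le_right _ _)).trans hη2
  have key : ∀ᵐ ω ∂P, ∀ᶠ h : ℕ in atTop,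
      ω ∉ ⋃ U ∈ (Finset.range (h + 1)).filter (fun U : ℕ => (h : ℝ) ^ κ ≤ U ∧
        (U : ℝ) + h / Real.log h ^ 3 ≤ h),
        ({ω | (1 + ε) * (U * SS ⌊Real.log h⌋₊ h / Real.log h ^ 2) ≤
            (NN (Finset.range U) (PH A h) ω : ℝ)} ∪
         {ω | (NN (Finset.range U) (PH A h) ω : ℝ) ≤
            (1 - ε) * (U * SS ⌊Real.log h⌋₊ h / Real.log h ^ 2)}) := by
    refine Pool.Agent.H50.GW.GUPx.bc (δ := 1) one_pos ?_
    filter_upwards [hCUE Ω P A z hG κ (ε / 2) hκ (by positivity),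
      Pool.Agent.H50.GW.CUBx.log_small 3 hκ (show 0 < η / 8 by positivity), eventually_ge_atTop 4,
      Pool.Agent.H50.GW.GUPx.log_tend.eventually_ge_atTop 1] with n g1 g2 g3 g4
    obtain ⟨L, hL⟩ : ∃ L : ℝ, L = Real.log n := ⟨_, rfl⟩
    rw [← hL] at g1 g2 g4 ⊢
    obtain ⟨T, hT⟩ : ∃ T : ℝ, T = SS ⌊L⌋₊ n := ⟨_, rfl⟩
    have hT1 : 1 / 2 ≤ T := by rw [hT]; exact (hNU.2.1 _ _).2.2.1
    rw [← hT] at g1 ⊢
    have hL0 : 0 < L := by linarith
    have hn4 : (4 : ℝ) ≤ n := by exact_mod_cast g3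
    have hone : ∀ U ∈ (Finset.range (n + 1)).filter (fun U : ℕ => (n : ℝ) ^ κ ≤ U ∧
        (U : ℝ) + n / L ^ 3 ≤ n),
        P ({ω | (1 + ε) * (U * T / L ^ 2) ≤ (NN (Finset.range U) (PH A n) ω : ℝ)} ∪
         {ω | (NN (Finset.range U) (PH A n) ω : ℝ) ≤ (1 - ε) * (U * T / L ^ 2)}) ≤
        ENNReal.ofReal (2 * Real.exp (-(4 * L))) := by
      intro U hU
      rw [Finset.mem_filter, Finset.mem_range] at hU
      obtain ⟨-, hU1, hU2⟩ := hU
      have hUn : U < n := by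
        have : (U : ℝ) < n := by
          have : 0 < (n : ℝ) / L ^ 3 := by positivity
          linarith
        exact_mod_cast this
      have m0 := abs_le.1 (g1 U hU1 hU2)
      have hMU : 4 * L ≤ η * (U * T / L ^ 2) := by
        have e1 : 8 * L ^ 3 ≤ η * U := by
          have e2 : η * (n : ℝ) ^ κ ≤ η * U := mul_le_mul_of_nonneg_left hU1 hη0.le
          linarith
        have e2 : η * U * (1 / 2) ≤ η * U * T := mul_le_mul_of_nonneg_left hT1 (by positivity)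
        have e3 : η * (U * T / L ^ 2) = η * U * T / L ^ 2 := by ring
        rw [e3, le_div_iff₀ (by positivity)]
        calc 4 * L * L ^ 2 = (8 * L ^ 3) * (1 / 2) := by ring
          _ ≤ η * U * (1 / 2) := by linarith
          _ ≤ η * U * T := e2
      have hMU0 : (0 : ℝ) ≤ U * T / L ^ 2 := by positivity
      obtain ⟨E, hE⟩ : ∃ E : ℝ, E = ∑ j ∈ Finset.range U, (P (PH A n j)).toReal := ⟨_, rfl⟩
      rw [← hE] at m0
      have m1 : E ≤ (1 + ε / 2) * (U * T / L ^ 2) := by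
        have : (1 + ε / 2) * (U * T / L ^ 2) = (1 + ε / 2) * (U * T) / L ^ 2 := by ring
        rw [this, le_div_iff₀ (by positivity)]
        linarith [m0.2]
      have m2 : (1 - ε / 2) * (U * T / L ^ 2) ≤ E := by
        have : (1 - ε / 2) * (U * T / L ^ 2) = (1 - ε / 2) * (U * T) / L ^ 2 := by ring
        rw [this, div_le_iff₀ (by positivity)]
        linarith [m0.1]
      obtain ⟨Mu, hMu⟩ : ∃ Mu : ℝ, Mu = U * T / L ^ 2 := ⟨_, rfl⟩
      rw [← hMu] at m1 m2 hMU hMU0 ⊢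
      have hiS := (hIPG Ω P A z hG n U hUn).1
      have hA := (hLD Ω P hG.prob (Finset.range U) (PH A n)
        (fun m => ph_meas hG n m) hiS t ((1 + ε) * Mu) (by linarith)).1 ht0
      have hB := (hLD Ω P hG.prob (Finset.range U) (PH A n)
        (fun m => ph_meas hG n m) hiS (-s) ((1 - ε) * Mu) (by linarith)).2 (by linarith)
      rw [← hE] at hA hB
      have hA' : P {ω | (1 + ε) * Mu ≤ (NN (Finset.range U) (PH A n) ω : ℝ)} ≤
          ENNReal.ofReal (Real.exp (-(4 * L))) := by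
        refine hA.trans (ENNReal.ofReal_le_ofReal (Real.exp_le_exp.2 ?_))
        have e1 := mul_le_mul_of_nonneg_left m1 ht0.le
        have e2 := mul_le_mul_of_nonneg_right hηa hMU0
        have e3 : ((1 + ε) * Real.log (1 + t) - t * (1 + ε / 2)) * Mu =
          (1 + ε) * Mu * Real.log (1 + t) - t * ((1 + ε / 2) * Mu) := by ring
        rw [e3] at e2
        linarith
      have hB' : P {ω | (NN (Finset.range U) (PH A n) ω : ℝ) ≤ (1 - ε) * Mu} ≤
          ENNReal.ofReal (Real.exp (-(4 * L))) := by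
        refine hB.trans (ENNReal.ofReal_le_ofReal (Real.exp_le_exp.2 ?_))
        have e1 := mul_le_mul_of_nonneg_left m2 hs0.le
        have e2 := mul_le_mul_of_nonneg_right hηb hMU0
        have e3 : ((1 - ε) * Real.log (1 - s) + s * (1 - ε / 2)) * Mu =
          (1 - ε) * Mu * Real.log (1 - s) + s * ((1 - ε / 2) * Mu) := by ring
        rw [e3] at e2
        have e4 : 1 + -s = 1 - s := by ring
        rw [e4]
        linarith
      refine (measure_union_le _ _).trans ((add_le_add hA' hB').trans (le_of_eq ?_))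
      rw [← ENNReal.ofReal_add (Real.exp_pos _).le (Real.exp_pos _).le]
      congr 1
      ring
    refine (measure_biUnion_finset_le _ _).trans ((Finset.sum_le_sum hone).trans ?_)
    rw [Finset.sum_const, nsmul_eq_mul]
    have hcard : ((((Finset.range (n + 1)).filter (fun U : ℕ => (n : ℝ) ^ κ ≤ U ∧
        (U : ℝ) + n / L ^ 3 ≤ n)).card : ℕ) : ℝ≥0∞) ≤
        ENNReal.ofReal (n + 1) := by
      have h1 := Finset.card_filter_le (Finset.range (n + 1)) (fun U : ℕ => (n : ℝ) ^ κ ≤ U ∧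
        (U : ℝ) + n / L ^ 3 ≤ n)
      rw [Finset.card_range] at h1
      have h2 : ENNReal.ofReal ((n : ℝ) + 1) = ((n + 1 : ℕ) : ℝ≥0∞) := by
        rw [← Nat.cast_succ, ENNReal.ofReal_natCast]
      rw [h2]
      exact_mod_cast h1
    refine (mul_le_mul' hcard le_rfl).trans ?_
    rw [← ENNReal.ofReal_mul (by positivity)]
    refine ENNReal.ofReal_le_ofReal ?_
    have hexpL : Real.exp L = n := by rw [hL, Real.exp_log (by linarith)]
    have e1 : Real.exp (-(4 * L)) = Real.exp (-((1 + 1) * L)) * (Real.exp L ^ 2)⁻¹ := by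
      rw [← Real.exp_nat_mul, ← Real.exp_neg, ← Real.exp_add]
      congr 1
      push_cast
      ring
    rw [e1, hexpL]
    have e2 : 0 < Real.exp (-((1 + 1) * L)) := Real.exp_pos _
    have e3 : ((n : ℝ) + 1) * (2 * (Real.exp (-((1 + 1) * L)) * ((n : ℝ) ^ 2)⁻¹)) =
        Real.exp (-((1 + 1) * L)) * ((2 * ((n : ℝ) + 1)) / (n : ℝ) ^ 2) := by
      field_simp
    rw [e3]
    have e4 : (2 * ((n : ℝ) + 1)) / (n : ℝ) ^ 2 ≤ 1 := by
      rw [div_le_one (by positivity)]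
      nlinarith
    calc _ ≤ Real.exp (-((1 + 1) * L)) * 1 := mul_le_mul_of_nonneg_left e4 e2.le
      _ = _ := mul_one _
  filter_upwards [key] with ω hω
  filter_upwards [hω, Pool.Agent.H50.GW.GUPx.log_tend.eventually_ge_atTop 1, eventually_ge_atTop 1]
    with n h1 h2 h3 U hU1 hU2
  obtain ⟨L, hL⟩ : ∃ L : ℝ, L = Real.log n := ⟨_, rfl⟩
  rw [← hL] at h1 h2 hU2 ⊢
  have hL0 : 0 < L := by linarith
  have hUn : U < n + 1 := by
    have hn0 : (0 : ℝ) < n := by exact_mod_cast h3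
    have : (U : ℝ) < n + 1 := by
      have : 0 < (n : ℝ) / L ^ 3 := by positivity
      linarith
    exact_mod_cast this
  simp only [Set.mem_iUnion, Set.mem_union, Set.mem_setOf_eq, not_exists, not_or, not_le] at h1
  have h4 := h1 U (Finset.mem_filter.2 ⟨Finset.mem_range.2 hUn, hU1, hU2⟩)
  have hgt : gt A ω n U = NN (Finset.range U) (PH A n) ω := rfl
  rw [hgt]
  obtain ⟨X, hX⟩ : ∃ X : ℝ, X = (NN (Finset.range U) (PH A n) ω : ℝ) := ⟨_, rfl⟩
  rw [← hX] at h4 ⊢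
  obtain ⟨Y, hY⟩ : ∃ Y : ℝ, Y = U * SS ⌊L⌋₊ n := ⟨_, rfl⟩
  rw [← hY] at h4 ⊢
  have hL2 : 0 < L ^ 2 := by positivity
  obtain ⟨h5, h6⟩ := h4
  have e1 : (1 + ε) * (Y / L ^ 2) = (1 + ε) * Y / L ^ 2 := by ring
  have e2 : (1 - ε) * (Y / L ^ 2) = (1 - ε) * Y / L ^ 2 := by ring
  rw [e1, lt_div_iff₀ hL2] at h5
  rw [e2, div_lt_iff₀ hL2] at h6
  rw [abs_le]
  constructor <;> linarith

end

end CUGaux

open CUGaux in
theorem cug : S_CUE → S_IPG → S_NU → S_LDU → S_CUG := by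
  intro hCUE hIPG hNU hLD Ω _ P A z hG κ hκ
  obtain ⟨κ', hκ'⟩ : ∃ κ' : ℝ, κ' = min κ (1 / 2) := ⟨_, rfl⟩
  have hκ0 : 0 < κ' := by rw [hκ']; positivity
  have hκ1 : κ' ≤ κ := by rw [hκ']; exact min_le_left _ _
  have hκ2 : κ' ≤ 1 / 2 := by rw [hκ']; exact min_le_right _ _
  have hall : ∀ᵐ ω ∂P, ∀ j : ℕ, ∀ᶠ h : ℕ in atTop, ∀ U : ℕ, (h : ℝ) ^ κ' ≤ U →
      (U : ℝ) + h / Real.log h ^ 3 ≤ h →
      |(gt A ω h U : ℝ) * Real.log h ^ 2 - U * SS ⌊Real.log h⌋₊ h| ≤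
        min (1 / 2) (1 / ((j : ℝ) + 1)) * (U * SS ⌊Real.log h⌋₊ h) := by
    rw [ae_all_iff]
    intro j
    exact one_eps hCUE hIPG hNU hLD hG hκ0 (lt_min (by norm_num) (by positivity)) (min_le_left _ _)
  filter_upwards [hall] with ω hω ε hε
  obtain ⟨j, hj⟩ := exists_nat_one_div_lt (show 0 < ε / 4 by positivity)
  have hn : Tendsto (fun n : ℕ => (n : ℝ)) atTop atTop := tendsto_natCast_atTop_atTop
  filter_upwards [hω j, Pool.Agent.H50.GW.GUPx.log_tend.eventually_ge_atTop 2,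
    Pool.Agent.H50.GW.GUPx.log_tend.eventually_ge_atTop (32 / ε),
    Pool.Agent.H50.GW.CUBx.log_small 2 (κ := 1) one_pos (show 0 < ε / 32 by positivity),
    hn.eventually_ge_atTop 8] with h h1 hL2 hLε hlog h8 U hU1 hU2
  obtain ⟨L, hL⟩ : ∃ L : ℝ, L = Real.log h := ⟨_, rfl⟩
  rw [← hL] at h1 hL2 hLε hlog ⊢
  obtain ⟨T, hT⟩ : ∃ T : ℝ, T = SS ⌊L⌋₊ h := ⟨_, rfl⟩
  have hT1 : 1 / 2 ≤ T := by rw [hT]; exact (hNU.2.1 _ _).2.2.1
  rw [← hT] at h1 ⊢
  have hL0 : 0 < L := by linarith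
  have hh0 : (0 : ℝ) < h := by linarith
  have hh1 : (1 : ℝ) ≤ h := by linarith
  have hκh : (h : ℝ) ^ κ' ≤ (h : ℝ) ^ κ := Real.rpow_le_rpow_of_exponent_le hh1 hκ1
  have hmin : min (1 / 2) (1 / ((j : ℝ) + 1)) ≤ ε / 4 := (min_le_right _ _).trans hj.le
  rw [Real.rpow_one] at hlog
  by_cases hc : (U : ℝ) + h / L ^ 3 ≤ h
  · have h2 := h1 U (hκh.trans hU1) hc
    have h3 : 0 ≤ (U : ℝ) * T := by positivity
    refine h2.trans (mul_le_mul_of_nonneg_right (by linarith) h3)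
  · push Not at hc
    have hL3 : (8 : ℝ) ≤ L ^ 3 := by
      calc (8 : ℝ) = 2 ^ 3 := by norm_num
        _ ≤ L ^ 3 := pow_le_pow_left₀ (by norm_num) hL2 3
    have hdiv : (h : ℝ) / L ^ 3 ≤ h / 8 := div_le_div_of_nonneg_left hh0.le (by norm_num) hL3
    have hpos : 0 ≤ (h : ℝ) - h / L ^ 3 := by linarith
    obtain ⟨U0, hU0⟩ : ∃ U0 : ℕ, U0 = ⌊(h : ℝ) - h / L ^ 3⌋₊ := ⟨_, rfl⟩
    have a1 : (U0 : ℝ) ≤ (h : ℝ) - h / L ^ 3 := by rw [hU0]; exact Nat.floor_le hpos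
    have a2 : (h : ℝ) - h / L ^ 3 < U0 + 1 := by rw [hU0]; exact Nat.lt_floor_add_one _
    have a3 : (h : ℝ) / 2 ≤ U0 := by linarith
    have a4 : U0 ≤ U := by
      have : (U0 : ℝ) < U := by linarith
      exact_mod_cast this.le
    have a4r : (U0 : ℝ) ≤ U := by exact_mod_cast a4
    have hUh : (U : ℝ) < h := by exact_mod_cast hU2
    have a5 : (h : ℝ) ^ κ' ≤ U0 := by
      refine le_trans ?_ a3
      have b1 : (h : ℝ) ^ κ' ≤ (h : ℝ) ^ (1 / 2 : ℝ) := Real.rpow_le_rpow_of_exponent_le hh1 hκ2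
      have b2 : (h : ℝ) ^ (1 / 2 : ℝ) * (h : ℝ) ^ (1 / 2 : ℝ) = h := by
        rw [← Real.rpow_add hh0]; norm_num
      have b3 : 2 ≤ (h : ℝ) ^ (1 / 2 : ℝ) := by
        by_contra hcon
        push Not at hcon
        have b4 : 0 ≤ (h : ℝ) ^ (1 / 2 : ℝ) := by positivity
        nlinarith
      nlinarith
    have h2 := abs_le.1 (h1 U0 a5 (by linarith))
    obtain ⟨G0, hG0⟩ : ∃ G0 : ℝ, G0 = (gt A ω h U0 : ℝ) := ⟨_, rfl⟩
    obtain ⟨G, hGd⟩ : ∃ G : ℝ, G = (gt A ω h U : ℝ) := ⟨_, rfl⟩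
    have c1 : G0 ≤ G := by rw [hG0, hGd]; exact_mod_cast gt_mono ω h a4
    have c2 : G ≤ G0 + (U - U0) := by
      rw [hG0, hGd]
      have := gt_add (A := A) ω h a4
      have h3 : (gt A ω h U : ℝ) ≤ ((gt A ω h U0 + (U - U0) : ℕ) : ℝ) := by exact_mod_cast this
      rw [Nat.cast_add, Nat.cast_sub a4] at h3
      exact h3
    rw [← hG0] at h2
    rw [← hGd]
    have hT0 : 0 < T := by linarith
    have hUT : (h : ℝ) / 4 ≤ U * T := by
      calc (h : ℝ) / 4 = h / 2 * (1 / 2) := by ring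
        _ ≤ U * T := mul_le_mul (a3.trans a4r) hT1 (by norm_num) (by linarith)
    have hU0T : (U0 : ℝ) * T ≤ U * T := mul_le_mul_of_nonneg_right a4r hT0.le
    have hU0T0 : 0 ≤ (U0 : ℝ) * T := by positivity
    have d1 : min (1 / 2) (1 / ((j : ℝ) + 1)) * (U0 * T) ≤ ε / 4 * (U * T) :=
      mul_le_mul hmin hU0T hU0T0 (by positivity)
    -- the error terms
    have hεL : 32 ≤ ε * L := by
      rw [div_le_iff₀ hε] at hLε
      linarith
    have f1 : (h : ℝ) / L ≤ ε / 32 * h := by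
      rw [div_le_iff₀ hL0]
      nlinarith
    have f2 : (U : ℝ) - U0 ≤ h / L ^ 3 + 1 := by linarith
    have f3 : ((U : ℝ) - U0) * L ^ 2 ≤ ε / 4 * (U * T) := by
      calc ((U : ℝ) - U0) * L ^ 2 ≤ (h / L ^ 3 + 1) * L ^ 2 :=
            mul_le_mul_of_nonneg_right f2 (by positivity)
        _ = h / L + L ^ 2 := by field_simp
        _ ≤ ε / 32 * h + ε / 32 * h := add_le_add f1 hlog
        _ = ε / 4 * (h / 4) := by ring
        _ ≤ ε / 4 * (U * T) := mul_le_mul_of_nonneg_left hUT (by positivity)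
    have f4 : ((U : ℝ) - U0) * T ≤ ε / 4 * (U * T) := by
      have f5 : (U : ℝ) - U0 ≤ ε / 4 * U := by
        have g1 : (h : ℝ) / L ^ 3 ≤ ε / 32 * h := by
          refine le_trans ?_ f1
          apply div_le_div_of_nonneg_left hh0.le hL0
          calc L = L * 1 := (mul_one L).symm
            _ ≤ L * L ^ 2 := mul_le_mul_of_nonneg_left (one_le_pow₀ (by linarith)) hL0.le
            _ = L ^ 3 := by ring
        have g2 : (1 : ℝ) ≤ ε / 32 * h := by
          refine le_trans ?_ hlog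
          exact one_le_pow₀ (by linarith)
        have g3 : (h : ℝ) / 2 ≤ U := a3.trans a4r
        have g4 : ε / 8 * (h / 2) ≤ ε / 8 * U := mul_le_mul_of_nonneg_left g3 (by positivity)
        have g5 : 0 ≤ ε / 8 * U := by positivity
        linarith
      calc ((U : ℝ) - U0) * T ≤ ε / 4 * U * T := mul_le_mul_of_nonneg_right f5 hT0.le
        _ = ε / 4 * (U * T) := by ring
    have e1 : G0 * L ^ 2 ≤ G * L ^ 2 := mul_le_mul_of_nonneg_right c1 (by positivity)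
    have e2 : G * L ^ 2 ≤ (G0 + (U - U0)) * L ^ 2 := mul_le_mul_of_nonneg_right c2 (by positivity)
    have hUT0 : 0 ≤ ε * (U * T) := by positivity
    rw [abs_le]
    constructor
    · nlinarith [h2.1]
    · nlinarith [h2.2]

end Pool.Agent.H13.GG
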