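import Pool.Agent.H13.GG.StmB
import Pool.Agent.H50.BF.MMB

/-! # Stub CUS of the project GG (helper44): the sieve for Goldbach's problem with long windows -/

set_option autoImplicit false

open MeasureTheory Filter ProbabilityTheory
open scoped Topology ENNReal

namespace Pool.Agent.H13.GG

open Pool.Agent.H50.BF (MM S_MERT MM_pos)
open Pool.Agent.H50.GW (Rou GMod NN S_BTU S_LDU S_LDL S_FND)

namespace CUSaux

theorem log_tend : Tendsto (fun n : ℕ => Real.log n) atTop atTop :=
  Real.tendsto_log_atTop.comp tendsto_natCast_atTop_atTop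

theorem log_small (a : ℕ) {κ C : ℝ} (hκ : 0 < κ) (hC : 0 < C) :
    ∀ᶠ n : ℕ in atTop, Real.log n ^ a ≤ C * (n : ℝ) ^ κ := by
  have h1 := (isLittleO_log_rpow_rpow_atTop (a : ℝ) hκ).bound hC
  have h2 := tendsto_natCast_atTop_atTop (R := ℝ) |>.eventually h1
  filter_upwards [h2, log_tend.eventually_ge_atTop 1] with n h3 h4
  rw [Real.rpow_natCast, Real.norm_of_nonneg (by positivity), Real.norm_of_nonneg (by positivity)] at h3
  exact h3

theorem bd_congr (h : ℕ) {p j j' : ℕ} (hj : j % p = j' % p) : Bd h p j ↔ Bd h p j' := by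
  unfold Bd
  have h1 : h + j ≡ h + j' [MOD p] := Nat.ModEq.add_left _ hj
  rw [h1.dvd_iff dvd_rfl, hj]

end CUSaux

open CUSaux

theorem cus : S_FND → S_NU → S_MERT → S_CUS := by
  classical
  intro hF hN hM κ ε hκ hε
  obtain ⟨K, x0, hK, hf⟩ := hF 2 (by norm_num) (ε / 2) (by positivity)
  set E := Real.exp Real.eulerMascheroniConstant with hEdef
  have hE : 0 < E := Real.exp_pos _
  have h1 := hM.eventually_le_const (show Real.exp Real.eulerMascheroniConstant < E + 1 by linarith)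
  obtain ⟨v1, hv1⟩ := eventually_atTop.1 h1
  have hsmall := log_small (2 * (K + 2)) hκ (show 0 < ε / 2 / (2 * (E + 1) ^ 2) by positivity)
  have hroot : Tendsto (fun h : ℕ => Real.log h ^ (1 / 2 : ℝ)) atTop atTop :=
    (tendsto_rpow_atTop (by norm_num : (0 : ℝ) < 1 / 2)).comp log_tend
  filter_upwards [hsmall, log_tend.eventually_ge_atTop 1,
    hroot.eventually_ge_atTop ((x0 + v1 + 3 : ℕ) : ℝ)] with h hn hL hr v U hvl hvu hU
  have hv0 : x0 + v1 + 3 ≤ v := by exact_mod_cast hr.trans hvl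
  have hv3 : (3 : ℝ) ≤ v := by exact_mod_cast (by omega : 3 ≤ v)
  have hMv : MM v ≤ (E + 1) * v := by
    have h2 := hv1 v (by omega)
    have h3 : 0 < Real.log v := Real.log_pos (by linarith)
    rw [div_le_iff₀ h3] at h2
    have h4 : Real.log v ≤ v := Real.log_le_self (by linarith)
    exact h2.trans (mul_le_mul_of_nonneg_left h4 (by linarith))
  have hMpos := MM_pos v
  obtain ⟨hP0, hP1, hS0, hS1⟩ := hN.2.1 v h
  have hW : 1 / (2 * ((E + 1) * v) ^ 2) ≤ PV v h := by
    rw [div_le_iff₀ (by positivity)]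
    have h5 : MM v ^ 2 ≤ ((E + 1) * v) ^ 2 := pow_le_pow_left₀ hMpos.le hMv 2
    have h6 : 1 / 2 ≤ PV v h * MM v ^ 2 := hS0
    have h7 := mul_le_mul_of_nonneg_left h5 hP0.le
    linarith
  -- the fundamental lemma
  have h6 := hf (v ^ K) v (by omega) le_rfl (fun p j => Bd h p j)
    (fun p m => bd_congr h (Nat.mod_mod _ _).symm)
    (fun p hp => (hN.1 h p hp).2.1) U
  have h7 : ((Finset.Icc 1 U).filter (fun m : ℕ => ∀ p : ℕ, p.Prime → p ≤ v → ¬ Bd h p m)).card =
      sg v h 0 U := by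
    unfold sg
    symm
    refine Finset.card_bij (fun j _ => j + 1) ?_ ?_ ?_
    · intro j hj
      rw [Finset.mem_filter, Finset.mem_range] at hj
      rw [Finset.mem_filter, Finset.mem_Icc]
      refine ⟨⟨by omega, by omega⟩, ?_⟩
      intro p hp hpv hi
      exact hj.2 p hp hpv (by rwa [show 0 + j + 1 = j + 1 by ring])
    · intro a _ b _ h
      omega
    · intro m hm
      rw [Finset.mem_filter, Finset.mem_Icc] at hm
      refine ⟨m - 1, ?_, by omega⟩
      rw [Finset.mem_filter, Finset.mem_range]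
      refine ⟨by omega, ?_⟩
      intro p hp hpv hd
      refine hm.2 p hp hpv ?_
      rwa [show 0 + (m - 1) + 1 = m by omega] at hd
  have h8 : ∏ p ∈ (Finset.Icc 1 v).filter Nat.Prime,
      (1 - (((Finset.range p).filter (fun r => Bd h p r)).card : ℝ) / p) = PV v h := by
    unfold PV nu
    rfl
  rw [h7, h8] at h6
  have h9 : Real.sqrt ((v ^ K : ℕ) : ℝ) ≤ ε / 2 * (U * PV v h) := by
    have hv1' : (1 : ℝ) ≤ (v : ℝ) ^ K := one_le_pow₀ (by linarith)
    have e1 : Real.sqrt ((v ^ K : ℕ) : ℝ) ≤ (v : ℝ) ^ K := by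
      rw [Nat.cast_pow]
      apply Real.sqrt_le_iff.2
      exact ⟨by positivity, by nlinarith⟩
    refine e1.trans ?_
    have e2 : U * (1 / (2 * ((E + 1) * v) ^ 2)) ≤ U * PV v h :=
      mul_le_mul_of_nonneg_left hW (Nat.cast_nonneg _)
    refine le_trans ?_ (mul_le_mul_of_nonneg_left e2 (by positivity))
    have e3 : (v : ℝ) ^ K * (2 * ((E + 1) * v) ^ 2) ≤ ε / 2 * U := by
      calc (v : ℝ) ^ K * (2 * ((E + 1) * v) ^ 2) = (2 * (E + 1) ^ 2) * (v : ℝ) ^ (K + 2) := by
            rw [mul_pow, pow_add]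
            ring
        _ ≤ (2 * (E + 1) ^ 2) * (Real.log h ^ 2) ^ (K + 2) := by
            refine mul_le_mul_of_nonneg_left (pow_le_pow_left₀ (by linarith) hvu _) (by positivity)
        _ = (2 * (E + 1) ^ 2) * Real.log h ^ (2 * (K + 2)) := by
            rw [← pow_mul]
        _ ≤ (2 * (E + 1) ^ 2) * (ε / 2 / (2 * (E + 1) ^ 2) * (h : ℝ) ^ κ) :=
            mul_le_mul_of_nonneg_left hn (by positivity)
        _ = ε / 2 * (h : ℝ) ^ κ := by field_simp
        _ ≤ ε / 2 * U := mul_le_mul_of_nonneg_left hU (by positivity)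
    have e4 : ε / 2 * (U * (1 / (2 * ((E + 1) * v) ^ 2))) = ε / 2 * U / (2 * ((E + 1) * v) ^ 2) := by
      ring
    rw [e4, le_div_iff₀ (by positivity)]
    exact e3
  linarith

end Pool.Agent.H13.GG
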