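import Pool.Agent.H13.GG.Stm
import Pool.Agent.H50.BF.MMB

/-! # Stub NU of the project GG (helper26) -/

set_option autoImplicit false

open MeasureTheory Filter ProbabilityTheory
open scoped Topology ENNReal

namespace Pool.Agent.H13.GG

open Pool.Agent.H50.BF (MM S_MERT MM_pos MM_mono one_le_MM MM_zero MM_succ_prime MM_succ_not
  Icc_filter_succ_prime Icc_filter_succ_not one_sub_inv_pos)

namespace NUaux

theorem Bd_iff {h p r : ℕ} (hp : p.Prime) (hr : r < p) :
    Bd h p r ↔ r = h % p ∨ r = (p - h % p) % p := by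
  have hp0 := hp.pos
  have hm := Nat.mod_lt h hp0
  unfold Bd
  rw [Nat.mod_eq_of_lt hr]
  have key : p ∣ h + r ↔ r = (p - h % p) % p := by
    rw [Nat.dvd_iff_mod_eq_zero, Nat.add_mod, Nat.mod_eq_of_lt hr]
    rcases Nat.eq_zero_or_pos (h % p) with h0 | h0
    · rw [h0, Nat.sub_zero, Nat.mod_self, zero_add, Nat.mod_eq_of_lt hr]
    · rw [Nat.mod_eq_of_lt (by omega : p - h % p < p)]
      constructor
      · intro h1
        have : h % p + r = p := by
          obtain ⟨k, hk⟩ := Nat.dvd_of_mod_eq_zero h1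
          have hk1 : k = 1 := by
            rcases k with _ | _ | k
            · omega
            · rfl
            · exfalso
              have : p * (k + 1 + 1) = p * k + p + p := by ring
              omega
          rw [hk1] at hk
          omega
        omega
      · intro h1
        have : h % p + r = p := by omega
        rw [this, Nat.mod_self]
  rw [key, or_comm]

theorem set_eq {h p : ℕ} (hp : p.Prime) : open Classical in
    (Finset.range p).filter (fun r => Bd h p r) = {h % p, (p - h % p) % p} := by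
  classical
  have hp0 := hp.pos
  ext r
  simp only [Finset.mem_filter, Finset.mem_range, Finset.mem_insert, Finset.mem_singleton]
  constructor
  · rintro ⟨h1, h2⟩
    exact (Bd_iff hp h1).mp h2
  · intro h1
    have hr : r < p := by
      rcases h1 with h1 | h1
      · rw [h1]; exact Nat.mod_lt _ hp0
      · rw [h1]; exact Nat.mod_lt _ hp0
    exact ⟨hr, (Bd_iff hp hr).mpr h1⟩

theorem nu_facts (h p : ℕ) (hp : p.Prime) : 1 ≤ nu h p ∧ nu h p ≤ 2 ∧ (p ∣ 2 * h → nu h p = 1) := by
  classical
  have hp0 := hp.pos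
  have e : nu h p = ({h % p, (p - h % p) % p} : Finset ℕ).card := by
    unfold nu
    rw [set_eq hp]
  rw [e]
  refine ⟨Finset.card_pos.mpr ⟨_, Finset.mem_insert_self _ _⟩, Finset.card_le_two, ?_⟩
  intro hd
  have hm := Nat.mod_lt h hp0
  have : h % p = (p - h % p) % p := by
    rcases Nat.eq_zero_or_pos (h % p) with h0 | h0
    · rw [h0, Nat.sub_zero, Nat.mod_self]
    · rw [Nat.mod_eq_of_lt (by omega : p - h % p < p)]
      -- `p ∣ 2 (h % p)`, `0 < h % p < p`
      have h1 : p ∣ 2 * (h % p) := by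
        have := (Nat.dvd_iff_mod_eq_zero).mp hd
        rw [Nat.mul_mod] at this
        apply Nat.dvd_of_mod_eq_zero
        rw [Nat.mul_mod, Nat.mod_mod]
        exact this
      obtain ⟨k, hk⟩ := h1
      have hk1 : k = 1 := by
        rcases k with _ | _ | k
        · omega
        · rfl
        · exfalso
          have : p * (k + 1 + 1) = p * k + p + p := by ring
          omega
      rw [hk1] at hk
      omega
  rw [← this]
  simp

theorem fac_pos {h p : ℕ} (hp : p.Prime) : 0 < 1 - (nu h p : ℝ) / p := by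
  obtain ⟨h1, h2, h3⟩ := nu_facts h p hp
  have hp2 := hp.two_le
  have hpr : (0 : ℝ) < p := by exact_mod_cast hp.pos
  rw [sub_pos, div_lt_one hpr]
  rcases Nat.lt_or_ge 2 p with h4 | h4
  · exact_mod_cast lt_of_le_of_lt h2 h4
  · obtain rfl : p = 2 := by omega
    rw [h3 (Dvd.intro _ rfl)]
    norm_num

theorem fac_le {h p : ℕ} (hp : p.Prime) : 1 - (nu h p : ℝ) / p ≤ 1 - (p : ℝ)⁻¹ := by
  obtain ⟨h1, h2, h3⟩ := nu_facts h p hp
  have hpr : (0 : ℝ) < p := by exact_mod_cast hp.pos
  have : (p : ℝ)⁻¹ ≤ (nu h p : ℝ) / p := by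
    rw [inv_eq_one_div]
    apply div_le_div_of_nonneg_right _ hpr.le
    exact_mod_cast h1
  linarith

theorem le_fac {h p : ℕ} (hp : p.Prime) : 1 - 2 / (p : ℝ) ≤ 1 - (nu h p : ℝ) / p := by
  obtain ⟨h1, h2, h3⟩ := nu_facts h p hp
  have hpr : (0 : ℝ) < p := by exact_mod_cast hp.pos
  have : (nu h p : ℝ) / p ≤ 2 / p := by
    apply div_le_div_of_nonneg_right _ hpr.le
    exact_mod_cast h2
  linarith

theorem PV_pos (v h : ℕ) : 0 < PV v h := by
  unfold PV
  exact Finset.prod_pos fun p hp => fac_pos (Finset.mem_filter.mp hp).2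

theorem PV_succ_prime {v h : ℕ} (hv : (v + 1).Prime) :
    PV (v + 1) h = (1 - (nu h (v + 1) : ℝ) / (v + 1 : ℕ)) * PV v h := by
  unfold PV
  rw [Icc_filter_succ_prime hv, Finset.prod_insert (by simp)]

theorem PV_succ_not {v h : ℕ} (hv : ¬ (v + 1).Prime) : PV (v + 1) h = PV v h := by
  unfold PV
  rw [Icc_filter_succ_not hv]

theorem PV_zero (h : ℕ) : PV 0 h = 1 := by
  unfold PV; simp

theorem PV_le_succ (v h : ℕ) : PV (v + 1) h ≤ PV v h := by
  by_cases hv : (v + 1).Prime
  · rw [PV_succ_prime hv]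
    have h1 := fac_le (h := h) hv
    have h2 : (0 : ℝ) ≤ ((v + 1 : ℕ) : ℝ)⁻¹ := by positivity
    exact mul_le_of_le_one_left (PV_pos v h).le (by linarith)
  · rw [PV_succ_not hv]

theorem PV_anti (h : ℕ) : Antitone (fun v => PV v h) := antitone_nat_of_succ_le fun v => PV_le_succ v h

theorem SS_pos (v h : ℕ) : 0 < SS v h := by
  unfold SS
  have := PV_pos v h
  have := MM_pos v
  positivity

/-- `PV v h * MM v` is nonincreasing -/
theorem PM_anti (h : ℕ) : Antitone (fun v => PV v h * MM v) := by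
  apply antitone_nat_of_succ_le
  intro v
  show PV (v + 1) h * MM (v + 1) ≤ PV v h * MM v
  by_cases hv : (v + 1).Prime
  · rw [PV_succ_prime hv, ← MM_succ_prime hv]
    have h1 := fac_le (h := h) hv
    have h2 := PV_pos v h
    have h3 := MM_pos (v + 1)
    have h4 : 0 ≤ PV v h * MM (v + 1) := by positivity
    nlinarith [mul_le_mul_of_nonneg_right h1 h4]
  · rw [PV_succ_not hv, MM_succ_not hv]

theorem SS_step {v h : ℕ} (h2 : 2 ≤ v) : SS v h * (1 - 1 / (v : ℝ) ^ 2) ≤ SS (v + 1) h := by
  have hv0 : (0 : ℝ) < v := by exact_mod_cast (by omega : 0 < v)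
  by_cases hv : (v + 1).Prime
  · unfold SS
    rw [PV_succ_prime hv, ← MM_succ_prime hv]
    have h1 := le_fac (h := h) hv
    have h3 := PV_pos v h
    have h4 := MM_pos (v + 1)
    have h5 : 0 ≤ PV v h * MM (v + 1) ^ 2 := by positivity
    have h6 := mul_le_mul_of_nonneg_right h1 h5
    have h7 : PV v h * (MM (v + 1) * (1 - ((v + 1 : ℕ) : ℝ)⁻¹)) ^ 2 * (1 - 1 / (v : ℝ) ^ 2) =
        (1 - 2 / ((v + 1 : ℕ) : ℝ)) * (PV v h * MM (v + 1) ^ 2) := by
      push_cast
      have : (v : ℝ) + 1 ≠ 0 := by positivity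
      field_simp
      ring
    rw [h7]
    linarith
  · have e : SS (v + 1) h = SS v h := by
      unfold SS
      rw [PV_succ_not hv, MM_succ_not hv]
    rw [e]
    apply mul_le_of_le_one_right (SS_pos v h).le
    have : 0 ≤ 1 / (v : ℝ) ^ 2 := by positivity
    linarith

theorem SS_low {v : ℕ} (h : ℕ) (h2 : 2 ≤ v) : ∀ k : ℕ,
    SS v h * ((v - 1) / v * ((v + k : ℕ) / ((v + k : ℕ) - 1))) ≤ SS (v + k) h := by
  have hv : (2 : ℝ) ≤ v := by exact_mod_cast h2
  intro k
  induction k with
  | zero =>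
    have : ((v : ℝ) - 1) / v * (((v + 0 : ℕ) : ℝ) / (((v + 0 : ℕ) : ℝ) - 1)) = 1 := by
      rw [Nat.add_zero]
      have h3 : (v : ℝ) - 1 ≠ 0 := by linarith
      have h4 : (v : ℝ) ≠ 0 := by linarith
      field_simp
    rw [this, mul_one, Nat.add_zero]
  | succ k ih =>
    have hs := SS_step (v := v + k) (h := h) (by omega)
    obtain ⟨n, hn⟩ : ∃ n : ℝ, n = ((v + k : ℕ) : ℝ) := ⟨_, rfl⟩
    have hn2 : 2 ≤ n := by
      rw [hn]; push_cast
      have : (0 : ℝ) ≤ k := Nat.cast_nonneg k
      linarith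
    have e1 : ((v + (k + 1) : ℕ) : ℝ) = n + 1 := by rw [hn]; push_cast; ring
    rw [e1]
    rw [← hn] at ih hs
    have e2 : v + (k + 1) = v + k + 1 := by ring
    rw [e2]
    refine le_trans ?_ hs
    have h5 : 0 ≤ 1 - 1 / n ^ 2 := by
      rw [sub_nonneg, div_le_one (by positivity)]
      nlinarith
    refine le_trans (le_of_eq ?_) (mul_le_mul_of_nonneg_right ih h5)
    have h3 : n - 1 ≠ 0 := by linarith
    have h4 : n ≠ 0 := by linarith
    have h6 : (v : ℝ) ≠ 0 := by linarith
    have h7 : n + 1 - 1 ≠ 0 := by linarith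
    field_simp
    ring

theorem MM_two : MM 2 = 2 := by
  have h1 := MM_succ_prime (v := 1) (by norm_num)
  have h2 := MM_succ_not (v := 0) (by norm_num)
  rw [h2, MM_zero] at h1
  norm_num at h1
  linarith

theorem SS_two (h : ℕ) : SS 2 h = 2 := by
  unfold SS
  have h1 := PV_succ_prime (v := 1) (h := h) (by norm_num)
  have h2 := PV_succ_not (v := 0) (h := h) (by norm_num)
  rw [h2, PV_zero, (nu_facts h (1 + 1) (by norm_num)).2.2 (Dvd.intro _ rfl)] at h1
  rw [h1, MM_two]
  norm_num

theorem SS_half (v h : ℕ) : 1 / 2 ≤ SS v h := by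
  rcases Nat.lt_or_ge v 2 with hv | hv
  · have e : SS v h = 1 := by
      interval_cases v
      · unfold SS; rw [PV_zero, MM_zero]; norm_num
      · have h1 := PV_succ_not (v := 0) (h := h) (by norm_num)
        have h2 := MM_succ_not (v := 0) (by norm_num)
        rw [zero_add] at h1 h2
        unfold SS; rw [h1, h2, PV_zero, MM_zero]; norm_num
    rw [e]; norm_num
  · obtain ⟨k, rfl⟩ := Nat.exists_eq_add_of_le hv
    have h1 := SS_low (v := 2) h le_rfl k
    rw [SS_two] at h1
    refine le_trans ?_ h1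
    have hk : (0 : ℝ) ≤ k := Nat.cast_nonneg k
    have h3 : (1 : ℝ) ≤ ((2 + k : ℕ) : ℝ) / (((2 + k : ℕ) : ℝ) - 1) := by
      push_cast
      rw [le_div_iff₀ (by linarith)]
      linarith
    push_cast at h3 ⊢
    have : (2 : ℝ) * ((2 - 1) / 2 * ((2 + k) / (2 + k - 1))) = (2 + k) / (2 + k - 1) := by ring
    rw [this]
    linarith

end NUaux

open NUaux

theorem nu' : S_NU := by
  refine ⟨nu_facts, ?_, ?_⟩
  · intro v h
    refine ⟨PV_pos v h, ?_, SS_half v h, ?_⟩
    · have := PV_anti h (Nat.zero_le v)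
      simp only [PV_zero] at this
      exact this
    · have h1 := PM_anti h (Nat.zero_le v)
      simp only [PV_zero, MM_zero] at h1
      unfold SS
      have h2 := MM_pos v
      nlinarith
  · intro v v' h hvv
    refine ⟨PV_anti h hvv, ?_, ?_⟩
    · have h1 := PM_anti h hvv
      simp only at h1
      have h2 := MM_pos v
      have h3 := MM_pos v'
      unfold SS
      have e : PV v h * MM v ^ 2 * (MM v' / MM v) = (PV v h * MM v) * MM v' := by
        field_simp
      rw [e]
      have := mul_le_mul_of_nonneg_right h1 h3.le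
      nlinarith
    · intro hv1
      rcases Nat.lt_or_ge v 2 with hv | hv
      · obtain rfl : v = 1 := by omega
        have h1 := SS_pos 1 h
        have h2 := SS_pos v' h
        norm_num
        linarith
      · obtain ⟨k, rfl⟩ := Nat.exists_eq_add_of_le hvv
        refine le_trans ?_ (SS_low h hv k)
        apply mul_le_mul_of_nonneg_left _ (SS_pos v h).le
        have hk : (0 : ℝ) ≤ k := Nat.cast_nonneg k
        have hv2 : (2 : ℝ) ≤ v := by exact_mod_cast hv
        have h3 : (1 : ℝ) ≤ ((v + k : ℕ) : ℝ) / (((v + k : ℕ) : ℝ) - 1) := by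
          push_cast
          rw [le_div_iff₀ (by linarith)]
          linarith
        have h4 : 0 ≤ ((v : ℝ) - 1) / v := div_nonneg (by linarith) (by linarith)
        have h5 : ((v : ℝ) - 1) / v = 1 - 1 / v := by field_simp
        have h6 : 1 / (v : ℝ) ≤ 2 / v := by
          apply div_le_div_of_nonneg_right _ (by linarith); norm_num
        nlinarith [mul_le_mul_of_nonneg_left h3 h4]

end Pool.Agent.H13.GG
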