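import Pool.Agent.H13.GG.Stm
import Pool.Agent.H13.GG.NU
import Pool.Agent.H50.CW.Stm

/-!
# Project GG: from the stubs to the limit theorem
-/

set_option autoImplicit false

open MeasureTheory Filter ProbabilityTheory
open scoped Topology ENNReal

namespace Pool.Agent.H13.GG

open Pool.Agent.H50.BF (MM S_MERT)
open Pool.Agent.H50.GW (GMod)
open Pool.Agent.H50.CW (up dn S_RATE)

/-! ## Limits of sequences -/

lemma limsup_le_nat {f : ℕ → ℝ} {c : ℝ} (hc : 0 ≤ c)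
    (h : ∀ j : ℕ, ∀ᶠ x : ℕ in atTop, f x ≤ c + 1 / ((j : ℝ) + 1)) :
    limsup (fun x : ℕ => ENNReal.ofReal (f x)) atTop ≤ ENNReal.ofReal c := by
  refine ENNReal.le_of_forall_pos_le_add fun ε hε _ => ?_
  obtain ⟨j, hj⟩ := exists_nat_one_div_lt (show (0 : ℝ) < ε by exact_mod_cast hε)
  refine limsup_le_of_le (by isBoundedDefault) ?_
  filter_upwards [h j] with x hx
  calc ENNReal.ofReal (f x) ≤ ENNReal.ofReal (c + ε) := ENNReal.ofReal_le_ofReal (by linarith)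
    _ ≤ ENNReal.ofReal c + ENNReal.ofReal ε := ENNReal.ofReal_add_le
    _ = _ := by rw [ENNReal.ofReal_coe_nnreal]

lemma le_limsup_nat {f : ℕ → ℝ} {c : ℝ}
    (h : ∀ j : ℕ, ∃ᶠ x : ℕ in atTop, c - 1 / ((j : ℝ) + 1) ≤ f x) :
    ENNReal.ofReal c ≤ limsup (fun x : ℕ => ENNReal.ofReal (f x)) atTop := by
  refine ENNReal.le_of_forall_pos_le_add fun ε hε _ => ?_
  obtain ⟨j, hj⟩ := exists_nat_one_div_lt (show (0 : ℝ) < ε by exact_mod_cast hε)
  have h1 : ENNReal.ofReal (c - ε) ≤ limsup (fun x : ℕ => ENNReal.ofReal (f x)) atTop := by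
    refine le_limsup_of_frequently_le ?_ (by isBoundedDefault)
    exact (h j).mono fun x hx => ENNReal.ofReal_le_ofReal (by linarith)
  calc ENNReal.ofReal c = ENNReal.ofReal ((c - ε) + ε) := by ring_nf
    _ ≤ ENNReal.ofReal (c - ε) + ENNReal.ofReal ε := ENNReal.ofReal_add_le
    _ ≤ _ := by rw [ENNReal.ofReal_coe_nnreal]; gcongr

lemma liminf_le_nat {f : ℕ → ℝ} {c : ℝ} (hc : 0 ≤ c)
    (h : ∀ j : ℕ, ∃ᶠ x : ℕ in atTop, f x ≤ c + 1 / ((j : ℝ) + 1)) :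
    liminf (fun x : ℕ => ENNReal.ofReal (f x)) atTop ≤ ENNReal.ofReal c := by
  refine ENNReal.le_of_forall_pos_le_add fun ε hε _ => ?_
  obtain ⟨j, hj⟩ := exists_nat_one_div_lt (show (0 : ℝ) < ε by exact_mod_cast hε)
  refine liminf_le_of_frequently_le ?_ (by isBoundedDefault)
  refine (h j).mono fun x hx => ?_
  calc ENNReal.ofReal (f x) ≤ ENNReal.ofReal (c + ε) := ENNReal.ofReal_le_ofReal (by linarith)
    _ ≤ ENNReal.ofReal c + ENNReal.ofReal ε := ENNReal.ofReal_add_le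
    _ = _ := by rw [ENNReal.ofReal_coe_nnreal]

lemma le_liminf_nat {f : ℕ → ℝ} {c : ℝ}
    (h : ∀ j : ℕ, ∀ᶠ x : ℕ in atTop, c - 1 / ((j : ℝ) + 1) ≤ f x) :
    ENNReal.ofReal c ≤ liminf (fun x : ℕ => ENNReal.ofReal (f x)) atTop := by
  refine ENNReal.le_of_forall_pos_le_add fun ε hε _ => ?_
  obtain ⟨j, hj⟩ := exists_nat_one_div_lt (show (0 : ℝ) < ε by exact_mod_cast hε)
  have h1 : ENNReal.ofReal (c - ε) ≤ liminf (fun x : ℕ => ENNReal.ofReal (f x)) atTop := by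
    refine le_liminf_of_le (by isBoundedDefault) ?_
    filter_upwards [h j] with x hx
    exact ENNReal.ofReal_le_ofReal (by linarith)
  calc ENNReal.ofReal c = ENNReal.ofReal ((c - ε) + ε) := by ring_nf
    _ ≤ ENNReal.ofReal (c - ε) + ENNReal.ofReal ε := ENNReal.ofReal_add_le
    _ ≤ _ := by rw [ENNReal.ofReal_coe_nnreal]; gcongr

/-! ## The extremal densities -/

lemma EE_nonneg (v h U : ℕ) : 0 ≤ EE v h U := by
  have := (nu'.2.1 v h).1
  unfold EE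
  positivity

lemma sg_le (v h a U : ℕ) : sg v h a U ≤ U := by
  classical
  unfold sg
  exact (Finset.card_filter_le _ _).trans (by rw [Finset.card_range])

lemma EE_le (v h U : ℕ) : EE v h U ≤ 2 * MM v ^ 2 := by
  obtain ⟨h1, -, h2, -⟩ := nu'.2.1 v h
  have h3 : (sg v h 0 U : ℝ) ≤ (U : ℝ) := by exact_mod_cast sg_le v h 0 U
  have h4 : EE v h U ≤ (PV v h)⁻¹ := by
    unfold EE
    rcases Nat.eq_zero_or_pos U with h0 | h0
    · subst h0
      simp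
      exact h1.le
    · have h0' : (0 : ℝ) < U := by exact_mod_cast h0
      rw [div_le_iff₀ (by positivity)]
      calc (sg v h 0 U : ℝ) ≤ U := h3
        _ = (PV v h)⁻¹ * (U * PV v h) := by field_simp
  refine h4.trans ?_
  rw [inv_le_iff_one_le_mul₀ h1]
  unfold SS at h2
  linarith

lemma bddB (w : ℕ) : BddBelow (Set.range fun t : ℕ => EE w t (UW w t)) :=
  ⟨0, by rintro _ ⟨t, rfl⟩; exact EE_nonneg w t _⟩

lemma bddA (w : ℕ) : BddAbove (Set.range fun t : ℕ => EE w t (UW w t)) :=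
  ⟨_, by rintro _ ⟨t, rfl⟩; exact EE_le w t _⟩

lemma lo3_nonneg (w : ℕ) : 0 ≤ lo3 w := le_ciInf fun t => EE_nonneg w t _
lemma lo3_le_hi3 (w : ℕ) : lo3 w ≤ hi3 w := (ciInf_le (bddB w) 0).trans (le_ciSup (bddA w) 0)
lemma hi3_nonneg (w : ℕ) : 0 ≤ hi3 w := (lo3_nonneg w).trans (lo3_le_hi3 w)

/-- the lower extremal density -/
noncomputable def slg : ℝ≥0∞ := liminf (fun w : ℕ => ENNReal.ofReal (lo3 w)) atTop
/-- the upper extremal density -/
noncomputable def shg : ℝ≥0∞ := limsup (fun w : ℕ => ENNReal.ofReal (hi3 w)) atTop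

lemma slg_le_shg : slg ≤ shg :=
  (liminf_le_liminf (Eventually.of_forall fun w => ENNReal.ofReal_le_ofReal (lo3_le_hi3 w))).trans
    liminf_le_limsup

lemma hi3_facts {c0 B : ℝ} (hc0 : 0 < c0) (hB : ∀ᶠ w : ℕ in atTop, c0 ≤ hi3 w ∧ hi3 w ≤ B) :
    0 < shg ∧ shg < ∞ ∧
    (∀ ε : ℝ, 0 < ε → ∀ᶠ w : ℕ in atTop, hi3 w ≤ shg.toReal + ε) ∧
    (∀ ε : ℝ, 0 < ε → ∃ᶠ w : ℕ in atTop, |hi3 w - shg.toReal| ≤ ε) := by
  have h1 : shg ≤ ENNReal.ofReal B := by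
    refine limsup_le_of_le (by isBoundedDefault) ?_
    filter_upwards [hB] with w hw
    exact ENNReal.ofReal_le_ofReal hw.2
  have h0 : 0 < shg := by
    refine lt_of_lt_of_le (ENNReal.ofReal_pos.2 hc0) ?_
    refine le_limsup_of_frequently_le (Eventually.frequently ?_) (by isBoundedDefault)
    filter_upwards [hB] with w hw
    exact ENNReal.ofReal_le_ofReal hw.1
  have h2 : shg < ∞ := h1.trans_lt ENNReal.ofReal_lt_top
  have h3 : ∀ ε : ℝ, 0 < ε → ∀ᶠ w : ℕ in atTop, hi3 w ≤ shg.toReal + ε := by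
    intro ε hε
    have h4 : shg < shg + ENNReal.ofReal ε :=
      ENNReal.lt_add_right h2.ne (by simpa using hε)
    filter_upwards [eventually_lt_of_limsup_lt (show limsup (fun w : ℕ => ENNReal.ofReal (hi3 w)) atTop <
      shg + ENNReal.ofReal ε from h4) (by isBoundedDefault)] with w hw
    have h5 := (ENNReal.ofReal_le_iff_le_toReal (by simp [h2.ne])).1 hw.le
    rwa [ENNReal.toReal_add h2.ne ENNReal.ofReal_ne_top, ENNReal.toReal_ofReal hε.le] at h5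
  refine ⟨h0, h2, h3, fun ε hε => ?_⟩
  have h6 : ∃ᶠ w : ℕ in atTop, shg.toReal - ε ≤ hi3 w := by
    by_cases h0 : shg.toReal - ε < 0
    · exact Eventually.frequently (Eventually.of_forall fun w => h0.le.trans (hi3_nonneg w))
    · push Not at h0
      have h7 : ENNReal.ofReal (shg.toReal - ε) < limsup (fun w : ℕ => ENNReal.ofReal (hi3 w)) atTop := by
        change ENNReal.ofReal (shg.toReal - ε) < shg
        rw [ENNReal.ofReal_lt_iff_lt_toReal h0 h2.ne]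
        linarith
      refine (frequently_lt_of_lt_limsup (by isBoundedDefault) h7).mono fun w hw => ?_
      exact (ENNReal.ofReal_lt_ofReal_iff_of_nonneg h0).1 hw |>.le
  refine (h6.and_eventually (h3 ε hε)).mono fun w hw => ?_
  rw [abs_le]
  constructor <;> linarith [hw.1, hw.2]

lemma lo3_facts (h2 : slg < ∞) :
    (∀ ε : ℝ, 0 < ε → ∀ᶠ w : ℕ in atTop, slg.toReal - ε ≤ lo3 w) ∧
    (∀ ε : ℝ, 0 < ε → ∃ᶠ w : ℕ in atTop, |lo3 w - slg.toReal| ≤ ε) := by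
  have h3 : ∀ ε : ℝ, 0 < ε → ∀ᶠ w : ℕ in atTop, slg.toReal - ε ≤ lo3 w := by
    intro ε hε
    by_cases h0 : slg.toReal - ε < 0
    · exact Eventually.of_forall fun w => h0.le.trans (lo3_nonneg w)
    · push Not at h0
      have h7 : ENNReal.ofReal (slg.toReal - ε) < liminf (fun w : ℕ => ENNReal.ofReal (lo3 w)) atTop := by
        change ENNReal.ofReal (slg.toReal - ε) < slg
        rw [ENNReal.ofReal_lt_iff_lt_toReal h0 h2.ne]
        linarith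
      filter_upwards [eventually_lt_of_lt_liminf h7 (by isBoundedDefault)] with w hw
      exact (ENNReal.ofReal_lt_ofReal_iff_of_nonneg h0).1 hw |>.le
  refine ⟨h3, fun ε hε => ?_⟩
  have h4 : slg < slg + ENNReal.ofReal ε :=
    ENNReal.lt_add_right h2.ne (by simpa using hε)
  have h6 : ∃ᶠ w : ℕ in atTop, lo3 w ≤ slg.toReal + ε := by
    refine (frequently_lt_of_liminf_lt (by isBoundedDefault) (show liminf (fun w : ℕ => ENNReal.ofReal (lo3 w)) atTop <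
      slg + ENNReal.ofReal ε from h4)).mono fun w hw => ?_
    have h5 := (ENNReal.ofReal_le_iff_le_toReal (by simp [h2.ne])).1 hw.le
    rwa [ENNReal.toReal_add h2.ne ENNReal.ofReal_ne_top, ENNReal.toReal_ofReal hε.le] at h5
  refine (h6.and_eventually (h3 ε hε)).mono fun w hw => ?_
  rw [abs_le]
  constructor <;> linarith [hw.1, hw.2]

/-! ## The limit theorem -/

section main

variable {Ω : Type} [MeasurableSpace Ω] {P : Measure Ω} {A : ℕ → Set Ω} {z : ℕ → ℕ} {C : ℝ} {U : ℕ → ℕ}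

lemma log_ev : ∀ᶠ h : ℕ in atTop, 0 < Real.log h :=
  (Real.tendsto_log_atTop.comp tendsto_natCast_atTop_atTop).eventually_gt_atTop 0

/-- upper bound for the upper limit -/
lemma partA (hgug : S_GUG) (hrate : S_RATE) (hA : GMod P A z) (hC : 0 < C)
    (hU : Tendsto (fun h : ℕ => (U h : ℝ) * SS ⌊Real.log h⌋₊ h / Real.log h ^ 3) atTop (𝓝 C)) {σ : ℝ} (hσ : 0 < σ)
    (hhi : ∀ ε : ℝ, 0 < ε → ∀ᶠ w : ℕ in atTop, hi3 w ≤ σ + ε) :
    ∀ᵐ ω ∂P, ∀ j : ℕ, ∀ᶠ h : ℕ in atTop,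
      (gt A ω h (U h) : ℝ) / Real.log h ≤ up (C * σ) + 1 / ((j : ℝ) + 1) := by
  rw [ae_all_iff]
  intro j
  have hj : (0 : ℝ) < 1 / ((j : ℝ) + 1) := by positivity
  obtain ⟨t, ht', h1⟩ := hrate.1 (C * σ) (up (C * σ) + 1 / ((j : ℝ) + 1)) (by positivity) (by linarith)
  have h2 := (hgug Ω P A z hA C t _ σ hC (by linarith) hσ.le h1 U hU).1 ht' hhi
  filter_upwards [h2] with ω hω
  filter_upwards [hω, log_ev] with h hh h4
  rw [div_le_iff₀ h4]
  exact hh.le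

/-- lower bound for the lower limit -/
lemma partB (hgug : S_GUG) (hrate : S_RATE) (hA : GMod P A z) (hC : 0 < C)
    (hU : Tendsto (fun h : ℕ => (U h : ℝ) * SS ⌊Real.log h⌋₊ h / Real.log h ^ 3) atTop (𝓝 C)) {σ : ℝ} (hσ : 0 ≤ σ)
    (hlo : ∀ ε : ℝ, 0 < ε → ∀ᶠ w : ℕ in atTop, σ - ε ≤ lo3 w) :
    ∀ᵐ ω ∂P, ∀ j : ℕ, ∀ᶠ h : ℕ in atTop,
      dn (C * σ) - 1 / ((j : ℝ) + 1) ≤ (gt A ω h (U h) : ℝ) / Real.log h := by
  rw [ae_all_iff]
  intro j
  by_cases h0 : dn (C * σ) - 1 / ((j : ℝ) + 1) ≤ 0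
  · refine Eventually.of_forall fun ω => ?_
    filter_upwards [log_ev] with h hh
    exact h0.trans (div_nonneg (Nat.cast_nonneg _) hh.le)
  push Not at h0
  have hj2 : (0 : ℝ) < 1 / ((j : ℝ) + 1) := by positivity
  have hl : 0 < C * σ := by
    rcases hσ.lt_or_eq with h | h
    · positivity
    · exfalso
      rw [← h, mul_zero, hrate.2.2.2.2.2.1 0 le_rfl zero_le_one] at h0
      linarith
  obtain ⟨t, ht1, ht', h1⟩ := hrate.2.2.1 (C * σ) (dn (C * σ) - 1 / ((j : ℝ) + 1)) hl h0.le (by linarith)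
  have h2 := (hgug Ω P A z hA C t _ σ hC ht1 hσ h1 U hU).2 ht' hlo
  filter_upwards [h2] with ω hω
  filter_upwards [hω, log_ev] with h hh h4
  rw [le_div_iff₀ h4]
  exact hh.le

/-- lower bound for the upper limit -/
lemma partC (hgeg : S_GEG) (hrate : S_RATE) (hA : GMod P A z) (hC : 0 < C)
    (hU : Tendsto (fun h : ℕ => (U h : ℝ) * SS ⌊Real.log h⌋₊ h / Real.log h ^ 3) atTop (𝓝 C)) {σ : ℝ} (hσ : 0 < σ)
    (hhi : ∀ ε : ℝ, 0 < ε → ∃ᶠ w : ℕ in atTop, |hi3 w - σ| ≤ ε) :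
    ∀ᵐ ω ∂P, ∀ j : ℕ, ∃ᶠ h : ℕ in atTop,
      up (C * σ) - 1 / ((j : ℝ) + 1) ≤ (gt A ω h (U h) : ℝ) / Real.log h := by
  rw [ae_all_iff]
  intro j
  have hj1 : (1 : ℝ) / ((j : ℝ) + 2) < 1 / ((j : ℝ) + 1) :=
    one_div_lt_one_div_of_lt (by positivity) (by linarith)
  have hj2 : (0 : ℝ) < 1 / ((j : ℝ) + 2) := by positivity
  obtain ⟨t, ht', h1, h2⟩ := hrate.2.1 (C * σ) (up (C * σ) - 1 / ((j : ℝ) + 2)) (by positivity) (by linarith)
  have h3 := (hgeg Ω P A z hA C σ hC hσ.le U hU (Or.inl hhi)).1 t (1 / ((j : ℝ) + 1) - 1 / ((j : ℝ) + 2))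
    (by linarith) (by linarith) h2
  filter_upwards [h3] with ω hω
  refine hω.mono fun h hh => ?_
  have := (abs_le.1 hh).1
  linarith

/-- upper bound for the lower limit -/
lemma partD (hgeg : S_GEG) (hrate : S_RATE) (hA : GMod P A z) (hC : 0 < C)
    (hU : Tendsto (fun h : ℕ => (U h : ℝ) * SS ⌊Real.log h⌋₊ h / Real.log h ^ 3) atTop (𝓝 C)) {σ : ℝ} (hσ : 0 ≤ σ)
    (hlo : ∀ ε : ℝ, 0 < ε → ∃ᶠ w : ℕ in atTop, |lo3 w - σ| ≤ ε) :
    ∀ᵐ ω ∂P, ∀ j : ℕ, ∃ᶠ h : ℕ in atTop,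
      (gt A ω h (U h) : ℝ) / Real.log h ≤ dn (C * σ) + 1 / ((j : ℝ) + 1) := by
  rw [ae_all_iff]
  intro j
  have hj1 : (1 : ℝ) / ((j : ℝ) + 2) < 1 / ((j : ℝ) + 1) :=
    one_div_lt_one_div_of_lt (by positivity) (by linarith)
  have hj2 : (0 : ℝ) < 1 / ((j : ℝ) + 2) := by positivity
  obtain ⟨t, ht1, ht', h1, h2⟩ := hrate.2.2.2.1 (C * σ) (dn (C * σ) + 1 / ((j : ℝ) + 2)) (by positivity) (by linarith)
  have h3 := (hgeg Ω P A z hA C σ hC hσ U hU (Or.inr hlo)).1 t (1 / ((j : ℝ) + 1) - 1 / ((j : ℝ) + 2)) ht1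
    (by linarith) h2
  filter_upwards [h3] with ω hω
  refine hω.mono fun h hh => ?_
  have := (abs_le.1 hh).2
  linarith

/-- the limit theorem -/
theorem general (hgug : S_GUG) (hgeg : S_GEG) (hrate : S_RATE) (hhbg : S_HBG) :
    0 < shg ∧ shg < ∞ ∧ slg ≤ shg ∧
    ∀ (Ω : Type) [MeasurableSpace Ω] (P : Measure Ω) (A : ℕ → Set Ω) (z : ℕ → ℕ), GMod P A z →
    ∀ C : ℝ, 0 < C → ∀ U : ℕ → ℕ,
    Tendsto (fun h : ℕ => (U h : ℝ) * SS ⌊Real.log h⌋₊ h / Real.log h ^ 3) atTop (𝓝 C) → ∀ᵐ ω ∂P,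
      limsup (fun h : ℕ => ENNReal.ofReal (gt A ω h (U h) / Real.log h)) atTop =
        ENNReal.ofReal (up (C * shg.toReal)) ∧
      liminf (fun h : ℕ => ENNReal.ofReal (gt A ω h (U h) / Real.log h)) atTop =
        ENNReal.ofReal (dn (C * slg.toReal)) ∧
      (C * slg.toReal < 1 → ∃ᶠ h : ℕ in atTop, gt A ω h (U h) = 0) := by
  obtain ⟨c0, B, hc0, hB⟩ := hhbg
  obtain ⟨h0, h2, hhi1, hhi2⟩ := hi3_facts hc0 hB
  have h2' : slg < ∞ := slg_le_shg.trans_lt h2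
  obtain ⟨hlo1, hlo2⟩ := lo3_facts h2'
  have hσ : 0 < shg.toReal := ENNReal.toReal_pos h0.ne' h2.ne
  refine ⟨h0, h2, slg_le_shg, ?_⟩
  intro Ω _ P A z hA C hC U hU
  have hE : ∀ᵐ ω ∂P, C * slg.toReal < 1 → ∃ᶠ h : ℕ in atTop, gt A ω h (U h) = 0 := by
    by_cases h1 : C * slg.toReal < 1
    · filter_upwards [(hgeg Ω P A z hA C _ hC ENNReal.toReal_nonneg U hU (Or.inr hlo2)).2 h1] with ω hω _
      exact hω
    · exact Eventually.of_forall fun ω h => absurd h h1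
  filter_upwards [partA hgug hrate hA hC hU hσ hhi1,
    partB hgug hrate hA hC hU ENNReal.toReal_nonneg hlo1,
    partC hgeg hrate hA hC hU hσ hhi2,
    partD hgeg hrate hA hC hU ENNReal.toReal_nonneg hlo2, hE] with ω hA hB hC' hD hE
  have hup0 : 0 ≤ up (C * shg.toReal) :=
    (by positivity : 0 ≤ C * shg.toReal).trans (hrate.2.2.2.2.2.2.2 _ (by positivity))
  have hdn0 : 0 ≤ dn (C * slg.toReal) := hrate.2.2.2.2.2.2.1 _ (by positivity)
  exact ⟨le_antisymm (limsup_le_nat hup0 hA) (le_limsup_nat hC'),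
    le_antisymm (liminf_le_nat hdn0 hD) (le_liminf_nat hB), hE⟩

end main

end Pool.Agent.H13.GG
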