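import Pool.Agent.H13.GG.FIN
import Pool.Agent.H50.GW.RES

/-!
# Project GG: the classical formulation
-/

set_option autoImplicit false

open MeasureTheory Filter ProbabilityTheory
open scoped Topology ENNReal

namespace Pool.Agent.H13.GG

open Pool.Agent.H50.BF (MM S_MERT)
open Pool.Agent.H50.GW (GMod mert1 mert1_MM dn_pos)
open Pool.Agent.H50.CW (up dn S_RATE)

lemma nu_eq {h p : ℕ} (hp : p.Prime) : (nu h p : ℝ) = if p ∣ 2 * h then 1 else 2 := by
  classical
  obtain ⟨h1, h2, h3⟩ := nu'.1 h p hp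
  by_cases hd : p ∣ 2 * h
  · rw [if_pos hd, h3 hd]
    norm_num
  · rw [if_neg hd]
    have h4 : 2 ≤ nu h p := by
      have hp0 := hp.pos
      have hne : h % p ≠ (p - h % p) % p := by
        intro heq
        apply hd
        have h5 : (h % p + (p - h % p)) % p = 0 := by
          rw [Nat.add_sub_cancel' (Nat.mod_lt _ hp0).le]
          exact Nat.mod_self p
        have h6 : (h + h) % p = 0 := by
          rw [Nat.add_mod]
          rw [Nat.add_mod, Nat.mod_mod, ← heq] at h5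
          exact h5
        have h7 := Nat.dvd_of_mod_eq_zero h6
        rwa [← two_mul] at h7
      have hsub : ({h % p, (p - h % p) % p} : Finset ℕ) ⊆ (Finset.range p).filter (fun r => Bd h p r) := by
        intro r hr
        rw [Finset.mem_insert, Finset.mem_singleton] at hr
        rw [Finset.mem_filter, Finset.mem_range]
        rcases hr with rfl | rfl
        · exact ⟨Nat.mod_lt _ hp0, Or.inr (Nat.mod_mod _ _)⟩
        · refine ⟨Nat.mod_lt _ hp0, Or.inl ?_⟩
          rw [Nat.dvd_iff_mod_eq_zero, Nat.add_mod, Nat.mod_mod]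
          have h5 : (h % p + (p - h % p)) % p = 0 := by
            rw [Nat.add_sub_cancel' (Nat.mod_lt _ hp0).le]
            exact Nat.mod_self p
          rw [Nat.add_mod, Nat.mod_mod] at h5
          exact h5
      have hc := Finset.card_le_card hsub
      rw [Finset.card_insert_of_notMem (by rwa [Finset.mem_singleton]), Finset.card_singleton] at hc
      unfold nu
      exact hc
    have : nu h p = 2 := by omega
    rw [this]
    norm_num

/-- `∏_{p ≤ y} (1 - ν(p)/p)` -/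
noncomputable def sp (w t : ℕ) : ℝ :=
  ∏ p ∈ (Finset.Icc 1 w).filter Nat.Prime, (1 - (if p ∣ 2 * t then 1 else 2 : ℝ) / p)

lemma sp_PV (w t : ℕ) : sp w t = PV w t := by
  unfold sp PV
  refine Finset.prod_congr rfl fun p hp => ?_
  rw [nu_eq (Finset.mem_filter.1 hp).2]

/-- the number of the `j ≤ U` such that `t - j` and `t + j` have no prime divisor `≤ w` -/
noncomputable def surv (w t U : ℕ) : ℕ :=
  Set.ncard {j : ℕ | 1 ≤ j ∧ j ≤ U ∧ ∀ p : ℕ, p.Prime → p ≤ w → ¬ (p : ℤ) ∣ (t : ℤ) - j ∧ ¬ (p : ℤ) ∣ (t : ℤ) + j}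

lemma Bd_iff (t p j : ℕ) : ¬ Bd t p j ↔ ¬ (p : ℤ) ∣ (t : ℤ) - j ∧ ¬ (p : ℤ) ∣ (t : ℤ) + j := by
  unfold Bd
  rw [not_or]
  have h1 : (p : ℤ) ∣ (t : ℤ) + j ↔ p ∣ t + j := by
    rw [show ((t : ℤ) + j) = ((t + j : ℕ) : ℤ) by push_cast; ring, Int.natCast_dvd_natCast]
  have h2 : (p : ℤ) ∣ (t : ℤ) - j ↔ j % p = t % p := (Nat.modEq_iff_dvd).symm
  rw [h1, h2]
  tauto

lemma surv_sg (w t U : ℕ) : surv w t U = sg w t 0 U := by
  classical
  have h : {j : ℕ | 1 ≤ j ∧ j ≤ U ∧ ∀ p : ℕ, p.Prime → p ≤ w → ¬ (p : ℤ) ∣ (t : ℤ) - j ∧ ¬ (p : ℤ) ∣ (t : ℤ) + j} =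
      (((Finset.range U).filter (fun j => ∀ p : ℕ, p.Prime → p ≤ w → ¬ Bd t p (0 + j + 1))).image
        (fun j => j + 1) : Finset ℕ) := by
    ext m
    simp only [Set.mem_ofPred_eq, Finset.coe_image, Set.mem_image, Finset.mem_coe, Finset.mem_filter, Finset.mem_range]
    constructor
    · rintro ⟨h1, h2, h3⟩
      refine ⟨m - 1, ⟨by omega, fun p hp hpw => ?_⟩, by omega⟩
      rw [show 0 + (m - 1) + 1 = m by omega, Bd_iff]
      exact h3 p hp hpw
    · rintro ⟨j, ⟨h1, h2⟩, rfl⟩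
      refine ⟨by omega, by omega, fun p hp hpw => ?_⟩
      rw [← Bd_iff]
      have := h2 p hp hpw
      rwa [show 0 + j + 1 = j + 1 by omega] at this
  unfold surv
  rw [h, Set.ncard_coe_finset, Finset.card_image_of_injective _ (fun x y h => by simpa using h)]
  unfold sg
  congr

/-- the length -/
noncomputable def ln3 (w t : ℕ) : ℕ := ⌈(w : ℝ) ^ 3 * mert1 w ^ 2 / sp w t⌉₊

lemma ln3_UW (w t : ℕ) : ln3 w t = UW w t := by
  have h1 := Pool.Agent.H50.BF.MM_pos' w
  have h2 := (nu'.2.1 w t).1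
  unfold ln3 UW
  congr 1
  rw [mert1_MM, sp_PV]
  unfold SS
  field_simp

/-- the density -/
noncomputable def de (w t : ℕ) : ℝ := (surv w t (ln3 w t) : ℝ) / (ln3 w t * sp w t)

lemma de_EE (w t : ℕ) : de w t = EE w t (UW w t) := by
  unfold de EE
  rw [surv_sg, ln3_UW, sp_PV]

lemma liminf_de : liminf (fun w : ℕ => ⨅ t : ℕ, ENNReal.ofReal (de w t)) atTop = slg := by
  unfold slg
  congr 1
  funext w
  have h : lo3 w = ⨅ t : ℕ, de w t := by
    unfold lo3
    exact iInf_congr fun t => (de_EE w t).symm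
  rw [h]
  refine (Monotone.map_ciInf_of_continuousAt ENNReal.continuous_ofReal.continuousAt
    (fun _ _ h => ENNReal.ofReal_le_ofReal h) ?_).symm
  rw [show de w = fun t => EE w t (UW w t) from funext (de_EE w)]
  exact bddB w

lemma limsup_de : limsup (fun w : ℕ => ⨆ t : ℕ, ENNReal.ofReal (de w t)) atTop = shg := by
  unfold shg
  congr 1
  funext w
  have h : hi3 w = ⨆ t : ℕ, de w t := by
    unfold hi3
    exact iSup_congr fun t => (de_EE w t).symm
  rw [h]
  refine (Monotone.map_ciSup_of_continuousAt ENNReal.continuous_ofReal.continuousAt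
    (fun _ _ h => ENNReal.ofReal_le_ofReal h) ?_).symm
  rw [show de w = fun t => EE w t (UW w t) from funext (de_EE w)]
  exact bddA w

/-! ## Representations -/

/-- the number of the pairs `a < b` of members of `S` with `a + b = 2 h` and `b - a ≤ 2 U` -/
noncomputable def rp (S : Set ℕ) (h U : ℕ) : ℕ :=
  Set.ncard {q : ℕ × ℕ | q.1 ∈ S ∧ q.2 ∈ S ∧ q.1 < q.2 ∧ q.1 + q.2 = 2 * h ∧ q.2 ≤ q.1 + 2 * U}

lemma rp_gt {Ω : Type} (A : ℕ → Set Ω) (ω : Ω) {h U : ℕ} (hU : U ≤ h) : rp {n | ω ∈ A n} h U = gt A ω h U := by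
  classical
  have h0 : {q : ℕ × ℕ | q.1 ∈ {n | ω ∈ A n} ∧ q.2 ∈ {n | ω ∈ A n} ∧ q.1 < q.2 ∧ q.1 + q.2 = 2 * h ∧ q.2 ≤ q.1 + 2 * U} =
      (((Finset.range U).filter (fun j => ω ∈ PH A h j)).image
        (fun j => (h - (j + 1), h + (j + 1))) : Finset (ℕ × ℕ)) := by
    ext ⟨a, b⟩
    simp only [Set.mem_ofPred_eq, Finset.coe_image, Set.mem_image, Finset.mem_coe, Finset.mem_filter, Finset.mem_range,
      PH, Set.mem_inter_iff, Prod.mk.injEq]
    constructor
    · rintro ⟨h1, h2, h3, h4, h5⟩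
      refine ⟨b - h - 1, ⟨by omega, ?_, ?_⟩, by omega, by omega⟩
      · rwa [show h - (b - h - 1 + 1) = a by omega]
      · rwa [show h + (b - h - 1 + 1) = b by omega]
    · rintro ⟨j, ⟨h1, h2, h3⟩, rfl, rfl⟩
      exact ⟨h2, h3, by omega, by omega, by omega⟩
  unfold rp
  rw [h0, Set.ncard_coe_finset, Finset.card_image_of_injOn]
  · unfold gt
    congr
  · intro x _ y _ hxy
    simp only [Prod.mk.injEq] at hxy
    omega

lemma ev_pos {f : ℕ → ℕ} {l : ℝ} (hl : 1 < l)
    (h : liminf (fun x : ℕ => ENNReal.ofReal (f x / Real.log x)) atTop = ENNReal.ofReal (dn l)) :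
    ∀ᶠ x : ℕ in atTop, 0 < f x := by
  have h4 : (0 : ℝ≥0∞) < liminf (fun x : ℕ => ENNReal.ofReal (f x / Real.log x)) atTop := by
    rw [h]
    exact ENNReal.ofReal_pos.2 (dn_pos hl)
  filter_upwards [eventually_lt_of_lt_liminf h4 (by isBoundedDefault)] with x hx
  by_contra hcon
  have h6 : f x = 0 := by omega
  rw [h6] at hx
  simp at hx

end Pool.Agent.H13.GG
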