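import Pool.Agent.H13.GG.StmC
import Pool.Agent.H13.GG.NU

/-! # Stub SGL of the project GG: the classical singular series (helper56) -/

set_option autoImplicit false

open Filter
open scoped Topology ENNReal

namespace Pool.Agent.H13.GG

open Pool.Agent.H50.BF (MM)

namespace SGLaux

theorem nu_two {h p : ℕ} (hp : p.Prime) (hp3 : 3 ≤ p) (hd : ¬ p ∣ h) : nu h p = 2 := by
  classical
  have hp0 := hp.pos
  have e : nu h p = ({h % p, (p - h % p) % p} : Finset ℕ).card := by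
    unfold nu
    rw [NUaux.set_eq hp]
  rw [e]
  have h0 : 0 < h % p := by
    rw [Nat.pos_iff_ne_zero]
    intro h0
    exact hd (Nat.dvd_of_mod_eq_zero h0)
  have hm := Nat.mod_lt h hp0
  apply Finset.card_pair
  rw [Nat.mod_eq_of_lt (by omega : p - h % p < p)]
  intro h1
  have h2 : 2 ∣ p := ⟨h % p, by omega⟩
  rcases (Nat.dvd_prime hp).1 h2 with h3 | h3 <;> omega

/-- the local factor -/
theorem fac_eq {h p : ℕ} (hNU : S_NU) (hp : p.Prime) (hp3 : 3 ≤ p) :
    (1 - (nu h p : ℝ) / p) * ((1 - (p : ℝ)⁻¹)⁻¹) ^ 2 =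
      (1 - 1 / ((p : ℝ) - 1) ^ 2) * if p ∣ h then ((p : ℝ) - 1) / (p - 2) else 1 := by
  have h3 : (3 : ℝ) ≤ p := by exact_mod_cast hp3
  have g0 : (p : ℝ) ≠ 0 := by linarith
  have g1 : (p : ℝ) - 1 ≠ 0 := by linarith
  have g2 : (p : ℝ) - 2 ≠ 0 := by linarith
  have e1 : (1 - (p : ℝ)⁻¹)⁻¹ = p / (p - 1) := by
    have : 1 - (p : ℝ)⁻¹ = (p - 1) / p := by field_simp
    rw [this, inv_div]
  rw [e1]
  split_ifs with hd
  · rw [(hNU.1 h p hp).2.2 (Dvd.dvd.mul_left hd 2)]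
    push_cast
    field_simp
    ring
  · rw [nu_two hp hp3 hd]
    push_cast
    field_simp
    ring

theorem fac_two {h : ℕ} (hNU : S_NU) :
    (1 - (nu h 2 : ℝ) / (2 : ℕ)) * ((1 - ((2 : ℕ) : ℝ)⁻¹)⁻¹) ^ 2 = 2 := by
  rw [(hNU.1 h 2 Nat.prime_two).2.2 (Dvd.intro _ rfl)]
  norm_num

theorem SS_eq (hNU : S_NU) {v : ℕ} (hv : 2 ≤ v) (h : ℕ) :
    SS v h = 2 * TC v * ∏ p ∈ ((Finset.Icc 3 v).filter Nat.Prime).filter (· ∣ h),
      ((p : ℝ) - 1) / (p - 2) := by
  classical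
  have hset : (Finset.Icc 1 v).filter Nat.Prime = insert 2 ((Finset.Icc 3 v).filter Nat.Prime) := by
    ext p
    simp only [Finset.mem_filter, Finset.mem_Icc, Finset.mem_insert]
    constructor
    · rintro ⟨⟨h1, h2⟩, h3⟩
      have := h3.two_le
      rcases Nat.lt_or_ge 2 p with h4 | h4
      · exact Or.inr ⟨⟨h4, h2⟩, h3⟩
      · exact Or.inl (by omega)
    · rintro (rfl | ⟨⟨h1, h2⟩, h3⟩)
      · exact ⟨⟨by norm_num, hv⟩, Nat.prime_two⟩
      · exact ⟨⟨by omega, h2⟩, h3⟩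
  unfold SS PV MM TC
  rw [← Finset.prod_pow, ← Finset.prod_mul_distrib, hset, Finset.prod_insert (by simp),
    fac_two hNU, Finset.prod_filter (· ∣ h), mul_assoc, ← Finset.prod_mul_distrib]
  congr 1
  refine Finset.prod_congr rfl fun p hp => ?_
  rw [Finset.mem_filter, Finset.mem_Icc] at hp
  exact fac_eq hNU hp.2 hp.1.1

theorem TC_fac {p : ℕ} (hp : 3 ≤ p) : 0 < 1 - 1 / ((p : ℝ) - 1) ^ 2 ∧ 1 - 1 / ((p : ℝ) - 1) ^ 2 ≤ 1 := by
  have h3 : (3 : ℝ) ≤ p := by exact_mod_cast hp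
  constructor
  · rw [sub_pos, div_lt_one (by nlinarith)]
    nlinarith
  · have : 0 ≤ 1 / ((p : ℝ) - 1) ^ 2 := by positivity
    linarith

theorem TC_anti : Antitone TC := by
  intro v w hvw
  unfold TC
  have hsub : (Finset.Icc 3 v).filter Nat.Prime ⊆ (Finset.Icc 3 w).filter Nat.Prime :=
    Finset.filter_subset_filter _ (Finset.Icc_subset_Icc_right hvw)
  rw [← Finset.prod_sdiff hsub]
  refine mul_le_of_le_one_left (Finset.prod_nonneg fun p hp => ?_)
    (Finset.prod_le_one (fun p hp => ?_) fun p hp => ?_)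
  · rw [Finset.mem_filter, Finset.mem_Icc] at hp
    exact (TC_fac hp.1.1).1.le
  · rw [Finset.mem_sdiff, Finset.mem_filter, Finset.mem_Icc] at hp
    exact (TC_fac hp.1.1.1).1.le
  · rw [Finset.mem_sdiff, Finset.mem_filter, Finset.mem_Icc] at hp
    exact (TC_fac hp.1.1.1).2

theorem TC_ge (hNU : S_NU) (v : ℕ) : 1 / 4 ≤ TC v := by
  have h2 : ∀ v, 2 ≤ v → 1 / 4 ≤ TC v := by
    intro v hv
    have h1 := (hNU.2.1 v 1).2.2.1
    rw [SS_eq hNU hv 1] at h1
    have h3 : ((Finset.Icc 3 v).filter Nat.Prime).filter (· ∣ 1) = ∅ := by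
      rw [Finset.filter_eq_empty_iff]
      intro p hp hp1
      rw [Finset.mem_filter] at hp
      exact hp.2.one_lt.ne' (Nat.dvd_one.1 hp1)
    rw [h3, Finset.prod_empty] at h1
    linarith
  rcases le_total 2 v with hv | hv
  · exact h2 v hv
  · exact (h2 2 le_rfl).trans (TC_anti hv)

theorem C2_ge (hNU : S_NU) : 1 / 4 ≤ ⨅ v : ℕ, TC v := le_ciInf (TC_ge hNU)

theorem TC_lim (hNU : S_NU) : Tendsto TC atTop (𝓝 (⨅ v : ℕ, TC v)) :=
  tendsto_atTop_ciInf TC_anti ⟨1 / 4, by rintro _ ⟨v, rfl⟩; exact TC_ge hNU v⟩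

theorem two_lt_fac {p : ℕ} (hp : 2 < p) : 1 ≤ ((p : ℝ) - 1) / (p - 2) := by
  have h3 : (3 : ℝ) ≤ p := by exact_mod_cast hp
  rw [le_div_iff₀ (by linarith)]
  linarith

/-- the large prime factors -/
noncomputable def RR (v h : ℕ) : ℝ :=
  ∏ p ∈ (h.primeFactors.filter (2 < ·)).filter (¬ · ≤ v), ((p : ℝ) - 1) / (p - 2)

theorem one_le_RR (v h : ℕ) : 1 ≤ RR v h := by
  unfold RR
  refine (Finset.prod_const_one (ι := ℕ) (M := ℝ)).symm.le.trans
    (Finset.prod_le_prod (fun _ _ => zero_le_one) ?_)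
  intro p hp
  rw [Finset.mem_filter, Finset.mem_filter] at hp
  exact two_lt_fac hp.1.2

theorem SG_eq {v h : ℕ} (hh : h ≠ 0) :
    SG h = 2 * (⨅ v : ℕ, TC v) * (∏ p ∈ ((Finset.Icc 3 v).filter Nat.Prime).filter (· ∣ h),
      ((p : ℝ) - 1) / (p - 2)) * RR v h := by
  classical
  unfold SG RR
  rw [← Finset.prod_filter_mul_prod_filter_not (h.primeFactors.filter (2 < ·)) (· ≤ v)]
  have hset : ((Finset.Icc 3 v).filter Nat.Prime).filter (· ∣ h) =
      (h.primeFactors.filter (2 < ·)).filter (· ≤ v) := by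
    ext p
    simp only [Finset.mem_filter, Finset.mem_Icc, Nat.mem_primeFactors]
    constructor
    · rintro ⟨⟨⟨h1, h2⟩, h3⟩, h4⟩
      exact ⟨⟨⟨h3, h4, hh⟩, h1⟩, h2⟩
    · rintro ⟨⟨⟨h3, h4, _⟩, h1⟩, h2⟩
      exact ⟨⟨⟨h1, h2⟩, h3⟩, h4⟩
  rw [hset]
  ring

theorem RR_le {v h : ℕ} (hv : 2 ≤ v) (hh : h ≠ 0) (hl : Real.log h ≤ v + 1) :
    RR v h ≤ Real.exp (3 / Real.log v) := by
  classical
  obtain ⟨s, hs⟩ : ∃ s, s = (h.primeFactors.filter (2 < ·)).filter (¬ · ≤ v) := ⟨_, rfl⟩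
  have hmem : ∀ p ∈ s, p.Prime ∧ v + 1 ≤ p := by
    intro p hp
    rw [hs, Finset.mem_filter, Finset.mem_filter, Nat.mem_primeFactors] at hp
    exact ⟨hp.1.1.1, by have := hp.2; omega⟩
  have hv2 : (2 : ℝ) ≤ v := by exact_mod_cast hv
  have hlv : 0 < Real.log v := Real.log_pos (by linarith)
  have hcard : (s.card : ℝ) * Real.log v ≤ v + 1 := by
    refine le_trans ?_ hl
    have h1 : ∑ p ∈ s, Real.log (p : ℝ) ≤ Real.log h := by
      rw [← Real.log_prod (fun p hp => by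
        have := (hmem p hp).1.pos
        exact_mod_cast this.ne')]
      have h2 : ∏ p ∈ s, p ∣ h := by
        refine (Finset.prod_dvd_prod_of_subset s h.primeFactors (fun p => p) ?_).trans
          (Nat.prod_primeFactors_dvd h)
        rw [hs]
        exact (Finset.filter_subset _ _).trans (Finset.filter_subset _ _)
      have h3 : ∏ p ∈ s, p ≤ h := Nat.le_of_dvd (Nat.pos_of_ne_zero hh) h2
      apply Real.log_le_log
      · exact Finset.prod_pos fun p hp => by exact_mod_cast (hmem p hp).1.pos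
      · have h4 : ((∏ p ∈ s, p : ℕ) : ℝ) ≤ h := by exact_mod_cast h3
        rwa [Nat.cast_prod] at h4
    refine le_trans ?_ h1
    rw [← nsmul_eq_mul]
    refine Finset.card_nsmul_le_sum _ _ _ fun p hp => ?_
    apply Real.log_le_log (by linarith)
    have := (hmem p hp).2
    exact_mod_cast (by omega : v ≤ p)
  have h1 : RR v h ≤ Real.exp (∑ p ∈ s, 1 / ((p : ℝ) - 2)) := by
    unfold RR
    rw [← hs, Real.exp_sum]
    refine Finset.prod_le_prod (fun p hp => ?_) fun p hp => ?_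
    · have := (hmem p hp).2
      exact zero_le_one.trans (two_lt_fac (by omega))
    · have h3 : (3 : ℝ) ≤ p := by
        have := (hmem p hp).2
        exact_mod_cast (by omega : 3 ≤ p)
      have h4 := Real.add_one_le_exp (1 / ((p : ℝ) - 2))
      have h5 : ((p : ℝ) - 1) / (p - 2) = 1 / ((p : ℝ) - 2) + 1 := by
        have : (p : ℝ) - 2 ≠ 0 := by linarith
        field_simp
        ring
      rw [h5]
      exact h4
  refine h1.trans (Real.exp_le_exp.2 ?_)
  have h2 : ∑ p ∈ s, 1 / ((p : ℝ) - 2) ≤ s.card * (1 / ((v : ℝ) - 1)) := by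
    rw [← nsmul_eq_mul]
    refine Finset.sum_le_card_nsmul _ _ _ fun p hp => ?_
    have h3 : (v : ℝ) + 1 ≤ p := by exact_mod_cast (hmem p hp).2
    exact one_div_le_one_div_of_le (by linarith) (by linarith)
  refine h2.trans ?_
  rw [le_div_iff₀ hlv]
  have h3 : (s.card : ℝ) * (1 / ((v : ℝ) - 1)) * Real.log v =
      (s.card * Real.log v) / ((v : ℝ) - 1) := by ring
  rw [h3, div_le_iff₀ (by linarith)]
  linarith

end SGLaux

open SGLaux

/-- SGL -/
theorem sgl (hNU : S_NU) : S_SGL := by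
  have hC := C2_ge hNU
  have hC0 : 0 < ⨅ v : ℕ, TC v := by linarith
  constructor
  · intro h
    unfold SG
    refine mul_pos (by linarith) (Finset.prod_pos fun p hp => ?_)
    rw [Finset.mem_filter] at hp
    exact zero_lt_one.trans_le (two_lt_fac hp.2)
  -- the truncation
  have hv : Tendsto (fun h : ℕ => ⌊Real.log h⌋₊) atTop atTop :=
    tendsto_nat_floor_atTop.comp (Real.tendsto_log_atTop.comp tendsto_natCast_atTop_atTop)
  have hR : Tendsto (fun h : ℕ => RR ⌊Real.log h⌋₊ h) atTop (𝓝 1) := by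
    have h1 : Tendsto (fun h : ℕ => Real.exp (3 / Real.log (⌊Real.log h⌋₊ : ℝ))) atTop (𝓝 1) := by
      rw [← Real.exp_zero]
      refine (Real.continuous_exp.tendsto 0).comp ?_
      exact tendsto_const_nhds.div_atTop
        (Real.tendsto_log_atTop.comp (tendsto_natCast_atTop_atTop.comp hv))
    refine tendsto_of_tendsto_of_tendsto_of_le_of_le' tendsto_const_nhds h1
      (Eventually.of_forall fun h => one_le_RR _ h) ?_
    filter_upwards [hv.eventually_ge_atTop 2, eventually_ge_atTop 1] with h h2 h3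
    exact RR_le h2 (by omega) (Nat.lt_floor_add_one _).le
  have h2 : Tendsto (fun h : ℕ => TC ⌊Real.log h⌋₊ / (⨅ v : ℕ, TC v) / RR ⌊Real.log h⌋₊ h) atTop
      (𝓝 1) := by
    have h3 := (((TC_lim hNU).comp hv).div_const (⨅ v : ℕ, TC v)).div hR one_ne_zero
    rwa [div_self hC0.ne', div_one] at h3
  refine h2.congr' ?_
  filter_upwards [hv.eventually_ge_atTop 2, eventually_ge_atTop 1] with h h4 h5
  rw [SS_eq hNU h4 h, SG_eq (v := ⌊Real.log h⌋₊) (by omega : h ≠ 0)]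
  have h6 : 0 < ∏ p ∈ ((Finset.Icc 3 ⌊Real.log h⌋₊).filter Nat.Prime).filter (· ∣ h),
      ((p : ℝ) - 1) / (p - 2) := by
    refine Finset.prod_pos fun p hp => ?_
    rw [Finset.mem_filter, Finset.mem_filter, Finset.mem_Icc] at hp
    exact zero_lt_one.trans_le (two_lt_fac (by omega))
  have h7 : RR ⌊Real.log h⌋₊ h ≠ 0 := (zero_lt_one.trans_le (one_le_RR _ _)).ne'
  field_simp

end Pool.Agent.H13.GG
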