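import Pool.Agent.H13.GG.RES
import Pool.Agent.H13.GG.ALL
import Pool.Agent.H13.GG.CUS
import Pool.Agent.H13.GG.CUE
import Pool.Agent.H13.GG.CUG
import Pool.Agent.H13.GG.SGL

/-!
# Project GG: the theorem with the classical singular series
-/

set_option autoImplicit false

open MeasureTheory Filter ProbabilityTheory
open scoped Topology ENNReal

namespace Pool.Agent.H13.GG

open Pool.Agent.H50.BF (MM S_MERT)
open Pool.Agent.H50.GW (GMod fnd)
open Pool.Agent.H50.CW (up dn S_RATE)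

lemma cus' : S_CUS := cus fnd nu' mert
lemma cue' : S_CUE := cue cus' ipg nu' mert
lemma cug' : S_CUG := cug cue' ipg nu' ldu'
lemma sgl' : S_SGL := sgl nu'

lemma log_tend : Tendsto (fun h : ℕ => Real.log (h : ℝ)) atTop atTop :=
  Real.tendsto_log_atTop.comp tendsto_natCast_atTop_atTop

lemma sg_ratio : ∀ᶠ h : ℕ in atTop, SG h ≤ 2 * SS ⌊Real.log h⌋₊ h ∧ SS ⌊Real.log h⌋₊ h ≤ 2 * SG h := by
  have h1 := sgl'.2
  filter_upwards [h1.eventually (lt_mem_nhds (show (1 / 2 : ℝ) < 1 by norm_num)),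
    h1.eventually (gt_mem_nhds (show (1 : ℝ) < 2 by norm_num))] with h h2 h3
  have h4 := sgl'.1 h
  rw [lt_div_iff₀ h4] at h2
  rw [div_lt_iff₀ h4] at h3
  constructor <;> linarith

lemma sg_lower : ∀ᶠ h : ℕ in atTop, 1 / 4 ≤ SG h := by
  filter_upwards [sg_ratio] with h h1
  have := (nu'.2.1 ⌊Real.log h⌋₊ h).2.2.1
  linarith [h1.2]

lemma sg_small : Tendsto (fun h : ℕ => SG h / Real.log h ^ 3) atTop (𝓝 0) := by
  obtain ⟨K, hK⟩ : ∃ K : ℝ, K = Real.exp Real.eulerMascheroniConstant + 1 := ⟨_, rfl⟩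
  have hK0 : 0 < K := by rw [hK]; positivity
  have h1 : ∀ᶠ v : ℕ in atTop, MM v ≤ K * v := by
    have hm : Tendsto (fun N : ℕ => MM N / Real.log N) atTop (𝓝 (Real.exp Real.eulerMascheroniConstant)) :=
      mert
    filter_upwards [hm.eventually (gt_mem_nhds (show Real.exp Real.eulerMascheroniConstant < K by rw [hK]; linarith)),
      log_ev, eventually_ge_atTop 1] with v h2 h3 h4
    rw [div_lt_iff₀ h3] at h2
    have h5 : Real.log (v : ℝ) ≤ v := Real.log_le_self (Nat.cast_nonneg v)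
    have h6 := mul_le_mul_of_nonneg_left h5 hK0.le
    linarith
  have hfl : Tendsto (fun h : ℕ => ⌊Real.log (h : ℝ)⌋₊) atTop atTop := tendsto_nat_floor_atTop.comp log_tend
  have h2 : Tendsto (fun h : ℕ => 2 * K * ((Real.log (h : ℝ)) ^ 2)⁻¹) atTop (𝓝 (2 * K * 0)) :=
    (tendsto_inv_atTop_zero.comp ((tendsto_pow_atTop (by norm_num : (2 : ℕ) ≠ 0)).comp log_tend)).const_mul (2 * K)
  rw [mul_zero] at h2
  refine squeeze_zero' ?_ ?_ h2
  · filter_upwards [log_ev] with h hh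
    have := sgl'.1 h
    positivity
  · filter_upwards [hfl.eventually h1, sg_ratio, log_ev] with h h3 h4 h5
    have h6 := (nu'.2.1 ⌊Real.log h⌋₊ h).2.2.2
    have h7 := Nat.floor_le h5.le
    have h8 := mul_le_mul_of_nonneg_left h7 hK0.le
    rw [div_le_iff₀ (by positivity)]
    have h9 : 2 * K * (Real.log (h : ℝ) ^ 2)⁻¹ * Real.log (h : ℝ) ^ 3 = 2 * (K * Real.log (h : ℝ)) := by
      field_simp
    rw [h9]
    linarith [h4.1]

lemma to_SS {C : ℝ} {U : ℕ → ℕ}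
    (hU : Tendsto (fun h : ℕ => (U h : ℝ) * SG h / Real.log h ^ 3) atTop (𝓝 C)) :
    Tendsto (fun h : ℕ => (U h : ℝ) * SS ⌊Real.log h⌋₊ h / Real.log h ^ 3) atTop (𝓝 C) := by
  have h1 := hU.mul sgl'.2
  rw [mul_one] at h1
  refine h1.congr fun h => ?_
  have h2 := sgl'.1 h
  field_simp

lemma U_le {C : ℝ} {U : ℕ → ℕ}
    (hU : Tendsto (fun h : ℕ => (U h : ℝ) * SG h / Real.log h ^ 3) atTop (𝓝 C)) :
    ∀ᶠ h : ℕ in atTop, U h ≤ h := by
  have h0 : Tendsto (fun h : ℕ => Real.log (h : ℝ) ^ 3 / h) atTop (𝓝 0) := by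
    have := (Real.isLittleO_pow_log_id_atTop (n := 3)).tendsto_div_nhds_zero
    exact this.comp tendsto_natCast_atTop_atTop
  obtain ⟨D, hD⟩ : ∃ D : ℝ, D = |C| + 1 := ⟨_, rfl⟩
  have hD0 : 0 < D := by rw [hD]; positivity
  filter_upwards [hU.eventually (gt_mem_nhds (show C < D by rw [hD]; linarith [le_abs_self C])), sg_lower, log_ev,
    h0.eventually (gt_mem_nhds (show (0 : ℝ) < 1 / (4 * D) by positivity)), eventually_ge_atTop 1] with h h1 h2 h3 h4 h5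
  have h6 : (0 : ℝ) < h := by exact_mod_cast h5
  rw [div_lt_iff₀ (by positivity)] at h1
  rw [div_lt_div_iff₀ h6 (by positivity)] at h4
  have h7 : (U h : ℝ) * (1 / 4) ≤ U h * SG h := mul_le_mul_of_nonneg_left h2 (Nat.cast_nonneg _)
  have h8 : (U h : ℝ) ≤ h := by nlinarith
  exact_mod_cast h8

/-- critical windows -/
theorem critical : 0 < shg ∧ shg < ∞ ∧ slg ≤ shg ∧
    ∀ (Ω : Type) [MeasurableSpace Ω] (P : Measure Ω) (A : ℕ → Set Ω) (z : ℕ → ℕ), GMod P A z →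
    ∀ C : ℝ, 0 < C → ∀ U : ℕ → ℕ,
    Tendsto (fun h : ℕ => (U h : ℝ) * SG h / Real.log h ^ 3) atTop (𝓝 C) → ∀ᵐ ω ∂P,
      limsup (fun h : ℕ => ENNReal.ofReal (rp {n | ω ∈ A n} h (U h) / Real.log h)) atTop =
        ENNReal.ofReal (up (C * shg.toReal)) ∧
      liminf (fun h : ℕ => ENNReal.ofReal (rp {n | ω ∈ A n} h (U h) / Real.log h)) atTop =
        ENNReal.ofReal (dn (C * slg.toReal)) ∧
      (C * slg.toReal < 1 → ∃ᶠ h : ℕ in atTop, rp {n | ω ∈ A n} h (U h) = 0) ∧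
      (1 < C * slg.toReal → ∀ᶠ h : ℕ in atTop, 0 < rp {n | ω ∈ A n} h (U h)) := by
  obtain ⟨h0, h1, h2, h3⟩ := general gug' geg' Pool.Agent.H50.CW.rate hbg'
  refine ⟨h0, h1, h2, fun Ω _ P A z hA C hC U hU => ?_⟩
  filter_upwards [h3 Ω P A z hA C hC U (to_SS hU)] with ω hω
  have heq : ∀ᶠ h : ℕ in atTop, rp {n | ω ∈ A n} h (U h) = gt A ω h (U h) := by
    filter_upwards [U_le hU] with h hh
    exact rp_gt A ω hh
  have heq2 : (fun h : ℕ => ENNReal.ofReal (rp {n | ω ∈ A n} h (U h) / Real.log h)) =ᶠ[atTop]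
      (fun h : ℕ => ENNReal.ofReal (gt A ω h (U h) / Real.log h)) := by
    filter_upwards [heq] with h hh
    rw [hh]
  have hlim : liminf (fun h : ℕ => ENNReal.ofReal (rp {n | ω ∈ A n} h (U h) / Real.log h)) atTop =
        ENNReal.ofReal (dn (C * slg.toReal)) := (liminf_congr heq2).trans hω.2.1
  refine ⟨(limsup_congr heq2).trans hω.1, hlim, fun h4 => ?_, fun h4 => ev_pos h4 hlim⟩
  refine ((hω.2.2 h4).and_eventually heq).mono fun h hh => ?_
  rw [hh.2]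
  exact hh.1

/-- long windows -/
theorem long : ∀ (Ω : Type) [MeasurableSpace Ω] (P : Measure Ω) (A : ℕ → Set Ω) (z : ℕ → ℕ), GMod P A z →
    ∀ κ : ℝ, 0 < κ → ∀ᵐ ω ∂P, ∀ ε : ℝ, 0 < ε → ∀ᶠ h : ℕ in atTop, ∀ U : ℕ, (h : ℝ) ^ κ ≤ U → U < h →
      |(rp {n | ω ∈ A n} h U : ℝ) / (SG h * U / Real.log h ^ 2) - 1| ≤ ε := by
  intro Ω _ P A z hA κ hκ
  filter_upwards [cug' Ω P A z hA κ hκ] with ω hω ε hε
  obtain ⟨e, he⟩ : ∃ e : ℝ, e = min (ε / 3) 1 := ⟨_, rfl⟩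
  have he0 : 0 < e := by rw [he]; exact lt_min (by positivity) one_pos
  have he1 : e ≤ 1 := by rw [he]; exact min_le_right _ _
  have he2 : 3 * e ≤ ε := by
    have : e ≤ ε / 3 := by rw [he]; exact min_le_left _ _
    linarith
  filter_upwards [hω e he0, Metric.tendsto_nhds.1 sgl'.2 e he0, log_ev, eventually_ge_atTop 1] with h h1 h2 h3 h4 U hU1 hU2
  have h5 := h1 U hU1 hU2
  rw [Real.dist_eq] at h2
  have hs := sgl'.1 h
  have hS : 0 < SS ⌊Real.log h⌋₊ h := by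
    have := (nu'.2.1 ⌊Real.log h⌋₊ h).2.2.1
    linarith
  have hU0 : (0 : ℝ) < U := by
    refine lt_of_lt_of_le ?_ hU1
    have : (0 : ℝ) < h := by exact_mod_cast h4
    positivity
  rw [rp_gt A ω hU2.le]
  obtain ⟨g, hg⟩ : ∃ g : ℝ, g = (gt A ω h U : ℝ) := ⟨_, rfl⟩
  rw [← hg] at h5 ⊢
  obtain ⟨L, hL⟩ : ∃ L : ℝ, L = Real.log h := ⟨_, rfl⟩
  obtain ⟨s, hs'⟩ : ∃ s : ℝ, s = SG h := ⟨_, rfl⟩
  obtain ⟨S, hS'⟩ : ∃ S : ℝ, S = SS ⌊Real.log h⌋₊ h := ⟨_, rfl⟩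
  rw [← hS'] at h5 h2 hS
  rw [← hs'] at h2 hs ⊢
  rw [← hL] at h5 h3 ⊢
  have h6 : |g * L ^ 2 / (U * S) - 1| ≤ e := by
    have : g * L ^ 2 / (U * S) - 1 = (g * L ^ 2 - U * S) / (U * S) := by field_simp
    rw [this, abs_div, abs_of_pos (show 0 < (U : ℝ) * S by positivity), div_le_iff₀ (by positivity)]
    exact h5
  have h7 : g / (s * U / L ^ 2) - 1 = (g * L ^ 2 / (U * S) - 1) * (S / s) + (S / s - 1) := by
    field_simp
    ring
  rw [h7]
  have h8 : |S / s| ≤ 2 := by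
    have := abs_lt.1 h2
    rw [abs_le]
    constructor <;> linarith
  calc |(g * L ^ 2 / (U * S) - 1) * (S / s) + (S / s - 1)|
      ≤ |(g * L ^ 2 / (U * S) - 1) * (S / s)| + |S / s - 1| := abs_add_le _ _
    _ = |g * L ^ 2 / (U * S) - 1| * |S / s| + |S / s - 1| := by rw [abs_mul]
    _ ≤ e * 2 + e := by
        have := mul_le_mul h6 h8 (abs_nonneg _) he0.le
        linarith
    _ ≤ ε := by linarith

/-! ## The nearest representation -/

/-- the least `j ≥ 1` such that `h - j` and `h + j` are in `S` (`0` if there is none) -/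
noncomputable def ds (S : Set ℕ) (h : ℕ) : ℕ := sInf {j : ℕ | 1 ≤ j ∧ j ≤ h ∧ h - j ∈ S ∧ h + j ∈ S}

lemma rp_fin (S : Set ℕ) (h U : ℕ) :
    {q : ℕ × ℕ | q.1 ∈ S ∧ q.2 ∈ S ∧ q.1 < q.2 ∧ q.1 + q.2 = 2 * h ∧ q.2 ≤ q.1 + 2 * U}.Finite := by
  refine ((Set.finite_Iic (2 * h)).prod (Set.finite_Iic (2 * h))).subset ?_
  rintro ⟨a, b⟩ ⟨-, -, -, h4, -⟩
  simp only at h4
  exact ⟨by simp; omega, by simp; omega⟩

lemma ds_le {S : Set ℕ} {h U : ℕ} (hr : 0 < rp S h U) : ds S h ≤ U := by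
  obtain ⟨⟨a, b⟩, h1, h2, h3, h4, h5⟩ := (Set.ncard_pos (rp_fin S h U)).1 hr
  simp only at h1 h2 h3 h4 h5
  have h6 : b - h ∈ {j : ℕ | 1 ≤ j ∧ j ≤ h ∧ h - j ∈ S ∧ h + j ∈ S} := by
    refine ⟨by omega, by omega, ?_, ?_⟩
    · rwa [show h - (b - h) = a by omega]
    · rwa [show h + (b - h) = b by omega]
  have := Nat.sInf_le h6
  unfold ds
  omega

lemma lt_ds {S : Set ℕ} {h U U' : ℕ} (hr : 0 < rp S h U') (h0 : rp S h U = 0) : U < ds S h := by
  have hne : {j : ℕ | 1 ≤ j ∧ j ≤ h ∧ h - j ∈ S ∧ h + j ∈ S}.Nonempty := by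
    obtain ⟨⟨a, b⟩, h1, h2, h3, h4, h5⟩ := (Set.ncard_pos (rp_fin S h U')).1 hr
    simp only at h1 h2 h3 h4 h5
    refine ⟨b - h, by omega, by omega, ?_, ?_⟩
    · rwa [show h - (b - h) = a by omega]
    · rwa [show h + (b - h) = b by omega]
  obtain ⟨h1, h2, h3, h4⟩ := Nat.sInf_mem hne
  by_contra hcon
  push Not at hcon
  unfold ds at hcon
  obtain ⟨d, hd⟩ : ∃ d : ℕ, d = sInf {j : ℕ | 1 ≤ j ∧ j ≤ h ∧ h - j ∈ S ∧ h + j ∈ S} := ⟨_, rfl⟩
  rw [← hd] at h1 h2 h3 h4 hcon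
  have h5 : 0 < rp S h U := by
    refine (Set.ncard_pos (rp_fin S h U)).2 ⟨(h - d, h + d), h3, h4, ?_, ?_, ?_⟩
    · simp only; omega
    · simp only; omega
    · simp only; omega
  omega

lemma floor_win {C : ℝ} (hC : 0 < C) :
    Tendsto (fun h : ℕ => (⌊C * Real.log h ^ 3 / SG h⌋₊ : ℝ) * SG h / Real.log h ^ 3) atTop (𝓝 C) := by
  have h1 : Tendsto (fun h : ℕ => C - SG h / Real.log h ^ 3) atTop (𝓝 (C - 0)) := tendsto_const_nhds.sub sg_small
  rw [sub_zero] at h1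
  refine tendsto_of_tendsto_of_tendsto_of_le_of_le' h1 tendsto_const_nhds ?_ ?_
  · filter_upwards [log_ev] with h hh
    have hs := sgl'.1 h
    have h2 := Nat.lt_floor_add_one (C * Real.log h ^ 3 / SG h)
    rw [div_lt_iff₀ hs] at h2
    rw [le_div_iff₀ (by positivity), sub_mul, div_mul_cancel₀ _ (by positivity)]
    linarith
  · filter_upwards [log_ev] with h hh
    have hs := sgl'.1 h
    have h2 := Nat.floor_le (show 0 ≤ C * Real.log h ^ 3 / SG h by positivity)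
    rw [le_div_iff₀ hs] at h2
    rw [div_le_iff₀ (by positivity)]
    exact h2

/-- the nearest representation -/
theorem nearest : ∀ (Ω : Type) [MeasurableSpace Ω] (P : Measure Ω) (A : ℕ → Set Ω) (z : ℕ → ℕ), GMod P A z →
    ∀ᵐ ω ∂P, limsup (fun h : ℕ => ENNReal.ofReal (ds {n | ω ∈ A n} h * SG h / Real.log h ^ 3)) atTop = slg⁻¹ := by
  intro Ω _ P A z hA
  obtain ⟨h0, h1, h2, h3⟩ := critical
  have hslg : slg ≠ ∞ := (h2.trans_lt h1).ne
  have hq : ∀ᵐ ω ∂P, ∀ q : ℚ, 0 < q →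
      ((q : ℝ) * slg.toReal < 1 → ∃ᶠ h : ℕ in atTop, rp {n | ω ∈ A n} h ⌊(q : ℝ) * Real.log h ^ 3 / SG h⌋₊ = 0) ∧
      (1 < (q : ℝ) * slg.toReal → ∀ᶠ h : ℕ in atTop, 0 < rp {n | ω ∈ A n} h ⌊(q : ℝ) * Real.log h ^ 3 / SG h⌋₊) := by
    rw [ae_all_iff]
    intro q
    by_cases hq0 : 0 < q
    · have hq0' : (0 : ℝ) < q := by exact_mod_cast hq0
      filter_upwards [h3 Ω P A z hA q hq0' _ (floor_win hq0')] with ω hω _
      exact hω.2.2
    · exact Eventually.of_forall fun ω h => absurd h hq0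
  filter_upwards [hq, long Ω P A z hA (1 / 2) (by norm_num)] with ω hω hlong
  have hpos : ∀ᶠ h : ℕ in atTop, 0 < rp {n | ω ∈ A n} h (h - 1) := by
    filter_upwards [hlong (1 / 2) (by norm_num), eventually_ge_atTop 4, log_ev] with h h4 h5 h6
    have h7 : (h : ℝ) ^ (1 / 2 : ℝ) ≤ ((h - 1 : ℕ) : ℝ) := by
      have h8 : (4 : ℝ) ≤ h := by exact_mod_cast h5
      rw [← Real.sqrt_eq_rpow, Nat.cast_sub (by omega), Real.sqrt_le_left (by push_cast; linarith)]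
      push_cast
      nlinarith
    have h8 := h4 (h - 1) h7 (by omega)
    by_contra hcon
    have h9 : rp {n | ω ∈ A n} h (h - 1) = 0 := by omega
    rw [h9] at h8
    norm_num at h8
  refine le_antisymm (le_of_forall_gt_imp_ge_of_dense fun a ha => ?_) (le_of_forall_lt_imp_le_of_dense fun a ha => ?_)
  · obtain ⟨q, hq0, hq1, hq2⟩ := ENNReal.lt_iff_exists_rat_btwn.1 ha
    have hq3 : (0 : ℝ) < q := by
      by_contra hcon
      push Not at hcon
      rw [Real.toNNReal_of_nonpos hcon] at hq1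
      simp at hq1
    have hq3' : 0 < q := by exact_mod_cast hq3
    have hs0 : slg ≠ 0 := by
      intro hs
      rw [hs] at hq1
      simp at hq1
    have hq4 : 1 < (q : ℝ) * slg.toReal := by
      have h5 : (1 : ℝ≥0∞) < ENNReal.ofReal q * slg := by
        rw [← ENNReal.inv_mul_cancel hs0 hslg]
        exact ENNReal.mul_lt_mul_left hs0 hslg hq1
      have h6 : (1 : ℝ≥0∞) < ENNReal.ofReal (q * slg.toReal) := by
        rwa [ENNReal.ofReal_mul hq3.le, ENNReal.ofReal_toReal hslg]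
      rwa [ENNReal.one_lt_ofReal] at h6
    refine le_trans ?_ hq2.le
    refine limsup_le_of_le (by isBoundedDefault) ?_
    filter_upwards [(hω q hq3').2 hq4, log_ev] with h h5 h6
    have hs := sgl'.1 h
    have h7 := ds_le h5
    have h8 := Nat.floor_le (show 0 ≤ (q : ℝ) * Real.log h ^ 3 / SG h by positivity)
    have h9 : (ds {n | ω ∈ A n} h : ℝ) ≤ q * Real.log h ^ 3 / SG h := le_trans (by exact_mod_cast h7) h8
    rw [le_div_iff₀ hs] at h9
    refine ENNReal.ofReal_le_ofReal ?_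
    rw [div_le_iff₀ (by positivity)]
    exact h9
  · obtain ⟨q, hq0, hq1, hq2⟩ := ENNReal.lt_iff_exists_rat_btwn.1 ha
    have hq3 : (0 : ℝ) < q := by
      by_contra hcon
      push Not at hcon
      rw [Real.toNNReal_of_nonpos hcon] at hq1
      simp at hq1
    have hq3' : 0 < q := by exact_mod_cast hq3
    have hq4 : (q : ℝ) * slg.toReal < 1 := by
      rcases eq_or_ne slg 0 with hs0 | hs0
      · rw [hs0]
        simp
      have h5 : ENNReal.ofReal q * slg < 1 := by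
        rw [← ENNReal.inv_mul_cancel hs0 hslg]
        exact ENNReal.mul_lt_mul_left hs0 hslg hq2
      have h6 : ENNReal.ofReal (q * slg.toReal) < 1 := by
        rwa [ENNReal.ofReal_mul hq3.le, ENNReal.ofReal_toReal hslg]
      rwa [ENNReal.ofReal_lt_one] at h6
    refine hq1.le.trans ?_
    refine le_limsup_of_frequently_le ?_ (by isBoundedDefault)
    refine (((hω q hq3').1 hq4).and_eventually (hpos.and log_ev)).mono fun h hh => ?_
    obtain ⟨h5, h6, h7⟩ := hh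
    have hs := sgl'.1 h
    have h8 := lt_ds h6 h5
    have h9 := Nat.lt_floor_add_one ((q : ℝ) * Real.log h ^ 3 / SG h)
    have h10 : (⌊(q : ℝ) * Real.log h ^ 3 / SG h⌋₊ : ℝ) + 1 ≤ ds {n | ω ∈ A n} h := by exact_mod_cast h8
    have h11 : (q : ℝ) * Real.log h ^ 3 / SG h ≤ ds {n | ω ∈ A n} h := h9.le.trans h10
    rw [div_le_iff₀ hs] at h11
    refine ENNReal.ofReal_le_ofReal ?_
    rw [le_div_iff₀ (by positivity)]
    exact h11

end Pool.Agent.H13.GG
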