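import Pool.Agent.H50.GW.Stm

/-!
# Project GG: Goldbach's problem in Granville's model, critical windows

Granville's model `GMod P A z` as in project GW.  For an even number `N = 2 h` count the `j` with
`1 ≤ j ≤ U h` such that `h - j` and `h + j` are both chosen (`N` is then a sum of two different chosen
numbers).  `U h` is such that the expected number is about `C log h`: `U h * SS ⌊log h⌋ h / log³ h → C`,
where `SS v h = ∏_{p ≤ v} (1 - nu h p / p) (1 - 1/p)⁻²` is the partial singular series of `2 h`, `nu h p` the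
number of the classes `± h mod p`.  Goal: almost surely for `h → ∞` the number divided by `log h` has the upper
limit `up (C λ⁺)` and the lower limit `dn (C λ⁻)`, and all large `N` have such a representation iff `C λ⁻ > 1`
(`<`: infinitely many have none).  `λ⁺`, `λ⁻`: the extremes of the number of the `j ≤ U` which avoid the classes
`± t mod p`, `p ≤ w`, divided by `U ∏_{p ≤ w} (1 - nu t p / p)`, for `U = w³ / SS w t`, over all `t`, `w → ∞`.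
Everything is normalised by the product, so it is uniform in `h`, though `SS` is unbounded.

Every stub `S_X` comes with its proof.  To prove `S_X`: file `Pool/Agent/H13/GG/X.lean`,
`import Pool.Agent.H13.GG.Stm`, namespace `Pool.Agent.H13.GG`, theorem `x : (used stubs) → S_X` (lower case
name; the used stubs are hypotheses).  Helper lemmas in a private sub-namespace.  Most stubs are small variants of
GW stubs (files `Pool/Agent/H50/GW/*.lean`): adapt those.  Facts on `MM`: `Pool/Agent/H50/BF/MMB.lean`.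
No double quotes in the files.
-/

set_option autoImplicit false

open MeasureTheory Filter ProbabilityTheory
open scoped Topology ENNReal

namespace Pool.Agent.H13.GG

open Pool.Agent.H50.BF (MM S_MERT)
open Pool.Agent.H50.GW (Rou GMod NN S_BTU S_LDU S_LDL)

/-- `p` divides `h + j` or `h - j` -/
def Bd (h p j : ℕ) : Prop := p ∣ h + j ∨ j % p = h % p

open Classical in
/-- the number of the `j` with `a < j ≤ a + U` such that `h - j` and `h + j` have no prime factor `≤ v` -/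
noncomputable def sg (v h a U : ℕ) : ℕ :=
  ((Finset.range U).filter (fun j => ∀ p : ℕ, p.Prime → p ≤ v → ¬ Bd h p (a + j + 1))).card

open Classical in
/-- the number of the residues `r` modulo `p` such that `p` divides `h + r` or `h - r` -/
noncomputable def nu (h p : ℕ) : ℕ := ((Finset.range p).filter (fun r => Bd h p r)).card

/-- the expected proportion of survivors -/
noncomputable def PV (v h : ℕ) : ℝ := ∏ p ∈ (Finset.Icc 1 v).filter Nat.Prime, (1 - (nu h p : ℝ) / p)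

/-- the partial singular series -/
noncomputable def SS (v h : ℕ) : ℝ := PV v h * MM v ^ 2

/-- the normalised density -/
noncomputable def EE (v h U : ℕ) : ℝ := (sg v h 0 U : ℝ) / (U * PV v h)

/-! ## The sieve (deterministic) -/

/-- NU (about 120 lines).  For a prime `p`: `nu h p = 1` if `p ∣ 2 h` (for `p = 2` both conditions of `Bd` say
`r ≡ h`; for odd `p ∣ h` both say `r ≡ 0`), otherwise `nu h p = 2` (the residues of `h` and `-h`).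
The factor of `SS` is `(1 - 1/p)⁻¹` in the first case and `1 - 1/(p-1)²` (`p ≥ 3`) in the second.
`∏ (1 - 1/(p-1)²) ≥ ∏_{m ≥ 2} (1 - 1/m²) ≥ 1/2` (telescoping), and
`∏_{v < p ≤ v'} (1 - 1/(p-1)²) ≥ 1 - ∑_{m ≥ v} 1/m² ≥ 1 - 2/v`. -/
def S_NU : Prop :=
  (∀ h p : ℕ, p.Prime → 1 ≤ nu h p ∧ nu h p ≤ 2 ∧ (p ∣ 2 * h → nu h p = 1)) ∧
  (∀ v h : ℕ, 0 < PV v h ∧ PV v h ≤ 1 ∧ 1 / 2 ≤ SS v h ∧ SS v h ≤ MM v) ∧
  ∀ v v' h : ℕ, v ≤ v' → PV v' h ≤ PV v h ∧ SS v' h ≤ SS v h * (MM v' / MM v) ∧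
    (1 ≤ v → SS v h * (1 - 2 / v) ≤ SS v' h)

/-- SST (about 80 lines; uses NU, BF.S_MERT).  `MM v' / MM v ≤ MM ⌊w^(1+η)⌋ / MM ⌈w^(1-η)⌉ → (1+η)/(1-η)`, so it
is `≤ 1 + 5 η` for large `w`; then the third part of NU; `PV = SS / MM²`. -/
def S_SST : Prop := ∃ C : ℝ, 0 < C ∧ ∀ η : ℝ, 0 < η → η ≤ 1 / 2 → ∀ᶠ w : ℕ in atTop, ∀ v v' h : ℕ,
  (w : ℝ) ^ (1 - η) ≤ v → v ≤ v' → (v' : ℝ) ≤ (w : ℝ) ^ (1 + η) →
    |SS v' h - SS v h| ≤ C * η * SS v h ∧ |SS v' h - SS v h| ≤ C * η * SS v' h ∧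
    MM v' ≤ (1 + C * η) * MM v ∧ PV v h ≤ (1 + C * η) * PV v' h

/-- BTG (about 60 lines; uses GW.S_BTU for `k = 2`, NU).  `Q p j := Bd h p (a + j + 1)` is periodic, and the number
of the `j < p` with `Q p j` is `nu h p` (translation of the residues).  Compare `Pool/Agent/H50/GW/BTK.lean`. -/
def S_BTG : Prop := ∃ (C : ℝ) (s0 : ℕ), 0 < C ∧ 1 ≤ s0 ∧ ∀ v h a U : ℕ, ((v : ℝ) + 1) ^ s0 ≤ U →
  (sg v h a U : ℝ) ≤ C * (U * PV v h)

open Classical in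
/-- APG (about 100 lines; uses GW.S_BTU for `k = 2`, NU).  Survivors in a residue class modulo a prime `p > v`.
Compare `Pool/Agent/H50/GW/APK.lean`. -/
def S_APG : Prop := ∃ (C : ℝ) (s0 : ℕ), 0 < C ∧ 1 ≤ s0 ∧
  ∀ v h U p r : ℕ, p.Prime → v < p → ((v : ℝ) + 1) ^ s0 ≤ (U / p : ℕ) →
  (((Finset.range U).filter (fun j => (∀ q : ℕ, q.Prime → q ≤ v → ¬ Bd h q (j + 1)) ∧
    (j + 1) % p = r)).card : ℝ) ≤ C * (((U / p : ℕ) + 1) * PV v h)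

/-- TRG (about 250 lines; uses APG, BTG, NU, SST, BF.S_MERT).  Compare `Pool/Agent/H50/GW/TRK.lean`.
With `y = ⌊w^κ⌋`, `κ` small: the primes `v < p ≤ v'` remove at most
`∑_p 2 C (U / p + 1) PV y h` of the survivors of level `y` (at most two classes modulo each `p`), and
`PV y h ≤ C' PV v' h` (`PV = SS / MM²`, `SS y h (1 - 2/y) ≤ SS v' h`, `MM v' / MM y` is bounded by MERT), so
`(sg v - sg v') / (U PV v h) ≤ C'' (∑ 1/p + w^(3/2) / U) ≤ C''' η`.  Also `EE v' h U ≤ C''` by BTG for the level `y`, and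
`1 - PV v' h / PV v h ≤ C η` by SST. -/
def S_TRG : Prop := ∃ C : ℝ, 0 < C ∧ ∀ η : ℝ, 0 < η → η ≤ 1 / 2 →
  ∀ᶠ w : ℕ in atTop, ∀ v v' h U : ℕ, (w : ℝ) ^ (1 - η) ≤ v → v ≤ v' → (v' : ℝ) ≤ (w : ℝ) ^ (1 + η) →
    (w : ℝ) ^ 2 ≤ U → |EE v h U - EE v' h U| ≤ C * η

/-- SBG (about 150 lines; uses BTG, NU, BF.S_MERT).  Compare `Pool/Agent/H50/GW/SBK.lean`
(`sg v h 0 U' - sg v h 0 U = sg v h U (U' - U) ≤ sg y h U ⌈δ U⌉`; `PV y h ≤ C' PV v h` as in TRG). -/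
def S_SBG : Prop := ∃ C : ℝ, 0 < C ∧ ∀ δ : ℝ, 0 < δ → δ ≤ 1 →
  ∀ᶠ w : ℕ in atTop, ∀ v h U U' : ℕ, Real.sqrt w ≤ v → (v : ℝ) ≤ (w : ℝ) ^ 2 → (w : ℝ) ^ 2 ≤ U →
    U ≤ U' → (U' : ℝ) ≤ (1 + δ) * U →
    ((sg v h 0 U' : ℝ) - sg v h 0 U) / (U * PV v h) ≤ C * δ ∧ EE v h U ≤ C

/-- the length of the interval for the class `t` -/
noncomputable def UW (w t : ℕ) : ℕ := ⌈(w : ℝ) ^ 3 / SS w t⌉₊

/-- the sparsest interval for the sieve of level `w` -/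
noncomputable def lo3 (w : ℕ) : ℝ := ⨅ t : ℕ, EE w t (UW w t)

/-- the densest interval for the sieve of level `w` -/
noncomputable def hi3 (w : ℕ) : ℝ := ⨆ t : ℕ, EE w t (UW w t)

/-- HBG (about 120 lines; uses SBG, NU, BF.S_MERT).  Upper bound: `UW w t ≥ w^3 / MM w ≥ w^2` for large `w`, SBG,
`ciSup_le`.  Lower bound: `t = 0`: `Bd 0 p j` iff `p ∣ j`, `PV w 0 = (MM w)⁻¹`, and `sg w 0 0 U` is at least the number of
the primes in `(w, U]`, `U = UW w 0`, which is `≥ (θ(U) - θ(w)) / log U ≥ U / (4 log w)` for large `w`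
(`Chebyshev.theta_ge`, `Chebyshev.theta_le_log4_mul_x`), so `EE w 0 U ≥ MM w / (4 log w) ≥ c₀`. -/
def S_HBG : Prop := ∃ c0 B : ℝ, 0 < c0 ∧ ∀ᶠ w : ℕ in atTop, c0 ≤ hi3 w ∧ hi3 w ≤ B

/-- EXDG (about 170 lines; uses TRG, SBG, NU, SST, BF.S_MERT).
Proof: `w = ⌊(U * SS v h)^(1/3)⌋₊`, so `w³ ≤ U SS v h ≤ (w+1)³` and `L / (2 C) ≤ w ≤ C L` for large `L`.  With `η'`
small in terms of `ε`, `η = η'/2`: `w^(1-η') ≤ v ≤ w^(1+η')`, so SST (for `v` and `w`, in the right order) gives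
`SS w h = (1 + O(η')) SS v h` and `U₁ = UW w h = (1 + O(η')) U`.  TRG (between `v` and `w`), SBG (between `U` and `U₁`, in the
right order), `lo3 w ≤ EE w h U₁ ≤ hi3 w` (`ciInf_le`, `le_ciSup`; bounded: `0 ≤ EE w t _ ≤ 1 / PV w t ≤ 2 MM w ^ 2`).
`w^2 ≤ U` since `U ≥ L³ / (C MM v)` (`SS v h ≤ MM v`, small by MERT).  Compare `Pool/Agent/H50/GW/EXDK.lean`. -/
def S_EXDG : Prop := ∀ C ε : ℝ, 1 ≤ C → 0 < ε → ∃ η : ℝ, 0 < η ∧ η ≤ 1 / 2 ∧ ∀ᶠ L : ℝ in atTop,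
  ∀ h U v : ℕ, L ^ 3 / C ≤ U * SS v h → U * SS v h ≤ C * L ^ 3 → L ^ (1 - η) ≤ v → (v : ℝ) ≤ L ^ (1 + η) →
    ∃ w : ℕ, L ≤ 2 * C * w ∧ lo3 w - ε ≤ EE v h U ∧ EE v h U ≤ hi3 w + ε

/-- EXWG (about 150 lines; uses TRG, SBG, NU, SST, BF.S_MERT).
Proof: `t` with `|EE w t (UW w t) - hi3 w| ≤ ε/4` (`exists_lt_of_lt_ciSup`), the rest as in EXDG.
Compare `Pool/Agent/H50/GW/EXWK.lean`. -/
def S_EXWG : Prop := ∀ C ε : ℝ, 1 ≤ C → 0 < ε → ∃ η : ℝ, 0 < η ∧ η ≤ 1 / 2 ∧ ∀ᶠ L : ℝ in atTop,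
  ∀ w : ℕ, L ≤ C * w → (w : ℝ) ≤ C * L →
    (∃ t : ℕ, ∀ U v : ℕ, |U * SS v t - (w : ℝ) ^ 3| ≤ η * (w : ℝ) ^ 3 → L ^ (1 - η) ≤ v → (v : ℝ) ≤ L ^ (1 + η) →
      |EE v t U - hi3 w| ≤ ε) ∧
    (∃ t : ℕ, ∀ U v : ℕ, |U * SS v t - (w : ℝ) ^ 3| ≤ η * (w : ℝ) ^ 3 → L ^ (1 - η) ≤ v → (v : ℝ) ≤ L ^ (1 + η) →
      |EE v t U - lo3 w| ≤ ε)

/-- POSG (about 70 lines).  `pos i = n₀ + i primorial v (2 R + 2)` with `X ≤ n₀ ≤ X + primorial v`,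
`n₀ ≡ t (mod primorial v)`; `Bd h p j` depends on `h` only modulo `p` (compare `Pool/Agent/H50/GW/POSK.lean`). -/
def S_POSG : Prop := ∀ v t X M R : ℕ, 4 * primorial v ≤ X → 4 * (M * (primorial v * (2 * R + 2))) ≤ X →
  ∃ pos : ℕ → ℕ, (∀ i j, i < j → pos i + (2 * R + 1) ≤ pos j) ∧ (∀ i < M, X ≤ pos i ∧ pos i ≤ 2 * X) ∧
    ∀ i, PV v (pos i) = PV v t ∧ ∀ a U, sg v (pos i) a U = sg v t a U

/-! ## Granville's model -/

/-- `h - j - 1` and `h + j + 1` are chosen -/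
def PH {Ω : Type} (A : ℕ → Set Ω) (h j : ℕ) : Set Ω := A (h - (j + 1)) ∩ A (h + (j + 1))

open Classical in
/-- the number of the `j` with `1 ≤ j ≤ U` such that `h - j` and `h + j` are chosen -/
noncomputable def gt {Ω : Type} (A : ℕ → Set Ω) (ω : Ω) (h U : ℕ) : ℕ :=
  ((Finset.range U).filter (fun j => ω ∈ PH A h j)).card

/-- IPG (about 80 lines).  For fixed `h` the pairs are disjoint.  `iIndepSet_iff_meas_biInter` (or
`iIndepSet.meas_biInter` for the union of the pairs). -/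
def S_IPG : Prop := ∀ (Ω : Type) [MeasurableSpace Ω] (P : Measure Ω) (A : ℕ → Set Ω) (z : ℕ → ℕ), GMod P A z →
  ∀ h U : ℕ, U < h → iIndepSet (fun j : (Finset.range U : Finset ℕ) => PH A h j) P ∧
    ∀ j < U, P (PH A h j) = P (A (h - (j + 1))) * P (A (h + (j + 1)))

/-- WNG (about 120 lines).  Independence of the numbers in disjoint windows `[pos i - U i, pos i + U i]`
(the `A n` are independent).  Compare `Pool/Agent/H50/GW/WND.lean`. -/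
def S_WNG : Prop := ∀ (Ω : Type) [MeasurableSpace Ω] (P : Measure Ω) (A : ℕ → Set Ω) (z : ℕ → ℕ), GMod P A z →
  ∀ (M : ℕ) (U pos : ℕ → ℕ) (B : ℕ → Set ℕ), (∀ i < M, U i < pos i) →
    (∀ i j, i < j → j < M → pos i + U i + U j < pos j) →
    P {ω | ∀ i < M, gt A ω (pos i) (U i) ∈ B i} = ∏ i ∈ Finset.range M, P {ω | gt A ω (pos i) (U i) ∈ B i}

/-- EPG (about 250 lines; uses IPG, TRG, SBG, NU, SST, BF.S_MERT).  The expected number.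
Adapt `Pool/Agent/H50/GW/EXPW.lean`.  For `j + 1 ≤ h / 2` both `N = h ± (j + 1)` are in `[h/2, 2h]`; if both are
`Rou (z N)`, `P (PH A h j) (log h / MM (z h))²` is within `δ` of `1`, otherwise `PH A h j` is empty.
`Rou v (h - (j+1)) ∧ Rou v (h + (j+1))` iff `∀ p ≤ v, ¬ Bd h p (j + 1)`.  So the sum times
`(log h / MM (z h))²` lies between `(1 - δ) sg (z (2 h)) h 0 U` and `(1 + δ) sg (z ⌊h/2⌋) h 0 U` (use `z (h / 2)`, natural
division); `sg v h 0 U = EE v h U * U * SS v h / MM v ^ 2`.  `z (h/2)`, `z (2h)` and `v` are in `[w^(1-η'), w^(1+η')]`,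
`w = ⌊log h⌋₊`; `SS`, `MM` by SST, `EE` by TRG; `w^2 ≤ U` as in EXDG; `U ≤ h / 2` for large `h`. -/
def S_EPG : Prop := ∀ (Ω : Type) [MeasurableSpace Ω] (P : Measure Ω) (A : ℕ → Set Ω) (z : ℕ → ℕ), GMod P A z →
  ∀ C ε : ℝ, 1 ≤ C → 0 < ε → ∃ η : ℝ, 0 < η ∧ η ≤ 1 / 2 ∧ ∀ᶠ h : ℕ in atTop,
    (∀ U v : ℕ, Real.log h ^ 3 / C ≤ U * SS v h → U * SS v h ≤ C * Real.log h ^ 3 →
      Real.log h ^ (1 - η) ≤ v → (v : ℝ) ≤ Real.log h ^ (1 + η) →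
      |(∑ j ∈ Finset.range U, (P (PH A h j)).toReal) / Real.log h -
        (U * SS v h / Real.log h ^ 3) * EE v h U| ≤ ε) ∧
    ∀ j : ℕ, 2 * (j + 1) ≤ h → (P (PH A h j)).toReal ≤ ε

/-- GUG (about 200 lines; uses IPG, EPG, EXDG, NU, GW.S_LDU).  Adapt `Pool/Agent/H50/GW/GUP.lean`
(`v = ⌊log h⌋₊`; Borel-Cantelli over all `h`). -/
def S_GUG : Prop := ∀ (Ω : Type) [MeasurableSpace Ω] (P : Measure Ω) (A : ℕ → Set Ω) (z : ℕ → ℕ), GMod P A z →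
  ∀ C t u σ : ℝ, 0 < C → -1 < t → 0 ≤ σ → 1 < u * Real.log (1 + t) - t * (C * σ) →
  ∀ U : ℕ → ℕ, Tendsto (fun h : ℕ => (U h : ℝ) * SS ⌊Real.log h⌋₊ h / Real.log h ^ 3) atTop (𝓝 C) →
  (0 < t → (∀ ε : ℝ, 0 < ε → ∀ᶠ w : ℕ in atTop, hi3 w ≤ σ + ε) →
    ∀ᵐ ω ∂P, ∀ᶠ h : ℕ in atTop, (gt A ω h (U h) : ℝ) < u * Real.log h) ∧
  (t < 0 → (∀ ε : ℝ, 0 < ε → ∀ᶠ w : ℕ in atTop, σ - ε ≤ lo3 w) →
    ∀ᵐ ω ∂P, ∀ᶠ h : ℕ in atTop, u * Real.log h < (gt A ω h (U h) : ℝ))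

/-- GEG (helper13; uses WNG, IPG, EPG, EXWG, POSG, NU, SST, GW.S_LDL). -/
def S_GEG : Prop := ∀ (Ω : Type) [MeasurableSpace Ω] (P : Measure Ω) (A : ℕ → Set Ω) (z : ℕ → ℕ), GMod P A z →
  ∀ C σ : ℝ, 0 < C → 0 ≤ σ →
  ∀ U : ℕ → ℕ, Tendsto (fun h : ℕ => (U h : ℝ) * SS ⌊Real.log h⌋₊ h / Real.log h ^ 3) atTop (𝓝 C) →
  ((∀ ε : ℝ, 0 < ε → ∃ᶠ w : ℕ in atTop, |hi3 w - σ| ≤ ε) ∨
    (∀ ε : ℝ, 0 < ε → ∃ᶠ w : ℕ in atTop, |lo3 w - σ| ≤ ε)) →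
  (∀ t δ : ℝ, -1 < t → 0 < δ → C * σ * ((1 + t) * Real.log (1 + t) - t) < 1 →
    ∀ᵐ ω ∂P, ∃ᶠ h : ℕ in atTop, |(gt A ω h (U h) : ℝ) / Real.log h - (1 + t) * (C * σ)| ≤ δ) ∧
  (C * σ < 1 → ∀ᵐ ω ∂P, ∃ᶠ h : ℕ in atTop, gt A ω h (U h) = 0)

end Pool.Agent.H13.GG
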