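import Pool.Agent.H13.GG.Stm

/-!
# Project GG, three more stubs: Goldbach's problem with long windows

In Granville's model, almost surely for all large `h` and all `U` with `h^κ ≤ U < h` the number of the
`j ≤ U` such that `h - j` and `h + j` are chosen is `(1 + o(1)) U SS ⌊log h⌋ h / (log h)²`.
Adapt `Pool/Agent/H50/GW/CUB.lean` (helper67).  Rules as in `Pool/Agent/H13/GG/Stm.lean`:
file `Pool/Agent/H13/GG/X.lean`, `import Pool.Agent.H13.GG.StmB`, namespace `Pool.Agent.H13.GG`,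
theorem `x : (used stubs) → S_X`, helper lemmas in a private sub-namespace, no double quotes.
-/

set_option autoImplicit false

open MeasureTheory Filter ProbabilityTheory
open scoped Topology ENNReal

namespace Pool.Agent.H13.GG

open Pool.Agent.H50.BF (MM S_MERT)
open Pool.Agent.H50.GW (Rou GMod NN S_BTU S_LDU S_LDL S_FND)

/-- CUS (about 100 lines; uses GW.S_FND, NU, BF.S_MERT).  The fundamental lemma for `c = 2`, `ε / 2`,
`Q p j := Bd h p j` (periodic in `j`; `sg v h 0 U` counts the `j` in `Icc 1 U`), the level `y = v`,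
`x = v^K`: `√x ≤ (log h)^K ≤ (ε / 2) U PV v h` for large `h`, since `PV v h = SS v h / MM v ^ 2 ≥ 1 / (2 MM v ^ 2)`,
`MM v ≤ log h` (MERT). -/
def S_CUS : Prop := ∀ κ ε : ℝ, 0 < κ → 0 < ε → ∀ᶠ h : ℕ in atTop, ∀ v U : ℕ,
  Real.log h ^ (1 / 2 : ℝ) ≤ v → (v : ℝ) ≤ Real.log h ^ 2 → (h : ℝ) ^ κ ≤ U →
    |(sg v h 0 U : ℝ) - U * PV v h| ≤ ε * (U * PV v h)

/-- CUE (about 250 lines; uses CUS, IPG, NU, BF.S_MERT).  The expected number in long windows.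
For `j < U` both `N = h ± (j + 1)` are in `[h / (log h)³, 2 h]`, so `log N / log h → 1`,
`log (z N) / log log h → 1` and `MM (z N) / MM (z h) → 1` uniformly (`lev`, MERT; `z` is monotone: take
`z₁ = z ⌊h / (log h)³⌋₊`, `z₂ = z (2 h)`).  If both are `Rou (z N)`, `P (PH A h j) (log h / MM (z h))²` is within `δ`
of `1` (`dens`), otherwise `PH A h j` is empty.  `Rou v (h - (j+1)) ∧ Rou v (h + (j+1))` iff
`∀ p ≤ v, ¬ Bd h p (j + 1)`.  So the sum times `(log h / MM (z h))²` lies between `(1 - δ) sg z₂ h 0 U` and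
`(1 + δ) sg z₁ h 0 U`, and by CUS these are `(1 ± 2 δ) U PV z_i h`, `PV z_i h = SS z_i h / MM z_i ^ 2`.  By the third part of NU
`SS z_i h / SS ⌊log h⌋₊ h → 1` uniformly (`MM z_i / MM ⌊log h⌋₊ → 1`). -/
def S_CUE : Prop := ∀ (Ω : Type) [MeasurableSpace Ω] (P : Measure Ω) (A : ℕ → Set Ω) (z : ℕ → ℕ), GMod P A z →
  ∀ κ ε : ℝ, 0 < κ → 0 < ε → ∀ᶠ h : ℕ in atTop, ∀ U : ℕ, (h : ℝ) ^ κ ≤ U → (U : ℝ) + h / Real.log h ^ 3 ≤ h →
    |(∑ j ∈ Finset.range U, (P (PH A h j)).toReal) * Real.log h ^ 2 - U * SS ⌊Real.log h⌋₊ h| ≤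
      ε * (U * SS ⌊Real.log h⌋₊ h)

/-- CUG (about 250 lines; uses CUE, IPG, NU, GW.S_LDU).  For `U + h / (log h)³ ≤ h` the expected number `E` is
`(1 ± ε') U SS / (log h)² ≥ h^(κ/2)`; LDU with small `t = ± ε'`: `P (|gt - E| > ε'' E) ≤ 2 exp (-c(ε'') h^(κ/2))`; at most `h`
values of `U`; Borel-Cantelli; intersection over `ε = 1/(m+1)`.  For the other `U < h`: with
`U₀ = ⌊h - h / (log h)³⌋₊` one has `gt h U₀ ≤ gt h U ≤ gt h U₀ + (U - U₀)` and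
`U - U₀ ≤ h / (log h)³ + 1`, which is small compared with `U SS / (log h)²` (`SS ≥ 1/2`).
(`κ > 1` is trivial; for `κ ≤ 1` note `h^κ ≤ U₀` for large `h` only if `κ < 1`: replace `κ` by `min κ (1/2)`.) -/
def S_CUG : Prop := ∀ (Ω : Type) [MeasurableSpace Ω] (P : Measure Ω) (A : ℕ → Set Ω) (z : ℕ → ℕ), GMod P A z →
  ∀ κ : ℝ, 0 < κ → ∀ᵐ ω ∂P, ∀ ε : ℝ, 0 < ε → ∀ᶠ h : ℕ in atTop,
  ∀ U : ℕ, (h : ℝ) ^ κ ≤ U → U < h →
    |(gt A ω h U : ℝ) * Real.log h ^ 2 - U * SS ⌊Real.log h⌋₊ h| ≤ ε * (U * SS ⌊Real.log h⌋₊ h)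

end Pool.Agent.H13.GG
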