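import Pool.Agent.H13.GG.Stm

/-!
# Project GG, one more stub: the classical singular series

Rules as in `Pool/Agent/H13/GG/Stm.lean`: file `Pool/Agent/H13/GG/SGL.lean`, `import Pool.Agent.H13.GG.StmC`,
namespace `Pool.Agent.H13.GG`, theorem `sgl : S_NU → S_SGL`, no double quotes.
-/

set_option autoImplicit false

open Filter
open scoped Topology ENNReal

namespace Pool.Agent.H13.GG

open Pool.Agent.H50.BF (MM S_MERT)

/-- `∏_{3 ≤ p ≤ v} (1 - 1/(p-1)²)` -/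
noncomputable def TC (v : ℕ) : ℝ := ∏ p ∈ (Finset.Icc 3 v).filter Nat.Prime, (1 - 1 / ((p : ℝ) - 1) ^ 2)

/-- the singular series of `2 h`: `2 C₂ ∏_{p ∣ h, p > 2} (p-1)/(p-2)`, `C₂` the twin prime constant -/
noncomputable def SG (h : ℕ) : ℝ :=
  2 * (⨅ v : ℕ, TC v) * ∏ p ∈ h.primeFactors.filter (2 < ·), ((p : ℝ) - 1) / (p - 2)

/-- SGL (about 130 lines; uses NU).  `(1 - 2/p) (1 - 1/p)⁻² = 1 - 1/(p-1)²`, and
`(1 - 1/p)⁻¹ = (1 - 1/(p-1)²) (p-1)/(p-2)` (`p ≥ 3`), so (`nu h p = 1` if `p ∣ 2 h`, otherwise `2`: NU gives `nu = 1` for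
`p ∣ 2 h`; for `p ∤ 2 h` the classes of `h` and `-h` are different, see `Pool/Agent/H13/GG/NU.lean`)
`SS v h = 2 TC v ∏_{p ∣ h, 2 < p ≤ v} (p-1)/(p-2)` for `v ≥ 2`.  `TC` decreases to the infimum `C₂`, and
`C₂ ≥ 1/4` (NU for `h = 1`: `1/2 ≤ SS v 1 = 2 TC v`).  For `v = ⌊log h⌋` the number of the prime divisors
`p > v` of `h` is at most `log h / log v`, so `1 ≤ ∏_{p ∣ h, p > v} (p-1)/(p-2) ≤ exp (∑ 1/(p-2)) ≤
exp (log h / ((v - 1) log v)) → 1`. -/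
def S_SGL : Prop := (∀ h : ℕ, 0 < SG h) ∧ Tendsto (fun h : ℕ => SS ⌊Real.log h⌋₊ h / SG h) atTop (𝓝 1)

end Pool.Agent.H13.GG
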